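import Pool.Agent.MP_97bb71_gt.Enum

/-! States, circles and the bracket at `a = 2`. -/

namespace Pool.Agent.MP_97bb71_gt
open Finset

/-- how the four ends of a crossing are joined -/
inductive Md
  | U
  | V
  | S
  | C
  deriving DecidableEq

noncomputable section
open Classical

variable {α β X P : Type}

def mp : Md → List (Fin 4 × Fin 4)
  | .U => [(0, 1), (2, 3)]
  | .V => [(1, 2), (3, 0)]
  | .S => [(0, 2), (1, 3)]
  | .C => [(0, 1), (1, 2), (2, 3)]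

def cp (v : Fin 4 → β) : Md → Prop
  | .U => v 0 = v 1 ∧ v 2 = v 3
  | .V => v 1 = v 2 ∧ v 3 = v 0
  | .S => v 0 = v 2 ∧ v 1 = v 3
  | .C => v 0 = v 1 ∧ v 1 = v 2 ∧ v 2 = v 3

theorem cp_iff (v : Fin 4 → β) (m : Md) : cp v m ↔ ∀ q ∈ mp m, v q.1 = v q.2 := by
  cases m <;> simp [cp, mp]

def rel (x : X → Fin 4 → α) (p : P → Fin 2 → α) (μ : X → Md) (a b : α) : Prop :=
  (∃ y, ∃ q ∈ mp (μ y), a = x y q.1 ∧ b = x y q.2) ∨ ∃ j, a = p j 0 ∧ b = p j 1

def Cp (x : X → Fin 4 → α) (p : P → Fin 2 → α) (μ : X → Md) (g : α → β) : Prop :=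
  (∀ y, cp (fun j => g (x y j)) (μ y)) ∧ ∀ j, g (p j 0) = g (p j 1)

theorem Cp_iff {x : X → Fin 4 → α} {p : P → Fin 2 → α} {μ : X → Md} {g : α → β} :
    Cp x p μ g ↔ ∀ a b, rel x p μ a b → g a = g b := by
  constructor
  · rintro ⟨h1, h2⟩ a b (⟨y, q, hq, rfl, rfl⟩ | ⟨j, rfl, rfl⟩)
    · exact (cp_iff _ _).mp (h1 y) q hq
    · exact h2 j
  · intro h
    exact ⟨fun y => (cp_iff _ _).mpr fun q hq => h _ _ (Or.inl ⟨y, q, hq, rfl, rfl⟩),
      fun j => h _ _ (Or.inr ⟨j, rfl, rfl⟩)⟩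

theorem Cp_mk (x : X → Fin 4 → α) (p : P → Fin 2 → α) (μ : X → Md) :
    Cp x p μ (Quot.mk (rel x p μ)) := Cp_iff.mpr fun _ _ h => Quot.sound h

theorem Cp.eq {x : X → Fin 4 → α} {p : P → Fin 2 → α} {μ : X → Md} {g : α → β}
    (h : Cp x p μ g) {a b : α} (hab : Quot.mk (rel x p μ) a = Quot.mk (rel x p μ) b) :
    g a = g b := lift_eq (Cp_iff.mp h) hab

theorem Cp.comp {γ : Type} {x : X → Fin 4 → α} {p : P → Fin 2 → α} {μ : X → Md} {g : α → β}
    (h : Cp x p μ g) (f : β → γ) : Cp x p μ (fun a => f (g a)) :=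
  Cp_iff.mpr fun a b hab => congrArg f (Cp_iff.mp h a b hab)

theorem Cp.comp₂ {γ δ : Type} {x : X → Fin 4 → α} {p : P → Fin 2 → α} {μ : X → Md} {g : α → β}
    {g' : α → γ} (h : Cp x p μ g) (h' : Cp x p μ g') (f : β → γ → δ) :
    Cp x p μ (fun a => f (g a) (g' a)) :=
  Cp_iff.mpr fun a b hab => by rw [Cp_iff.mp h a b hab, Cp_iff.mp h' a b hab]

/-- number of circles -/
def N (x : X → Fin 4 → α) (p : P → Fin 2 → α) (U : Finset α) (μ : X → Md) : ℕ :=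
  ncl (rel x p μ) U

theorem N_anti {X' P' : Type} {x : X → Fin 4 → α} {p : P → Fin 2 → α} {μ : X → Md}
    {x' : X' → Fin 4 → α} {p' : P' → Fin 2 → α} {μ' : X' → Md} (U : Finset α)
    (h : Cp x p μ (Quot.mk (rel x' p' μ'))) : N x' p' U μ' ≤ N x p U μ :=
  ncl_anti U (Cp_iff.mp h)

theorem N_congr {X' P' : Type} {x : X → Fin 4 → α} {p : P → Fin 2 → α} {μ : X → Md}
    {x' : X' → Fin 4 → α} {p' : P' → Fin 2 → α} {μ' : X' → Md} (U : Finset α)
    (h : ∀ (β : Type) (g : α → β), Cp x p μ g ↔ Cp x' p' μ' g) : N x p U μ = N x' p' U μ' :=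
  le_antisymm (N_anti U ((h _ _).mp (Cp_mk _ _ _))) (N_anti U ((h _ _).mpr (Cp_mk _ _ _)))

def md (e : ℤ) (s : Bool) : Md := if e = 1 ∨ e = -1 then (if s then .V else .U) else .S

def wt (e : ℤ) (s : Bool) : ℚ :=
  if e = 1 then (if s then 1 / 2 else 2) else if e = -1 then (if s then 2 else 1 / 2)
  else (if s then 1 else 0)

def dl : ℚ := -17 / 4

/-- the bracket -/
def Br [Fintype X] (x : X → Fin 4 → α) (p : P → Fin 2 → α) (U : Finset α) (e : X → ℤ) : ℚ :=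
  ∑ s : X → Bool, (∏ y, wt (e y) (s y)) * dl ^ N x p U fun y => md (e y) (s y)

theorem Br_def [Fintype X] [Fintype (X → Bool)] (x : X → Fin 4 → α) (p : P → Fin 2 → α)
    (U : Finset α) (e : X → ℤ) : Br x p U e =
    ∑ s : X → Bool, (∏ y, wt (e y) (s y)) * dl ^ N x p U fun y => md (e y) (s y) := by
  unfold Br; congr; exact Subsingleton.elim _ _

def sg (b : Bool) : ℤ := if b then 1 else -1

def ind (b : Bool) : ℤ := if b then 1 else 0

def cd (e : ℤ) : ℕ := if e = 1 then 1 else if e = -1 then 2 else 0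

def cod (B : ℕ) (η : Bool) (a b c : ℕ) : ℕ :=
  cn (an (bit B a) (bit B b)) (cn η c (Nat.mod (Nat.sub 3 c) 3)) 0

theorem cod_eq (B : ℕ) (η : Bool) (a b : ℕ) (e : ℤ) :
    cod B η a b (cd e) = cd (sg η * (e * ind (B.testBit a) * ind (B.testBit b))) := by
  unfold cod
  rw [bit_eq, bit_eq, an_eq, cn_eq, cn_eq]
  by_cases h1 : e = 1
  · subst h1; cases η <;> cases B.testBit a <;> cases B.testBit b <;> decide
  by_cases h2 : e = -1
  · subst h2; cases η <;> cases B.testBit a <;> cases B.testBit b <;> decide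
  have h3 : ¬(-e = 1) := by omega
  have h4 : ¬(-e = -1) := by omega
  cases η <;> cases B.testBit a <;> cases B.testBit b <;> simp [cd, sg, ind, h1, h2, h3, h4]

def leaf (n c : ℕ) : ℤ :=
  frc (Nat.mul (Nat.pow 17 c) (Nat.pow 4 (Nat.sub n c))) fun t =>
    cn (Nat.beq (Nat.mod c 2) 1) (Int.negOfNat t) (Int.ofNat t)

theorem leaf_eq {n c : ℕ} (h : c ≤ n) : (leaf n c : ℚ) = dl ^ c * 4 ^ n := by
  have e : dl ^ c * 4 ^ n = (-1) ^ c * (17 ^ c * 4 ^ (n - c)) := by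
    obtain ⟨k, rfl⟩ := Nat.exists_eq_add_of_le h
    rw [Nat.add_sub_cancel_left, pow_add, ← mul_assoc, ← mul_pow, ← mul_assoc, ← mul_pow]
    norm_num [dl]
  rw [e]
  show ((cn (Nat.beq (c % 2) 1) (Int.negOfNat (17 ^ c * 4 ^ (n - c)))
    (Int.ofNat (17 ^ c * 4 ^ (n - c))) : ℤ) : ℚ) = _
  rcases Nat.even_or_odd c with hc | hc
  · rw [hc.neg_one_pow, Nat.even_iff.mp hc, cn_eq]; simp
  · rw [hc.neg_one_pow, Nat.odd_iff.mp hc, cn_eq]; simp [Int.negOfNat_eq]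

def lbr (used : List ℕ) (nu B : ℕ) (η : Bool) (xs : List (ℕ × ℕ × ℕ × ℕ × ℕ)) : List ℕ → ℤ :=
  @List.rec (ℕ × ℕ × ℕ × ℕ × ℕ) (fun _ => List ℕ → ℤ)
    (fun ρ => frc (cnt ρ used) fun c => leaf nu c)
    (fun q _ ih ρ => frc (cod B η q.1 q.2.1 q.2.2.2.2) fun c =>
      cn (Nat.beq c 0)
        (Int.mul 2 (mgK q.1 q.2.2.1 ρ fun ρ1 => mgK q.2.1 q.2.2.2.1 ρ1 ih))
        (Int.add
          (Int.mul (cn (Nat.beq c 1) 4 1) (mgK q.1 q.2.1 ρ fun ρ1 => mgK q.2.2.1 q.2.2.2.1 ρ1 ih))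
          (Int.mul (cn (Nat.beq c 1) 1 4)
            (mgK q.2.1 q.2.2.1 ρ fun ρ1 => mgK q.2.2.2.1 q.1 ρ1 ih)))) xs

theorem loc_sum {r0 : α → α → Prop} {L : ℕ → α} {n : ℕ} (U : Finset α) (used : List ℕ) (M B : ℕ)
    (η : Bool) (hc : ∀ r ρ, St r0 L n r ρ → ncl r U = M + cnt ρ used) (k : ℕ) :
    ∀ (cx : Fin k → Fin 4 → ℕ) (ε el : Fin k → ℤ), (∀ y j, cx y j < n) →
      (∀ y, el y = sg η * (ε y * ind (B.testBit (cx y 0)) * ind (B.testBit (cx y 1)))) →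
      ∀ r ρ, St r0 L n r ρ →
      (∑ s : Fin k → Bool, (∏ y, wt (el y) (s y)) * dl ^ ncl (fun a b => r a b ∨
        ∃ y, ∃ q ∈ mp (md (el y) (s y)), a = L (cx y q.1) ∧ b = L (cx y q.2)) U) *
          (2 ^ k * 4 ^ used.length) =
      dl ^ M * lbr used used.length B η
        (List.ofFn fun y => (cx y 0, cx y 1, cx y 2, cx y 3, cd (ε y))) ρ := by
  induction k with
  | zero =>
    intro cx ε el _ _ r ρ h
    have e : lbr used used.length B η
      (List.ofFn fun y : Fin 0 => (cx y 0, cx y 1, cx y 2, cx y 3, cd (ε y))) ρ =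
      leaf used.length (cnt ρ used) := by rw [List.ofFn_zero]; rfl
    rw [e, leaf_eq (cnt_le _ _)]
    simp [hc r ρ h, pow_add, mul_assoc]
  | succ k ih =>
    intro cx ε el hcx hel r ρ h
    have key : ∀ (t : Bool) (ps : List (ℕ × ℕ)),
        ps = (mp (md (el 0) t)).map (fun q => (cx 0 q.1, cx 0 q.2)) →
        (∑ s : Fin k → Bool, (∏ y, wt (el y) ((Fin.cons t s : Fin (k + 1) → Bool) y)) *
          dl ^ ncl (fun a b => r a b ∨ ∃ y, ∃ q ∈ mp (md (el y)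
            ((Fin.cons t s : Fin (k + 1) → Bool) y)), a = L (cx y q.1) ∧ b = L (cx y q.2)) U) *
          (2 ^ k * 4 ^ used.length) = wt (el 0) t * (dl ^ M * lbr used used.length B η
          (List.ofFn fun y : Fin k => (cx y.succ 0, cx y.succ 1, cx y.succ 2, cx y.succ 3,
            cd (ε y.succ))) (mgs ps ρ)) := by
      intro t ps hps
      have h1 := h.merges ps (r' := fun a b => r a b ∨ ∃ q ∈ ps, a = L q.1 ∧ b = L q.2)
        (by
          intro q hq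
          rw [hps] at hq
          obtain ⟨q', _, rfl⟩ := List.mem_map.mp hq
          exact ⟨hcx _ _, hcx _ _⟩) (fun _ _ => Iff.rfl)
      rw [← ih (fun y => cx y.succ) (fun y => ε y.succ) (fun y => el y.succ)
        (fun y j => hcx _ _) (fun y => hel _) _ _ h1, ← mul_assoc (wt _ _), mul_sum]
      congr 1
      refine sum_congr rfl fun s _ => ?_
      rw [Fin.prod_univ_succ, mul_assoc]
      simp only [Fin.cons_zero, Fin.cons_succ]
      congr 4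
      funext a b
      simp only [Fin.exists_fin_succ, Fin.cons_zero, Fin.cons_succ, hps, List.mem_map, or_assoc]
      congr 2
      apply propext
      constructor
      · rintro ⟨q, hq, h⟩; exact ⟨_, ⟨q, hq, rfl⟩, h⟩
      · rintro ⟨_, ⟨q, hq, rfl⟩, h⟩; exact ⟨q, hq, h⟩
    rw [← (Fin.consEquiv fun _ : Fin (k + 1) => Bool).sum_comp, Fintype.sum_prod_type,
      Fintype.sum_bool, List.ofFn_succ]
    have k1 := key true _ rfl
    have k2 := key false _ rfl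
    have e : ∀ (u v : ℚ), (u + v) * (2 ^ (k + 1) * 4 ^ used.length) =
      2 * (u * (2 ^ k * 4 ^ used.length) + v * (2 ^ k * 4 ^ used.length)) := by intros; ring
    rw [e]
    erw [k1, k2]
    show _ = dl ^ M * ((cn (Nat.beq (cod B η (cx 0 0) (cx 0 1) (cd (ε 0))) 0)
        (2 * (mgK (cx 0 0) (cx 0 2) ρ fun ρ1 => mgK (cx 0 1) (cx 0 3) ρ1 (lbr _ _ B η _)))
        ((cn (Nat.beq (cod B η (cx 0 0) (cx 0 1) (cd (ε 0))) 1) 4 1) *
          (mgK (cx 0 0) (cx 0 1) ρ fun ρ1 => mgK (cx 0 2) (cx 0 3) ρ1 (lbr _ _ B η _)) +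
          (cn (Nat.beq (cod B η (cx 0 0) (cx 0 1) (cd (ε 0))) 1) 1 4) *
            (mgK (cx 0 1) (cx 0 2) ρ fun ρ1 => mgK (cx 0 3) (cx 0 0) ρ1 (lbr _ _ B η _))) : ℤ) : ℚ)
    rw [cod_eq, ← hel 0]
    simp only [mgK_eq]
    by_cases h1 : el 0 = 1
    · simp [h1, cd, cn_eq, md, wt, mp, mgs]; ring
    by_cases h2 : el 0 = -1
    · simp [h2, cd, cn_eq, md, wt, mp, mgs]; ring
    · simp [h1, h2, cd, cn_eq, md, wt, mp, mgs]; ring

theorem rel_sum {R PR : Type} {k l : ℕ} (xR : R → Fin 4 → α) (pR : PR → Fin 2 → α)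
    (μR : R → Md) (L : ℕ → α) (cx : Fin k → Fin 4 → ℕ) (cj : Fin l → Fin 2 → ℕ) (μ : Fin k → Md)
    (a b : α) :
    rel (Sum.elim xR fun y j => L (cx y j)) (Sum.elim pR fun y j => L (cj y j))
      (Sum.elim μR μ) a b ↔
    (rel xR pR μR a b ∨ ∃ q ∈ List.ofFn (fun y => (cj y 0, cj y 1)), a = L q.1 ∧ b = L q.2) ∨
      ∃ y, ∃ q ∈ mp (μ y), a = L (cx y q.1) ∧ b = L (cx y q.2) := by
  simp only [rel, Sum.exists, Sum.elim_inl, Sum.elim_inr, List.mem_ofFn]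
  constructor
  · rintro ((h | h) | h | ⟨j, h⟩)
    · exact Or.inl (Or.inl (Or.inl h))
    · exact Or.inr h
    · exact Or.inl (Or.inl (Or.inr h))
    · exact Or.inl (Or.inr ⟨_, ⟨j, rfl⟩, h⟩)
  · rintro (((h | h) | ⟨_, ⟨j, rfl⟩, h⟩) | h)
    · exact Or.inl (Or.inl h)
    · exact Or.inr (Or.inl h)
    · exact Or.inr (Or.inr ⟨j, h⟩)
    · exact Or.inl (Or.inr h)

theorem Br_sum {R PR : Type} [Fintype R] {k l : ℕ} (xR : R → Fin 4 → α) (pR : PR → Fin 2 → α)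
    (eR : R → ℤ) (L : ℕ → α) (n : ℕ) (cx : Fin k → Fin 4 → ℕ) (cj : Fin l → Fin 2 → ℕ)
    (ε el : Fin k → ℤ) (UR U : Finset α) (used : List ℕ) (B : ℕ) (η : Bool)
    (hcx : ∀ y j, cx y j < n) (hcj : ∀ y j, cj y j < n)
    (hel : ∀ y, el y = sg η * (ε y * ind (B.testBit (cx y 0)) * ind (B.testBit (cx y 1))))
    (hU : ∀ a, a ∈ U ↔ a ∈ UR ∨ ∃ i ∈ used, L i = a) (hu : ∀ i ∈ used, i < n)
    (hit : ∀ (s : R → Bool) (μ : R → Md), (μ = fun y => md (eR y) (s y)) → ∀ a ∈ UR, ∀ i < n,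
      Quot.mk (rel xR pR μ) (L i) = Quot.mk (rel xR pR μ) a →
      ∃ j ∈ used, Quot.mk (rel xR pR μ) (L j) = Quot.mk (rel xR pR μ) a) :
    Br (Sum.elim xR fun y j => L (cx y j)) (Sum.elim pR fun y j => L (cj y j)) U
      (Sum.elim eR el) * (2 ^ k * 4 ^ used.length) =
    ∑ s : R → Bool, (∏ y, wt (eR y) (s y)) *
      (dl ^ mOut (rel xR pR fun y => md (eR y) (s y)) L n UR *
        lbr used used.length B η (List.ofFn fun y => (cx y 0, cx y 1, cx y 2, cx y 3, cd (ε y)))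
          (mgs (List.ofFn fun y => (cj y 0, cj y 1))
            (rho0 (rel xR pR fun y => md (eR y) (s y)) L n))) := by
  rw [Br_def, ← (Equiv.sumArrowEquivProdArrow R (Fin k) Bool).symm.sum_comp, Fintype.sum_prod_type,
    sum_mul]
  refine sum_congr rfl fun s _ => ?_
  have h1 := (St_init (rel xR pR fun y => md (eR y) (s y)) L n).merges
    (List.ofFn fun y => (cj y 0, cj y 1)) (r' := fun a b => rel xR pR (fun y => md (eR y) (s y)) a b ∨
      ∃ q ∈ List.ofFn (fun y => (cj y 0, cj y 1)), a = L q.1 ∧ b = L q.2)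
    (by
      intro q hq
      obtain ⟨y, rfl⟩ := List.mem_ofFn.mp hq
      exact ⟨hcj _ _, hcj _ _⟩) (fun _ _ => Iff.rfl)
  rw [← loc_sum U used _ B η (fun r ρ h => h.ncl_eq UR U used hU hu (hit s _ rfl)) k cx ε el hcx hel
    _ _ h1, ← mul_assoc (∏ y, wt (eR y) (s y)), mul_sum]
  congr 1
  refine sum_congr rfl fun t _ => ?_
  rw [Fintype.prod_sum_type, mul_assoc]
  simp only [Equiv.sumArrowEquivProdArrow_symm_apply_inl,
    Equiv.sumArrowEquivProdArrow_symm_apply_inr, Sum.elim_inl, Sum.elim_inr]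
  congr 3
  unfold N
  congr 1
  funext a b
  rw [← rel_sum]
  congr 1
  funext y
  cases y <;> rfl

end

end Pool.Agent.MP_97bb71_gt
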