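import Pool.Agent.MP_97bb71_gt.Move3
import Pool.Agent.MP_97bb71_gt.ChkR

/-! Invariance under the second Reidemeister move. -/

namespace Pool.Agent.MP_97bb71_gt
open Finset

noncomputable section

variable {Γ : Type} [DecidableEq Γ] {d : Dat Γ}

theorem ncl_pos {α : Type} {r : α → α → Prop} {U : Finset α} {a : α} (h : a ∈ U) :
    0 < ncl r U := by
  classical
  exact card_pos.mpr (image_nonempty.mpr ⟨a, h⟩)

theorem PkS.faces [Fintype Γ] (hc : Conn d) {R : Diagram} {k l : ℕ} {x : Fin k → Fin 4 → ℕ}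
    {p : Fin l → Fin 2 → ℕ} {oR : Fin R.n → Fin 4 → Bool} {oPR : Fin R.m → Bool}
    {o : Fin k → Fin 4 → Bool} {oP : Fin l → Bool} {κ : ℕ → Γ}
    (h : PkS R.x R.p x p d oR oPR o oP κ) (hp : (R.add x p).Planar) (a : ℕ)
    (ha : a ∈ labs x p) :
    ncl (fun a b => frel R.x R.p oR a b ∨ frel x p o a b)
      (labs (Sum.elim R.x x) (Sum.elim R.p p) ×ˢ univ) = R.n + k + 2 := by
  have e1 : (fun y => Sum.elim R.x x (finSumFinEquiv.symm y)) = (R.add x p).x := by
    rw [← add_x R x p]; funext y; simp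
  have e2 : (fun y => Sum.elim R.p p (finSumFinEquiv.symm y)) = (R.add x p).p := by
    rw [← add_p R x p]; funext y; simp
  have h1 := Pk.reindex h finSumFinEquiv.symm finSumFinEquiv.symm
  have e3 := labs_reindex (Sum.elim R.x x) (Sum.elim R.p p) finSumFinEquiv.symm
    finSumFinEquiv.symm
  have e4 := frel_reindex (Sum.elim R.x x) (Sum.elim R.p p) (Sum.elim oR o) finSumFinEquiv.symm
    finSumFinEquiv.symm
  rw [e1, e2] at h1 e3 e4
  have h2 := (R.add x p).faces_eq hp.1 h1.bal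
  erw [e4, e3] at h2
  have h3 := h1.N_conn hc fun y j => by rw [← e3]; exact mem_labs.mpr (Or.inl ⟨_, _, rfl⟩)
  have h4 := (R.add x p).pieces_eq
  have e5 : act (fun y => Sum.elim (fun _ : Fin R.n => (1 : ℤ)) (fun _ : Fin k => 1)
      (finSumFinEquiv.symm y)) .C = fun _ => .C := by
    funext y; unfold act; rw [if_neg]; cases finSumFinEquiv.symm y <;> simp
  rw [e5, ← e3] at h3
  replace h3 := h4.le.trans h3
  have h5 : 0 < (R.add x p).pieces := by
    rw [h4]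
    erw [e3]
    refine ncl_pos (a := a) ?_
    rcases mem_labs.mp ha with ⟨y, j, h⟩ | ⟨y, j, h⟩
    · exact mem_labs.mpr (Or.inl ⟨.inr y, j, h⟩)
    · exact mem_labs.mpr (Or.inr ⟨.inr y, j, h⟩)
  have h6 := hp.2
  have e6 : frel (Sum.elim R.x x) (Sum.elim R.p p) (Sum.elim oR o) =
      fun a b => frel R.x R.p oR a b ∨ frel x p o a b := by
    funext a b
    simp only [frel, Sum.exists, Sum.elim_inl, Sum.elim_inr]
    exact propext or_or_or_comm
  rw [← e6, ← h2, h6]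
  have : (R.add x p).n = R.n + k := rfl
  omega

theorem fresh2 {R : Diagram} {a b c g e f : ℕ} (hfr : R.Fresh [e, f] [a, b, c, g]) :
    (a ≠ e ∧ b ≠ e ∧ c ≠ e ∧ g ≠ e) ∧ (a ≠ f ∧ b ≠ f ∧ c ≠ f ∧ g ≠ f) ∧ f ≠ e := by
  have h1 := (hfr.2 e (by simp)).1
  have h2 := (hfr.2 f (by simp)).1
  have h4 := hfr.1
  simp at h1 h2 h4
  grind

theorem r2_faces (R : Diagram) (a b c g e f : ℕ) (hfr : R.Fresh [e, f] [a, b, c, g]) (t u : Bool)
    (oR : Fin R.n → Fin 4 → Bool) (o : Fin 0 → Fin 4 → Bool)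
    (h : ncl (fun v w => frel R.x R.p oR v w ∨ frel ![] ![![a, b], ![c, g]] o v w)
      (labs (Sum.elim R.x ![]) (Sum.elim R.p ![![a, b], ![c, g]]) ×ˢ univ) + 2 ≤
      ncl (fun v w => frel R.x R.p oR v w ∨ frel ![![c, e, f, a], ![f, e, g, b]] ![]
        ![![u, !t, !u, t], ![u, t, !u, !t]] v w)
      (labs (Sum.elim R.x ![![c, e, f, a], ![f, e, g, b]]) (Sum.elim R.p ![]) ×ˢ univ)) :
    (∀ z, FCS R.x R.p oR ![] ![![a, b], ![c, g]] o z → z a t = z c (!u)) ∧
    ∃ v, FCS R.x R.p oR ![![c, e, f, a], ![f, e, g, b]] ![] ![![u, !t, !u, t], ![u, t, !u, !t]] v ∧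
      v a t = 1 ∧ v b t = 0 := by
  classical
  obtain ⟨n1, n2, n3⟩ := fresh2 hfr
  let L : ℕ → ℕ × Bool := fun i => [(a, t), (a, !t), (b, t), (b, !t), (c, !u), (c, u), (g, !u),
    (g, u), (e, t), (e, !t), (f, u), (f, !u)].getD i (0, false)
  let bk : ℕ × Bool → ℕ := fun v => if v.1 = e then (if v.2 = t then 1 else 2) else
    if v.1 = f then (if v.2 = u then 3 else 4) else 0
  have hz : ∀ v : ℕ × Bool, v.1 ∈ labs R.x R.p → bk v = 0 := by
    intro v hv
    obtain ⟨q, hq⟩ := (R.mem_labs' _).mp hv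
    simp only [bk, ← hq, if_neg ((hfr.2 e (by simp)).2 q), if_neg ((hfr.2 f (by simp)).2 q)]
  have hb : ∀ v w, frel R.x R.p oR v w → bk v = bk w := by
    rintro v w (⟨y, q, rfl, rfl⟩ | ⟨j, s, rfl, rfl⟩) <;> rw [hz, hz] <;> first
      | exact mem_labs.mpr (Or.inl ⟨_, _, rfl⟩)
      | exact mem_labs.mpr (Or.inr ⟨_, _, rfl⟩)
  have hL : ∀ i < 12, bk (L i) = gt [0, 0, 0, 0, 0, 0, 0, 0, 1, 2, 3, 4] i := by
    intro i hi
    interval_cases i <;> simp [L, bk, gt_eq, n1, n2, n3]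
  have h1 := allR_sound r2f_all (frel R.x R.p oR) L bk hb hL bk _ hb hL
    (fun i _ v _ hv => by simp [gt] at hv) (Or.inl rfl)
  have s0 := St_init (frel R.x R.p oR) L 12
  have s1 := s0.merges [(0, 2), (1, 3), (4, 6), (5, 7)]
    (r' := fun v w => frel R.x R.p oR v w ∨ frel ![] ![![a, b], ![c, g]] o v w) (by decide)
    (fun v w => or_congr_right (by
      cases t <;> cases u <;> simp [frel, L, Fin.exists_fin_succ] <;> grind))
  have s2 := s0.merges [(5, 8), (9, 10), (11, 1), (0, 4), (10, 9), (8, 7), (6, 2), (3, 11)]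
    (r' := fun v w => frel R.x R.p oR v w ∨ frel ![![c, e, f, a], ![f, e, g, b]] ![]
        ![![u, !t, !u, t], ![u, t, !u, !t]] v w) (by decide)
    (fun v w => or_congr_right (by simp [frel, L, Fin.exists_fin_succ, or_assoc]))
  have hit : ∀ used : List ℕ, (∀ i < 8, i ∈ used) → ∀ v ∈ labs R.x R.p ×ˢ (univ : Finset Bool),
      ∀ i < 12, Quot.mk (frel R.x R.p oR) (L i) = Quot.mk (frel R.x R.p oR) v →
      ∃ j ∈ used, Quot.mk (frel R.x R.p oR) (L j) = Quot.mk (frel R.x R.p oR) v := by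
    intro used hu v hv i hi he
    refine ⟨i, hu i ?_, he⟩
    have := lift_eq hb he
    rw [hz v (mem_product.mp hv).1, hL i hi] at this
    by_contra hn
    have : 8 ≤ i := by omega
    interval_cases i <;> simp [gt_eq] at *
  rw [s1.ncl_eq (labs R.x R.p ×ˢ univ) _ [0, 1, 2, 3, 4, 5, 6, 7] ?_ (by decide) (hit _ (by decide)),
    s2.ncl_eq (labs R.x R.p ×ˢ univ) _ [0, 1, 2, 3, 4, 5, 6, 7, 8, 9, 10, 11] ?_ (by decide)
      (hit _ (by decide))] at h
  · simp only [r2f, mgsK_eq, orr_eq, an_eq, cn_eq, Bool.or_eq_true, Nat.ble_eq, Bool.and_eq_true,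
      Nat.beq_eq] at h1
    obtain ⟨h2, h3⟩ := h1.resolve_left (by omega)
    replace h2 := (s1.eq_iff (i := 0) (j := 4) (by decide) (by decide)).mp h2
    have h4 := fun h => absurd (b := False) h3 (by
      rw [if_pos ((s2.eq_iff (i := 0) (j := 2) (by decide) (by decide)).mpr h)]; simp)
    constructor
    · intro z hz
      refine lift_eq (g := fun v : ℕ × Bool => z v.1 v.2) ?_ h2
      rintro v w (h | h)
      exacts [FC_iff.mp hz.1 v w h, FC_iff.mp hz.2 v w h]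
    · refine ⟨fun v s => if Quot.mk (fun v w => frel R.x R.p oR v w ∨
        frel ![![c, e, f, a], ![f, e, g, b]] ![] ![![u, !t, !u, t], ![u, t, !u, !t]] v w) (v, s) =
        Quot.mk _ (a, t) then 1 else 0, ⟨FC_iff.mpr fun v w h => ?_, FC_iff.mpr fun v w h => ?_⟩,
        if_pos rfl, if_neg fun h => h4 h.symm⟩
      · simp only [Quot.sound (r := fun v w => frel R.x R.p oR v w ∨ frel _ _ _ v w) (Or.inl h)]
      · simp only [Quot.sound (r := fun v w => frel R.x R.p oR v w ∨ frel _ _ _ v w) (Or.inr h)]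
  · rintro ⟨v, s⟩
    cases t <;> cases u <;> cases s <;> simp [mem_labs, L, Fin.exists_fin_succ] <;> grind
  · rintro ⟨v, s⟩
    cases t <;> cases u <;> cases s <;> simp [mem_labs, L, Fin.exists_fin_succ] <;> grind

theorem r2_core [Fintype Γ] (hc : Conn d) (R : Diagram) (a b c g e f : ℕ)
    (hfr : R.Fresh [e, f] [a, b, c, g]) (hp1 : (R.add ![] ![![a, b], ![c, g]]).Planar)
    (hp2 : (R.add ![![c, e, f, a], ![f, e, g, b]] ![]).Planar) (t u : Bool)
    {oR : Fin R.n → Fin 4 → Bool} {oPR : Fin R.m → Bool} {κ : ℕ → Γ} (o : Fin 0 → Fin 4 → Bool)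
    (oP : Fin 0 → Bool) (h1 : κ b = κ a) (h2 : κ g = κ c) (h3 : κ e = κ a) (h4 : κ f = κ c) :
    Core R.x R.p ![] ![![a, b], ![c, g]] d oR oPR o ![t, u] κ ↔
    Core R.x R.p ![![c, e, f, a], ![f, e, g, b]] ![] d oR oPR
      ![![u, !t, !u, t], ![u, t, !u, !t]] oP κ := by
  obtain ⟨n1, n2, n3⟩ := fresh2 hfr
  refine core_iff R [a, b, c, g] [e, f] hfr 4 6 [0, 0, 2, 2, 0, 2]
    ⟨[], [(0, 1), (2, 3)], [0, 1, 2, 3]⟩
    ⟨[(2, 4, 5, 0, 1), (5, 4, 3, 1, 1)], [], [0, 1, 2, 3, 4, 5]⟩ [] ![] ![![0, 1], ![2, 3]]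
    ![![2, 4, 5, 0], ![5, 4, 3, 1]] ![] 1 1 (by decide +kernel) (by decide) rfl rfl
    (by funext y; exact y.elim0) (by funext y j; fin_cases y <;> fin_cases j <;> rfl)
    (by funext y j; fin_cases y <;> fin_cases j <;> rfl) (by funext y; exact y.elim0)
    (by simp [Ori]) (by simp [Ori, Fin.forall_fin_succ])
    (fun g => by simp [flow, Fin.sum_univ_succ, sg_not]; ring)
    (by simp [Cp, h1, h2]) (by simp [Cp, cp, Fin.forall_fin_succ, h1, h2, h3, h4])
    (fun i hi => by interval_cases i <;> simp [gt_eq, h1, h2, h3, h4])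
    (fun G G' => by simp [W, sn, sg_not, Fin.sum_univ_succ, h3, h4]) fun k1 k2 => ?_
  obtain ⟨P1, v, hv, va, vb⟩ := r2_faces R a b c g e f hfr t u oR o (by
    rw [k1.faces hc hp1 a (by simp [mem_labs]), k2.faces hc hp2 c (mem_labs.mpr (Or.inl ⟨0, 0, rfl⟩))])
  have hv2 := hv.2
  simp [FC, Fin.forall_fin_succ] at hv2
  have key : ∀ τ : ℚ, τ * τ = 1 → Sh (FCS R.x R.p oR ![] ![![a, b], ![c, g]] o)
      (fun z => τ * QS R.x oR ![] o z) (FCS R.x R.p oR ![![c, e, f, a], ![f, e, g, b]] ![]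
        ![![u, !t, !u, t], ![u, t, !u, !t]]) (fun z => τ * QS R.x oR
        ![![c, e, f, a], ![f, e, g, b]] ![![u, !t, !u, t], ![u, t, !u, !t]] z) 1 := by
    intro τ hτ
    let β : Fn ℕ →ₗ[ℚ] ℚ := ev a t - Bf R.x (fun _ => 1) oR v
    let γ : ℚ := (τ + 1 - Qf R.x (fun _ => 1) oR v) / 2
    let Φ := upd e (fun s => if s = t then ev c u else β)
      (upd f (fun s => if s = u then β else ev a (!t)) LinearMap.id)
    let w : Fn ℕ := fun x s => if x = e ∧ s = !t ∨ x = f ∧ s = u then γ else v x s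
    refine sh_one (by simp [QS, Qf_zero]) Φ w LinearMap.id (ev a t - ev b t) (fun z k hz => ?_)
      fun z hz hl => ?_
    · have hr := rest_congr hfr oR (z := z + k • v) (z' := Φ z + k • w)
        (fun x hx => by simp at hx; funext s; simp [Φ, w, upd_apply, hx])
      have h5 := P1 z hz
      have h6 := hz.2
      have h7 : FC R.x R.p oR (z + k • v) := by
        refine ⟨fun y j => ?_, fun j => ?_⟩
        · simp [hz.1.1 y j, hv.1.1 y j]
        · simp [hz.1.2 j, hv.1.2 j]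
      simp [FC, funext_iff] at h6
      rw [QS, QS, hr.2, Qf_add]
      refine ⟨⟨hr.1 h7, ?_⟩, le_of_eq ?_⟩ <;> cases t <;> cases u <;>
        simp [FC, Qf, qt, Fin.forall_fin_succ, Fin.sum_univ_succ, Φ, w, β, γ, upd_apply, n1, n2, n3,
          Ne.symm n3] at hv2 h5 ⊢ <;> grind
    · have h6 := hz.2
      rw [QS, QS, LinearMap.id_apply]
      refine ⟨⟨hz.1, ?_⟩, le_of_eq ?_⟩ <;> cases t <;> cases u <;>
        simp [FC, Qf, qt, Fin.forall_fin_succ, Fin.sum_univ_succ, funext_iff] at h6 hl ⊢ <;> grind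
  have k3 := key 1 (by norm_num)
  have k4 := key (-1) (by norm_num)
  simp only [one_mul, neg_mul] at k3 k4
  exact ⟨k3, k4⟩

theorem r2_inv [Fintype Γ] (hc : Conn d) (R : Diagram) (a b c g e f : ℕ)
    (hfr : R.Fresh [e, f] [a, b, c, g]) (hp1 : (R.add ![] ![![a, b], ![c, g]]).Planar)
    (hp2 : (R.add ![![c, e, f, a], ![f, e, g, b]] ![]).Planar) :
    DInv (R.add ![] ![![a, b], ![c, g]]) d ↔
      DInv (R.add ![![c, e, f, a], ![f, e, g, b]] ![]) d := by
  obtain ⟨n1, n2, n3⟩ := fresh2 hfr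
  unfold DInv
  rw [IV_add, IV_add]
  constructor <;> rintro ⟨oR, oPR, o, oP, κ, h⟩ <;> have hk := h.kap
  · simp [Cp] at hk
    rw [fin2 oP] at h
    have h' := h.upd hfr (by simp) (by simp [Fin.forall_fin_succ])
      (fun v => if v = e then κ a else if v = f then κ c else κ v)
      (fun v hv => by simp at hv; simp [hv])
    exact ⟨_, _, _, ![], _, (r2_core hc R a b c g e f hfr hp1 hp2 _ _ o _ (by simp [n1, n2, hk])
      (by simp [n1, n2, hk]) (by simp [n1, n2]) (by simp [n1, n2, n3])).mp h'⟩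
  · simp [Cp, cp] at hk
    have i1 := h.int hfr (e := e) (by simp)
    have i2 := h.int hfr (e := f) (by simp)
    have ho := h.ori
    simp [flow, Fin.sum_univ_succ, n1, n2, n3, Ne.symm n3, (ho _).1, sg_not, sg_add,
      sg_sub'] at i1 i2
    have e1 : o = ![![o 0 0, !o 0 3, !o 0 0, o 0 3], ![o 0 0, o 0 3, !o 0 0, !o 0 3]] := by
      funext y j
      fin_cases y <;> fin_cases j <;> simp [(ho _).1, (ho _).2, i1, i2]
    rw [e1] at h
    exact ⟨_, _, ![], _, _, (r2_core hc R a b c g e f hfr hp1 hp2 _ _ _ oP (by grind) (by grind)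
      (by grind) (by grind)).mpr h⟩

theorem Same.inv [Fintype Γ] [Nonempty Γ] (hc : Conn d) {D E : Diagram} (h : Same D E) :
    DInv D d ↔ DInv E d := by
  induction h with
  | refl => rfl
  | symm _ _ _ ih => exact ih.symm
  | trans _ _ _ _ _ ih1 ih2 => exact ih1.trans ih2
  | rel D E h =>
    obtain ⟨h1, h2, h3⟩ := h
    cases h3 with
    | reorder D σ τ => exact (IV_reindex σ τ).symm
    | relabel D f =>
      refine (Inv_relabel f f.injective fun u => ?_).symm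
      simp only [mem_labs]
      constructor
      · rintro (⟨y, j, rfl⟩ | ⟨y, j, rfl⟩)
        exacts [⟨_, Or.inl ⟨y, j, rfl⟩, rfl⟩, ⟨_, Or.inr ⟨y, j, rfl⟩, rfl⟩]
      · rintro ⟨_, ⟨y, j, rfl⟩ | ⟨y, j, rfl⟩, rfl⟩
        exacts [Or.inl ⟨y, j, rfl⟩, Or.inr ⟨y, j, rfl⟩]
    | turn R a b c e => exact ⟨turn_inv R a b c e, turn_inv R c e a b⟩
    | flip R a b => exact ⟨flip_inv R a b, flip_inv R b a⟩
    | cut0 R a b c f e h => exact cut0_inv R a b c f e h
    | cut1 R a b c f e h => exact cut1_inv R a b c f e h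
    | cutJ R a b e h => exact cutJ_inv R a b e h
    | r1a R a b e h => exact (r1_inv R a b e h).1
    | r1b R a b e h => exact (r1_inv R a b e h).2
    | r2 R a b c g e f h => exact r2_inv hc R a b c g e f h h1 h2
    | r3a R a₁ a₂ a₃ a₄ a₅ a₆ e f g h => exact r3a_inv R a₁ a₂ a₃ a₄ a₅ a₆ e f g h
    | r3b R a₁ a₂ a₃ a₄ a₅ a₆ e f g h => exact r3b_inv R a₁ a₂ a₃ a₄ a₅ a₆ e f g h

end

end Pool.Agent.MP_97bb71_gt
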