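import Pool.Agent.MP_97bb71_gt.Cls
import Pool.Agent.MP_97bb71_gt.Move4

/-! From almost alternating diagram codes to the abstract class. -/

namespace Pool.Agent.MP_97bb71_gt
open Finset Module

set_option linter.unusedSectionVars false

noncomputable section

variable {α Γ X P : Type} [Fintype X] [Fintype P] [DecidableEq X] [DecidableEq Γ]
  {x : X → Fin 4 → α} {p : P → Fin 2 → α} {ε : X → ℤ} {o : X → Fin 4 → Bool} {t : α → Bool}

def Alt (x : X → Fin 4 → α) (p : P → Fin 2 → α) (o : X → Fin 4 → Bool) (t : α → Bool) : Prop :=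
  (∀ y, (t (x y 0) = o y 0 ∧ t (x y 2) = o y 2) ∧ t (x y 1) = (!o y 1) ∧ t (x y 3) = !o y 3) ∧
    ∀ j, t (p j 0) = t (p j 1)

def RR (x : X → Fin 4 → α) (ε : X → ℤ) (ψ : α → ℚ) : ℚ :=
  ∑ y, (ε y : ℚ) * (ψ (x y 0) - ψ (x y 2)) ^ 2

theorem sig_half [Fintype α] {M : Type} [AddCommGroup M] [Module ℚ M] {V : M → Prop} {Q : M → ℚ}
    {u : X} (he : ∀ y, y ≠ u → ε y = 1) {m m' : Md} (hm : UV m m')
    (hc : ∀ g : α → ℚ, Cp x p (fun _ => .C) g → ∀ a b, g a = g b)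
    (π π' : M →ₗ[ℚ] (α → ℚ)) (ι : (α → ℚ) →ₗ[ℚ] M)
    (h1 : ∀ z, V z → Cp x p (fun _ => m') (π' z) ∧ Q z = RR x ε (π z) - RR x ε (π' z))
    (h2 : ∀ ψ, Cp x p (fun _ => m) ψ → V (ι ψ) ∧ π (ι ψ) = ψ ∧ π' (ι ψ) = 0) :
    (∃ k, PD V Q k ∧ N x p univ (fun _ => m) ≤ k + 2) ∧
      ∀ l, PD V (fun z => -Q z) l → l ≤ N x p univ fun _ => m' := by
  classical
  have pos : ∀ ψ : α → ℚ, ψ (x u 0) = ψ (x u 2) →
      RR x ε ψ = ∑ y, (ψ (x y 0) - ψ (x y 2)) ^ 2 := fun ψ h => sum_congr rfl fun y _ => by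
    by_cases hy : y = u
    · simp [hy, h]
    · simp [he y hy]
  constructor
  · by_cases h0 : N x p univ (fun _ => m) ≤ 2
    · exact ⟨0, PD.zero (by simpa using (h2 0 (Cp_iff.mpr fun _ _ _ => rfl)).1), h0⟩
    obtain ⟨k, hk⟩ : ∃ k, N x p univ (fun _ => m) = k + 1 + 1 := ⟨_, (Nat.sub_add_cancel
      (le_of_not_ge h0)).symm⟩
    refine ⟨k, ?_, hk.le⟩
    obtain ⟨f, hf⟩ := finrank_le_iff_exists_linearMap.mp
      (show finrank ℚ (Fin (k + 1 + 1) → ℚ) ≤ finrank ℚ (Sol ℚ x p fun _ => m) by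
        simp [finrank_Sol, hk])
    have k1 : PD (Cp x p fun _ => m) (fun ψ : α → ℚ => if ψ = 0 then 0 else 1) (k + 1 + 1) :=
      ⟨(Sol ℚ x p _).subtype.comp f, fun v => (f v).2, fun v hv => by
        have : (f v : α → ℚ) ≠ 0 := fun h => hv (hf (by rw [map_zero]; exact Subtype.ext h))
        simp [this]⟩
    obtain ⟨g, g1, g2⟩ := (k1.ker (LinearMap.proj (x u 0))).ker (LinearMap.proj (x u 2))
    refine ⟨ι.comp g, fun v => (h2 _ (g1 v).1.1).1, fun v hv => ?_⟩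
    obtain ⟨⟨a1, a2⟩, a3⟩ := g1 v
    obtain ⟨b1, b2, b3⟩ := h2 _ a1
    simp only [LinearMap.proj_apply] at a2 a3
    rw [LinearMap.comp_apply, (h1 _ b1).2, b2, b3, pos _ (a2.trans a3.symm), pos 0 rfl]
    simp only [Pi.zero_apply, sub_self, ne_eq, OfNat.ofNat_ne_zero, not_false_eq_true, zero_pow,
      sum_const_zero, sub_zero]
    refine lt_of_le_of_ne (sum_nonneg fun _ _ => sq_nonneg _) fun h => ?_
    have k2 := (sum_eq_zero_iff_of_nonneg fun _ _ => sq_nonneg _).mp h.symm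
    have k3 : g v = 0 := funext fun a => (hc (g v) ⟨fun y => ?_, a1.2⟩ a _).trans a2
    · simpa [k3] using g2 v hv
    · have k4 := sub_eq_zero.mp (pow_eq_zero_iff two_ne_zero |>.mp (k2 y (mem_univ _)))
      have k5 := a1.1 y
      rcases hm with ⟨rfl, _⟩ | ⟨rfl, _⟩ <;> simp only [cp] at k5 ⊢ <;> grind
  · rintro l ⟨f, f1, f2⟩
    let pj : α → ((α → ℚ) →ₗ[ℚ] ℚ) := fun a => LinearMap.proj a
    let F : (Fin l → ℚ) →ₗ[ℚ] (α → ℚ) := π'.comp f + LinearMap.pi fun _ =>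
      ((pj (x u 0) - pj (x u 2)).comp π - (pj (x u 0)).comp π').comp f
    have hF : ∀ v a, F v a = π' (f v) a + (π (f v) (x u 0) - π (f v) (x u 2) - π' (f v) (x u 0)) :=
      fun _ _ => rfl
    have := LinearMap.finrank_le_finrank_of_injective (f := F.codRestrict (Sol ℚ x p fun _ => m')
      fun v => (h1 _ (f1 v)).1.comp fun w => w + _) (by
        rw [← LinearMap.ker_eq_bot, LinearMap.ker_eq_bot']
        intro v hv
        have k1 : ∀ a, F v a = 0 := congrFun (congrArg Subtype.val hv)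
        by_contra h0
        have k2 : 0 < -Q (f v) := f2 v h0
        have k3 : π (f v) (x u 0) = π (f v) (x u 2) := by
          have := k1 (x u 0); rw [hF] at this; linarith
        have k4 : RR x ε (π' (f v)) = 0 := sum_eq_zero fun y _ => by
          have a := k1 (x y 0)
          have b := k1 (x y 2)
          rw [hF] at a b
          rw [show π' (f v) (x y 0) = π' (f v) (x y 2) by linarith]; simp
        rw [(h1 _ (f1 v)).2, k4, pos _ k3] at k2
        have := sum_nonneg fun y (_ : y ∈ univ) =>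
          sq_nonneg (π (f v) (x y 0) - π (f v) (x y 2))
        linarith)
    simpa [finrank_Sol] using this

def piS (t : α → Bool) : Fn α →ₗ[ℚ] (α → ℚ) := LinearMap.pi fun a => ev a (t a)

def ioS (t : α → Bool) : (α → ℚ) →ₗ[ℚ] Fn α :=
  LinearMap.pi fun a => LinearMap.pi fun s => if s = t a then LinearMap.proj a else 0

theorem ioS_apply (t : α → Bool) (ψ : α → ℚ) (a : α) (s : Bool) :
    ioS t ψ a s = if s = t a then ψ a else 0 := by
  simp only [ioS, LinearMap.pi_apply]; split_ifs <;> rfl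

theorem Alt.cp {β : Type} (h : Alt x p o t) (z : α → Bool → β) :
    ((∀ y j, z (x y j) (o y j) = z (x y (j + 1)) (!o y (j + 1))) ∧ ∀ j, z (p j 0) = z (p j 1)) ↔
      Cp x p (fun _ => .U) (fun a => z a (t a)) ∧ Cp x p (fun _ => .V) fun a => z a (!t a) := by
  simp only [Cp, MP_97bb71_gt.cp, h.1, h.2, Bool.not_not, Fin.forall_fin_succ, funext_iff]
  constructor
  · rintro ⟨h1, h2⟩
    exact ⟨⟨fun y => ⟨(h1 y).1, (h1 y).2.2.1⟩, fun j => h2 j _⟩,
      fun y => ⟨(h1 y).2.1, (h1 y).2.2.2.1⟩, fun j => h2 j _⟩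
  · rintro ⟨⟨h1, h2⟩, h3, h4⟩
    refine ⟨fun y => ⟨(h1 y).1, (h3 y).1, (h1 y).2, (h3 y).2, fun j => j.elim0⟩, fun j s => ?_⟩
    by_cases hs : s = t (p j 1)
    · rw [hs]; exact h2 j
    · rw [Bool.eq_not_iff.mpr hs]; exact h4 j

theorem sigJ [Fintype α] {u : X} (he : ∀ y, y ≠ u → ε y = 1) (h : Alt x p o t)
    (hc : ∀ g : α → ℚ, Cp x p (fun _ => .C) g → ∀ a b, g a = g b) {τ : ℤ}
    (hs : SigI (FC x p o) (Qf x ε o) τ) :
    |(N x p univ (fun _ => .U) : ℤ) - N x p univ (fun _ => .V) - τ| ≤ 2 := by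
  have z0 : ∀ m, Cp x p (fun _ => m) (0 : α → ℚ) := fun _ => Cp_iff.mpr fun _ _ _ => rfl
  have e : ∀ z, FC x p o z → Qf x ε o z =
      RR x ε (piS t z) - RR x ε (piS (fun a => !t a) z) := by
    intro z hz
    rw [Qf, RR, RR, ← sum_sub_distrib]
    refine sum_congr rfl fun y _ => ?_
    have k1 := hz.1 y 1
    have k2 := hz.1 y 3
    simp only [piS, LinearMap.pi_apply, ev_apply, qt, h.1 y, k1, k2]
    simp; ring
  have i1 : ∀ (t : α → Bool) ψ, piS t (ioS t ψ) = ψ := fun t ψ => by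
    funext a; simp [piS, ioS_apply]
  have i2 : ∀ ψ, piS (fun a => !t a) (ioS t ψ) = 0 := fun ψ => by
    funext a; simp [piS, ioS_apply]
  have i3 : ∀ ψ, piS t (ioS (fun a => !t a) ψ) = 0 := fun ψ => by
    funext a; simp [piS, ioS_apply]
  obtain ⟨⟨k, a1, a2⟩, a3⟩ := sig_half (V := FC x p o) (Q := Qf x ε o) he (.inl ⟨rfl, rfl⟩) hc
    (piS t) (piS fun a => !t a) (ioS t) (fun z hz => ⟨((h.cp z).mp hz).2, e z hz⟩)
    fun ψ hψ => ⟨(h.cp _).mpr ⟨by convert hψ using 1; exact i1 t ψ,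
      by convert z0 _ using 1; exact i2 ψ⟩, i1 t ψ, i2 ψ⟩
  obtain ⟨⟨l, b1, b2⟩, b3⟩ := sig_half (V := FC x p o) (Q := fun z => -Qf x ε o z) he
    (.inr ⟨rfl, rfl⟩) hc (piS fun a => !t a) (piS t) (ioS fun a => !t a)
    (fun z hz => ⟨((h.cp z).mp hz).1, by rw [e z hz]; ring⟩)
    fun ψ hψ => ⟨(h.cp _).mpr ⟨by convert z0 _ using 1; exact i3 ψ,
      by convert hψ using 1; exact i1 _ ψ⟩, i1 _ ψ, i3 ψ⟩
  obtain ⟨l', c1, c2⟩ := hs.1 k a1
  obtain ⟨k', c3, c4⟩ := hs.2 l b1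
  have := a3 l' c1
  have := b3 k' (by simpa using c3)
  rw [abs_le]; omega

theorem Alt.faces (h : Alt x p o t) (U : Finset α) : ncl (frel x p o) (U ×ˢ univ) =
    N x p U (fun _ => .U) + N x p U fun _ => .V := by
  classical
  obtain ⟨h1, h2⟩ := (h.cp fun a s => Quot.mk (frel x p o) (a, s)).mp
    ⟨fun y j => Quot.sound (.inl ⟨y, j, rfl, rfl⟩),
      fun j => funext fun s => Quot.sound (.inr ⟨j, s, rfl, rfl⟩)⟩
  let f : α × Bool → Quot (rel x p fun _ => .U) ⊕ Quot (rel x p fun _ => .V) := fun q =>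
    if q.2 = t q.1 then .inl (Quot.mk _ q.1) else .inr (Quot.mk _ q.1)
  have e : ((U ×ˢ univ).image f).card = N x p U (fun _ => .U) + N x p U fun _ => .V := by
    rw [N, N, ncl, ncl, ← card_disjSum]
    congr 1
    ext v
    simp only [mem_image, mem_disjSum, mem_product, mem_univ, and_true]
    constructor
    · rintro ⟨⟨a, s⟩, h3, rfl⟩
      simp only [f]
      split_ifs
      exacts [.inl ⟨_, ⟨a, h3, rfl⟩, rfl⟩, .inr ⟨_, ⟨a, h3, rfl⟩, rfl⟩]
    · rintro (⟨_, ⟨a, h3, rfl⟩, rfl⟩ | ⟨_, ⟨a, h3, rfl⟩, rfl⟩)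
      exacts [⟨(a, t a), h3, by simp [f]⟩, ⟨(a, !t a), h3, by simp [f]⟩]
  rw [← e]
  refine le_antisymm (ncl_le_card f ?_) (card_le_ncl f ?_)
  · rintro ⟨a, s⟩ - ⟨b, s'⟩ - h3
    by_cases ha : s = t a <;> by_cases hb : s' = t b <;> simp [f, ha, hb] at h3
    · rw [ha, hb]; exact h1.eq h3
    · rw [Bool.eq_not_iff.mpr ha, Bool.eq_not_iff.mpr hb]; exact h2.eq h3
  · obtain ⟨k1, k2⟩ := (h.cp fun a s => f (a, s)).mpr
      ⟨by simpa [f] using (Cp_mk x p fun _ => .U).comp Sum.inl,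
        by simpa [f] using (Cp_mk x p fun _ => .V).comp Sum.inr⟩
    rintro a b (⟨y, j, rfl, rfl⟩ | ⟨j, s, rfl, rfl⟩)
    exacts [k1 y j, congrFun (k2 j) s]

theorem frel_rot (x : X → Fin 4 → α) (p : P → Fin 2 → α) (o : X → Fin 4 → Bool) (r : X → Bool) :
    frel (fun y j => x y (pm 0 (r y) j)) p (fun y j => o y (pm 0 (r y) j)) = frel x p o := by
  funext a b
  refine propext (or_congr_left (exists_congr fun y => ?_))
  beta_reduce
  cases r y <;> simp [pm, Fin.exists_fin_succ]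
  tauto

theorem Diagram.alt (D : Diagram) (hv : ∀ a : D.Dart, ∃! b, b ≠ a ∧ D.lab b = D.lab a)
    (h : D.Alternating) {o : Fin D.n → Fin 4 → Bool} {oP : Fin D.m → Bool}
    (hb : ∀ g, flow D.x D.p o oP g = 0) : ∃ t, Alt D.x D.p o t := by
  classical
  obtain ⟨θ, h1, h2, h3⟩ := h
  let t : ℕ → Bool := fun u =>
    if h : ∃ a, D.lab a = u then D.od o oP h.choose == θ h.choose else false
  have e : ∀ a, t (D.lab a) = (D.od o oP a == θ a) := by
    intro a
    have h : ∃ b, D.lab b = D.lab a := ⟨a, rfl⟩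
    simp only [t, dif_pos h]
    by_cases h4 : h.choose = a
    · rw [h4]
    · rw [D.od_ne hv hb h4 h.choose_spec, Bool.eq_not_iff.mpr (h3 _ _ h4 h.choose_spec)]
      simp
  refine ⟨t, fun y => ?_, fun j => ?_⟩
  · have := fun j => e (.inl (y, j))
    simp only [Diagram.lab, Diagram.od, h1] at this
    simp [this]
  · have a := e (.inr (j, 0))
    have b := e (.inr (j, 1))
    simp only [Diagram.lab, Diagram.od] at a b
    rw [a, b, Bool.eq_not_iff.mpr (h2 j)]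
    simp

theorem Diagram.change_x (E : Diagram) (C : Finset (Fin E.n)) :
    (E.change C).x = fun y : Fin E.n => fun j => E.x y (pm 0 (decide (y ∈ C)) j) := by
  refine funext fun y : Fin E.n => funext fun j => ?_
  show (if y ∈ C then E.x y (j + 1) else E.x y j) = _
  by_cases hy : y ∈ C <;> fin_cases j <;> simp [pm, hy]

theorem Diagram.change_valid (E : Diagram) (C : Finset (Fin E.n))
    (hv : ∀ a : E.Dart, ∃! b, b ≠ a ∧ E.lab b = E.lab a) (a : (E.change C).Dart) :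
    ∃! b, b ≠ a ∧ (E.change C).lab b = (E.change C).lab a := by
  let e : E.Dart ≃ E.Dart := Equiv.sumCongr
    (Equiv.prodCongrRight fun i => Equiv.addRight (if i ∈ C then 1 else 0)) (Equiv.refl _)
  have he : ∀ a, (E.change C).lab a = E.lab (e a) := by
    rintro (⟨i, j⟩ | ⟨i, j⟩)
    · simp [Diagram.change, Diagram.lab, e]
      split_ifs <;> simp
    · rfl
  simp only [he]
  obtain ⟨b, ⟨h3, h4⟩, h5⟩ := hv (e a)
  refine ⟨e.symm b, ⟨fun h => h3 (by rw [← h]; simp), by simpa using h4⟩, fun c hc => ?_⟩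
  rw [← h5 (e c) ⟨fun h => hc.1 (e.injective h), hc.2⟩]; simp

theorem Diagram.faces_alt {d : Dat Γ} (E : Diagram) (C : Finset (Fin E.n))
    (hv : ∀ a : E.Dart, ∃! b, b ≠ a ∧ E.lab b = E.lab a) (hA : (E.change C).Alternating)
    (h : DInv E d) {x : Fin E.n → Fin 4 → ℕ} (hx : (E.change C).x = x) :
    E.faces = N x E.p (labs E.x E.p) (fun _ => .U) + N x E.p (labs E.x E.p) fun _ => .V := by
  subst hx
  obtain ⟨o, oP, κ, k1, -⟩ := h
  obtain ⟨t, ht⟩ := (E.change C).alt (E.change_valid C hv) hA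
    (o := fun y : Fin E.n => fun j => o y (pm 0 (decide (y ∈ C)) j)) (oP := oP)
    fun g => by rw [E.change_x]; exact (k1.pm (fun _ => 0) _).bal g
  rw [E.faces_eq hv k1.bal, ← frel_rot E.x E.p o fun y => decide (y ∈ C), ← E.change_x]
  exact ht.faces _

theorem Diagram.pieces_one [Fintype Γ] [Nonempty Γ] {d : Dat Γ} (hc : Conn d) (E : Diagram)
    (h : DInv E d) : E.pieces = 1 := by
  obtain ⟨o, oP, κ, k1, -⟩ := h
  obtain ⟨Z, k3, k4⟩ := hc.nb (Classical.arbitrary Γ)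
  obtain ⟨y, -⟩ := k1.cross k3 k4
  rw [E.pieces_eq]
  exact le_antisymm (k1.N_conn hc fun y j => mem_labs.mpr (.inl ⟨y, j, rfl⟩))
    (ncl_pos (mem_labs.mpr (.inl ⟨y, 0, rfl⟩)))

theorem bridge [Fintype Γ] [Nonempty Γ] {d1 d2 : Dat Γ} (c1 : Conn d1) (c2 : Conn d2)
    (E : Diagram) (hp : E.Planar) (C : Finset (Fin E.n)) (hC : C.card ≤ 1)
    (hA : (E.change C).Alternating) (h1 : DInv E d1) (h2 : DInv E d2) :
    ∃ (x : Fin E.n → Fin 4 → {a // a ∈ labs E.x E.p}) (p : Fin E.m → Fin 2 → _) (ε : _),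
      Cls x p ε d1 d2 := by
  let r : Fin E.n → Bool := fun y => decide (y ∈ C)
  have ex : (E.change C).x = fun y j => E.x y (pm 0 (r y) j) := E.change_x C
  have hv := E.change_valid C hp.1
  let x : Fin E.n → Fin 4 → {a // a ∈ labs E.x E.p} := fun y j =>
    ⟨E.x y (pm 0 (r y) j), mem_labs.mpr (.inl ⟨_, _, rfl⟩)⟩
  let p : Fin E.m → Fin 2 → {a // a ∈ labs E.x E.p} := fun y j =>
    ⟨E.p y j, mem_labs.mpr (.inr ⟨_, _, rfl⟩)⟩
  have hU : ∀ u, u ∈ labs E.x E.p ↔ ∃ a ∈ (univ : Finset {a // a ∈ labs E.x E.p}), a.1 = u := by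
    simp
  have he : ∀ y, sg (!r y) * 1 = -1 ↔ y ∈ C := fun y => by
    by_cases hy : y ∈ C <;> simp [r, hy, sg]
  have he' : ∀ y, sg (!r y) * 1 = 1 ∨ sg (!r y) * 1 = -1 := fun y => by cases r y <;> decide
  have ea : ∀ m, act (fun y => sg (!r y) * 1) m = fun _ => m := fun m => by
    funext y; rcases he' y with h | h <;> simp only [act, h] <;> rfl
  have un : ∀ y z, sg (!r y) * 1 = -1 → sg (!r z) * 1 = -1 → y = z := fun y z a b =>
    card_le_one.mp hC _ ((he y).mp a) _ ((he z).mp b)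
  have cl : ∀ d : Dat Γ, Conn d → DInv E d → Cl x p (fun y => sg (!r y) * 1) d := by
    intro d hc h
    obtain ⟨o, oP, κ, k1, k2⟩ := (Inv_relabel (x := x) (p := p) Subtype.val Subtype.val_injective
      hU).mp (Inv.rot h r)
    refine ⟨o, oP, κ, k1, fun ⟨u, hu⟩ => ?_⟩
    obtain ⟨t, ht⟩ := (E.change C).alt hv hA (o := o) (oP := oP) fun g => by
      rw [ex]; exact k1.bal fun a => g a.1
    rw [ex] at ht
    rw [ea, ea, sub_sub _ _ d.K]
    exact sigJ (u := u) (fun y hy => (he' y).resolve_right fun h => hy (un _ _ h hu))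
      (t := fun a => t a.1) ht (fun g hg a b => k1.conn hc (fun _ _ => mem_univ _)
        (by rwa [ea]) (mem_univ _) (mem_univ _)) k2
  refine ⟨x, p, _, fun y => .inr (he' y), un, ?_, cl _ c1 h1, cl _ c2 h2⟩
  have k2 := E.faces_alt C hp.1 hA h1 ex
  rw [hp.2] at k2
  have k5 := E.pieces_one c1 h1
  have k6 : actv (fun y => sg (!r y) * 1) = univ := by
    ext y; cases h : r y <;> simp [actv, h, sg]
  rw [ea, ea, k6, card_fin, ← N_relabel Subtype.val Subtype.val_injective x p univ _ hU,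
    ← N_relabel Subtype.val Subtype.val_injective x p univ _ hU]
  exact le_trans (by omega) k2.le

end

end Pool.Agent.MP_97bb71_gt
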