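import Pool.Agent.MP_97bb71_gt.Br

/-! A checker for local identities of the bracket. -/

namespace Pool.Agent.MP_97bb71_gt
open Finset

noncomputable section
open Classical

variable {α β X P : Type}

structure Sd where
  xs : List (ℕ × ℕ × ℕ × ℕ × ℕ)
  js : List (ℕ × ℕ)
  used : List ℕ

def Sd.val (s : Sd) (B : ℕ) (η : Bool) (ρ : List ℕ) : ℤ :=
  frc s.used.length fun nu => mgsK s.js ρ (lbr s.used nu B η s.xs)

def Sd.sc (s : Sd) : ℕ := 2 ^ s.xs.length * 4 ^ s.used.length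

def kf (B : ℕ) (kl : List (ℕ × ℤ)) : ℤ := (kl.map fun q => q.2 * ind (bit B q.1)).sum

def tst (s1 s2 : Sd) (a1 a2 : ℕ) (kl : List (ℕ × ℤ)) (B : ℕ) (η : Bool) (ρ : List ℕ) : Bool :=
  frc (sg η * (kf B kl / 2)).toNat fun k1 => frc (-(sg η * (kf B kl / 2))).toNat fun k2 =>
    decide (s1.val B η ρ * a2 * (-8) ^ k2 = s2.val B η ρ * a1 * (-8) ^ k1)

def chk (n : ℕ) (blk cm src : List ℕ) (s1 s2 : Sd) (kl : List (ℕ × ℤ)) (M r : ℕ)
    (η : Bool) : Bool :=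
  forceL (masks src n) fun Bs => frc s1.sc fun a1 => frc s2.sc fun a2 =>
    allL (fun B => cn (Nat.beq (Nat.mod B M) r) (forceL (refine blk B n) fun blk' =>
      allR blk' cm (tst s1 s2 a1 a2 kl B η) n 0 [] [] 0) true) Bs

theorem md_ne {e : ℤ} {s : Bool} (h : md e s ≠ .S) : e = 1 ∨ e = -1 := by
  by_contra h'; exact h (by simp [md, h'])

theorem cp_of_C {v : Fin 4 → β} (h : cp v .C) (m : Md) : cp v m := by
  obtain ⟨h1, h2, h3⟩ := h
  cases m <;> simp only [cp] <;> refine ⟨?_, ?_⟩ <;> simp [h1, h2, h3]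

theorem Br_move {R PR : Type} [Fintype R] {k1 l1 k2 l2 : ℕ} (xR : R → Fin 4 → α)
    (pR : PR → Fin 2 → α) (εR : R → ℤ) (L : ℕ → α) (n : ℕ) (blk cm src : List ℕ)
    (s1 s2 : Sd) (kl : List (ℕ × ℤ)) (M : ℕ)
    (h : ∀ η, ∀ r < M + 1, chk n blk cm src s1 s2 kl (M + 1) r η = true) (hcm : CmOK n blk cm)
    (cx1 : Fin k1 → Fin 4 → ℕ) (cj1 : Fin l1 → Fin 2 → ℕ) (ε1 : Fin k1 → ℤ)
    (cx2 : Fin k2 → Fin 4 → ℕ) (cj2 : Fin l2 → Fin 2 → ℕ) (ε2 : Fin k2 → ℤ)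
    (hx1 : s1.xs = List.ofFn fun y => (cx1 y 0, cx1 y 1, cx1 y 2, cx1 y 3, cd (ε1 y)))
    (hj1 : s1.js = List.ofFn fun y => (cj1 y 0, cj1 y 1))
    (hx2 : s2.xs = List.ofFn fun y => (cx2 y 0, cx2 y 1, cx2 y 2, cx2 y 3, cd (ε2 y)))
    (hj2 : s2.js = List.ofFn fun y => (cj2 y 0, cj2 y 1))
    (hlt : (∀ y j, cx1 y j < n) ∧ (∀ y j, cj1 y j < n) ∧ (∀ y j, cx2 y j < n) ∧
      (∀ y j, cj2 y j < n) ∧ (∀ i ∈ s1.used, i < n) ∧ (∀ i ∈ s2.used, i < n) ∧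
      (∀ q ∈ kl, q.1 < n) ∧ ∀ i < n, gt src i ≤ i)
    (UR U1 U2 : Finset α) (hU1 : ∀ a, a ∈ U1 ↔ a ∈ UR ∨ ∃ i ∈ s1.used, L i = a)
    (hU2 : ∀ a, a ∈ U2 ↔ a ∈ UR ∨ ∃ i ∈ s2.used, L i = a)
    (bk : α → ℕ) (hbk : Cp xR pR (fun y => if εR y = 0 then .S else .C) bk)
    (hL : ∀ i < n, bk (L i) = gt blk i)
    (hit : ∀ i < n, (i ∈ s1.used ∧ i ∈ s2.used) ∨ ∀ a ∈ UR, bk a ≠ gt blk i)
    (hev : cm = [] ∨ ∀ μ (g : α → ZMod 2), Cp xR pR μ g → ∑ i ∈ range n, g (L i) = 0)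
    (b : α → Bool) (hb : Cp xR pR (fun _ => .S) b) (hsrc : ∀ i < n, b (L (gt src i)) = b (L i))
    (η : Bool) :
    Br (Sum.elim xR fun y j => L (cx1 y j)) (Sum.elim pR fun y j => L (cj1 y j)) U1
      (Sum.elim (fun y => sg η * (εR y * ind (b (xR y 0)) * ind (b (xR y 1))))
        fun y => sg η * (ε1 y * ind (b (L (cx1 y 0))) * ind (b (L (cx1 y 1))))) =
    (-8 : ℚ) ^ (sg η * ((kl.map fun q => q.2 * ind (b (L q.1))).sum / 2)) *
    Br (Sum.elim xR fun y j => L (cx2 y j)) (Sum.elim pR fun y j => L (cj2 y j)) U2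
      (Sum.elim (fun y => sg η * (εR y * ind (b (xR y 0)) * ind (b (xR y 1))))
        fun y => sg η * (ε2 y * ind (b (L (cx2 y 0))) * ind (b (L (cx2 y 1))))) := by
  obtain ⟨l1, l2, l3, l4, l5, l6, l7, l8⟩ := hlt
  obtain ⟨B, hB, hBb⟩ := masks_sound src (fun i => b (L i)) n fun i hi => ⟨l8 i hi, hsrc i hi⟩
  have hB' : ∀ i < n, B.testBit i = b (L i) := fun i hi => by rw [hBb]; simp [hi]
  set eR : R → ℤ := fun y => sg η * (εR y * ind (b (xR y 0)) * ind (b (xR y 1))) with heR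
  have hbk' : ∀ s : R → Bool, Cp xR pR (fun y => md (eR y) (s y)) bk := by
    intro s
    refine ⟨fun y => ?_, hbk.2⟩
    have := hbk.1 y
    by_cases h0 : εR y = 0
    · simp only [h0, if_true] at this
      simpa [heR, h0, md] using this
    · simp only [h0, if_false] at this
      exact cp_of_C this _
  have hb' : ∀ s : R → Bool, Cp xR pR (fun y => md (eR y) (s y)) b := by
    intro s
    refine ⟨fun y => ?_, hb.2⟩
    have := hb.1 y
    by_cases h0 : md (eR y) (s y) = .S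
    · simp only [h0]; exact this
    · have h1 := md_ne h0
      obtain ⟨h2, h3⟩ := this
      apply cp_of_C
      simp only [cp, ← h2, ← h3]
      simp only [heR] at h1
      cases h4 : b (xR y 0) <;> cases h5 : b (xR y 1) <;> simp [h4, h5, ind] at h1 ⊢
  have hit' : ∀ (used : List ℕ), (∀ i < n, i ∈ used ∨ ∀ a ∈ UR, bk a ≠ gt blk i) →
      ∀ (s : R → Bool) (μ : R → Md), (μ = fun y => md (eR y) (s y)) → ∀ a ∈ UR, ∀ i < n,
      Quot.mk (rel xR pR μ) (L i) = Quot.mk (rel xR pR μ) a →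
      ∃ j ∈ used, Quot.mk (rel xR pR μ) (L j) = Quot.mk (rel xR pR μ) a := by
    rintro used hu s _ rfl a ha i hi e
    rcases hu i hi with h1 | h1
    · exact ⟨i, h1, e⟩
    · exact absurd (((hbk' s).eq e).symm.trans (hL i hi)) (h1 a ha)
  have e1 := Br_sum xR pR eR L n cx1 cj1 ε1
    (fun y => sg η * (ε1 y * ind (b (L (cx1 y 0))) * ind (b (L (cx1 y 1))))) UR U1 s1.used B η
    l1 l2 (fun y => by rw [hB' _ (l1 _ _), hB' _ (l1 _ _)]) hU1 l5
    (hit' _ fun i hi => (hit i hi).imp_left And.left)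
  have e2 := Br_sum xR pR eR L n cx2 cj2 ε2
    (fun y => sg η * (ε2 y * ind (b (L (cx2 y 0))) * ind (b (L (cx2 y 1))))) UR U2 s2.used B η
    l3 l4 (fun y => by rw [hB' _ (l3 _ _), hB' _ (l3 _ _)]) hU2 l6
    (hit' _ fun i hi => (hit i hi).imp_left And.right)
  have ek : (kl.map fun q => q.2 * ind (b (L q.1))).sum = kf B kl := by
    unfold kf
    congr 1
    exact List.map_congr_left fun q hq => by rw [bit_eq, hB' _ (l7 q hq)]
  rw [ek]
  set k := sg η * (kf B kl / 2) with hk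
  have c1 : (s1.sc : ℚ) = 2 ^ k1 * 4 ^ s1.used.length := by simp [Sd.sc, hx1]
  have c2 : (s2.sc : ℚ) = 2 ^ k2 * 4 ^ s2.used.length := by simp [Sd.sc, hx2]
  have key : ∀ s : R → Bool, ((s1.val B η (rho0 (rel xR pR fun y => md (eR y) (s y)) L n) : ℤ) : ℚ)
      * s2.sc * (-8) ^ (-k).toNat =
      (s2.val B η (rho0 (rel xR pR fun y => md (eR y) (s y)) L n) : ℤ) * s1.sc * (-8) ^ k.toNat := by
    intro s
    have h0 := h η (Nat.mod B (M + 1)) (Nat.mod_lt _ (Nat.succ_pos _))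
    unfold chk at h0
    rw [forceL_eq] at h0
    have h1 := allL_sound h0 B hB
    rw [cn_eq, Nat.beq_refl, if_pos rfl, forceL_eq] at h1
    have h2 := allR_sound h1 (rel xR pR fun y => md (eR y) (s y)) L
      (fun a => 2 * bk a + cn (b a) 1 0)
      (Cp_iff.mp ((hbk' s).comp₂ (hb' s) fun u v => 2 * u + cn v 1 0))
      (fun i hi => by rw [refine, gt_map_range n _ hi, hL i hi, bit_eq, hB' i hi])
      bk blk (Cp_iff.mp (hbk' s)) hL hcm
      (hev.imp_right fun he g hg => he _ g (Cp_iff.mpr hg))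
    have h5 := of_decide_eq_true h2
    exact_mod_cast h5
  have p1 : (s1.sc : ℚ) ≠ 0 := by rw [c1]; positivity
  have p2 : (s2.sc : ℚ) ≠ 0 := by rw [c2]; positivity
  have p3 : ((-8 : ℚ)) ^ (-k).toNat ≠ 0 := pow_ne_zero _ (by norm_num)
  have e3 : (-8 : ℚ) ^ k * (-8) ^ (-k).toNat = (-8) ^ k.toNat := by
    rw [← zpow_natCast, ← zpow_natCast, ← zpow_add₀ (by norm_num)]
    congr 1; omega
  rw [← c1] at e1
  rw [← c2] at e2
  apply mul_right_cancel₀ (mul_ne_zero (mul_ne_zero p1 p2) p3)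
  have e4 : ∀ u v : ℚ, (-8 : ℚ) ^ k * u * (s1.sc * s2.sc * (-8) ^ (-k).toNat) =
    u * s2.sc * (s1.sc * ((-8 : ℚ) ^ k * (-8) ^ (-k).toNat)) := by intros; ring
  rw [e4 _ 0, e3, e2, mul_assoc (s1.sc : ℚ), ← mul_assoc, e1, sum_mul, sum_mul]
  refine sum_congr rfl fun s _ => ?_
  have k1 := key s
  simp only [Sd.val, frc_eq, mgsK_eq, hx1, hj1, hx2, hj2] at k1
  linear_combination (∏ y, wt (eR y) (s y)) *
    dl ^ mOut (rel xR pR fun y => md (eR y) (s y)) L n UR * k1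

end

end Pool.Agent.MP_97bb71_gt
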