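import Pool.Agent.MP_97bb71_gt.Chk

namespace Pool.Agent.MP_97bb71_gt

def sdD1 : Sd := ⟨[(0, 1, 2, 3, 2), (4, 5, 6, 7, 1), (8, 9, 10, 11, 1), (12, 13, 14, 15, 1)], [],
  [0, 1, 2, 3, 4, 5, 6, 7, 8, 9, 10, 11, 12, 13, 14, 15]⟩

def sdD2 : Sd := ⟨[(0, 5, 2, 7, 2), (4, 1, 6, 3, 1), (8, 9, 10, 11, 0), (12, 13, 14, 15, 0)], [],
  [0, 1, 2, 3, 4, 5, 6, 7, 8, 9, 10, 11, 12, 13, 14, 15]⟩

def blkD : List ℕ := [3, 1, 0, 2, 3, 1, 0, 2, 2, 0, 0, 2, 1, 1, 0, 0]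

def cmD : List ℕ := [0, 0, 0, 0, 17, 17, 17, 17, 17, 17, 17, 2457, 2457, 14779, 14779, 65535]

def srcD : List ℕ := [0, 1, 0, 1, 4, 5, 4, 5, 8, 9, 8, 9, 12, 13, 12, 13]

def klD : List (ℕ × ℤ) := [(12, 1), (13, 1), (8, -1), (9, -1)]

end Pool.Agent.MP_97bb71_gt
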