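import Pool.Agent.MP_97bb71_gt.Cls
import Pool.Agent.MP_97bb71_gt.ChkD0

namespace Pool.Agent.MP_97bb71_gt

theorem chkND : chkN 16 blkD cmD sdD1.used
    [(0, 1), (2, 3), (4, 5), (6, 7), (8, 9), (10, 11), (12, 13), (14, 15)]
    [(0, 5), (2, 7), (4, 1), (6, 3), (8, 10), (9, 11), (12, 14), (13, 15)] 1 1 = true ∧
    chkN 16 blkD cmD sdD1.used
    [(1, 2), (3, 0), (5, 6), (7, 4), (9, 10), (11, 8), (13, 14), (15, 12)]
    [(5, 2), (7, 0), (1, 6), (3, 4), (8, 10), (9, 11), (12, 14), (13, 15)] 1 1 = true := by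
  decide +kernel

end Pool.Agent.MP_97bb71_gt
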