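import Pool.Agent.MP_97bb71_gt.Conn

/-! Generic treatment of local moves. -/

namespace Pool.Agent.MP_97bb71_gt
open Finset

set_option linter.unusedSectionVars false

noncomputable section

section
variable {M M' : Type} [AddCommGroup M] [Module ℚ M] [AddCommGroup M'] [Module ℚ M']

theorem sh_zero {V : M → Prop} {Q : M → ℚ} {V' : M' → Prop} {Q' : M' → ℚ}
    (Φ : M →ₗ[ℚ] M') (Ψ : M' →ₗ[ℚ] M) (hΦ : ∀ z, V z → V' (Φ z) ∧ Q z ≤ Q' (Φ z))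
    (hΨ : ∀ z, V' z → V (Ψ z) ∧ Q' z ≤ Q (Ψ z)) : Sh V Q V' Q' 0 :=
  fun _ => ⟨fun h => h.map Ψ hΨ, fun h => h.map Φ hΦ⟩

theorem sh_one {V : M → Prop} {Q : M → ℚ} {V' : M' → Prop} {Q' : M' → ℚ} (h0 : Q 0 = 0)
    (Φ : M →ₗ[ℚ] M') (u : M') (Ψ : M' →ₗ[ℚ] M) (l : M' →ₗ[ℚ] ℚ)
    (hΦ : ∀ z (t : ℚ), V z → V' (Φ z + t • u) ∧ Q z + t ^ 2 ≤ Q' (Φ z + t • u))
    (hΨ : ∀ z, V' z → l z = 0 → V (Ψ z) ∧ Q' z ≤ Q (Ψ z)) : Sh V Q V' Q' 1 :=
  fun _ => ⟨fun h => (h.ker l).map Ψ fun z hz => hΨ z hz.1 hz.2, fun h => h.succ h0 Φ u hΦ⟩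

end

variable {α Γ X X' P P' R PR : Type} [Fintype X] [Fintype P] [Fintype X'] [Fintype P']
  [Fintype R] [Fintype PR] [DecidableEq Γ]

theorem ind_inS (κ : α → Γ) (S : Finset Γ) (a : α) :
    ind (inS κ S a) = if κ a ∈ S then 1 else 0 := by simp [ind, inS]

theorem hw_of_WW {x : X → Fin 4 → α} {ε : X → ℤ} {o : X → Fin 4 → Bool} {x' : X' → Fin 4 → α}
    {ε' : X' → ℤ} {o' : X' → Fin 4 → Bool} {κ : α → Γ} (L : ℕ → α) (kl : List (ℕ × ℤ))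
    (h : ∀ G G' : Γ → ℤ, W x ε o (fun a => G (κ a)) (fun a => G' (κ a)) -
      W x' ε' o' (fun a => G (κ a)) (fun a => G' (κ a)) =
      (kl.map fun q => q.2 * (G (κ (L q.1)) * G' (κ (L q.1)))).sum) :
    (∀ Y Z, Y ≠ Z → W x ε o (chi κ Y) (chi κ Z) = W x' ε' o' (chi κ Y) (chi κ Z)) ∧
    (∀ S, wr x ε o (inS κ S) - wr x' ε' o' (inS κ S) =
      (kl.map fun q => q.2 * ind (inS κ S (L q.1))).sum / 2) ∧
    wr x ε o (fun _ => true) - wr x' ε' o' (fun _ => true) = (kl.map fun q => q.2).sum / 2 := by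
  refine ⟨fun Y Z hYZ => ?_, fun S => ?_, ?_⟩
  · have := h (fun v => if v = Y then 1 else 0) (fun v => if v = Z then 1 else 0)
    rw [List.sum_eq_zero, sub_eq_zero] at this
    · exact this
    · intro v hv
      obtain ⟨q, _, rfl⟩ := List.mem_map.mp hv
      by_cases h1 : κ (L q.1) = Y
      · simp [h1, hYZ]
      · simp [h1]
  · have := h (fun v => ind (decide (v ∈ S))) (fun v => ind (decide (v ∈ S)))
    simp only [ind_sq] at this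
    have e1 := two_wr x ε o (inS κ S)
    have e2 := two_wr x' ε' o' (inS κ S)
    simp only [inS] at e1 e2 ⊢
    omega
  · have := h (fun _ => 1) (fun _ => 1)
    have e1 := two_wr x ε o (fun _ => true)
    have e2 := two_wr x' ε' o' (fun _ => true)
    simp only [ind, if_true, mul_one] at this e1 e2
    omega

def IV (x : X → Fin 4 → α) (p : P → Fin 2 → α) (d : Dat Γ) : Prop :=
  Inv x p (labs x p) (fun _ => 1) d

def PkS (xR : R → Fin 4 → α) (pR : PR → Fin 2 → α) (x : X → Fin 4 → α) (p : P → Fin 2 → α)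
    (d : Dat Γ) (oR : R → Fin 4 → Bool) (oPR : PR → Bool) (o : X → Fin 4 → Bool) (oP : P → Bool)
    (κ : α → Γ) : Prop :=
  Pk (Sum.elim xR x) (Sum.elim pR p) (labs (Sum.elim xR x) (Sum.elim pR p))
    (Sum.elim (fun _ => 1) fun _ => 1) d (Sum.elim oR o) (Sum.elim oPR oP) κ

def FCS (xR : R → Fin 4 → α) (pR : PR → Fin 2 → α) (oR : R → Fin 4 → Bool) (x : X → Fin 4 → α)
    (p : P → Fin 2 → α) (o : X → Fin 4 → Bool) (z : Fn α) : Prop := FC xR pR oR z ∧ FC x p o z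

def QS (xR : R → Fin 4 → α) (oR : R → Fin 4 → Bool) (x : X → Fin 4 → α) (o : X → Fin 4 → Bool)
    (z : Fn α) : ℚ := Qf xR (fun _ => 1) oR z + Qf x (fun _ => 1) o z

def Core (xR : R → Fin 4 → α) (pR : PR → Fin 2 → α) (x : X → Fin 4 → α) (p : P → Fin 2 → α)
    (d : Dat Γ) (oR : R → Fin 4 → Bool) (oPR : PR → Bool) (o : X → Fin 4 → Bool) (oP : P → Bool)
    (κ : α → Γ) : Prop :=
  PkS xR pR x p d oR oPR o oP κ ∧ SigI (FCS xR pR oR x p o) (QS xR oR x o)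
    (wr xR (fun _ => 1) oR (fun _ => true) + wr x (fun _ => 1) o (fun _ => true) + d.K)

theorem IV_sum {xR : R → Fin 4 → α} {pR : PR → Fin 2 → α} {x : X → Fin 4 → α}
    {p : P → Fin 2 → α} {d : Dat Γ} : IV (Sum.elim xR x) (Sum.elim pR p) d ↔
      ∃ oR oPR o oP κ, Core xR pR x p d oR oPR o oP κ := by
  have e : (fun _ => 1 : R ⊕ X → ℤ) = Sum.elim (fun _ => 1) fun _ => 1 := by
    funext y; cases y <;> rfl
  have e1 : ∀ oR o, FC (Sum.elim xR x) (Sum.elim pR p) (Sum.elim oR o) = FCS xR pR oR x p o :=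
    fun _ _ => funext fun _ => propext FC_sum
  have e2 : ∀ oR o, Qf (Sum.elim xR x) (Sum.elim (fun _ => 1) fun _ => 1) (Sum.elim oR o) =
    QS xR oR x o := fun _ _ => funext fun z => Qf_sum _ _ _ _ _ _ z
  have e3 : ∀ oR o, wr (Sum.elim xR x) (Sum.elim (fun _ => 1) fun _ => 1) (Sum.elim oR o)
      (fun _ => true) = wr xR (fun _ => 1) oR (fun _ => true) +
        wr x (fun _ => 1) o (fun _ => true) := by
    intro oR o; simp only [wr, eS, Fintype.sum_sum_type, Sum.elim_inl, Sum.elim_inr]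
  unfold IV Inv Core PkS
  rw [e]
  constructor
  · rintro ⟨o, oP, κ, h⟩
    rw [← Sum.elim_comp_inl_inr o, ← Sum.elim_comp_inl_inr oP, e1, e2, e3] at h
    exact ⟨_, _, _, _, κ, h⟩
  · rintro ⟨oR, oPR, o, oP, κ, h⟩
    rw [← e1, ← e2, ← e3] at h
    exact ⟨_, _, κ, h⟩

theorem IV_reindex {x : X → Fin 4 → α} {p : P → Fin 2 → α} {d : Dat Γ} (σ : X' ≃ X)
    (τ : P' ≃ P) : IV (fun y => x (σ y)) (fun y => p (τ y)) d ↔ IV x p d := by
  constructor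
  · intro h
    have := Inv.reindex h σ.symm τ.symm
    simp only [Equiv.apply_symm_apply, labs_reindex] at this
    exact this
  · intro h
    have := Inv.reindex h σ τ
    rw [← labs_reindex x p σ τ] at this
    exact this

theorem add_x (D : Diagram) {k l : ℕ} (x : Fin k → Fin 4 → ℕ) (p : Fin l → Fin 2 → ℕ) :
    (fun y => (D.add x p).x (finSumFinEquiv y)) = Sum.elim D.x x := by
  funext y; cases y <;> simp [Diagram.add]

theorem add_p (D : Diagram) {k l : ℕ} (x : Fin k → Fin 4 → ℕ) (p : Fin l → Fin 2 → ℕ) :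
    (fun y => (D.add x p).p (finSumFinEquiv y)) = Sum.elim D.p p := by
  funext y; cases y <;> simp [Diagram.add]

theorem IV_add (D : Diagram) {k l : ℕ} (x : Fin k → Fin 4 → ℕ) (p : Fin l → Fin 2 → ℕ)
    {d : Dat Γ} : IV (D.add x p).x (D.add x p).p d ↔
      ∃ oR oPR o oP κ, Core D.x D.p x p d oR oPR o oP κ := by
  rw [← IV_sum, ← add_x D x p, ← add_p D x p]
  exact (IV_reindex finSumFinEquiv finSumFinEquiv).symm

def SideOK {k l : ℕ} (nb n : ℕ) (s : Sd) (cx : Fin k → Fin 4 → ℕ) (cj : Fin l → Fin 2 → ℕ) :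
    Prop :=
  s.xs = List.ofFn (fun y => (cx y 0, cx y 1, cx y 2, cx y 3, 1)) ∧
  s.js = List.ofFn (fun y => (cj y 0, cj y 1)) ∧ (∀ y j, cx y j ∈ s.used) ∧
  (∀ y j, cj y j ∈ s.used) ∧
  (∀ i ∈ s.used, i < n ∧ ((∃ y j, cx y j = i) ∨ ∃ y j, cj y j = i)) ∧ ∀ i < nb, i ∈ s.used

instance {k l : ℕ} (nb n : ℕ) (s : Sd) (cx : Fin k → Fin 4 → ℕ) (cj : Fin l → Fin 2 → ℕ) :
    Decidable (SideOK nb n s cx cj) := by unfold SideOK; infer_instance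

theorem SideOK.labs {k l nb n : ℕ} {s : Sd} {cx : Fin k → Fin 4 → ℕ} {cj : Fin l → Fin 2 → ℕ}
    (h : SideOK nb n s cx cj) (xR : R → Fin 4 → α) (pR : PR → Fin 2 → α) (L : ℕ → α) (a : α) :
    a ∈ labs (Sum.elim xR fun y j => L (cx y j)) (Sum.elim pR fun y j => L (cj y j)) ↔
      a ∈ labs xR pR ∨ ∃ i ∈ s.used, L i = a := by
  obtain ⟨_, _, h1, h2, h3, _⟩ := h
  simp only [mem_labs, Sum.exists, Sum.elim_inl, Sum.elim_inr]
  constructor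
  · rintro ((h | ⟨y, j, h⟩) | h | ⟨y, j, h⟩)
    · exact Or.inl (Or.inl h)
    · exact Or.inr ⟨_, h1 y j, h⟩
    · exact Or.inl (Or.inr h)
    · exact Or.inr ⟨_, h2 y j, h⟩
  · rintro ((h | h) | ⟨i, hi, rfl⟩)
    · exact Or.inl (Or.inl h)
    · exact Or.inr (Or.inl h)
    · rcases (h3 i hi).2 with ⟨y, j, rfl⟩ | ⟨y, j, rfl⟩
      · exact Or.inl (Or.inr ⟨y, j, rfl⟩)
      · exact Or.inr (Or.inr ⟨y, j, rfl⟩)

def blkR (nb n : ℕ) : List ℕ := (List.range n).map fun i => i + 1 - nb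

def bkR (new : List ℕ) (a : ℕ) : ℕ := if a ∈ new then new.idxOf a + 1 else 0

theorem bkR_L {old new : List ℕ} (h1 : new.Nodup) (h2 : ∀ e ∈ new, e ∉ old) {i : ℕ}
    (hi : i < old.length + new.length) :
    bkR new (gt (old ++ new) i) = gt (blkR old.length (old.length + new.length)) i := by
  rw [blkR, gt_map_range _ _ hi, gt_eq, bkR]
  by_cases h : i < old.length
  · rw [List.getD_append _ _ _ _ h, if_neg, Nat.sub_eq_zero_of_le h]
    intro hm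
    exact h2 _ hm (by rw [List.getD_eq_getElem _ _ h]; exact List.getElem_mem h)
  · have h3 : i - old.length < new.length := by omega
    rw [List.getD_append_right _ _ _ _ (by omega), List.getD_eq_getElem _ _ h3,
      if_pos (List.getElem_mem h3), h1.idxOf_getElem]
    omega

theorem core_iff {k1 l1 k2 l2 : ℕ} (D : Diagram) (old new : List ℕ) (hfr : D.Fresh new old)
    (nb n : ℕ) (src : List ℕ) (s1 s2 : Sd) (kl : List (ℕ × ℤ))
    (cx1 : Fin k1 → Fin 4 → ℕ) (cj1 : Fin l1 → Fin 2 → ℕ)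
    (cx2 : Fin k2 → Fin 4 → ℕ) (cj2 : Fin l2 → Fin 2 → ℕ) (i j : ℕ)
    (hchk : chk n (blkR nb n) [] src s1 s2 kl 1 0 true = true ∧
      chk n (blkR nb n) [] src s1 s2 kl 1 0 false = true)
    (hdec : SideOK nb n s1 cx1 cj1 ∧ SideOK nb n s2 cx2 cj2 ∧ (∀ q ∈ kl, q.1 < n) ∧
      (∀ i < n, gt src i ≤ i) ∧ (j : ℤ) - i = (kl.map fun q => q.2).sum / 2)
    (hnb : nb = old.length) (hn : n = old.length + new.length)
    {x1 : Fin k1 → Fin 4 → ℕ} {p1 : Fin l1 → Fin 2 → ℕ} {x2 : Fin k2 → Fin 4 → ℕ}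
    {p2 : Fin l2 → Fin 2 → ℕ} (hx1 : x1 = fun y j => gt (old ++ new) (cx1 y j))
    (hp1 : p1 = fun y j => gt (old ++ new) (cj1 y j))
    (hx2 : x2 = fun y j => gt (old ++ new) (cx2 y j))
    (hp2 : p2 = fun y j => gt (old ++ new) (cj2 y j))
    {d : Dat Γ} {oR : Fin D.n → Fin 4 → Bool} {oPR : Fin D.m → Bool}
    {o1 : Fin k1 → Fin 4 → Bool} {oP1 : Fin l1 → Bool} {o2 : Fin k2 → Fin 4 → Bool}
    {oP2 : Fin l2 → Bool} {κ : ℕ → Γ} (ho1 : Ori o1) (ho2 : Ori o2)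
    (hf : ∀ g, flow x2 p2 o2 oP2 g = flow x1 p1 o1 oP1 g)
    (hk1 : Cp x1 p1 (fun _ => .S) κ) (hk2 : Cp x2 p2 (fun _ => .S) κ)
    (hsrc : ∀ i < n, κ (gt (old ++ new) (gt src i)) = κ (gt (old ++ new) i))
    (hWW : ∀ G G' : Γ → ℤ, W x1 (fun _ => 1) o1 (fun a => G (κ a)) (fun a => G' (κ a)) -
      W x2 (fun _ => 1) o2 (fun a => G (κ a)) (fun a => G' (κ a)) =
      (kl.map fun q => q.2 * (G (κ (gt (old ++ new) q.1)) * G' (κ (gt (old ++ new) q.1)))).sum)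
    (hsh : PkS D.x D.p x1 p1 d oR oPR o1 oP1 κ → PkS D.x D.p x2 p2 d oR oPR o2 oP2 κ →
      Sh (FCS D.x D.p oR x1 p1 o1) (QS D.x oR x1 o1) (FCS D.x D.p oR x2 p2 o2) (QS D.x oR x2 o2) i ∧
      Sh (FCS D.x D.p oR x1 p1 o1) (fun z => -QS D.x oR x1 o1 z) (FCS D.x D.p oR x2 p2 o2)
        (fun z => -QS D.x oR x2 o2 z) j) :
    Core D.x D.p x1 p1 d oR oPR o1 oP1 κ ↔ Core D.x D.p x2 p2 d oR oPR o2 oP2 κ := by
  obtain ⟨hs1, hs2, hkl, hsr, hij⟩ := hdec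
  obtain ⟨w1, w2, w3⟩ := hw_of_WW (gt (old ++ new)) kl hWW
  have hz : ∀ a ∈ labs D.x D.p, bkR new a = 0 := by
    intro a ha
    obtain ⟨q, rfl⟩ := (D.mem_labs' a).mp ha
    exact if_neg fun hm => (hfr.2 _ hm).2 q rfl
  have hB : Cp D.x D.p (fun _ => .S) κ → ∀ S η, Br (Sum.elim D.x x1) (Sum.elim D.p p1)
      (labs (Sum.elim D.x x1) (Sum.elim D.p p1))
      (Sum.elim (fun y => sg η * eS D.x (fun _ => 1) (inS κ S) y)
        fun y => sg η * eS x1 (fun _ => 1) (inS κ S) y) =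
      (-8 : ℚ) ^ (sg η * ((kl.map fun q => q.2 * ind (inS κ S (gt (old ++ new) q.1))).sum / 2)) *
      Br (Sum.elim D.x x2) (Sum.elim D.p p2) (labs (Sum.elim D.x x2) (Sum.elim D.p p2))
      (Sum.elim (fun y => sg η * eS D.x (fun _ => 1) (inS κ S) y)
        fun y => sg η * eS x2 (fun _ => 1) (inS κ S) y) := by
    intro hk S η
    subst hx1 hp1 hx2 hp2
    refine Br_move D.x D.p (fun _ => 1) (gt (old ++ new)) n (blkR nb n) [] src s1 s2 kl 0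
      (fun η r hr => ?_) (fun i _ v _ hv => by simp [gt] at hv) cx1 cj1 (fun _ => 1) cx2 cj2
      (fun _ => 1) hs1.1 hs1.2.1 hs2.1 hs2.2.1
      ⟨fun y j => (hs1.2.2.2.2.1 _ (hs1.2.2.1 y j)).1, fun y j => (hs1.2.2.2.2.1 _ (hs1.2.2.2.1 y j)).1,
        fun y j => (hs2.2.2.2.2.1 _ (hs2.2.2.1 y j)).1,
        fun y j => (hs2.2.2.2.2.1 _ (hs2.2.2.2.1 y j)).1, fun i hi => (hs1.2.2.2.2.1 i hi).1,
        fun i hi => (hs2.2.2.2.2.1 i hi).1, hkl, hsr⟩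
      (labs D.x D.p) _ _ (hs1.labs _ _ _) (hs2.labs _ _ _) (bkR new) ?_ ?_ ?_ (Or.inl rfl)
      (inS κ S) (hk.comp fun v => decide (v ∈ S)) (fun i hi => by simp only [inS, hsrc i hi]) η
    · obtain rfl : r = 0 := by omega
      cases η
      exacts [hchk.2, hchk.1]
    · refine Cp_iff.mpr ?_
      rintro a b (⟨y, q, _, rfl, rfl⟩ | ⟨j, rfl, rfl⟩) <;> rw [hz, hz] <;> first
        | exact mem_labs.mpr (Or.inl ⟨_, _, rfl⟩)
        | exact mem_labs.mpr (Or.inr ⟨_, _, rfl⟩)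
    · intro i hi
      rw [hn, hnb]
      exact bkR_L hfr.1 (fun e he => (hfr.2 e he).1) (hn ▸ hi)
    · intro i hi
      by_cases h : i < nb
      · exact Or.inl ⟨hs1.2.2.2.2.2 i h, hs2.2.2.2.2.2 i h⟩
      · refine Or.inr fun a ha => ?_
        rw [hz a ha, blkR, gt_map_range _ _ hi]; omega
  have hP : PkS D.x D.p x1 p1 d oR oPR o1 oP1 κ ↔ PkS D.x D.p x2 p2 d oR oPR o2 oP2 κ := by
    constructor
    · intro h
      exact Pk.move h ho2 hf hk2 _ w1 w2 (hB (Cp_sum_S.mp h.kap).1)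
    · intro h
      refine Pk.move h ho1 (fun g => (hf g).symm) hk1
        (fun S => -((kl.map fun q => q.2 * ind (inS κ S (gt (old ++ new) q.1))).sum / 2))
        (fun Y Z h => (w1 Y Z h).symm) (fun S => by rw [← w2 S]; ring) fun S η => ?_
      rw [hB (Cp_sum_S.mp h.kap).1, ← mul_assoc, ← zpow_add₀ (by norm_num)]
      simp
  unfold Core
  constructor
  · rintro ⟨h1, h2⟩
    obtain ⟨h3, h4⟩ := hsh h1 (hP.mp h1)
    exact ⟨hP.mp h1, (SigI_shift h3 h4 ⟨FC_zero _ _ _, FC_zero _ _ _⟩ (by omega)).mp h2⟩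
  · rintro ⟨h1, h2⟩
    obtain ⟨h3, h4⟩ := hsh (hP.mpr h1) h1
    exact ⟨hP.mpr h1, (SigI_shift h3 h4 ⟨FC_zero _ _ _, FC_zero _ _ _⟩ (by omega)).mpr h2⟩

theorem Core.kap {xR : R → Fin 4 → α} {pR : PR → Fin 2 → α} {x : X → Fin 4 → α}
    {p : P → Fin 2 → α} {d : Dat Γ} {oR : R → Fin 4 → Bool} {oPR : PR → Bool}
    {o : X → Fin 4 → Bool} {oP : P → Bool} {κ : α → Γ} (h : Core xR pR x p d oR oPR o oP κ) :
    Cp x p (fun _ => .S) κ := (Cp_sum_S.mp h.1.kap).2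

theorem Core.ori {xR : R → Fin 4 → α} {pR : PR → Fin 2 → α} {x : X → Fin 4 → α}
    {p : P → Fin 2 → α} {d : Dat Γ} {oR : R → Fin 4 → Bool} {oPR : PR → Bool}
    {o : X → Fin 4 → Bool} {oP : P → Bool} {κ : α → Γ} (h : Core xR pR x p d oR oPR o oP κ) :
    Ori o := fun y => h.1.ori (.inr y)

theorem Core.upd {D : Diagram} {old new : List ℕ} (hfr : D.Fresh new old) {x : X → Fin 4 → ℕ}
    {p : P → Fin 2 → ℕ} {d : Dat Γ} {oR : Fin D.n → Fin 4 → Bool} {oPR : Fin D.m → Bool}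
    {o : X → Fin 4 → Bool} {oP : P → Bool} {κ : ℕ → Γ} (h : Core D.x D.p x p d oR oPR o oP κ)
    (hx : ∀ y j, x y j ∈ old) (hp : ∀ y j, p y j ∈ old) (κ' : ℕ → Γ)
    (hκ : ∀ a, a ∉ new → κ' a = κ a) : Core D.x D.p x p d oR oPR o oP κ' := by
  refine ⟨Pk.congr_kap h.1 ?_ ?_, h.2⟩
  · rintro (y | y) j
    · exact hκ _ fun hm => (hfr.2 _ hm).2 (.inl (y, j)) rfl
    · exact hκ _ fun hm => (hfr.2 _ hm).1 (hx y j)
  · rintro (y | y) j
    · exact hκ _ fun hm => (hfr.2 _ hm).2 (.inr (y, j)) rfl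
    · exact hκ _ fun hm => (hfr.2 _ hm).1 (hp y j)

theorem Core.int {D : Diagram} {old new : List ℕ} (hfr : D.Fresh new old) {x : X → Fin 4 → ℕ}
    {p : P → Fin 2 → ℕ} {d : Dat Γ} {oR : Fin D.n → Fin 4 → Bool} {oPR : Fin D.m → Bool}
    {o : X → Fin 4 → Bool} {oP : P → Bool} {κ : ℕ → Γ} (h : Core D.x D.p x p d oR oPR o oP κ)
    {e : ℕ} (he : e ∈ new) : flow x p o oP (fun a => if a = e then 1 else 0) = 0 := by
  have h1 := h.1.bal fun a => if a = e then 1 else 0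
  have h2 : ∀ y j, D.x y j ≠ e := fun y j => (hfr.2 e he).2 (.inl (y, j))
  have h3 : ∀ y j, D.p y j ≠ e := fun y j => (hfr.2 e he).2 (.inr (y, j))
  rw [flow_sum] at h1
  simpa [flow, h2, h3] using h1

theorem rest_congr {D : Diagram} {old new : List ℕ} (hfr : D.Fresh new old)
    (oR : Fin D.n → Fin 4 → Bool) {z z' : Fn ℕ} (h : ∀ a, a ∉ new → z' a = z a) :
    (FC D.x D.p oR z → FC D.x D.p oR z') ∧
      Qf D.x (fun _ => 1) oR z' = Qf D.x (fun _ => 1) oR z := by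
  have h2 : ∀ y j, z' (D.x y j) = z (D.x y j) :=
    fun y j => h _ fun hm => (hfr.2 _ hm).2 (.inl (y, j)) rfl
  exact ⟨fun h1 => FC_congr h1 h2 fun y j => h _ fun hm => (hfr.2 _ hm).2 (.inr (y, j)) rfl,
    Qf_congr _ _ _ h2⟩

theorem sh_iso {D : Diagram} {old new : List ℕ} (hfr : D.Fresh new old)
    (oR : Fin D.n → Fin 4 → Bool) {x1 : X → Fin 4 → ℕ} {p1 : P → Fin 2 → ℕ}
    {o1 : X → Fin 4 → Bool} {x2 : X' → Fin 4 → ℕ} {p2 : P' → Fin 2 → ℕ} {o2 : X' → Fin 4 → Bool}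
    (Φ Ψ : Fn ℕ →ₗ[ℚ] Fn ℕ) (hΦ : ∀ z a, a ∉ new → Φ z a = z a)
    (hΨ : ∀ z a, a ∉ new → Ψ z a = z a)
    (h1 : ∀ z, FC x1 p1 o1 z → FC x2 p2 o2 (Φ z) ∧
      Qf x2 (fun _ => 1) o2 (Φ z) = Qf x1 (fun _ => 1) o1 z)
    (h2 : ∀ z, FC x2 p2 o2 z → FC x1 p1 o1 (Ψ z) ∧
      Qf x1 (fun _ => 1) o1 (Ψ z) = Qf x2 (fun _ => 1) o2 z) :
    Sh (FCS D.x D.p oR x1 p1 o1) (QS D.x oR x1 o1) (FCS D.x D.p oR x2 p2 o2) (QS D.x oR x2 o2) 0 ∧
      Sh (FCS D.x D.p oR x1 p1 o1) (fun z => -QS D.x oR x1 o1 z) (FCS D.x D.p oR x2 p2 o2)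
        (fun z => -QS D.x oR x2 o2 z) 0 := by
  constructor <;> refine sh_zero Φ Ψ (fun z hz => ?_) (fun z hz => ?_)
  all_goals first
    | exact ⟨⟨(rest_congr hfr oR (hΦ z)).1 hz.1, (h1 z hz.2).1⟩, by
        simp only [QS, (rest_congr hfr oR (hΦ z)).2, (h1 z hz.2).2, le_refl]⟩
    | exact ⟨⟨(rest_congr hfr oR (hΨ z)).1 hz.1, (h2 z hz.2).1⟩, by
        simp only [QS, (rest_congr hfr oR (hΨ z)).2, (h2 z hz.2).2, le_refl]⟩

end

end Pool.Agent.MP_97bb71_gt
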