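import Pool.Agent.MP_97bb71_gt.Val
import Pool.Agent.MP_97bb71_gt.MoveG

/-! The class of abstract almost alternating diagrams. -/

namespace Pool.Agent.MP_97bb71_gt
open Finset

set_option linter.unusedSectionVars false

noncomputable section

variable {α Γ X X' P P' : Type} [Fintype α] [Fintype X] [Fintype P] [Fintype X'] [Fintype P']
  [DecidableEq X] [DecidableEq X'] [DecidableEq Γ]

def actv (ε : X → ℤ) : Finset X := univ.filter fun y => ε y ≠ 0

theorem act_eq (ε : X → ℤ) (m : Md) : act ε m = mF (actv ε) (fun _ => .S) m := by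
  funext y; by_cases h : ε y = 0 <;> simp [act, mF, actv, h]

def Cl (x : X → Fin 4 → α) (p : P → Fin 2 → α) (ε : X → ℤ) (d : Dat Γ) : Prop :=
  ∃ o oP κ, Pk x p univ ε d o oP κ ∧ ((∃ y, ε y = -1) →
    |(N x p univ (act ε .U) : ℤ) - N x p univ (act ε .V) - wr x ε o (fun _ => true) - d.K| ≤ 2)

structure Cls (x : X → Fin 4 → α) (p : P → Fin 2 → α) (ε : X → ℤ) (d1 d2 : Dat Γ) : Prop where
  eps : ∀ y, ε y = 0 ∨ ε y = 1 ∨ ε y = -1
  uniq : ∀ y z, ε y = -1 → ε z = -1 → y = z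
  eul : (actv ε).card + 2 ≤ N x p univ (act ε .U) + N x p univ (act ε .V)
  c1 : Cl x p ε d1
  c2 : Cl x p ε d2

variable {x : X → Fin 4 → α} {p : P → Fin 2 → α} {ε : X → ℤ} {d d1 d2 : Dat Γ}

theorem Cls.hs (h : Cls x p ε d1 d2) : HS x p := by
  obtain ⟨o, oP, κ, h1, _⟩ := h.c1
  exact HS_of_flow h1.bal

theorem Cls.eul' [Fintype Γ] (h : Cls x p ε d1 d2) (hc : Conn d1) :
    (actv ε).card + 2 * N x p univ (mF (actv ε) (fun _ => .S) .C) ≤
      N x p univ (mF (actv ε) (fun _ => .S) .U) + N x p univ (mF (actv ε) (fun _ => .S) .V) := by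
  obtain ⟨o, oP, κ, h1, _⟩ := h.c1
  have := h1.N_conn hc fun _ _ => mem_univ _
  have := h.eul
  simp only [← act_eq]
  omega

theorem Cls.t1 [Fintype Γ] (h : Cls x p ε d1 d2) (hc : Conn d1) {m m' : Md} (hm : UV m m')
    {A : Finset X} (hA : ∀ y ∈ A, ε y ≠ 0) (hD : Dep x p ε m A) :
    ∃ φ, Cp x p (act ε m') φ ∧ ∀ y, ε y ≠ 0 → dd x φ y = if y ∈ A then 1 else 0 := by
  have he := h.eul' hc
  obtain ⟨φ, h1, h2⟩ := T1 h.hs (actv ε) (fun _ => .S) hm
    (by rcases hm with ⟨rfl, rfl⟩ | ⟨rfl, rfl⟩ <;> omega) (fun y => if y ∈ A then 1 else 0) (by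
      intro ψ hψ
      refine Eq.trans ?_ (hD ψ (by rwa [act_eq]))
      simp only [mul_ite, mul_one, mul_zero]
      rw [← sum_filter]
      congr 1
      ext y
      simpa [actv] using hA y)
  exact ⟨φ, by rwa [act_eq], fun y hy => h2 y (by simpa [actv] using hy)⟩

theorem Cl.reindex (h : Cl x p ε d) (σ : X' ≃ X) (τ : P' ≃ P) :
    Cl (fun y => x (σ y)) (fun y => p (τ y)) (fun y => ε (σ y)) d := by
  obtain ⟨o, oP, κ, h1, h2⟩ := h
  refine ⟨_, _, κ, h1.reindex σ τ, fun ⟨y, hy⟩ => ?_⟩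
  rw [wr_reindex]
  erw [N_reindex univ (μ := act ε .U), N_reindex univ (μ := act ε .V)]
  exact h2 ⟨_, hy⟩

theorem card_actv_reindex (ε : X → ℤ) (σ : X' ≃ X) :
    (actv fun y => ε (σ y)).card = (actv ε).card :=
  card_equiv σ (by simp [actv])

theorem Cls.reindex (h : Cls x p ε d1 d2) (σ : X' ≃ X) (τ : P' ≃ P) :
    Cls (fun y => x (σ y)) (fun y => p (τ y)) (fun y => ε (σ y)) d1 d2 := by
  refine ⟨fun y => h.eps _, fun y z h1 h2 => σ.injective (h.uniq _ _ h1 h2), ?_,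
    h.c1.reindex σ τ, h.c2.reindex σ τ⟩
  rw [card_actv_reindex]
  erw [N_reindex univ (μ := act ε .U), N_reindex univ (μ := act ε .V)]
  exact h.eul

theorem Cp_act_pm {β : Type} (k : X → Fin 4) (r : Bool) (m : Md) (g : α → β) :
    Cp (fun y j => x y (pm (k y) r j)) p (act ε (sw r m)) g ↔ Cp x p (act ε m) g := by
  rw [← Cp_pm k (fun _ => r) (μ := act ε m)]
  have : act ε (sw r m) = fun y => sw r (act ε m y) := by
    funext y; unfold act; split_ifs <;> rfl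
  rw [this]

theorem N_act_pm (k : X → Fin 4) (r : Bool) (m : Md) :
    N (fun y j => x y (pm (k y) r j)) p univ (act ε (sw r m)) = N x p univ (act ε m) :=
  N_congr _ fun _ g => Cp_act_pm k r m g

theorem dd_pm (k : X → Fin 4) (r : Bool) {μ : X → Md} {φ : α → ZMod 2} (h : Cp x p μ φ) (y : X) :
    dd (fun y j => x y (pm (k y) r j)) φ y = dd x φ y := by
  have := cp_sum (h.1 y)
  rw [Fin.sum_univ_four] at this
  simp only [dd]
  generalize k y = k
  fin_cases k <;> cases r <;> simp [pm, add_comm] <;> revert this <;>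
    generalize φ (x y 0) = a, φ (x y 1) = b, φ (x y 2) = c, φ (x y 3) = d <;> revert a b c d <;>
    decide

theorem Dep_pm (k : X → Fin 4) (r : Bool) (m : Md) (A : Finset X) :
    Dep (fun y j => x y (pm (k y) r j)) p ε (sw r m) A ↔ Dep x p ε m A := by
  refine forall_congr' fun φ => ?_
  rw [Cp_act_pm]
  exact imp_congr_right fun h => by simp only [dd_pm k r h]

theorem Cl.klein (h : Cl x p ε d) (k : X → Fin 4) :
    Cl (fun y j => x y (pm (k y) false j)) p ε d := by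
  obtain ⟨o, oP, κ, h1, h2⟩ := h
  have h3 := h1.pm k fun _ => false
  have h4 := wr_pm ε h1.ori (h1.kap.comp fun _ => true) k fun _ => false
  simp only [Bool.not_false, sg, if_true, one_mul] at h3 h4
  refine ⟨_, _, κ, h3, fun hy => ?_⟩
  rw [h4]
  erw [N_act_pm k false .U, N_act_pm k false .V]
  exact h2 hy

theorem Cls.klein (h : Cls x p ε d1 d2) (k : X → Fin 4) :
    Cls (fun y j => x y (pm (k y) false j)) p ε d1 d2 := by
  refine ⟨h.eps, h.uniq, ?_, h.c1.klein k, h.c2.klein k⟩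
  erw [N_act_pm k false .U, N_act_pm k false .V]
  exact h.eul

theorem Cl.mir (h : Cl x p ε d) : Cl (fun y j => x y (pm 0 true j)) p ε d.mir := by
  obtain ⟨o, oP, κ, h1, h2⟩ := h
  have h3 := h1.neg.pm (fun _ => 0) fun _ => true
  have h4 := wr_pm (fun y => -ε y) h1.ori (h1.kap.comp fun _ => true) (fun _ => 0) fun _ => true
  simp only [Bool.not_true, sg, Bool.false_eq_true, if_false, neg_mul, mul_neg, one_mul,
    neg_neg] at h3 h4
  refine ⟨_, _, κ, h3, fun hy => ?_⟩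
  have e : wr x (fun y => -ε y) o (fun _ => true) = -wr x ε o (fun _ => true) := by
    simp [wr, eS]
  rw [h4, e]
  erw [N_act_pm (fun _ => 0) true .V, N_act_pm (fun _ => 0) true .U]
  have := h2 hy
  rw [← abs_neg] at this
  convert this using 2
  simp only [Dat.mir]; ring

theorem Cls.mir (h : Cls x p ε d1 d2) :
    Cls (fun y j => x y (pm 0 true j)) p ε d2.mir d1.mir := by
  refine ⟨h.eps, h.uniq, ?_, h.c2.mir, h.c1.mir⟩
  erw [N_act_pm (fun _ => 0) true .V, N_act_pm (fun _ => 0) true .U]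
  rw [add_comm (N _ _ _ _)]
  exact h.eul

theorem flow_zero {o : X → Fin 4 → Bool} (oP : P → Bool) (ho : Ori o) {g : α → ℤ}
    (hg : Cp x p (fun _ => .S) g) : flow x p o oP g = 0 := by
  unfold flow
  rw [sum_eq_zero, sum_eq_zero, add_zero]
  · intro j _; rw [hg.2 j]; simp
  · intro y _
    obtain ⟨h1, h2⟩ := hg.1 y
    simp only at h1 h2
    rw [Fin.sum_univ_four, (ho y).1, (ho y).2, sg_not, sg_not, h1, h2]; ring

theorem exists_split {k : ℕ} (ι : Fin k → X) (hι : Function.Injective ι) :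
    ∃ σ : {y // y ∉ Set.range ι} ⊕ Fin k ≃ X, (∀ y, σ (.inl y) = y) ∧ ∀ i, σ (.inr i) = ι i := by
  classical
  exact ⟨(Equiv.sumCongr (Equiv.refl _) (Equiv.ofInjective ι hι)).trans
    ((Equiv.sumComm _ _).trans (Equiv.sumCompl fun y => y ∈ Set.range ι)), fun _ => rfl,
    fun _ => rfl⟩

def prs {k : ℕ} (cx : Fin k → Fin 4 → ℕ) (μ : Fin k → Md) : List (ℕ × ℕ) :=
  (List.ofFn fun y => (mp (μ y)).map fun q => (cx y q.1, cx y q.2)).flatten

def chkN (n : ℕ) (blk cm used : List ℕ) (ps1 ps2 : List (ℕ × ℕ)) (a b : ℕ) : Bool :=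
  allR blk cm (fun ρ => mgsK ps1 ρ fun ρ1 => mgsK ps2 ρ fun ρ2 =>
    frc (cnt ρ1 used) fun c1 => frc (cnt ρ2 used) fun c2 =>
      an (Nat.ble (c2 + a) c1) (Nat.ble c1 (c2 + b))) n 0 [] [] 0

theorem red {R : Type} [Fintype R] [DecidableEq R] {k : ℕ} {xR : R → Fin 4 → α} {εR : R → ℤ}
    (L : ℕ → α) (n : ℕ) (blk cm src : List ℕ) (s1 s2 : Sd) (kl : List (ℕ × ℤ)) (M : ℕ)
    (cx1 cx2 : Fin k → Fin 4 → ℕ) (ε1 ε2 : Fin k → ℤ) (aU bU aV bV : ℕ)
    (pU1 pU2 pV1 pV2 : List (ℕ × ℕ))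
    (hchk : ∀ η, ∀ r < M + 1, chk n blk cm src s1 s2 kl (M + 1) r η = true)
    (hN : chkN n blk cm s1.used pU1 pU2 aU bU = true ∧ chkN n blk cm s1.used pV1 pV2 aV bV = true)
    (hdec : CmOK n blk cm ∧
      s1.xs = List.ofFn (fun y => (cx1 y 0, cx1 y 1, cx1 y 2, cx1 y 3, cd (ε1 y))) ∧
      s2.xs = List.ofFn (fun y => (cx2 y 0, cx2 y 1, cx2 y 2, cx2 y 3, cd (ε2 y))) ∧
      s1.js = [] ∧ s2.js = [] ∧ s1.used = List.range n ∧ s2.used = List.range n ∧
      (∀ y j, cx1 y j < n) ∧ (∀ y j, cx2 y j < n) ∧ (∀ q ∈ kl, q.1 < n) ∧ (∀ i < n, gt src i ≤ i) ∧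
      pU1 = prs cx1 (act ε1 .U) ∧ pU2 = prs cx2 (act ε2 .U) ∧ pV1 = prs cx1 (act ε1 .V) ∧
      pV2 = prs cx2 (act ε2 .V))
    (hsum : ∀ g : ℕ → ZMod 2, ∑ y, ∑ j, g (cx1 y j) = ∑ i ∈ range n, g i)
    (bk : α → ℕ) (hbk : Cp xR p (act εR .C) bk) (hL : ∀ i < n, bk (L i) = gt blk i)
    (T : (Fin k → Fin 4 → Bool) → Fin k → Fin 4 → Bool) (hT : ∀ o, Ori o → Ori (T o))
    (hf : ∀ o (g : ℕ → ℤ), ∑ y, ∑ j, g (cx2 y j) * sg (T o y j) = ∑ y, ∑ j, g (cx1 y j) * sg (o y j))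
    (hk : ∀ κ : ℕ → Γ, Cp cx1 (![] : Fin 0 → Fin 2 → ℕ) (fun _ => .S) κ →
      Cp cx2 (![] : Fin 0 → Fin 2 → ℕ) (fun _ => .S) κ ∧ ∀ i < n, κ (gt src i) = κ i)
    (hWW : ∀ o (g g' : ℕ → ℤ), Ori o → Cp cx1 (![] : Fin 0 → Fin 2 → ℕ) (fun _ => .S) g →
      Cp cx1 (![] : Fin 0 → Fin 2 → ℕ) (fun _ => .S) g' →
      (∀ v, ∑ y, ∑ j, (if gt blk (cx1 y j) = v then g (cx1 y j) else 0) * sg (o y j) = 0) →
      (∀ v, ∑ y, ∑ j, (if gt blk (cx1 y j) = v then g' (cx1 y j) else 0) * sg (o y j) = 0) →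
      W cx1 ε1 o g g' - W cx2 ε2 (T o) g g' = (kl.map fun q => q.2 * (g q.1 * g' q.1)).sum)
    (hs : HS (Sum.elim xR fun y j => L (cx1 y j)) (Sum.elim p (![] : Fin 0 → Fin 2 → α))) :
    ∃ U1 U2 V1 V2 : ℕ, U2 + aU ≤ U1 ∧ U1 ≤ U2 + bU ∧ V2 + aV ≤ V1 ∧ V1 ≤ V2 + bV ∧
      N (Sum.elim xR fun y j => L (cx1 y j)) (Sum.elim p ![]) univ
        (act (Sum.elim εR ε1) .U) = U1 ∧
      N (Sum.elim xR fun y j => L (cx1 y j)) (Sum.elim p ![]) univ
        (act (Sum.elim εR ε1) .V) = V1 ∧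
      N (Sum.elim xR fun y j => L (cx2 y j)) (Sum.elim p ![]) univ
        (act (Sum.elim εR ε2) .U) = U2 ∧
      N (Sum.elim xR fun y j => L (cx2 y j)) (Sum.elim p ![]) univ
        (act (Sum.elim εR ε2) .V) = V2 ∧
      ∀ (d : Dat Γ) o oP κ, Pk (Sum.elim xR fun y j => L (cx1 y j)) (Sum.elim p ![]) univ
        (Sum.elim εR ε1) d o oP κ → ∃ o', Pk (Sum.elim xR fun y j => L (cx2 y j))
          (Sum.elim p ![]) univ (Sum.elim εR ε2) d o' oP κ ∧
        wr (Sum.elim xR fun y j => L (cx1 y j)) (Sum.elim εR ε1) o (fun _ => true) =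
          wr (Sum.elim xR fun y j => L (cx2 y j)) (Sum.elim εR ε2) o' (fun _ => true) +
            (kl.map fun q => q.2).sum / 2 := by
  obtain ⟨hcm, hx1, hx2, hj1, hj2, hu1, hu2, l1, l2, l3, l4, q1, q2, q3, q4⟩ := hdec
  have ep : (![] : Fin 0 → Fin 2 → α) = fun y j => L ((![] : Fin 0 → Fin 2 → ℕ) y j) :=
    funext fun y => y.elim0
  have hev : ∀ μ (g : α → ZMod 2), Cp xR p μ g → ∑ i ∈ range n, g (L i) = 0 := by
    intro μ g hg
    have := hs g (by rintro (j | j); exacts [hg.2 j, j.elim0])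
    rw [Fintype.sum_sum_type] at this
    simp only [Sum.elim_inl, Sum.elim_inr] at this
    rwa [sum_eq_zero fun y _ => cp_sum (hg.1 y), zero_add, hsum fun i => g (L i)] at this
  have keyN : ∀ (m : Md) (a b : ℕ), chkN n blk cm s1.used (prs cx1 (act ε1 m))
      (prs cx2 (act ε2 m)) a b = true →
      N (Sum.elim xR fun y j => L (cx2 y j)) (Sum.elim p ![]) univ (act (Sum.elim εR ε2) m) + a ≤
      N (Sum.elim xR fun y j => L (cx1 y j)) (Sum.elim p ![]) univ (act (Sum.elim εR ε1) m) ∧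
      N (Sum.elim xR fun y j => L (cx1 y j)) (Sum.elim p ![]) univ (act (Sum.elim εR ε1) m) ≤
      N (Sum.elim xR fun y j => L (cx2 y j)) (Sum.elim p ![]) univ (act (Sum.elim εR ε2) m) + b := by
    intro m a b h
    have hb : Cp xR p (act εR m) bk := by
      rw [act_eq] at hbk ⊢; exact Cp_mF_C hbk m
    have h1 := allR_sound h (rel xR p (act εR m)) L bk (Cp_iff.mp hb) hL bk blk (Cp_iff.mp hb) hL
      hcm (Or.inr fun g hg => hev _ g (Cp_iff.mpr hg))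
    have h2 : ∀ (cx : Fin k → Fin 4 → ℕ) (ε : Fin k → ℤ), (∀ y j, cx y j < n) →
        N (Sum.elim xR fun y j => L (cx y j)) (Sum.elim p ![]) univ (act (Sum.elim εR ε) m) =
        mOut (rel xR p (act εR m)) L n univ + cnt (mgs (prs cx (act ε m))
          (rho0 (rel xR p (act εR m)) L n)) s1.used := by
      intro cx ε hl
      refine ((St_init (rel xR p (act εR m)) L n).merges (prs cx (act ε m)) ?_ ?_).ncl_eq univ univ
        s1.used (by simp) (by simp [hu1]) fun a _ i hi h => ⟨i, by simp [hu1, hi], h⟩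
      · intro q hq
        simp only [prs, List.mem_flatten, List.mem_ofFn] at hq
        obtain ⟨_, ⟨y, rfl⟩, hq⟩ := hq
        obtain ⟨q', _, rfl⟩ := List.mem_map.mp hq
        exact ⟨hl _ _, hl _ _⟩
      · intro a b
        have : act (Sum.elim εR ε) m = Sum.elim (act εR m) (act ε m) := by
          funext y; cases y <;> rfl
        rw [this, ep, rel_sum]
        simp only [prs, List.mem_flatten, List.mem_ofFn, List.ofFn_zero, List.not_mem_nil,
          false_and, exists_false, or_false]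
        refine or_congr_right ⟨?_, ?_⟩
        · rintro ⟨y, q, hq, h⟩
          exact ⟨_, ⟨_, ⟨y, rfl⟩, List.mem_map.mpr ⟨q, hq, rfl⟩⟩, h⟩
        · rintro ⟨_, ⟨_, ⟨y, rfl⟩, hq⟩, h⟩
          obtain ⟨q', hq', rfl⟩ := List.mem_map.mp hq
          exact ⟨y, q', hq', h⟩
    rw [h2 cx1 ε1 l1, h2 cx2 ε2 l2]
    simp only [mgsK_eq, frc_eq, an_eq, Bool.and_eq_true, Nat.ble_eq] at h1
    omega
  subst q1 q2 q3 q4
  refine ⟨_, _, _, _, (keyN _ _ _ hN.1).1, (keyN _ _ _ hN.1).2, (keyN _ _ _ hN.2).1,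
    (keyN _ _ _ hN.2).2, rfl, rfl, rfl, rfl, fun d o oP κ h => ?_⟩
  rw [← Sum.elim_comp_inl_inr o, ← Sum.elim_comp_inl_inr oP] at h ⊢
  have k1 := Cp_sum_S.mp h.kap
  have ho : Ori (o ∘ Sum.inr) := fun y => h.ori (.inr y)
  have k2 := hk (fun i => κ (L i)) ⟨k1.2.1, fun j => j.elim0⟩
  have hfl : ∀ (G : Γ → ℤ) (v : ℕ), ∑ y, ∑ j, (if gt blk (cx1 y j) = v then G (κ (L (cx1 y j)))
      else 0) * sg ((o ∘ Sum.inr) y j) = 0 := by
    intro G v
    have h1 := h.bal fun a => if bk a = v then G (κ a) else 0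
    rw [flow_sum, flow_zero (o := o ∘ Sum.inl) _ (fun y => h.ori (.inl y))
      (hbk.str.comp₂ k1.1 fun u w => if u = v then G w else 0)] at h1
    simpa [flow, hL _ (l1 _ _)] using h1
  obtain ⟨w1, w2, w3⟩ := hw_of_WW (x := fun y j => L (cx1 y j)) (x' := fun y j => L (cx2 y j))
    (κ := κ) L kl fun G G' => hWW (o ∘ Sum.inr) (fun i => G (κ (L i))) (fun i => G' (κ (L i))) ho
      ⟨(k1.2.comp G).1, fun j => j.elim0⟩ ⟨(k1.2.comp G').1, fun j => j.elim0⟩ (hfl G) (hfl G')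
  refine ⟨Sum.elim (o ∘ Sum.inl) (T (o ∘ Sum.inr)), Pk.move h (hT _ ho) (fun g => ?_)
    ⟨k2.1.1, fun j => j.elim0⟩ _ w1 w2 fun S η => ?_, ?_⟩
  · simp only [flow, hf (o ∘ Sum.inr) fun i => g (L i)]
  · rw [ep]
    exact Br_move xR p εR L n blk cm src s1 s2 kl M hchk hcm cx1 ![] ε1 cx2 ![] ε2 hx1
      (by simp [hj1]) hx2 (by simp [hj2])
      ⟨l1, fun y => y.elim0, l2, fun y => y.elim0, by simp [hu1], by simp [hu2], l3, l4⟩
      univ univ univ (by simp) (by simp) bk hbk hL (fun i hi => Or.inl (by simp [hu1, hu2, hi]))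
      (Or.inr hev) (inS κ S) (k1.1.comp fun v => decide (v ∈ S))
      (fun i hi => by simp only [inS, k2.2 i hi]) η
  · rw [← w3]
    simp only [wr, eS, Fintype.sum_sum_type, Sum.elim_inl, Sum.elim_inr]; ring

end

end Pool.Agent.MP_97bb71_gt
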