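import Mathlib

/-!
Link diagrams on the sphere as planar diagram codes, Reidemeister moves, Turaev genus and
dealternating number.
-/

namespace Pool.Agent.MP_97bb71_gt

/-- A diagram code: `n` crossings and `m` joints (marked points on strands).  Crossing `i` lists
the labels of its four edges counterclockwise, positions 0 and 2 being the under-strand; joint `i`
lists the labels of its two edges. -/
structure Diagram where
  n : ℕ
  m : ℕ
  x : Fin n → Fin 4 → ℕ
  p : Fin m → Fin 2 → ℕ

namespace Diagram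

/-- Edge ends. -/
abbrev Dart (D : Diagram) : Type := (Fin D.n × Fin 4) ⊕ (Fin D.m × Fin 2)

/-- The edge label of an edge end. -/
def lab (D : Diagram) : D.Dart → ℕ
  | .inl (i, j) => D.x i j
  | .inr (i, j) => D.p i j

/-- The next edge end clockwise at the same crossing or joint. -/
def prev (D : Diagram) : D.Dart → D.Dart
  | .inl (i, j) => .inl (i, j - 1)
  | .inr (i, j) => .inr (i, j - 1)

/-- Number of faces: an edge end stands for the corner following it counterclockwise. -/
noncomputable def faces (D : Diagram) : ℕ :=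
  Nat.card (Quot fun a b : D.Dart => ∃ c, c ≠ a ∧ D.lab c = D.lab a ∧ b = D.prev c)

/-- Number of connected pieces of the underlying graph. -/
noncomputable def pieces (D : Diagram) : ℕ :=
  Nat.card (Quot fun a b : D.Dart => D.lab a = D.lab b ∨ b = D.prev a)

/-- Circles of the all-A state: positions 0,1 and 2,3 are joined at each crossing. -/
noncomputable def sA (D : Diagram) : ℕ :=
  Nat.card (Quot fun a b : D.Dart =>
    D.lab a = D.lab b ∨ (b = D.prev a ∧ ∀ i j, a = .inl (i, j) → j = 1 ∨ j = 3))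

/-- Circles of the all-B state: positions 1,2 and 3,0 are joined at each crossing. -/
noncomputable def sB (D : Diagram) : ℕ :=
  Nat.card (Quot fun a b : D.Dart =>
    D.lab a = D.lab b ∨ (b = D.prev a ∧ ∀ i j, a = .inl (i, j) → j = 0 ∨ j = 2))

/-- Every label names an edge with two ends, and every piece has genus 0 (Euler's formula). -/
def Planar (D : Diagram) : Prop :=
  (∀ a : D.Dart, ∃! b, b ≠ a ∧ D.lab b = D.lab a) ∧ D.faces = D.n + 2 * D.pieces

/-- Add crossings and joints. -/
def add (R : Diagram) {k l : ℕ} (x : Fin k → Fin 4 → ℕ) (p : Fin l → Fin 2 → ℕ) : Diagram :=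
  ⟨R.n + k, R.m + l, Fin.append R.x x, Fin.append R.p p⟩

/-- The labels `new` are distinct and occur neither in `old` nor in `R`. -/
def Fresh (R : Diagram) (new old : List ℕ) : Prop :=
  new.Nodup ∧ ∀ e ∈ new, e ∉ old ∧ ∀ q : R.Dart, R.lab q ≠ e

/-- Change the crossings in `C`. -/
def change (D : Diagram) (C : Finset (Fin D.n)) : Diagram :=
  ⟨D.n, D.m, fun i j => if i ∈ C then D.x i (j + 1) else D.x i j, D.p⟩

/-- Along every strand under-ends and over-ends alternate. -/
def Alternating (D : Diagram) : Prop :=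
  ∃ θ : D.Dart → Bool, (∀ i j, θ (.inl (i, j)) = decide (j = 0 ∨ j = 2)) ∧
    (∀ i, θ (.inr (i, 0)) ≠ θ (.inr (i, 1))) ∧
    ∀ a b, a ≠ b → D.lab a = D.lab b → θ a ≠ θ b

end Diagram

/-- Recoding moves, subdivision of an edge by a joint, and the Reidemeister moves. -/
inductive Move : Diagram → Diagram → Prop
  | reorder (D : Diagram) (σ : Equiv.Perm (Fin D.n)) (τ : Equiv.Perm (Fin D.m)) :
      Move D ⟨D.n, D.m, fun i => D.x (σ i), fun i => D.p (τ i)⟩
  | relabel (D : Diagram) (f : Equiv.Perm ℕ) :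
      Move D ⟨D.n, D.m, fun i j => f (D.x i j), fun i j => f (D.p i j)⟩
  | turn (R : Diagram) (a b c d : ℕ) :
      Move (R.add ![![a, b, c, d]] ![]) (R.add ![![c, d, a, b]] ![])
  | flip (R : Diagram) (a b : ℕ) : Move (R.add ![] ![![a, b]]) (R.add ![] ![![b, a]])
  | cut0 (R : Diagram) (a b c d e : ℕ) (h : R.Fresh [e] [a, b, c, d]) :
      Move (R.add ![![a, b, c, d]] ![]) (R.add ![![e, b, c, d]] ![![e, a]])
  | cut1 (R : Diagram) (a b c d e : ℕ) (h : R.Fresh [e] [a, b, c, d]) :
      Move (R.add ![![a, b, c, d]] ![]) (R.add ![![a, e, c, d]] ![![e, b]])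
  | cutJ (R : Diagram) (a b e : ℕ) (h : R.Fresh [e] [a, b]) :
      Move (R.add ![] ![![a, b]]) (R.add ![] ![![a, e], ![e, b]])
  | r1a (R : Diagram) (a b e : ℕ) (h : R.Fresh [e] [a, b]) :
      Move (R.add ![] ![![a, b]]) (R.add ![![a, e, e, b]] ![])
  | r1b (R : Diagram) (a b e : ℕ) (h : R.Fresh [e] [a, b]) :
      Move (R.add ![] ![![a, b]]) (R.add ![![a, b, e, e]] ![])
  | r2 (R : Diagram) (a b c d e f : ℕ) (h : R.Fresh [e, f] [a, b, c, d]) :
      Move (R.add ![] ![![a, b], ![c, d]]) (R.add ![![c, e, f, a], ![f, e, d, b]] ![])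
  | r3a (R : Diagram) (a₁ a₂ a₃ a₄ a₅ a₆ e f g : ℕ)
      (h : R.Fresh [e, f, g] [a₁, a₂, a₃, a₄, a₅, a₆]) :
      Move (R.add ![![f, a₄, a₅, e], ![g, e, a₆, a₁], ![a₃, f, g, a₂]] ![])
        (R.add ![![a₂, e, f, a₁], ![a₃, a₄, g, e], ![g, a₅, a₆, f]] ![])
  | r3b (R : Diagram) (a₁ a₂ a₃ a₄ a₅ a₆ e f g : ℕ)
      (h : R.Fresh [e, f, g] [a₁, a₂, a₃, a₄, a₅, a₆]) :
      Move (R.add ![![f, a₄, a₅, e], ![g, e, a₆, a₁], ![a₂, a₃, f, g]] ![])
        (R.add ![![a₂, e, f, a₁], ![a₃, a₄, g, e], ![f, g, a₅, a₆]] ![])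

/-- Two diagrams present the same link. -/
def Same : Diagram → Diagram → Prop :=
  Relation.EqvGen fun D E => D.Planar ∧ E.Planar ∧ Move D E

/-- Turaev genus of the link presented by `D`. -/
noncomputable def turaevGenus (D : Diagram) : ℕ :=
  sInf {g | ∃ E, Same D E ∧ 2 * g + E.sA + E.sB = 2 * E.pieces + E.n}

/-- Dealternating number of the link presented by `D`. -/
noncomputable def dalt (D : Diagram) : ℕ :=
  sInf {k | ∃ E C, Same D E ∧ Finset.card C = k ∧ (E.change C).Alternating}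

end Pool.Agent.MP_97bb71_gt
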