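import Pool.Agent.MP_97bb71_gt.Sig
import Pool.Agent.MP_97bb71_gt.Defs

/-! Components, connectivity, and the bridge to diagram codes. -/

namespace Pool.Agent.MP_97bb71_gt
open Finset

set_option linter.unusedSectionVars false

noncomputable section

variable {α β Γ X X' P P' : Type} [Fintype X] [Fintype P] [Fintype X'] [Fintype P']
  [DecidableEq Γ]

def act (ε : X → ℤ) (m : Md) (y : X) : Md := if ε y = 0 then .S else m

structure Conn [Fintype Γ] (d : Dat Γ) : Prop where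
  b0 : ∀ η, d.B ∅ η = dl ^ Fintype.card Γ
  w0 : d.w ∅ = 0
  nb : ∀ Y, ∃ Z, Y ≠ Z ∧ d.lk Y Z ≠ 0
  co : ∀ (β : Type) (f : Γ → β), (∀ Y Z, Y ≠ Z → d.lk Y Z ≠ 0 → f Y = f Z) → ∀ Y Z, f Y = f Z

theorem Conn.mir [Fintype Γ] {d : Dat Γ} (h : Conn d) : Conn d.mir :=
  ⟨fun η => h.b0 _, by simp [Dat.mir, h.w0], fun Y => by simpa [Dat.mir] using h.nb Y,
    fun β f hf => h.co β f fun Y Z h1 h2 => hf Y Z h1 (by simpa [Dat.mir] using h2)⟩

theorem Br_zero (x : X → Fin 4 → α) (p : P → Fin 2 → α) (U : Finset α) :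
    Br x p U (fun _ => 0) = dl ^ N x p U fun _ => .S := by
  classical
  rw [Br_def, sum_eq_single (fun _ => true)]
  · simp [wt, md]
  · intro s _ hs
    obtain ⟨y, hy⟩ := Function.ne_iff.mp hs
    rw [prod_eq_zero (mem_univ y) (by simpa [wt] using hy), zero_mul]
  · simp

theorem dl_pow_inj {m n : ℕ} (h : dl ^ m = dl ^ n) : m = n := by
  have := congrArg abs h
  rw [abs_pow, abs_pow] at this
  exact pow_right_injective₀ (by norm_num [dl]) (by norm_num [dl, abs_of_neg]) this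

section
variable {x : X → Fin 4 → α} {p : P → Fin 2 → α} {U : Finset α} {ε : X → ℤ} {d : Dat Γ}
  {o : X → Fin 4 → Bool} {oP : P → Bool} {κ : α → Γ}

def Btw (x : X → Fin 4 → α) (κ : α → Γ) (Y Z : Γ) (y : X) : Prop :=
  (κ (x y 0) = Y ∧ κ (x y 1) = Z) ∨ (κ (x y 0) = Z ∧ κ (x y 1) = Y)

theorem Pk.cross (h : Pk x p U ε d o oP κ) {Y Z : Γ} (h1 : Y ≠ Z) (h2 : d.lk Y Z ≠ 0) :
    ∃ y, ε y ≠ 0 ∧ Btw x κ Y Z y := by
  by_contra hn
  apply h2
  rw [← h.lk Y Z h1]
  refine sum_eq_zero fun y _ => ?_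
  by_cases h0 : ε y = 0
  · simp [h0]
  have : ¬Btw x κ Y Z y := fun hb => hn ⟨y, h0, hb⟩
  simp only [Btw, not_or, not_and] at this
  simp only [chi]
  split_ifs <;> simp_all

theorem Pk.sep [Fintype Γ] (h : Pk x p U ε d o oP κ) (hc : Conn d) (hU : ∀ y j, x y j ∈ U)
    {a b : α} (ha : a ∈ U) (hb : b ∈ U) (hab : κ a = κ b) :
    Quot.mk (rel x p fun _ => .S) a = Quot.mk (rel x p fun _ => .S) b := by
  refine eq_of_ncl_le κ (Cp_iff.mp h.kap) ?_ ha hb hab
  have h1 := h.br ∅ true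
  have e : eS x ε (inS κ ∅) = fun _ => 0 := by funext y; simp [eS, inS, ind]
  simp only [wr, e, mul_zero, zero_mul, sum_const_zero, hc.w0, sub_zero, zpow_zero, one_mul,
    hc.b0, Br_zero] at h1
  have h2 : U.image κ = univ := by
    refine eq_univ_of_forall fun Y => ?_
    obtain ⟨Z, h3, h4⟩ := hc.nb Y
    obtain ⟨y, _, h5 | h5⟩ := h.cross h3 h4
    · exact mem_image.mpr ⟨_, hU y 0, h5.1⟩
    · exact mem_image.mpr ⟨_, hU y 1, h5.2⟩
  rw [h2, card_univ]
  exact (dl_pow_inj h1).le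

theorem Pk.fac [Fintype Γ] (h : Pk x p U ε d o oP κ) (hc : Conn d) (hU : ∀ y j, x y j ∈ U)
    {g : α → β} (hg : Cp x p (fun _ => .S) g) {a b : α} (ha : a ∈ U) (hb : b ∈ U)
    (hab : κ a = κ b) : g a = g b := hg.eq (h.sep hc hU ha hb hab)

theorem Cp.str {g : α → β} (hg : Cp x p (act ε .C) g) : Cp x p (fun _ => .S) g := by
  refine ⟨fun y => ?_, hg.2⟩
  have := hg.1 y
  unfold act at this
  split_ifs at this
  · exact this
  · exact cp_of_C this _

theorem Pk.conn [Fintype Γ] (h : Pk x p U ε d o oP κ) (hc : Conn d) (hU : ∀ y j, x y j ∈ U)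
    {g : α → β} (hg : Cp x p (act ε .C) g) {a b : α} (ha : a ∈ U) (hb : b ∈ U) : g a = g b := by
  classical
  let f : Γ → β := fun Y => if hY : ∃ c ∈ U, κ c = Y then g hY.choose else g a
  have hf : ∀ c ∈ U, f (κ c) = g c := by
    intro c hc'
    have hY : ∃ c' ∈ U, κ c' = κ c := ⟨c, hc', rfl⟩
    simp only [f, dif_pos hY]
    exact h.fac hc hU hg.str hY.choose_spec.1 hc' hY.choose_spec.2
  rw [← hf a ha, ← hf b hb]
  refine hc.co β f (fun Y Z h1 h2 => ?_) _ _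
  obtain ⟨y, h0, h3⟩ := h.cross h1 h2
  have h4 := hg.1 y
  simp only [act, h0, if_false] at h4
  rcases h3 with ⟨rfl, rfl⟩ | ⟨rfl, rfl⟩ <;> rw [hf _ (hU _ _), hf _ (hU _ _)]
  exacts [h4.1, h4.1.symm]

theorem Pk.N_conn [Fintype Γ] (h : Pk x p U ε d o oP κ) (hc : Conn d) (hU : ∀ y j, x y j ∈ U) :
    N x p U (act ε .C) ≤ 1 := by
  refine (ncl_le_card (fun _ => ()) fun a ha b hb _ => h.conn hc hU (Cp_mk _ _ _) ha hb).trans ?_
  exact card_le_one.mpr fun _ _ _ _ => rfl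

end

open Classical in
def labs (x : X → Fin 4 → α) (p : P → Fin 2 → α) : Finset α :=
  (univ.image fun q : X × Fin 4 => x q.1 q.2) ∪ univ.image fun q : P × Fin 2 => p q.1 q.2

theorem mem_labs {x : X → Fin 4 → α} {p : P → Fin 2 → α} {a : α} :
    a ∈ labs x p ↔ (∃ y j, x y j = a) ∨ ∃ y j, p y j = a := by
  simp [labs]

theorem labs_reindex (x : X → Fin 4 → α) (p : P → Fin 2 → α) (σ : X' ≃ X) (τ : P' ≃ P) :
    labs (fun y => x (σ y)) (fun y => p (τ y)) = labs x p := by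
  ext a
  simp only [mem_labs]
  exact or_congr (σ.exists_congr_right (q := fun y => ∃ j, x y j = a))
    (τ.exists_congr_right (q := fun y => ∃ j, p y j = a))

def frel (x : X → Fin 4 → α) (p : P → Fin 2 → α) (o : X → Fin 4 → Bool) (a b : α × Bool) : Prop :=
  (∃ y j, a = (x y j, o y j) ∧ b = (x y (j + 1), !o y (j + 1))) ∨
    ∃ j s, a = (p j 0, s) ∧ b = (p j 1, s)

theorem FC_iff {x : X → Fin 4 → α} {p : P → Fin 2 → α} {o : X → Fin 4 → Bool} {z : Fn α} :
    FC x p o z ↔ ∀ a b, frel x p o a b → z a.1 a.2 = z b.1 b.2 := by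
  constructor
  · rintro ⟨h1, h2⟩ a b (⟨y, j, rfl, rfl⟩ | ⟨j, s, rfl, rfl⟩)
    · exact h1 y j
    · exact congrFun (h2 j) s
  · intro h
    exact ⟨fun y j => h _ _ (Or.inl ⟨y, j, rfl, rfl⟩),
      fun j => funext fun s => h _ _ (Or.inr ⟨j, s, rfl, rfl⟩)⟩

theorem frel_reindex (x : X → Fin 4 → α) (p : P → Fin 2 → α) (o : X → Fin 4 → Bool)
    (σ : X' ≃ X) (τ : P' ≃ P) :
    frel (fun y => x (σ y)) (fun y => p (τ y)) (fun y => o (σ y)) = frel x p o := by
  funext a b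
  exact propext (or_congr (σ.exists_congr_right (q := fun y => ∃ j, a = (x y j, o y j) ∧
    b = (x y (j + 1), !o y (j + 1)))) (τ.exists_congr_right
      (q := fun j => ∃ s, a = (p j 0, s) ∧ b = (p j 1, s))))

namespace Diagram

theorem mem_labs' (D : Diagram) (u : ℕ) : u ∈ labs D.x D.p ↔ ∃ a, D.lab a = u := by
  simp [mem_labs, lab]

theorem count_eq (D : Diagram) (m : Md) (c : D.Dart → Prop) (hc : ∀ i, c (.inr i))
    (hm : ∀ i j, c (.inl (i, j)) → (j - 1, j) ∈ mp m ∨ m = .C)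
    (hm' : ∀ i, ∀ q ∈ mp m, c (.inl (i, q.2)) ∧ q.1 = q.2 - 1) :
    Nat.card (Quot fun a b : D.Dart => D.lab a = D.lab b ∨ (b = D.prev a ∧ c a)) =
      N D.x D.p (labs D.x D.p) fun _ => m := by
  refine card_quot_eq_ncl _ _ D.lab _ D.mem_labs' ?_ (fun a b h => Quot.sound (Or.inl h)) ?_
  · rintro a b (h | ⟨rfl, h⟩)
    · rw [h]
    · have hk := Cp_mk D.x D.p fun _ => m
      rcases a with ⟨i, j⟩ | ⟨i, j⟩
      · rcases hm i j h with h1 | rfl
        · exact ((cp_iff _ _).mp (hk.1 i) _ h1).symm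
        · obtain ⟨h1, h2, h3⟩ := hk.1 i
          fin_cases j
          · exact h1.trans (h2.trans h3)
          · exact h1.symm
          · exact h2.symm
          · exact h3.symm
      · fin_cases j
        · exact hk.2 i
        · exact (hk.2 i).symm
  · rintro u v (⟨y, q, hq, rfl, rfl⟩ | ⟨j, rfl, rfl⟩)
    · refine ⟨.inl (y, q.1), .inl (y, q.2), rfl, rfl, Eq.symm ?_⟩
      refine Quot.sound (Or.inr ⟨?_, (hm' y q hq).1⟩)
      rw [(hm' y q hq).2]; rfl
    · exact ⟨.inr (j, 0), .inr (j, 1), rfl, rfl, Quot.sound (Or.inr ⟨rfl, hc _⟩)⟩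

theorem pieces_eq (D : Diagram) : D.pieces = N D.x D.p (labs D.x D.p) fun _ => .C := by
  rw [← D.count_eq .C (fun _ => True) (fun _ => trivial) (fun _ _ _ => Or.inr rfl)
    (fun _ => by simp [mp])]
  simp [pieces]

theorem sA_eq (D : Diagram) : D.sA = N D.x D.p (labs D.x D.p) fun _ => .U := by
  refine D.count_eq .U _ (by simp) ?_ ?_
  · intro i j h
    rcases h i j rfl with rfl | rfl <;> simp [mp]
  · intro i; simp [mp]

theorem sB_eq (D : Diagram) : D.sB = N D.x D.p (labs D.x D.p) fun _ => .V := by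
  refine D.count_eq .V _ (by simp) ?_ ?_
  · intro i j h
    rcases h i j rfl with rfl | rfl <;> exact Or.inl (by decide)
  · intro i; simp [mp]; rfl

/-- orientation of an edge end -/
def od (D : Diagram) (o : Fin D.n → Fin 4 → Bool) (oP : Fin D.m → Bool) : D.Dart → Bool
  | .inl (i, j) => o i j
  | .inr (i, j) => if j = 0 then oP i else !oP i

theorem od_ne (D : Diagram) (hv : ∀ a : D.Dart, ∃! b, b ≠ a ∧ D.lab b = D.lab a)
    {o : Fin D.n → Fin 4 → Bool} {oP : Fin D.m → Bool} (hb : ∀ g, flow D.x D.p o oP g = 0)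
    {a b : D.Dart} (h1 : b ≠ a) (h2 : D.lab b = D.lab a) : D.od o oP b = !D.od o oP a := by
  have h3 := hb fun u => if u = D.lab a then 1 else 0
  have e : ∀ g, flow D.x D.p o oP g = ∑ c : D.Dart, g (D.lab c) * sg (D.od o oP c) := by
    intro g
    rw [Fintype.sum_sum_type, Fintype.sum_prod_type, Fintype.sum_prod_type, flow]
    congr 1
    refine sum_congr rfl fun j _ => ?_
    simp only [Fin.sum_univ_two, lab, od, if_true, one_ne_zero, if_false, sg_not]; ring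
  rw [e, sum_eq_add_of_mem a b (mem_univ _) (mem_univ _) h1.symm] at h3
  · simp only [h2, if_true, one_mul] at h3
    revert h3
    cases D.od o oP a <;> cases D.od o oP b <;> decide
  · intro c _ hc
    rw [if_neg, zero_mul]
    intro h4
    exact hc.2 ((hv a).unique ⟨hc.1, h4⟩ ⟨h1, h2⟩)

theorem faces_eq (D : Diagram) (hv : ∀ a : D.Dart, ∃! b, b ≠ a ∧ D.lab b = D.lab a)
    {o : Fin D.n → Fin 4 → Bool} {oP : Fin D.m → Bool} (hb : ∀ g, flow D.x D.p o oP g = 0) :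
    D.faces = ncl (frel D.x D.p o) (labs D.x D.p ×ˢ univ) := by
  have key : ∀ c : D.Dart, Quot.mk (frel D.x D.p o) (D.lab (D.prev c), D.od o oP (D.prev c)) =
      Quot.mk (frel D.x D.p o) (D.lab c, !D.od o oP c) := by
    rintro (⟨i, j⟩ | ⟨i, j⟩)
    · exact Quot.sound (Or.inl ⟨i, j - 1, rfl, by simp [lab, od]⟩)
    · fin_cases j
      · exact Eq.symm (Quot.sound (Or.inr ⟨i, !oP i, rfl, rfl⟩))
      · exact Quot.sound (Or.inr ⟨i, oP i, rfl, by simp [lab, od]⟩)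
  have key2 : ∀ c : D.Dart, ∃ b, (D.lab c, !D.od o oP c) = (D.lab b, D.od o oP b) ∧
      Quot.mk (fun a b : D.Dart => ∃ c, c ≠ a ∧ D.lab c = D.lab a ∧ b = D.prev c) (D.prev c) =
      Quot.mk _ b := by
    intro c
    obtain ⟨b, ⟨h1, h2⟩, _⟩ := hv c
    exact ⟨b, by rw [h2, D.od_ne hv hb h1 h2], (Quot.sound ⟨c, h1.symm, h2.symm, rfl⟩).symm⟩
  refine card_quot_eq_ncl _ _ (fun a => (D.lab a, D.od o oP a)) _ ?_ ?_ ?_ ?_
  · rintro ⟨u, s⟩
    simp only [mem_product, mem_univ, and_true, D.mem_labs']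
    constructor
    · rintro ⟨a, rfl⟩
      by_cases hs : D.od o oP a = s
      · exact ⟨a, by rw [hs]⟩
      · obtain ⟨b, h1, _⟩ := key2 a
        refine ⟨b, ?_⟩
        rw [← h1, Bool.eq_not_iff.mpr hs, Bool.not_not]
    · rintro ⟨a, h⟩; exact ⟨a, (Prod.ext_iff.mp h).1⟩
  · rintro a b ⟨c, h1, h2, rfl⟩
    rw [key, h2, D.od_ne hv hb h1 h2, Bool.not_not]
  · intro a b h
    by_cases hab : b = a
    · rw [hab]
    · have h1 := Prod.ext_iff.mp h
      have := D.od_ne hv hb hab h1.1.symm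
      simp only at h1
      rw [← h1.2] at this
      simp at this
  · rintro u v (⟨y, j, rfl, rfl⟩ | ⟨j, s, rfl, rfl⟩)
    · obtain ⟨b, h1, h2⟩ := key2 (.inl (y, j + 1))
      refine ⟨.inl (y, j), b, rfl, h1, ?_⟩
      rw [← h2]; simp [prev]
    · by_cases hs : s = oP j
      · obtain ⟨b, h1, h2⟩ := key2 (.inr (j, 1))
        refine ⟨.inr (j, 0), b, by rw [hs]; rfl, ?_, h2⟩
        rw [← h1, hs]; simp [lab, od]
      · obtain ⟨b, h1, h2⟩ := key2 (.inr (j, 0))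
        have hs' : s = !oP j := by revert hs; cases s <;> cases oP j <;> simp
        refine ⟨b, .inr (j, 1), ?_, by rw [hs']; rfl, h2.symm⟩
        rw [← h1, hs']; rfl

end Diagram

end

end Pool.Agent.MP_97bb71_gt
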