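import Pool.Agent.MP_97bb71_gt.Loc

/-! Enumeration of partitions and bit patterns. -/

namespace Pool.Agent.MP_97bb71_gt
open Finset

noncomputable section
open Classical

variable {α β : Type}

def an (a b : Bool) : Bool := @Bool.rec (fun _ => Bool) false b a

theorem an_eq (a b : Bool) : an a b = (a && b) := by cases a <;> rfl

def orr (a b : Bool) : Bool := @Bool.rec (fun _ => Bool) b true a

theorem orr_eq (a b : Bool) : orr a b = (a || b) := by cases a <;> rfl

def allL {γ : Type} (f : γ → Bool) (l : List γ) : Bool :=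
  @List.rec γ (fun _ => Bool) true (fun v _ ih => an (f v) ih) l

theorem allL_sound {γ : Type} {f : γ → Bool} {l : List γ} (h : allL f l = true) :
    ∀ v ∈ l, f v = true := by
  induction l with
  | nil => simp
  | cons v t ih =>
    have h' : an (f v) (allL f t) = true := h
    rw [an_eq, Bool.and_eq_true] at h'
    intro u hu
    rcases List.mem_cons.mp hu with rfl | hu
    · exact h'.1
    · exact ih h'.2 u hu

def bit (B i : ℕ) : Bool := Nat.beq (Nat.land (Nat.shiftRight B i) 1) 1

theorem bit_eq (B i : ℕ) : bit B i = B.testBit i := by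
  show Nat.beq ((B >>> i) &&& 1) 1 = _
  rw [Nat.testBit, Nat.and_comm, Nat.one_and_eq_mod_two]
  rcases Nat.mod_two_eq_zero_or_one (B >>> i) with h | h <;> rw [h] <;> rfl

def revK (l : List ℕ) : List ℕ → (List ℕ → β) → β :=
  @List.rec ℕ (fun _ => List ℕ → (List ℕ → β) → β) (fun acc k => k acc)
    (fun v _ ih acc k => ih (v :: acc) k) l

theorem revK_eq (l acc : List ℕ) (k : List ℕ → β) : revK l acc k = k (l.reverse ++ acc) := by
  induction l generalizing acc with
  | nil => rfl
  | cons v t ih =>
    show revK t (v :: acc) k = _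
    rw [ih]; simp

def forceL (l : List ℕ) : (List ℕ → β) → β :=
  @List.rec ℕ (fun _ => (List ℕ → β) → β) (fun k => k [])
    (fun v _ ih k => frc v fun v' => ih fun t' => k (v' :: t')) l

theorem forceL_eq (l : List ℕ) (k : List ℕ → β) : forceL l k = k l := by
  induction l generalizing k with
  | nil => rfl
  | cons v t ih => exact ih _

def allR (blk cm : List ℕ) (f : List ℕ → Bool) (k : ℕ) : ℕ → List ℕ → List ℕ → ℕ → Bool :=
  @Nat.rec (fun _ => ℕ → List ℕ → List ℕ → ℕ → Bool)
    (fun _ pre _ _ => revK pre [] f)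
    (fun _ ih i pre reps m => frc (Nat.succ i) fun i1 => frc (gt blk i) fun bi =>
      frc (gt cm i) fun ci =>
      an (frc (Nat.xor m (Nat.shiftLeft 1 i)) fun m' =>
          cn (Nat.beq (Nat.land m' ci) 0) (ih i1 (i :: pre) (i :: reps) m') true)
        (allL (fun v => cn (Nat.beq (gt blk v) bi)
          (frc (Nat.xor m (Nat.shiftLeft 1 v)) fun m' =>
            cn (Nat.beq (Nat.land m' ci) 0) (ih i1 (v :: pre) reps m') true) true) reps)) k

theorem allR_aux (blk cm : List ℕ) (f : List ℕ → Bool) (g : ℕ → ℕ)
    (h1 : ∀ j, g j ≤ j) (h2 : ∀ j, g (g j) = g j) (k : ℕ) :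
    ∀ i reps m, allR blk cm f k i ((List.range i).map g).reverse reps m = true →
      (∀ j < i + k, gt blk (g j) = gt blk j) → (∀ j < i, g j = j → j ∈ reps) →
      (∀ v, (if m.testBit v then (1 : ZMod 2) else 0) =
        ∑ j ∈ range i, if g j = v then (1 : ZMod 2) else 0) →
      (∀ j < i + k, ∀ v, (gt cm j).testBit v = true →
        ∑ j ∈ range (j + 1), (if g j = v then (1 : ZMod 2) else 0) = 0) →
      f ((List.range (i + k)).map g) = true := by
  induction k with
  | zero =>
    intro i reps m h _ _ _ _
    have h' : revK ((List.range i).map g).reverse [] f = true := h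
    rw [revK_eq] at h'
    simpa using h'
  | succ k ih =>
    intro i reps m h hb hr hm hev
    have h' : an (cn (Nat.beq (Nat.land (Nat.xor m (Nat.shiftLeft 1 i)) (gt cm i)) 0)
        (allR blk cm f k (i + 1) (i :: ((List.range i).map g).reverse) (i :: reps)
        (Nat.xor m (Nat.shiftLeft 1 i))) true)
        (allL (fun v => cn (Nat.beq (gt blk v) (gt blk i))
          (cn (Nat.beq (Nat.land (Nat.xor m (Nat.shiftLeft 1 v)) (gt cm i)) 0)
            (allR blk cm f k (i + 1) (v :: ((List.range i).map g).reverse) reps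
            (Nat.xor m (Nat.shiftLeft 1 v))) true) true) reps) = true := h
    rw [an_eq, Bool.and_eq_true] at h'
    have e1 : g i :: ((List.range i).map g).reverse = ((List.range (i + 1)).map g).reverse := by
      simp [List.range_succ]
    have e2 : ∀ v, (if (Nat.xor m (Nat.shiftLeft 1 (g i))).testBit v then (1 : ZMod 2) else 0) =
        ∑ j ∈ range (i + 1), if g j = v then (1 : ZMod 2) else 0 := by
      intro v
      have : (Nat.xor m (Nat.shiftLeft 1 (g i))).testBit v =
          xor (m.testBit v) (decide (g i = v)) := by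
        show (m ^^^ (1 <<< g i)).testBit v = _
        rw [Nat.testBit_xor, Nat.one_shiftLeft, Nat.testBit_two_pow]
      rw [this, sum_range_succ, ← hm v]
      by_cases h3 : m.testBit v = true <;> by_cases h4 : g i = v <;> simp [h3, h4]
      rfl
    have e4 : Nat.land (Nat.xor m (Nat.shiftLeft 1 (g i))) (gt cm i) = 0 := by
      apply Nat.eq_of_testBit_eq
      intro v
      show ((Nat.xor m (Nat.shiftLeft 1 (g i))) &&& (gt cm i)).testBit v = _
      rw [Nat.testBit_and, Nat.zero_testBit]
      by_cases hv : (gt cm i).testBit v = true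
      · have h5 := e2 v
        rw [hev i (by omega) v hv] at h5
        by_cases h6 : (Nat.xor m (Nat.shiftLeft 1 (g i))).testBit v = true
        · rw [if_pos h6] at h5; exact absurd h5 (by decide)
        · rw [Bool.eq_false_iff.mpr h6, Bool.false_and]
      · simp [hv]
    have e3 : i + (k + 1) = i + 1 + k := by omega
    rw [e3] at hb hev ⊢
    by_cases hi : g i = i
    · refine ih (i + 1) (i :: reps) _ ?_ hb ?_ e2 hev
      · have h3 := h'.1
        rw [hi] at e4
        rw [e4, cn_eq, Nat.beq_refl, if_pos rfl] at h3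
        rw [← e1, hi]; exact h3
      · intro j hj hg
        rcases Nat.lt_succ_iff_lt_or_eq.mp hj with hj | rfl
        · exact List.mem_cons_of_mem _ (hr j hj hg)
        · exact List.mem_cons_self
    · have hlt : g i < i := lt_of_le_of_ne (h1 i) hi
      have h3 := allL_sound h'.2 (g i) (hr _ hlt (h2 i))
      rw [cn_eq, hb i (by omega), Nat.beq_refl, if_pos rfl, e4, cn_eq, Nat.beq_refl,
        if_pos rfl] at h3
      refine ih (i + 1) reps _ ?_ hb ?_ e2 hev
      · rw [← e1]; exact h3
      · intro j hj hg
        rcases Nat.lt_succ_iff_lt_or_eq.mp hj with hj | rfl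
        · exact hr j hj hg
        · exact absurd hg hi

/-- `cm` only asks for parity of classes in finished blocks -/
def CmOK (n : ℕ) (blk cm : List ℕ) : Prop :=
  ∀ i < n, ∀ v < n, (gt cm i).testBit v = true → ∀ j < n, i < j → gt blk j ≠ gt blk v

theorem allR_sound {blk cm : List ℕ} {f : List ℕ → Bool} {n : ℕ}
    (h : allR blk cm f n 0 [] [] 0 = true) (r0 : α → α → Prop) (L : ℕ → α) (bk : α → ℕ)
    (hb : ∀ a b, r0 a b → bk a = bk b) (hL : ∀ i < n, bk (L i) = gt blk i)
    (bk0 : α → ℕ) (blk0 : List ℕ) (hb0 : ∀ a b, r0 a b → bk0 a = bk0 b)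
    (hL0 : ∀ i < n, bk0 (L i) = gt blk0 i) (hcm : CmOK n blk0 cm)
    (hev : cm = [] ∨ ∀ g : α → ZMod 2, (∀ a b, r0 a b → g a = g b) →
      ∑ i ∈ range n, g (L i) = 0) : f (rho0 r0 L n) = true := by
  have := allR_aux blk cm f (rho r0 L) (rho_le r0 L) (rho_rho r0 L) n 0 [] 0 h ?_ (by simp)
    (by simp) ?_
  · simpa [rho0] using this
  · intro j hj
    rw [zero_add] at hj
    rw [← hL j hj, ← hL _ ((rho_le r0 L j).trans_lt hj)]
    exact lift_eq hb (rho_spec r0 L j)
  · intro i hi v hv
    rw [zero_add] at hi
    rcases hev with rfl | hev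
    · simp [gt] at hv
    have := hev (fun a => if mn r0 L (Quot.mk r0 a) = v then 1 else 0)
      (fun a b hab => by simp only [Quot.sound hab])
    refine Eq.trans ?_ this
    apply sum_subset (range_subset_range.mpr (show i + 1 ≤ n by omega))
    intro j hj hj'
    rw [mem_range] at hj hj'
    apply if_neg
    intro e
    have hvn : v < n := by rw [← e]; exact (rho_le r0 L j).trans_lt hj
    apply hcm i hi v hvn hv j hj (by omega)
    rw [← hL0 j hj, ← hL0 v hvn, ← e]
    exact (lift_eq hb0 (rho_spec r0 L j)).symm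

def masks (src : List ℕ) : ℕ → List ℕ
  | 0 => [0]
  | i + 1 => if gt src i = i then (masks src i).flatMap fun B => [B, B ||| 2 ^ i]
      else (masks src i).map fun B => if bit B (gt src i) then B ||| 2 ^ i else B

theorem masks_sound (src : List ℕ) (b : ℕ → Bool) (n : ℕ)
    (h : ∀ i < n, gt src i ≤ i ∧ b (gt src i) = b i) :
    ∃ B ∈ masks src n, ∀ j, B.testBit j = (decide (j < n) && b j) := by
  induction n with
  | zero => exact ⟨0, by simp [masks], by simp⟩
  | succ i ih =>
    obtain ⟨B, hB, hb⟩ := ih fun j hj => h j (by omega)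
    refine ⟨if b i then B ||| 2 ^ i else B, ?_, ?_⟩
    · unfold masks
      by_cases h1 : gt src i = i
      · rw [if_pos h1]
        refine List.mem_flatMap.mpr ⟨B, hB, ?_⟩
        split_ifs <;> simp
      · rw [if_neg h1]
        refine List.mem_map.mpr ⟨B, hB, ?_⟩
        have := h i (by omega)
        rw [bit_eq, hb, this.2, decide_eq_true (by omega), Bool.true_and]
    · intro j
      by_cases hi : b i = true
      · rw [if_pos hi, Nat.testBit_or, hb, Nat.testBit_two_pow]
        by_cases hj : i = j
        · subst hj; simp [hi]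
        · have : (j < i + 1) ↔ j < i := by omega
          simp [hj, this]
      · rw [if_neg hi, hb]
        by_cases hj : i = j
        · subst hj; simp [hi]
        · have : (j < i + 1) ↔ j < i := by omega
          simp [this]

def refine (blk : List ℕ) (B n : ℕ) : List ℕ :=
  (List.range n).map fun i => 2 * gt blk i + cn (bit B i) 1 0

end

end Pool.Agent.MP_97bb71_gt
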