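import Mathlib

/-! A necklace of twelve hexagons. -/

namespace Pool.Agent.MP_97bb71_gt
open Finset

abbrev G : Type := Fin 60

def ell (Y : G) : ℕ := 3 * (Y.1 / 5) + (Y.1 % 5 + 1) / 2

def adj (Y Z : G) : Prop :=
  (ell Z = (ell Y + 1) % 36 ∨ ell Y = (ell Z + 1) % 36) ∧ Y.1 % 5 + Z.1 % 5 ≠ 5

instance (Y Z : G) : Decidable (adj Y Z) := by unfold adj; infer_instance

def rk (R Y : G) : ℕ := min ((ell Y + 36 - ell R) % 36) ((ell R + 36 - ell Y) % 36)

def Con (A : G → Prop) (R : G) : Prop :=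
  ∀ Y, A Y → Y = R ∨ ∃ e ∈ ([1, 2, 58, 59] : List G),
    adj Y (Y + e) ∧ A (Y + e) ∧ rk R (Y + e) < rk R Y

instance (A : G → Prop) [DecidablePred A] (R : G) : Decidable (Con A R) := by
  unfold Con; infer_instance

theorem Con.eq {A : G → Prop} {R : G} (h : Con A R) {β : Type} (f : G → β)
    (hf : ∀ Y Z, A Y → A Z → adj Y Z → f Y = f Z) (Y : G) (hY : A Y) : f Y = f R := by
  induction hn : rk R Y using Nat.strong_induction_on generalizing Y with
  | _ n ih =>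
    rcases h Y hY with rfl | ⟨e, -, h1, h2, h3⟩
    · rfl
    · rw [hf Y _ hY h2 h1]; exact ih _ (hn ▸ h3) _ h2 rfl

def leg (i : Fin 12) : Finset G := univ.filter fun Y => (ell Y + 36 - 3 * i.1) % 36 ≤ 3

def TT (i : Fin 12) (Y : G) : Prop := (ell Y + 36 - 3 * i.1) % 36 ≤ 6

def NT (i : Fin 12) (Y : G) : Prop := (ell Y + 37 - 3 * i.1) % 36 ≤ 8

instance (i : Fin 12) (Y : G) : Decidable (TT i Y) := by unfold TT; infer_instance

instance (i : Fin 12) (Y : G) : Decidable (NT i Y) := by unfold NT; infer_instance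

def cc (i : ℕ) : G := Fin.ofNat 60 (5 * i)

def nxt (i : Fin 12) (Y : G) : G :=
  Fin.ofNat 60 (5 * i.1 + [1, 3, 0, 5, 2, 4].getD ((Y.1 + 60 - 5 * i.1) % 60) 0)

theorem adj.symm {Y Z : G} (h : adj Y Z) : adj Z Y := ⟨h.1.symm, by have := h.2; omega⟩

theorem adj.ne {Y Z : G} (h : adj Y Z) : Y ≠ Z := by
  rintro rfl; have := h.1; omega

theorem g_tri : ∀ Y Z : G, adj Y Z → ∀ W, adj Y W → ¬adj Z W := by decide +kernel

theorem g_out : ∀ Y Z : G, adj Y Z → ∃ W, adj Z W ∧ W ≠ Y := by decide +kernel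

theorem g_nb : ∀ Y : G, ∃ Z, adj Y Z := by decide +kernel

theorem g_con : Con (fun _ => True) 0 := by decide +kernel

theorem g_far : ∀ W : G, Con (fun Y => Y ≠ W ∧ ¬adj W Y) (cc ((W.1 + 2) / 5 + 6)) := by
  decide +kernel

theorem g_T : ∀ i : Fin 12, Con (TT i) (cc i.1) ∧ Con (· ∈ leg i) (cc i.1) ∧ cc i.1 ∈ leg i ∧
    (leg i).card = 6 ∧ (∀ Y, TT i Y → NT i Y ∧ ∀ Z, adj Y Z → NT i Z) ∧
    (∀ Y ∈ leg i, TT i Y ∧ TT (i - 1) Y ∧ nxt i Y ∈ leg i ∧ adj Y (nxt i Y) ∧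
      nxt i (nxt i Y) ≠ Y) ∧
    (∑ Y ∈ leg i, ∑ Z ∈ leg i, if adj Y Z then (-2 : ℤ) else 0) = -24 := by decide +kernel

theorem g_sum : (∑ Y : G, ∑ Z : G, if adj Y Z then (-2 : ℤ) else 0) = -288 := by decide +kernel

theorem g_win (Y Z W : G) : ∃ i, ¬NT i Y ∧ ¬NT i Z ∧ ¬NT i W := by
  have h : ∀ Y : G, (univ.filter fun i => NT i Y).card ≤ 3 := by decide +kernel
  by_contra hn
  have h1 : (univ : Finset (Fin 12)) ⊆ (univ.filter fun i => NT i Y) ∪
      ((univ.filter fun i => NT i Z) ∪ univ.filter fun i => NT i W) := by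
    intro i _
    simp only [mem_union, mem_filter, mem_univ, true_and]
    by_contra h2
    exact hn ⟨i, by tauto⟩
  have h2 := (card_le_card h1).trans ((card_union_le _ _).trans
    (Nat.add_le_add (h Y) ((card_union_le _ _).trans (Nat.add_le_add (h Z) (h W)))))
  simp at h2

end Pool.Agent.MP_97bb71_gt
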