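import Pool.Agent.MP_97bb71_gt.Cls
import Pool.Agent.MP_97bb71_gt.Gr

/-! Invariant data of the necklace link and first consequences. -/

namespace Pool.Agent.MP_97bb71_gt
open Finset

set_option linter.unusedSectionVars false

noncomputable section

structure Good0 (d : Dat G) : Prop where
  b0 : ∀ η, d.B ∅ η = dl ^ 60
  w0 : d.w ∅ = 0
  lk : ∀ Y Z, Y ≠ Z → d.lk Y Z = if adj Y Z then -2 else 0

structure Good (d : Dat G) : Prop extends Good0 d where
  b1 : ∀ Y, Ex (d.B {Y} true) (-120)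
  w1 : ∀ Y, d.w {Y} = 0
  wu : d.w univ = -144
  K : d.K = 144
  bu : ∀ η, Low (d.B univ η) (-288)
  wl : ∀ i, d.w (leg i) = -12
  bl : ∀ i : Fin 12, ∃ j k, (j = i ∧ k = i + 1 ∨ k = i ∧ j = i + 1) ∧
    (∃ s ≤ -136, Ex (d.B (leg j) true) s) ∧ Low (d.B (leg k) true) (-132)

theorem Good0.conn {d : Dat G} (h : Good0 d) : Conn d := by
  refine ⟨fun η => by simpa using h.b0 η, h.w0, fun Y => ?_, fun β f hf Y Z => ?_⟩
  · obtain ⟨Z, hZ⟩ := g_nb Y
    exact ⟨Z, hZ.ne, by simp [h.lk _ _ hZ.ne, hZ]⟩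
  · have := g_con.eq f fun Y Z _ _ h1 => hf Y Z h1.ne (by simp [h.lk _ _ h1.ne, h1])
    rw [this Y trivial, this Z trivial]

variable {α X P : Type} [Fintype α] [Fintype X] [Fintype P] [DecidableEq X]
  {x : X → Fin 4 → α} {p : P → Fin 2 → α} {ε : X → ℤ} {d : Dat G} {o : X → Fin 4 → Bool}
  {oP : P → Bool} {κ : α → G}

theorem Pk.crs (h : Pk x p univ ε d o oP κ) (hd : Good0 d) {Y Z : G} (h1 : adj Y Z) :
    ∃ y, ε y ≠ 0 ∧ Btw x κ Y Z y := h.cross h1.ne (by simp [hd.lk _ _ h1.ne, h1])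

theorem Pk.sur (h : Pk x p univ ε d o oP κ) (hd : Good0 d) (Y : G) : ∃ a, κ a = Y := by
  obtain ⟨Z, hZ⟩ := g_nb Y
  obtain ⟨y, _, h1 | h1⟩ := h.crs hd hZ
  exacts [⟨_, h1.1⟩, ⟨_, h1.2⟩]

theorem Pk.cst0 (h : Pk x p univ ε d o oP κ) (hd : Good0 d) {β : Type} {A : G → Prop} (ψ : α → β)
    (hp : ∀ j, ψ (p j 0) = ψ (p j 1))
    (h0 : ∀ y, (A (κ (x y 0)) → ψ (x y 0) = ψ (x y 2)) ∧ (A (κ (x y 1)) → ψ (x y 1) = ψ (x y 3)))
    (h1 : ∀ y, ε y ≠ 0 → A (κ (x y 0)) → A (κ (x y 1)) → ψ (x y 0) = ψ (x y 1)) :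
    ∃ f : G → β, (∀ a, A (κ a) → ψ a = f (κ a)) ∧ ∀ Y Z, A Y → A Z → adj Y Z → f Y = f Z := by
  classical
  choose s hs using h.sur hd
  have hg : Cp x p (fun _ => .S) fun a => if A (κ a) then some (ψ a) else none := by
    refine ⟨fun y => ?_, fun j => by simp only [h.kap.2 j, hp j]⟩
    obtain ⟨k1, k2⟩ := h.kap.1 y
    simp only at k1 k2
    simp only [cp, ← k1, ← k2]
    constructor <;> split_ifs with h2 <;> simp [h0 y, h2]
  have k : ∀ a, A (κ a) → ψ a = ψ (s (κ a)) := fun a ha => by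
    have := h.fac hd.conn (fun _ _ => mem_univ _) hg (mem_univ a) (mem_univ _) (hs (κ a)).symm
    simpa [hs, ha] using this
  refine ⟨fun Y => ψ (s Y), k, fun Y Z hY hZ h2 => ?_⟩
  obtain ⟨y, h3, ⟨rfl, rfl⟩ | ⟨rfl, rfl⟩⟩ := h.crs hd h2
  · exact (k _ hY).symm.trans ((h1 y h3 hY hZ).trans (k _ hZ))
  · exact (k _ hY).symm.trans ((h1 y h3 hZ hY).symm.trans (k _ hZ))

theorem Pk.NC (h : Pk x p univ ε d o oP κ) (hd : Good0 d) {S : Finset G} {R : G}
    (hS : Con (· ∈ S) R) : N x p univ (act (eS x ε (inS κ S)) .C) + S.card ≤ 61 := by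
  classical
  have k := Cp_mk x p (act (eS x ε (inS κ S)) .C)
  obtain ⟨f, f1, f2⟩ := h.cst0 hd (A := (· ∈ S)) _ k.2 (fun y => ⟨fun _ => (k.str.1 y).1,
    fun _ => (k.str.1 y).2⟩) fun y h1 h2 h3 => by
      have := k.1 y
      simp only [act, eS, ind_inS, h2, h3, if_true, mul_one, h1, if_false] at this
      exact this.1
  have h1 := ncl_le_card (r := rel x p (act (eS x ε (inS κ S)) .C)) (U := univ)
    (fun a => if κ a ∈ S then none else some (κ a)) fun a _ b _ hab => by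
      by_cases ha : κ a ∈ S <;> by_cases hb : κ b ∈ S <;> simp [ha, hb] at hab
      · rw [f1 a ha, f1 b hb, hS.eq f f2 _ ha, hS.eq f f2 _ hb]
      · exact h.fac hd.conn (fun _ _ => mem_univ _) k.str (mem_univ a) (mem_univ _) hab
  have h2 : (univ.image fun a => if κ a ∈ S then none else some (κ a)) ⊆
      insert none (Sᶜ.image some) := by
    intro v hv
    obtain ⟨a, _, rfl⟩ := mem_image.mp hv
    split_ifs with ha <;> simp [ha]
  have h3 := (card_le_card h2).trans ((card_insert_le _ _).trans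
    (Nat.add_le_add_right card_image_le 1))
  have h4 := card_add_card_compl S
  simp only [Fintype.card_fin] at h4
  unfold N
  omega

theorem Pk.mix (h : Pk x p univ ε d o oP κ) (hd : Good0 d) (S : Finset G) :
    ∑ y, ε y * sn (o y) * (if κ (x y 0) ∈ S ∧ κ (x y 1) ∈ S ∧ κ (x y 0) ≠ κ (x y 1) then 2 else 0) =
      ∑ Y ∈ S, ∑ Z ∈ S, if adj Y Z then (-2 : ℤ) else 0 := by
  have e : ∀ Y Z, (if adj Y Z then (-2 : ℤ) else 0) = ∑ y, ε y * sn (o y) *
      ((if κ (x y 0) = Y then if κ (x y 1) = Z then if Y ≠ Z then 1 else 0 else 0 else 0) +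
       (if κ (x y 1) = Y then if κ (x y 0) = Z then if Y ≠ Z then 1 else 0 else 0 else 0)) := by
    intro Y Z
    by_cases h1 : Y = Z
    · simp [h1, show ¬adj Z Z from fun h => h.ne rfl]
    · rw [← hd.lk Y Z h1, ← h.lk Y Z h1]
      refine sum_congr rfl fun y _ => ?_
      simp only [chi]
      split_ifs <;> simp_all
  simp only [e]
  symm
  rw [sum_congr rfl fun Y _ => sum_comm, sum_comm]
  refine sum_congr rfl fun y _ => ?_
  simp only [← mul_sum, sum_add_distrib, sum_ite_irrel, sum_const_zero, sum_ite_eq]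
  congr 1
  by_cases h1 : κ (x y 0) ∈ S <;> by_cases h2 : κ (x y 1) ∈ S <;>
    by_cases h3 : κ (x y 0) = κ (x y 1) <;> simp [h1, h2, h3, eq_comm]

theorem sn_cases (o : Fin 4 → Bool) : sn o = 1 ∨ sn o = -1 := by
  unfold sn; cases o 0 <;> cases o 1 <;> decide

theorem card_actv (ε : X → ℤ) : ((actv ε).card : ℤ) = ∑ y, if ε y = 0 then 0 else 1 := by
  simp [actv, sum_ite]

theorem Pk.brU (h : Pk x p univ ε d o oP κ) {k l : ℤ} (h1 : Ex (Br x p univ ε) k)
    (h2 : Low (d.B univ true) l) : 3 * (wr x ε o (fun _ => true) - d.w univ) + l ≤ k := by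
  have h3 := h.br univ true
  have e : inS κ univ = fun _ => true := by funext a; simp [inS]
  simp only [e, sg, eS, ind, if_true, one_mul, mul_one] at h3
  exact h1.le (h3 ▸ (Ex.eight _).low.mul h2)

theorem caseB {d2 : Dat G} (h : Cls x p ε d d2) (hd : Good d) (h1 : ∀ y, ε y ≠ -1)
    (hU : ∀ y, ε y ≠ 0 → ¬Dep x p ε .U {y}) (hV : ∀ y, ε y ≠ 0 → ¬Dep x p ε .V {y}) : False := by
  have he : ∀ y, ε y = 0 ∨ ε y = 1 := fun y => (h.eps y).imp_right fun h2 => h2.resolve_right (h1 y)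
  obtain ⟨o, oP, κ, k1, -⟩ := h.c1
  have k2 := k1.brU (Br_ex h.hs ε he fun y hy => ne_of_not_dep (hV y hy)) (hd.bu true)
  have h3 := k1.neg.pm (fun _ => 0) fun _ => true
  have h4 := wr_pm (fun y => -ε y) k1.ori (k1.kap.comp fun _ => true) (fun _ => 0) fun _ => true
  simp only [Bool.not_true, sg, Bool.false_eq_true, if_false, neg_mul, mul_neg, one_mul,
    neg_neg] at h3 h4
  have k3 := h3.brU (Br_ex h.mir.hs ε he fun y hy => ne_of_not_dep
    (mt (Dep_pm (fun _ => 0) true .U _).mp (hU y hy))) (hd.bu false)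
  have e : wr x (fun y => -ε y) o (fun _ => true) = -wr x ε o (fun _ => true) := by
    simp [wr, eS]
  erw [h4, e, N_act_pm (fun _ => 0) true .U] at k3
  have k4 := h.eul
  have k5 : ∑ y, ε y = (actv ε).card := by
    rw [card_actv]
    exact sum_congr rfl fun y _ => by rcases he y with h | h <;> simp [h]
  have k6 : -2 * ∑ y, ε y ≤ -288 := by
    rw [← g_sum, ← k1.mix hd.1 univ, mul_sum]
    refine sum_le_sum fun y _ => ?_
    rcases he y with h | h <;> rcases sn_cases (o y) with h' | h' <;> split_ifs <;> simp [h, h']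
  simp only [Dat.mir, hd.wu] at k2 k3
  omega

theorem one_pos {d2 : Dat G} (h : Cls x p ε d d2) (hd : Good d) {u : X} (hu : ε u = -1)
    (h1 : ∀ y, ε y ≠ 0 → ¬Dep x p ε .V {y}) (h2 : ∀ y, ε y ≠ 0 → y ≠ u → ¬Dep x p ε .V {u, y})
    (h3 : ∀ y z, ε y ≠ 0 → ε z ≠ 0 → y ≠ u → z ≠ u → y ≠ z → ¬Dep x p ε .V {u, y, z}) :
    ∃ o oP κ z, Pk x p univ ε d o oP κ ∧ ∀ y, y ≠ z → ε y ≠ 0 → ε y * sn (o y) = -1 := by
  have he : ∀ y, y ≠ u → ε y = 0 ∨ ε y = 1 := fun y hy =>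
    (h.eps y).imp_right fun h2 => h2.resolve_right fun h3 => hy (h.uniq _ _ h3 hu)
  obtain ⟨o, oP, κ, k1, k2⟩ := h.c1
  have k3 := k1.brU (Br_ex_aa h.hs ε u hu he h1 h2 h3) (hd.bu true)
  have k4 := h.eul
  have k5 : ∑ y, ε y + 2 = (actv ε).card := by
    rw [card_actv, ← add_sum_erase _ _ (mem_univ u), ← add_sum_erase _ _ (mem_univ u), hu,
      sum_congr rfl fun y hy => show ε y = if ε y = 0 then 0 else 1 by
        rcases he y (ne_of_mem_erase hy) with h | h <;> simp [h]]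
    simp; ring
  have k6 := (abs_le.mp (k2 ⟨u, hu⟩)).2
  have k7 : ∀ y, ε y ≠ 0 → ε y * sn (o y) = -1 ∨ ε y * sn (o y) = 1 := fun y hy => by
    rcases (h.eps y).resolve_left hy with h | h <;> rcases sn_cases (o y) with h' | h' <;>
      simp [h, h']
  have k8 : wr x ε o (fun _ => true) + (actv ε).card =
      2 * ((univ.filter fun y => ε y * sn (o y) = 1).card : ℤ) := by
    rw [card_actv, card_filter, wr, ← sum_add_distrib]
    push_cast
    rw [mul_sum]
    refine sum_congr rfl fun y _ => ?_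
    by_cases h0 : ε y = 0
    · simp [eS, h0]
    · rcases k7 y h0 with h | h <;> simp [eS, ind, h0, h]
  rw [hd.wu] at k3
  rw [hd.K] at k6
  have k9 : (univ.filter fun y => ε y * sn (o y) = 1).card ≤ 1 := by omega
  have : Nonempty X := ⟨u⟩
  obtain ⟨z, hz⟩ := card_le_one_iff_subset_singleton.mp k9
  exact ⟨o, oP, κ, z, k1, fun y h4 h5 => (k7 y h5).resolve_right fun h6 =>
    h4 (mem_singleton.mp (hz (by simpa using h6)))⟩

end

end Pool.Agent.MP_97bb71_gt
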