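import Pool.Agent.MP_97bb71_gt.Fin1

/-! Side functions near a window of the necklace. -/

namespace Pool.Agent.MP_97bb71_gt
open Finset

set_option linter.unusedSectionVars false

noncomputable section

variable {α X P : Type} [Fintype α] [Fintype X] [Fintype P] [DecidableEq X]

structure Ctx (x : X → Fin 4 → α) (p : P → Fin 2 → α) (ε : X → ℤ) (d : Dat G)
    (o : X → Fin 4 → Bool) (oP : P → Bool) (κ : α → G) (i : Fin 12) : Prop where
  pk : Pk x p univ ε d o oP κ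
  gd : Good d
  eul : (actv ε).card + 2 * N x p univ (mF (actv ε) (fun _ => .S) .C) ≤
      N x p univ (mF (actv ε) (fun _ => .S) .U) + N x p univ (mF (actv ε) (fun _ => .S) .V)
  one : ∀ y, ε y ≠ 0 → NT i (κ (x y 0)) → ε y = 1
  neg : ∀ y, ε y ≠ 0 → NT i (κ (x y 0)) ∨ NT i (κ (x y 1)) → ε y * sn (o y) = -1
  nl : ∀ y, ε y ≠ 0 → ¬Dep x p ε .U {y}

variable {x : X → Fin 4 → α} {p : P → Fin 2 → α} {ε : X → ℤ} {d : Dat G} {o : X → Fin 4 → Bool}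
  {oP : P → Bool} {κ : α → G} {i : Fin 12}

instance (Y Z : G) (y : X) : Decidable (Btw x κ Y Z y) := by unfold Btw; infer_instance

theorem Ctx.hs (h : Ctx x p ε d o oP κ i) : HS x p := HS_of_flow h.pk.bal

theorem Ctx.cnt (h : Ctx x p ε d o oP κ i) {Y Z : G} (hY : NT i Y) (hZ : Y ≠ Z) :
    (univ.filter fun y => ε y ≠ 0 ∧ Btw x κ Y Z y).card = if adj Y Z then 2 else 0 := by
  have h1 := h.pk.lk Y Z hZ
  rw [h.gd.lk Y Z hZ, W, sum_congr rfl fun y _ =>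
    show _ = -(if ε y ≠ 0 ∧ Btw x κ Y Z y then 1 else 0 : ℤ) from ?_, sum_neg_distrib,
    sum_boole] at h1
  · split_ifs at h1 ⊢ <;> omega
  · by_cases h0 : ε y = 0
    · simp [h0]
    by_cases hb : Btw x κ Y Z y
    · rw [h.neg y h0 (by rcases hb with h2 | h2 <;> simp [h2, hY])]
      rcases hb with h2 | h2 <;> simp [h0, Btw, chi, h2, hZ, hZ.symm]
    · simp only [hb, and_false, if_false, chi]
      simp only [Btw, not_or, not_and] at hb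
      split_ifs <;> simp_all

theorem Ctx.clA (h : Ctx x p ε d o oP κ i) {y : X} (h0 : ε y ≠ 0) {Y Z : G} (hY : NT i Y)
    (hb : Btw x κ Y Z y) (hZ : Y ≠ Z) : adj Y Z := by
  by_contra hn
  have := h.cnt hY hZ
  rw [if_neg hn, card_eq_zero, filter_eq_empty_iff] at this
  exact this (mem_univ y) ⟨h0, hb⟩

def ch (κ : α → G) (W : G) (a : α) : ZMod 2 := if κ a = W then 1 else 0

def Side (x : X → Fin 4 → α) (p : P → Fin 2 → α) (ε : X → ℤ) (g θ : α → ZMod 2) : Prop :=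
  Cp x p (act ε .V) θ ∧ Cp x p (act ε .U) fun a => θ a + g a

theorem Ctx.chS (h : Ctx x p ε d o oP κ i) (W : G) : Cp x p (fun _ => .S) (ch κ W) :=
  h.pk.kap.comp fun v => if v = W then (1 : ZMod 2) else 0

theorem Ctx.side (h : Ctx x p ε d o oP κ i) (g : α → ZMod 2) (μ : X → Md) (hg : Cp x p μ g)
    (h0 : ∀ y, ε y = 0 → μ y = .S) : ∃ θ, Side x p ε g θ := by
  obtain ⟨θ, h1, h2⟩ := T2 h.hs (actv ε) (fun _ => .S) h.eul g (fun y _ => cp_sum (hg.1 y))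
    (fun y hy => h0 y (by simpa [actv] using hy) ▸ hg.1 y) hg.2
  exact ⟨θ, by rwa [act_eq], by rwa [act_eq]⟩

variable {g g' θ θ' : α → ZMod 2}

theorem Side.add (h : Side x p ε g θ) (h' : Side x p ε g' θ') :
    Side x p ε (fun a => g a + g' a) fun a => θ a + θ' a :=
  ⟨h.1.comp₂ h'.1 fun u v => u + v, by
    convert h.2.comp₂ h'.2 fun u v => u + v using 2; ring⟩

theorem Side.shift (h : Side x p ε g θ) (c : ZMod 2) : Side x p ε g fun a => θ a + c :=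
  ⟨h.1.comp fun u => u + c, by convert h.2.comp fun u => u + c using 2; ring⟩

theorem Side.S (h : Side x p ε g θ) {y : X} (h0 : ε y = 0) :
    θ (x y 0) = θ (x y 2) ∧ θ (x y 1) = θ (x y 3) := by
  have := h.1.1 y
  simpa only [act, h0, if_true, cp] using this

theorem Side.V (h : Side x p ε g θ) {y : X} (h0 : ε y ≠ 0) :
    θ (x y 1) = θ (x y 0) + (g (x y 0) + g (x y 1)) ∧
      θ (x y 2) = θ (x y 0) + (g (x y 0) + g (x y 1)) ∧ θ (x y 3) = θ (x y 0) := by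
  have h1 := h.1.1 y
  have h2 := h.2.1 y
  simp only [act, h0, if_false, cp] at h1 h2
  have h3 : θ (x y 1) = θ (x y 0) + (g (x y 0) + g (x y 1)) := by
    have := h2.1
    revert this
    generalize θ (x y 1) = a, θ (x y 0) = b, g (x y 0) = c, g (x y 1) = e
    revert a b c e; decide
  exact ⟨h3, h1.1 ▸ h3, h1.2⟩

theorem Side.C (h : Side x p ε g θ) {y : X} (h0 : ε y ≠ 0) (h1 : g (x y 0) = g (x y 1)) (j : Fin 4) :
    θ (x y j) = θ (x y 0) := by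
  have := h.V h0
  rw [h1, CharTwo.add_self_eq_zero, add_zero] at this
  fin_cases j
  exacts [rfl, this.1, this.2.1, this.2.2]

theorem Ctx.cst (h : Ctx x p ε d o oP κ i) (hθ : Side x p ε g θ) {A : G → Prop} {R : G}
    (hA : Con A R ∨ ∀ Y, A Y → Y = R ∨ (adj Y R ∧ A R))
    (h1 : ∀ y, ε y ≠ 0 → A (κ (x y 0)) ∨ A (κ (x y 1)) → g (x y 0) = g (x y 1)) :
    ∃ c, ∀ a, A (κ a) → θ a = c := by
  obtain ⟨f, f1, f2⟩ := h.pk.cst0 h.gd.1 (A := A) θ hθ.1.2 (fun y => by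
      by_cases h0 : ε y = 0
      · exact ⟨fun _ => (hθ.S h0).1, fun _ => (hθ.S h0).2⟩
      · exact ⟨fun h2 => (hθ.C h0 (h1 y h0 (.inl h2)) 2).symm, fun h2 =>
          (hθ.C h0 (h1 y h0 (.inr h2)) 1).trans (hθ.C h0 (h1 y h0 (.inr h2)) 3).symm⟩)
    fun y h0 h2 _ => (hθ.C h0 (h1 y h0 (.inl h2)) 1).symm
  refine ⟨f R, fun a ha => (f1 a ha).trans ?_⟩
  rcases hA with hA | hA
  · exact hA.eq f f2 _ ha
  · rcases hA _ ha with h2 | h2
    exacts [by rw [h2], f2 _ _ ha h2.2 h2.1]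

theorem Ctx.far (h : Ctx x p ε d o oP κ i) {W : G} (hW : NT i W) (hg : ∀ a, κ a ≠ W → g a = 0)
    (hθ : Side x p ε g θ) : ∃ c, ∀ a, κ a ≠ W → ¬adj W (κ a) → θ a = c := by
  obtain ⟨c, hc⟩ := h.cst hθ (.inl (g_far W)) fun y h0 h1 => by
    rcases h1 with h1 | h1
    · rw [hg _ h1.1, hg _ fun h2 => h1.2 (h.clA h0 hW (.inr ⟨rfl, h2⟩) h1.1.symm)]
    · rw [hg _ h1.1, hg _ fun h2 => h1.2 (h.clA h0 hW (.inl ⟨h2, rfl⟩) h1.1.symm)]
  exact ⟨c, fun a h1 h2 => hc a ⟨h1, h2⟩⟩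

theorem Ctx.nside (h : Ctx x p ε d o oP κ i) {W : G} (g : α → ZMod 2) (μ : X → Md)
    (h1 : Cp x p μ g) (h0 : ∀ y, ε y = 0 → μ y = .S) (hg : ∀ a, κ a ≠ W → g a = 0) :
    ∃ θ, Side x p ε g θ ∧ (NT i W → ∀ a, κ a ≠ W → ¬adj W (κ a) → θ a = 0) := by
  obtain ⟨θ, hθ⟩ := h.side g μ h1 h0
  by_cases hW : NT i W
  · obtain ⟨c, hc⟩ := h.far hW hg hθ
    exact ⟨_, hθ.shift c, fun _ a h2 h3 => by rw [hc a h2 h3]; exact CharTwo.add_self_eq_zero c⟩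
  · exact ⟨θ, hθ, fun h => absurd h hW⟩

structure Phi (x : X → Fin 4 → α) (p : P → Fin 2 → α) (ε : X → ℤ) (κ : α → G) (i : Fin 12)
    (φ : G → α → ZMod 2) (k : ZMod 2) : Prop where
  sd : ∀ W, Side x p ε (ch κ W) (φ W)
  nm : ∀ W, NT i W → ∀ a, κ a ≠ W → ¬adj W (κ a) → φ W a = 0
  tot : ∀ a, TT i (κ a) → ∑ W with NT i W, φ W a = k

theorem Ctx.phi (h : Ctx x p ε d o oP κ i) : ∃ φ k, Phi x p ε κ i φ k := by
  choose φ h1 h2 using fun W => h.nside (W := W) (ch κ W) _ (h.chS W) (fun _ _ => rfl)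
    fun a ha => if_neg ha
  have h3 : ∀ A : Finset G, Side x p ε (fun a => if κ a ∈ A then 1 else 0)
      fun a => ∑ W ∈ A, φ W a := by
    intro A
    induction A using Finset.induction_on with
    | empty => exact ⟨Cp_iff.mpr fun _ _ _ => rfl, Cp_iff.mpr fun _ _ _ => by simp⟩
    | insert W A hW ih =>
      convert (h1 W).add ih using 2 with a
      · by_cases h4 : κ a = W <;> simp [ch, h4, hW]
      · rw [sum_insert hW]
  have hT := (g_T i).2.2.2.2.1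
  obtain ⟨k, hk⟩ := h.cst (h3 (univ.filter (NT i))) (.inl (g_T i).1) fun y h0 h4 => by
    have : NT i (κ (x y 0)) ∧ NT i (κ (x y 1)) := by
      by_cases h5 : κ (x y 0) = κ (x y 1)
      · rw [← h5, or_self] at h4; exact ⟨(hT _ h4).1, h5 ▸ (hT _ h4).1⟩
      rcases h4 with h4 | h4
      · exact ⟨(hT _ h4).1, (hT _ h4).2 _ (h.clA h0 (hT _ h4).1 (.inl ⟨rfl, rfl⟩) h5)⟩
      · exact ⟨(hT _ h4).2 _ (h.clA h0 (hT _ h4).1 (.inr ⟨rfl, rfl⟩) (Ne.symm h5)), (hT _ h4).1⟩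
    simp [this]
  exact ⟨φ, k, h1, h2, hk⟩

variable {φ : G → α → ZMod 2} {k : ZMod 2}

theorem Phi.C (h : Phi x p ε κ i φ k) {y : X} (h0 : ε y ≠ 0) {W : G} (h1 : κ (x y 0) ≠ W)
    (h2 : κ (x y 1) ≠ W) (j : Fin 4) : φ W (x y j) = φ W (x y 0) :=
  (h.sd W).C h0 (by simp [ch, h1, h2]) j

theorem Phi.zero (h : Phi x p ε κ i φ k) {y : X} (h0 : ε y ≠ 0) {W : G} (hW : NT i W)
    (h1 : κ (x y 0) ≠ W) (h2 : κ (x y 1) ≠ W) (h3 : adj (κ (x y 0)) (κ (x y 1))) (j : Fin 4) :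
    φ W (x y j) = 0 := by
  rw [h.C h0 h1 h2]
  by_cases h4 : adj W (κ (x y 0))
  · rw [← h.C h0 h1 h2 1]
    exact h.nm W hW _ h2 fun h5 => g_tri _ _ h4 _ h5 h3
  · exact h.nm W hW _ h1 h4

theorem Phi.mix (h : Phi x p ε κ i φ k) {y : X} (h0 : ε y ≠ 0) (h1 : TT i (κ (x y 0)))
    (h3 : adj (κ (x y 0)) (κ (x y 1))) :
    φ (κ (x y 0)) (x y 0) + φ (κ (x y 1)) (x y 0) = k := by
  have hT := (g_T i).2.2.2.2.1 _ h1
  rw [← h.tot _ h1, sum_eq_add_of_mem _ _ (by simpa using hT.1) (by simpa using hT.2 _ h3) h3.ne]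
  intro W hW h4
  exact h.zero h0 (by simpa using hW) h4.1.symm h4.2.symm h3 0

end

end Pool.Agent.MP_97bb71_gt
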