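import Pool.Agent.MP_97bb71_gt.Fin2

/-! Self-crossings near the window. -/

namespace Pool.Agent.MP_97bb71_gt
open Finset

set_option linter.unusedSectionVars false

noncomputable section

variable {α X P : Type} [Fintype α] [Fintype X] [Fintype P] [DecidableEq X]
  {x : X → Fin 4 → α} {p : P → Fin 2 → α} {ε : X → ℤ} {d : Dat G} {o : X → Fin 4 → Bool}
  {oP : P → Bool} {κ : α → G} {i : Fin 12}

theorem Ctx.sub (h : Ctx x p ε d o oP κ i) {S : Finset G} (hS : ∀ Y ∈ S, NT i Y) :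
    (∀ y, eS x ε (inS κ S) y = 0 ∨ eS x ε (inS κ S) y = 1) ∧
    (∀ y, eS x ε (inS κ S) y ≠ 0 ↔ ε y ≠ 0 ∧ κ (x y 0) ∈ S ∧ κ (x y 1) ∈ S) ∧
    ∑ y, eS x ε (inS κ S) y = (actv (eS x ε (inS κ S))).card ∧
    Br x p univ (eS x ε (inS κ S)) =
      (-8 : ℚ) ^ (-((actv (eS x ε (inS κ S))).card : ℤ) - d.w S) * d.B S true := by
  have h1 : ∀ y, eS x ε (inS κ S) y = if ε y ≠ 0 ∧ κ (x y 0) ∈ S ∧ κ (x y 1) ∈ S then 1 else 0 := by
    intro y
    by_cases h0 : ε y = 0 <;> by_cases h2 : κ (x y 0) ∈ S <;> by_cases h3 : κ (x y 1) ∈ S <;>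
      simp [eS, ind_inS, h0, h2, h3]
    exact h.one y h0 (hS _ h2)
  have h2 : ∑ y, eS x ε (inS κ S) y = (actv (eS x ε (inS κ S))).card := by
    rw [card_actv]
    exact sum_congr rfl fun y _ => by rw [h1]; split_ifs <;> simp_all
  refine ⟨fun y => by rw [h1]; split_ifs <;> simp, fun y => by rw [h1]; simp, h2, ?_⟩
  have h3 := h.pk.br S true
  simp only [sg, if_true, one_mul] at h3
  rw [h3, ← h2, ← sum_neg_distrib, wr]
  congr 3
  refine sum_congr rfl fun y _ => ?_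
  rw [h1]
  split_ifs with h4
  · have := h.neg y h4.1 (.inl (hS _ h4.2.1))
    rwa [h.one y h4.1 (hS _ h4.2.1)] at this
  · simp

theorem Ctx.subL (h : Ctx x p ε d o oP κ i) {S : Finset G} (hS : ∀ Y ∈ S, NT i Y) {s : ℤ}
    (hs : Ex (d.B S true) s) : 2 * ((actv (eS x ε (inS κ S))).card : ℤ) + 3 * d.w S - s ≤
      2 * N x p univ (act (eS x ε (inS κ S)) .V) := by
  obtain ⟨h1, -, h3, h4⟩ := h.sub hS
  have := (h4 ▸ (Ex.eight _).mul hs).le (Br_low h.hs _ h1)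
  omega

structure HL (x : X → Fin 4 → α) (p : P → Fin 2 → α) (ε : X → ℤ) (κ : α → G) (u : X)
    (g : α → ZMod 2) : Prop where
  cp : Cp x p (mF {u} (fun _ => .S) .V) g
  sup : ∀ a, κ a ≠ κ (x u 0) → g a = 0
  d0 : g (x u 0) + g (x u 1) = 1
  slf : ∀ y, ε y ≠ 0 → y ≠ u → κ (x y 0) = κ (x y 1) → g (x y 0) = g (x y 1)

variable {u : X} {g g' θ : α → ZMod 2}

theorem HL.S (h : HL x p ε κ u g) {y : X} (hy : y ≠ u) :
    g (x y 0) = g (x y 2) ∧ g (x y 1) = g (x y 3) := by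
  have := h.cp.1 y
  simpa only [mF, mem_singleton, hy, if_false, MP_97bb71_gt.cp] using this

theorem HL.V (h : HL x p ε κ u g) : g (x u 1) = g (x u 2) ∧ g (x u 3) = g (x u 0) := by
  have := h.cp.1 u
  simpa only [mF, mem_singleton, if_true, MP_97bb71_gt.cp] using this

theorem HL.on (h : HL x p ε κ u g) {a : α} (ha : g a = 1) : κ a = κ (x u 0) := by
  by_contra hn
  exact absurd ((h.sup a hn).symm.trans ha) (by decide)

theorem Ctx.hl (h : Ctx x p ε d o oP κ i) (h0 : ε u ≠ 0) (hY : NT i (κ (x u 0)))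
    (he : κ (x u 0) = κ (x u 1)) : ∃ g, HL x p ε κ u g := by
  have hS : ∀ Y ∈ ({κ (x u 0)} : Finset G), NT i Y := by simpa using hY
  have h1 := h.subL hS (h.gd.b1 _)
  have h2 := h.pk.NC h.gd.1 (S := {κ (x u 0)}) (R := κ (x u 0)) fun Y hY => .inl (by simpa using hY)
  have h3 := (h.sub hS).2.1
  rw [h.gd.w1, act_eq] at h1
  rw [act_eq, card_singleton] at h2
  obtain ⟨φ, k1, k2⟩ := DD_surj (x := x) (p := p) (actv (eS x ε (inS κ {κ (x u 0)}))) (fun _ => .S)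
    (by omega) fun y => if y = u then 1 else 0
  have h4 : ∀ y, y ∈ actv (eS x ε (inS κ {κ (x u 0)})) ↔
      ε y ≠ 0 ∧ κ (x y 0) = κ (x u 0) ∧ κ (x y 1) = κ (x u 0) := by
    intro y; simpa [actv] using h3 y
  have h5 := (h4 u).mpr ⟨h0, rfl, he.symm⟩
  have k3 : ∀ y ∈ actv (eS x ε (inS κ {κ (x u 0)})), y ≠ u → cp (fun j => φ (x y j)) .C := by
    intro y hy h6
    have := k1.1 y
    simp only [mF, hy, if_true] at this
    exact (cp_C_iff (.inr ⟨rfl, rfl⟩)).mpr ⟨this, (k2 y hy).trans (if_neg h6)⟩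
  have k4 := k1.1 u
  have k5 := k2 u h5
  have k6 := h.pk.kap.1 u
  simp only [mF, h5, if_true, cp, dd] at k4 k5 k6
  refine ⟨fun a => ch κ (κ (x u 0)) a * φ a, ⟨fun y => ?_, fun j => by
    simp only [k1.2 j, (h.chS _).2 j]⟩, fun a ha => by simp [ch, ha], by
    simpa [ch, ← he, k4.1] using k5, fun y h6 h7 h8 => ?_⟩
  · by_cases hy : y = u
    · subst hy
      simp [mF, cp, ch, ← k6.1, ← k6.2, ← he, k4]
    · have k7 := (h.chS (κ (x u 0))).1 y
      have k8 : cp (fun j => φ (x y j)) .S := by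
        by_cases h7 : y ∈ actv (eS x ε (inS κ {κ (x u 0)}))
        · exact cp_of_C (k3 y h7 hy) _
        · simpa only [mF, h7, if_false] using k1.1 y
      simp only [mF, mem_singleton, hy, if_false, cp] at k7 k8 ⊢
      rw [k7.1, k7.2, k8.1, k8.2]; exact ⟨rfl, rfl⟩
  · by_cases h9 : κ (x y 0) = κ (x u 0)
    · have := (k3 y ((h4 y).mpr ⟨h6, h9, h8 ▸ h9⟩) h7).1
      simp only at this
      simp [ch, ← h8, this]
    · simp [ch, ← h8, h9]

theorem Ctx.compl (h : Ctx x p ε d o oP κ i) (he : κ (x u 0) = κ (x u 1))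
    (hg : HL x p ε κ u g) : HL x p ε κ u fun a => ch κ (κ (x u 0)) a + g a := by
  have k6 := h.pk.kap.1 u
  simp only [cp] at k6
  refine ⟨Cp.comp₂ ⟨fun y => ?_, (h.chS _).2⟩ hg.cp fun a b => a + b,
    fun a ha => by simp [ch, ha, hg.sup a ha], ?_, fun y h1 h2 h3 => by
      simp only [ch, h3, hg.slf y h1 h2 h3]⟩
  · by_cases hy : y = u
    · subst hy; simp [mF, cp, ch, ← k6.1, ← k6.2, ← he]
    · simpa only [mF, mem_singleton, hy, if_false] using (h.chS _).1 y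
  · simp only [ch, ← he, if_true]
    linear_combination hg.d0 + CharTwo.add_self_eq_zero (1 : ZMod 2)

theorem z01 (a : ZMod 2) : a = 0 ∨ a = 1 := by revert a; decide

theorem Ctx.nside' (h : Ctx x p ε d o oP κ i) (h0 : ε u ≠ 0) (hY : NT i (κ (x u 0)))
    (hg : HL x p ε κ u g) : ∃ θ, Side x p ε g θ ∧
      ∀ a, κ a ≠ κ (x u 0) → ¬adj (κ (x u 0)) (κ a) → θ a = 0 := by
  obtain ⟨θ, h1, h2⟩ := h.nside g _ hg.cp (fun y hy => if_neg (by
    rw [mem_singleton]; rintro rfl; exact h0 hy)) hg.sup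
  exact ⟨θ, h1, h2 hY⟩

theorem Ctx.par (h : Ctx x p ε d o oP κ i) (h0 : ε u ≠ 0) (hY : NT i (κ (x u 0)))
    (hg : HL x p ε κ u g) {Z : G} (hZ : adj (κ (x u 0)) Z) :
    ∃ t, ∀ y, ε y ≠ 0 → Btw x κ (κ (x u 0)) Z y → g (x y 0) + g (x y 1) = t := by
  obtain ⟨θ, h1, -⟩ := h.nside' h0 hY hg
  have h2 := h.cnt hY hZ.ne
  rw [if_pos hZ] at h2
  obtain ⟨y1, y2, h3, h4⟩ := card_eq_two.mp h2
  have h5 := h.hs (fun a => θ a * ch κ Z a) fun j => by rw [h1.1.2 j, (h.chS Z).2 j]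
  rw [sum_congr rfl fun y _ => show _ = if ε y ≠ 0 ∧ Btw x κ (κ (x u 0)) Z y then
    g (x y 0) + g (x y 1) else 0 from ?_, ← sum_filter, h4, sum_pair h3] at h5
  · refine ⟨g (x y1 0) + g (x y1 1), fun y h6 h7 => ?_⟩
    have : y ∈ ({y1, y2} : Finset X) := h4 ▸ mem_filter.mpr ⟨mem_univ _, h6, h7⟩
    rcases mem_insert.mp this with rfl | h8
    · rfl
    · rw [mem_singleton.mp h8]; exact (CharTwo.add_eq_zero.mp h5).symm
  · have k1 := (h.chS Z).1 y
    simp only [cp] at k1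
    have c2 : ∀ u : ZMod 2, u + u = 0 := CharTwo.add_self_eq_zero
    rw [Fin.sum_univ_four, ← k1.1, ← k1.2]
    by_cases h6 : ε y = 0
    · rw [← (h1.S h6).1, ← (h1.S h6).2, if_neg (by simp [h6])]
      linear_combination c2 (θ (x y 0) * ch κ Z (x y 0)) + c2 (θ (x y 1) * ch κ Z (x y 1))
    rw [(h1.V h6).1, (h1.V h6).2.1, (h1.V h6).2.2]
    have e : (ch κ Z (x y 0) + ch κ Z (x y 1)) * (g (x y 0) + g (x y 1)) =
        if ε y ≠ 0 ∧ Btw x κ (κ (x u 0)) Z y then g (x y 0) + g (x y 1) else 0 := by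
      have := hZ.ne
      by_cases a1 : κ (x y 0) = Z <;> by_cases a2 : κ (x y 1) = Z <;>
        by_cases a3 : κ (x y 0) = κ (x u 0) <;> by_cases a4 : κ (x y 1) = κ (x u 0) <;>
        simp_all [ch, Btw, hg.sup]
    linear_combination e + c2 (θ (x y 0) * ch κ Z (x y 0)) + c2 (θ (x y 0) * ch κ Z (x y 1))

theorem Ctx.key (h : Ctx x p ε d o oP κ i) (h0 : ε u ≠ 0) (hY : NT i (κ (x u 0)))
    (hg : HL x p ε κ u g) : ∃ Z, adj (κ (x u 0)) Z ∧
      (∀ y, ε y ≠ 0 → Btw x κ (κ (x u 0)) Z y → g (x y 0) + g (x y 1) = 1) ∧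
      ∀ g' θ, Side x p ε g' θ →
        (∀ y, ε y ≠ 0 → y ≠ u → g (x y 0) = 1 ∨ g (x y 1) = 1 → g' (x y 0) = g' (x y 1)) →
        (∀ a, κ a = Z → θ a = 0) → ∀ a, g a = 1 → θ a = 0 := by
  have c2 : ∀ u : ZMod 2, u + u = 0 := CharTwo.add_self_eq_zero
  obtain ⟨y, h1, h2, h3⟩ : ∃ y, ε y ≠ 0 ∧ y ≠ u ∧ g (x y 0) ≠ g (x y 1) := by
    by_contra hn
    push Not at hn
    refine h.nl u h0 fun ψ hψ => ?_
    have h4 : Cp x p (act ε .V) g := by
      refine ⟨fun y => ?_, hg.cp.2⟩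
      by_cases hy : y = u
      · subst hy; simpa only [act, h0, if_false, cp] using hg.V
      by_cases h5 : ε y = 0 <;> simp only [act, h5, if_true, if_false, cp]
      exacts [hg.S hy, by simp [← hg.S hy, hn y h5 hy]]
    rw [act_eq] at hψ h4
    have h5 := orth h.hs _ _ (.inl ⟨rfl, rfl⟩) hψ h4
    rw [sum_eq_single_of_mem u (by simpa [actv] using h0) fun y _ hy => by
      rw [dd, dd, (hg.S hy).1, c2, mul_zero], dd, dd, ← hg.V.1, hg.d0, mul_one] at h5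
    rw [sum_singleton, dd, h5]
  have h4 : ∃ Z a b, Btw x κ (κ (x u 0)) Z y ∧ κ (x u 0) ≠ Z ∧ g (x y a) = 1 ∧ κ (x y b) = Z := by
    have h5 : κ (x y 0) ≠ κ (x y 1) := fun h5 => h3 (hg.slf y h1 h2 h5)
    rcases z01 (g (x y 0)) with h6 | h6
    · have h7 : g (x y 1) = 1 := (z01 _).resolve_left fun h7 => h3 (h6.trans h7.symm)
      exact ⟨_, 1, 0, .inr ⟨rfl, hg.on h7⟩, hg.on h7 ▸ h5.symm, h7, rfl⟩
    · exact ⟨_, 0, 1, .inl ⟨hg.on h6, rfl⟩, hg.on h6 ▸ h5, h6, rfl⟩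
  obtain ⟨Z, a, b, h5, h6, h7, h8⟩ := h4
  have hZ := h.clA h1 hY h5 h6
  have h9 : g (x y 0) = 1 ∨ g (x y 1) = 1 := by
    revert h3; generalize g (x y 0) = v, g (x y 1) = w; revert v w; decide
  refine ⟨Z, hZ, ?_, fun g' θ k1 k2 k3 => ?_⟩
  · obtain ⟨t, ht⟩ := h.par h0 hY hg hZ
    intro z k1 k2
    rw [ht z k1 k2, ← ht y h1 h5]
    revert h3; generalize g (x y 0) = v, g (x y 1) = w; revert v w; decide
  have k4 : ∀ j, g (x u j) * (θ (x u j) + (g (x u 0) * θ (x u 0) + g (x u 1) * θ (x u 1))) = 0 := by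
    have k5 := k1.1.1 u
    have k6 := hg.d0
    simp only [act, h0, if_false, cp] at k5
    intro j
    fin_cases j <;> simp only [Fin.zero_eta, Fin.mk_one, Fin.reduceFinMk, ← k5.1, k5.2, ← hg.V.1,
      hg.V.2] <;> revert k6 <;>
      generalize g (x u 0) = v, g (x u 1) = w, θ (x u 0) = s, θ (x u 1) = t <;> revert v w s t <;>
      decide
  have k5 : Cp x p (fun _ => .S)
      fun a => g a * (θ a + (g (x u 0) * θ (x u 0) + g (x u 1) * θ (x u 1))) := by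
    refine ⟨fun z => ?_, fun j => by simp only [hg.cp.2 j, k1.1.2 j]⟩
    by_cases hz : z = u
    · subst hz; simp only [cp, k4, and_self]
    simp only [cp, ← hg.S hz]
    by_cases h5 : ε z = 0
    · simp only [← k1.S h5, and_self]
    by_cases h6 : g (x z 0) = 1 ∨ g (x z 1) = 1
    · simp only [k1.C h5 (k2 z h5 hz h6), and_self]
    · push Not at h6
      simp [(z01 _).resolve_right h6.1, (z01 _).resolve_right h6.2]
  have k6 : ∀ a, g a = 1 → θ a = g (x u 0) * θ (x u 0) + g (x u 1) * θ (x u 1) := by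
    intro a ha
    have := h.pk.fac h.gd.conn (fun _ _ => mem_univ _) k5 (mem_univ a) (mem_univ _) (hg.on ha)
    rw [k4 0, ha, one_mul] at this
    exact CharTwo.add_eq_zero.mp this
  intro c hc
  rw [k6 c hc, ← k6 _ h7, k1.C h1 (k2 y h1 h2 h9), ← k1.C h1 (k2 y h1 h2 h9) b, k3 _ h8]

theorem Ctx.half (h : Ctx x p ε d o oP κ i) (h0 : ε u ≠ 0) (hY : NT i (κ (x u 0)))
    (hg : HL x p ε κ u g) (hg' : HL x p ε κ u g') (hc : ∀ a, g a + g' a = ch κ (κ (x u 0)) a)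
    (h1 : Side x p ε g' θ) (h2 : ∀ a, κ a ≠ κ (x u 0) → ¬adj (κ (x u 0)) (κ a) → θ a = 0) :
    ∀ a, g a = 1 → θ a = 0 := by
  obtain ⟨Z, k1, k2, k3⟩ := h.key h0 hY hg
  have e : ∀ a, g a = 1 → g' a = 0 := fun a ha => by
    have := hc a
    rw [ha, ch, if_pos (hg.on ha)] at this
    simpa using this
  refine k3 g' θ h1 (fun y h3 h4 h5 => ?_) ?_
  · by_cases h6 : κ (x y 0) = κ (x y 1)
    · exact hg'.slf y h3 h4 h6
    rcases h5 with h5 | h5
    · rw [e _ h5, hg'.sup _ fun h7 => h6 ((hg.on h5).trans h7.symm)]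
    · rw [e _ h5, hg'.sup _ fun h7 => h6 (h7.trans (hg.on h5).symm)]
  obtain ⟨R, k4, k5⟩ := g_out _ _ k1
  have k6 : ¬adj (κ (x u 0)) R := fun h3 => g_tri _ _ k1 _ h3 k4
  obtain ⟨c, hc'⟩ := h.cst h1 (A := fun V => V = Z ∨ V = R) (R := R) (.inr (by
      rintro _ (rfl | rfl)
      exacts [.inr ⟨k4, .inr rfl⟩, .inl rfl])) fun y h3 h4 => by
    have k7 : ∀ V, V = Z ∨ V = R → Btw x κ (κ (x u 0)) V y → g' (x y 0) = g' (x y 1) := by
      rintro V (rfl | rfl) h5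
      · have h6 := k2 y h3 h5
        have h7 : ch κ (κ (x u 0)) (x y 0) + ch κ (κ (x u 0)) (x y 1) = 1 := by
          rcases h5 with h5 | h5 <;> simp [ch, h5, k1.ne.symm]
        rw [← hc, ← hc] at h7
        exact CharTwo.add_eq_zero.mp (by linear_combination h7 - h6)
      · exact absurd (h.clA h3 hY h5 k5.symm) k6
    have k8 : ∀ V, V = Z ∨ V = R → V ≠ κ (x u 0) := by
      rintro V (rfl | rfl)
      exacts [k1.ne.symm, k5]
    rcases h4 with h4 | h4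
    · by_cases h5 : κ (x y 1) = κ (x u 0)
      · exact k7 _ h4 (.inr ⟨rfl, h5⟩)
      · rw [hg'.sup _ h5, hg'.sup _ (k8 _ h4)]
    · by_cases h5 : κ (x y 0) = κ (x u 0)
      · exact k7 _ h4 (.inl ⟨h5, rfl⟩)
      · rw [hg'.sup _ h5, hg'.sup _ (k8 _ h4)]
  obtain ⟨b, hb⟩ := h.pk.sur h.gd.1 R
  intro a ha
  rw [hc' a (.inl ha), ← hc' b (.inr hb), h2 b (hb ▸ k5) (hb ▸ k6)]

variable {φ : G → α → ZMod 2} {k : ZMod 2}

theorem Ctx.oth (h : Ctx x p ε d o oP κ i) (hφ : Phi x p ε κ i φ k) (h0 : ε u ≠ 0)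
    (hY : NT i (κ (x u 0))) (he : κ (x u 0) = κ (x u 1)) (hg : HL x p ε κ u g) {W : G}
    (hW : NT i W) (h1 : adj (κ (x u 0)) W)
    (h2 : ∀ y, ε y ≠ 0 → Btw x κ (κ (x u 0)) W y → g (x y 0) + g (x y 1) = 0) :
    φ W (x u 0) = 0 := by
  obtain ⟨Z, k1, k2, k3⟩ := h.key h0 hY hg
  have k4 : Z ≠ W := by
    rintro rfl
    obtain ⟨y, h3, h4⟩ := h.pk.crs h.gd.1 h1
    exact absurd ((k2 y h3 h4).symm.trans (h2 y h3 h4)) (by decide)
  have k5 := k3 _ _ (hφ.sd W) (fun y h3 _ h5 => by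
      rcases h5 with h5 | h5
      · have h6 : κ (x y 1) ≠ W := fun h6 => by
          have := h2 y h3 (.inl ⟨hg.on h5, h6⟩)
          rw [h5, hg.sup _ (h6 ▸ h1.ne.symm)] at this
          exact absurd this (by decide)
        simp [ch, h6, hg.on h5, h1.ne]
      · have h6 : κ (x y 0) ≠ W := fun h6 => by
          have := h2 y h3 (.inr ⟨h6, hg.on h5⟩)
          rw [h5, hg.sup _ (h6 ▸ h1.ne.symm)] at this
          exact absurd this (by decide)
        simp [ch, h6, hg.on h5, h1.ne])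
    fun a ha => hφ.nm W hW a (ha ▸ k4) (ha ▸ g_tri _ _ h1 _ k1)
  rcases z01 (g (x u 0)) with h3 | h3
  · rw [← hφ.C h0 h1.ne (he ▸ h1.ne) 1]
    exact k5 _ (by simpa [h3] using hg.d0)
  · exact k5 _ h3

theorem Ctx.self (h : Ctx x p ε d o oP κ i) (hφ : Phi x p ε κ i φ k) (h0 : ε u ≠ 0)
    (hT : TT i (κ (x u 0))) (he : κ (x u 0) = κ (x u 1)) : k = 1 := by
  have c2 : ∀ u : ZMod 2, u + u = 0 := CharTwo.add_self_eq_zero
  have hY := ((g_T i).2.2.2.2.1 _ hT).1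
  obtain ⟨g, hg⟩ := h.hl h0 hY he
  have hg' := h.compl he hg
  obtain ⟨θ, h1, h2⟩ := h.nside' h0 hY hg
  have h3 := (hφ.sd (κ (x u 0))).add h1
  have k1 := h.half h0 hY hg hg' (fun a => by linear_combination c2 (g a)) h3
    fun a h4 h5 => by rw [hφ.nm _ hY a h4 h5, h2 a h4 h5, add_zero]
  have k2 := h.half h0 hY hg' hg (fun a => by linear_combination c2 (g a)) h1 h2
  rw [← hφ.tot _ hT, sum_eq_single_of_mem _ (by simpa using hY)]
  · have k3 := (h1.V h0).1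
    have k4 := (hφ.sd (κ (x u 0))).C h0 (by simp [ch, ← he]) 1
    have k5 := hg.d0
    rw [k5] at k3
    rcases z01 (g (x u 0)) with h4 | h4
    · have k6 := k1 (x u 1) (by simpa [h4] using k5)
      have k7 := k2 (x u 0) (by simp [ch, h4])
      rw [k4, k3, k7] at k6
      exact CharTwo.add_eq_zero.mp (by simpa using k6)
    · have k6 := k1 (x u 0) h4
      have k7 := k2 (x u 1) (by simpa [ch, h4, ← he] using k5)
      linear_combination k6 + k3 - k7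
  · intro W hW h4
    have hW' : NT i W := by simpa using hW
    by_cases h5 : adj (κ (x u 0)) W
    swap
    · exact hφ.nm W hW' _ h4.symm fun h6 => h5 h6.symm
    obtain ⟨t, ht⟩ := h.par h0 hY hg h5
    rcases z01 t with rfl | rfl
    · exact h.oth hφ h0 hY he hg hW' h5 ht
    · refine h.oth hφ h0 hY he hg' hW' h5 fun y h6 h7 => ?_
      have h8 : ch κ (κ (x u 0)) (x y 0) + ch κ (κ (x u 0)) (x y 1) = 1 := by
        rcases h7 with h7 | h7 <;> simp [ch, h7, h4]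
      linear_combination h8 + ht y h6 h7 + c2 1

end

end Pool.Agent.MP_97bb71_gt
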