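import Pool.Agent.MP_97bb71_gt.Fin3
import Pool.Agent.MP_97bb71_gt.Red

/-! No abstract almost alternating diagram carries the invariants of the necklace link. -/

namespace Pool.Agent.MP_97bb71_gt
open Finset

set_option linter.unusedSectionVars false

noncomputable section

variable {α X P : Type} [Fintype α] [Fintype X] [Fintype P] [DecidableEq X]
  {x : X → Fin 4 → α} {p : P → Fin 2 → α} {ε : X → ℤ} {d : Dat G} {o : X → Fin 4 → Bool}
  {oP : P → Bool} {κ : α → G} {i : Fin 12} {φ : G → α → ZMod 2} {k : ZMod 2} {S : Finset G}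

def vv (κ : α → G) (φ : G → α → ZMod 2) (S : Finset G) (a : α) (W : G) : ZMod 2 :=
  if W = κ a then (if κ a ∈ S then ∑ V ∈ S.erase (κ a), φ V a else 1)
  else if κ a ∈ S ∧ W ∈ S then φ W a else 0

theorem vv_congr {a b : α} (h : κ a = κ b) (h1 : κ a ∈ S → ∀ W ∈ S, W ≠ κ a → φ W a = φ W b) :
    vv κ φ S a = vv κ φ S b := by
  funext W
  simp only [vv, ← h]
  split_ifs with h2 h3 h3
  · exact sum_congr rfl fun V hV => h1 h3 V (mem_of_mem_erase hV) (ne_of_mem_erase hV)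
  · rfl
  · exact h1 h3.1 W h3.2 h2
  · rfl

def pr (Y Z : G) (c : ZMod 2) (W : G) : ZMod 2 := if W = Y ∨ W = Z then c else 0

theorem vv_pair {a : α} {Y Z : G} (ha : κ a = Y) (hY : Y ∈ S) (hZ : Z ∈ S) (hne : Y ≠ Z)
    (h : ∀ W ∈ S, Y ≠ W → Z ≠ W → φ W a = 0) : vv κ φ S a = pr Y Z (φ Z a) := by
  funext W
  simp only [vv, pr, ha, hY, if_true, true_and]
  by_cases h1 : W = Y
  · simp only [h1, if_true, true_or]
    exact sum_eq_single_of_mem _ (by simp [hZ, hne.symm]) fun V hV h2 =>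
      h V (mem_of_mem_erase hV) (ne_of_mem_erase hV).symm h2.symm
  by_cases h2 : W = Z
  · simp [h2, hZ, hne.symm]
  · simp only [h1, h2, if_false, or_self]
    split_ifs with h3
    exacts [h W h3 (Ne.symm h1) (Ne.symm h2), rfl]

theorem Ctx.vmix (h : Ctx x p ε d o oP κ i) (hφ : Phi x p ε κ i φ k) (hS : ∀ Y ∈ S, TT i Y)
    {y : X} (h0 : ε y ≠ 0) (h1 : κ (x y 0) ∈ S) (h2 : κ (x y 1) ∈ S)
    (h3 : κ (x y 0) ≠ κ (x y 1)) : ∃ t, vv κ φ S (x y 0) = pr (κ (x y 0)) (κ (x y 1)) t ∧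
      vv κ φ S (x y 1) = pr (κ (x y 0)) (κ (x y 1)) (t + k + 1) ∧
      vv κ φ S (x y 2) = pr (κ (x y 0)) (κ (x y 1)) (t + 1) ∧
      vv κ φ S (x y 3) = pr (κ (x y 0)) (κ (x y 1)) (t + k) := by
  have hT := (g_T i).2.2.2.2.1
  have h4 := h.clA h0 (hT _ (hS _ h1)).1 (.inl ⟨rfl, rfl⟩) h3
  have h5 := fun W hW a b => hφ.zero h0 (W := W) (hT _ (hS _ hW)).1 a b h4
  have h6 := hφ.mix h0 (hS _ h1) h4
  have k1 := (hφ.sd (κ (x y 0))).V h0
  have k2 := (hφ.sd (κ (x y 1))).V h0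
  simp only [ch, if_true, h3, h3.symm, if_false, add_zero, zero_add] at k1 k2
  obtain ⟨k3, k4⟩ := h.pk.kap.1 y
  have e : ∀ c, pr (κ (x y 1)) (κ (x y 0)) c = pr (κ (x y 0)) (κ (x y 1)) c := fun c => by
    funext W; simp only [pr, or_comm]
  have e2 : φ (κ (x y 0)) (x y 0) = φ (κ (x y 1)) (x y 0) + k := by
    linear_combination h6 - CharTwo.add_self_eq_zero (φ (κ (x y 1)) (x y 0))
  refine ⟨_, vv_pair rfl h1 h2 h3 fun W hW a b => h5 W hW a b 0, ?_, ?_, ?_⟩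
  · rw [vv_pair rfl h2 h1 h3.symm fun W hW a b => h5 W hW b a 1, e, k1.1, e2]
  · rw [vv_pair k3.symm h1 h2 h3 fun W hW a b => h5 W hW a b 2, k2.2.1]
  · rw [vv_pair k4.symm h2 h1 h3.symm fun W hW a b => h5 W hW b a 3, e, k1.2.2, e2]

theorem Ctx.vcp (h : Ctx x p ε d o oP κ i) (hφ : Phi x p ε κ i φ k) (hS : ∀ Y ∈ S, TT i Y)
    {m : Md} (hm : k = 0 ∧ m = .V ∨ k = 1 ∧ m = .U) :
    Cp x p (act (eS x ε (inS κ S)) m) (vv κ φ S) := by
  have h1 := (h.sub fun Y hY => ((g_T i).2.2.2.2.1 _ (hS Y hY)).1).2.1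
  refine ⟨fun y => ?_, fun j => vv_congr (h.pk.kap.2 j) fun _ W _ _ => (hφ.sd W).1.2 j⟩
  obtain ⟨k3, k4⟩ := h.pk.kap.1 y
  simp only at k3 k4
  by_cases h2 : eS x ε (inS κ S) y = 0
  · simp only [act, h2, if_true, cp]
    have h3 := mt (h1 y).mpr (not_not.mpr h2)
    by_cases h0 : ε y = 0
    · exact ⟨vv_congr k3 fun _ W _ _ => ((hφ.sd W).S h0).1,
        vv_congr k4 fun _ W _ _ => ((hφ.sd W).S h0).2⟩
    refine ⟨vv_congr k3 fun a W b c => (hφ.C h0 c.symm ?_ 2).symm, vv_congr k4 fun a W b c => ?_⟩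
    · exact fun h4 => h3 ⟨h0, a, h4 ▸ b⟩
    · have h4 : κ (x y 0) ≠ W := fun h4 => h3 ⟨h0, h4 ▸ b, a⟩
      rw [hφ.C h0 h4 c.symm, hφ.C h0 h4 c.symm 3]
  simp only [act, h2, if_false]
  obtain ⟨h0, h3, h4⟩ := (h1 y).mp h2
  by_cases h5 : κ (x y 0) = κ (x y 1)
  · have e : ∀ j, κ (x y j) = κ (x y 0) → vv κ φ S (x y j) = vv κ φ S (x y 0) := fun j hj =>
      vv_congr hj fun _ W _ c => hφ.C h0 (hj ▸ c.symm) (h5 ▸ hj ▸ c.symm) j
    refine cp_of_C ?_ _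
    simp only [cp, e 1 h5.symm, e 2 k3.symm, e 3 (k4.symm.trans h5.symm), and_self]
  obtain ⟨t, e0, e1, e2, e3⟩ := h.vmix hφ hS h0 h3 h4 h5
  rcases hm with ⟨rfl, rfl⟩ | ⟨rfl, rfl⟩ <;> simp only [cp, e0, e1, e2, e3, add_zero, and_self]
  rw [add_assoc, CharTwo.add_self_eq_zero, add_zero]; exact ⟨rfl, trivial⟩

theorem Ctx.big (h : Ctx x p ε d o oP κ i) (hφ : Phi x p ε κ i φ k) {j : Fin 12}
    (hS : ∀ Y ∈ leg j, TT i Y) {μ : X → Md} (hc : Cp x p μ (vv κ φ (leg j))) :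
    61 ≤ N x p univ μ := by
  classical
  obtain ⟨-, -, g1, -, -, g2, -⟩ := g_T j
  have key : ∀ Y ∈ leg j, ∀ c, ∃ a, vv κ φ (leg j) a = pr Y (nxt j Y) c := by
    intro Y hY c
    obtain ⟨-, -, g3, g4, -⟩ := g2 Y hY
    obtain ⟨y, h0, h1⟩ := h.pk.crs h.gd.1 g4
    have e : ∀ c, pr (κ (x y 0)) (κ (x y 1)) c = pr Y (nxt j Y) c := fun c => by
      funext W; rcases h1 with h1 | h1 <;> simp only [pr, h1, or_comm]
    obtain ⟨t, e0, -, e2, -⟩ := h.vmix hφ hS h0 (by rcases h1 with h1 | h1 <;> simpa [h1])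
      (by rcases h1 with h1 | h1 <;> simpa [h1])
      (by rcases h1 with h1 | h1 <;> simp [h1, g4.ne, g4.ne.symm])
    have : t = c ∨ t + 1 = c := by clear e0 e2; revert t c; decide
    rcases this with rfl | rfl
    exacts [⟨_, e0.trans (e _)⟩, ⟨_, e2.trans (e _)⟩]
  let tv : Option G → G → ZMod 2 := fun v => v.elim 0 fun Y =>
    pr Y (if Y ∈ leg j then nxt j Y else Y) 1
  have h1 : Function.Injective tv := by
    have e : ∀ Y, tv (some Y) Y = 1 := fun Y => by simp [tv, pr]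
    rintro (_ | Y) (_ | Z) h1
    · rfl
    · exact absurd ((congrFun h1 Z).trans (e Z)) (by simp [tv])
    · exact absurd ((congrFun h1 Y).symm.trans (e Y)) (by simp [tv])
    by_contra h2
    have h3 := (congrFun h1 Z).trans (e Z)
    have h4 := (congrFun h1 Y).symm.trans (e Y)
    have h5 : Y ≠ Z := fun h => h2 (by rw [h])
    simp only [tv, pr, Option.elim, h5, h5.symm, false_or, ite_eq_left_iff, zero_ne_one,
      imp_false, not_not] at h3 h4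
    split_ifs at h3 h4 with a b b
    · exact (g2 Y a).2.2.2.2 (by rw [← h3, ← h4])
    all_goals first | exact h5 h4 | exact h5 h3.symm
  have h2 : univ.image tv ⊆ univ.image (vv κ φ (leg j)) := by
    intro v hv
    obtain ⟨_ | Y, -, rfl⟩ := mem_image.mp hv
    · obtain ⟨a, ha⟩ := key _ g1 0
      exact mem_image.mpr ⟨a, mem_univ _, ha.trans (by funext W; simp [pr, tv])⟩
    by_cases hY : Y ∈ leg j
    · obtain ⟨a, ha⟩ := key _ hY 1
      exact mem_image.mpr ⟨a, mem_univ _, ha.trans (by simp [tv, hY])⟩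
    · obtain ⟨a, ha⟩ := h.pk.sur h.gd.1 Y
      exact mem_image.mpr ⟨a, mem_univ _, by funext W; simp [tv, pr, vv, ha, hY]⟩
  have h3 := (card_le_card h2).trans (card_le_ncl _ (Cp_iff.mp hc))
  rw [card_image_of_injective _ h1] at h3
  simpa [N] using h3

theorem Ctx.false (h : Ctx x p ε d o oP κ i) : False := by
  obtain ⟨φ, k, hφ⟩ := h.phi
  obtain ⟨j, l, h1, ⟨s, hs, h2⟩, h3⟩ := h.gd.bl i
  have h4 : (∀ Y ∈ leg j, TT i Y) ∧ ∀ Y ∈ leg l, TT i Y := by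
    have a := fun Y hY => ((g_T i).2.2.2.2.2.1 Y hY).1
    have b := fun Y hY => ((g_T (i + 1)).2.2.2.2.2.1 Y hY).2.1
    rw [add_sub_cancel_right] at b
    rcases h1 with ⟨rfl, rfl⟩ | ⟨rfl, rfl⟩
    exacts [⟨a, b⟩, ⟨b, a⟩]
  have hT := (g_T i).2.2.2.2.1
  rcases z01 k with rfl | rfl
  · have k1 := h.vcp hφ h4.2 (.inl ⟨rfl, rfl⟩)
    have k2 := h.big hφ h4.2 k1
    obtain ⟨e1, e2, e3, e4⟩ := h.sub fun Y hY => (hT _ (h4.2 Y hY)).1
    have k3 : ∀ y, eS x ε (inS κ (leg l)) y ≠ 0 → κ (x y 0) ≠ κ (x y 1) := fun y hy h5 =>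
      absurd (h.self hφ ((e2 y).mp hy).1 (h4.2 _ ((e2 y).mp hy).2.1) h5) (by decide)
    have k4 := (Br_ex h.hs _ e1 fun y hy h5 => by
      obtain ⟨a, b, c⟩ := (e2 y).mp hy
      obtain ⟨t, e0, -, e2, -⟩ := h.vmix hφ h4.2 a b c (k3 y hy)
      have := congrFun (e0.symm.trans ((k1.eq h5).trans e2)) (κ (x y 0))
      simp [pr] at this).le (e4 ▸ (Ex.eight _).low.mul h3)
    have k5 : -2 * ∑ y, eS x ε (inS κ (leg l)) y = -24 := by
      rw [← (g_T l).2.2.2.2.2.2, ← h.pk.mix h.gd.1, mul_sum]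
      refine sum_congr rfl fun y _ => ?_
      rcases e1 y with h5 | h5
      · have := mt (e2 y).mpr (not_not.mpr h5)
        rw [h5]
        split_ifs with h6
        · rw [not_not.mp fun h7 => this ⟨h7, h6.1, h6.2.1⟩]; simp
        · simp
      · obtain ⟨a, b, c⟩ := (e2 y).mp (by simp [h5])
        rw [h5, if_pos ⟨b, c, k3 y (by simp [h5])⟩, h.neg y a (.inl (hT _ (h4.2 _ b)).1)]; rfl
    rw [h.gd.wl] at k4
    omega
  · have k2 := h.big hφ h4.1 (h.vcp hφ h4.1 (.inr ⟨rfl, rfl⟩))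
    have k3 := h.subL (fun Y hY => (hT _ (h4.1 Y hY)).1) h2
    have k4 := h.pk.NC h.gd.1 (g_T j).2.1
    have k5 := GI h.hs (actv (eS x ε (inS κ (leg j)))) fun _ => .S
    simp only [← act_eq] at k5
    rw [h.gd.wl] at k3
    rw [(g_T j).2.2.2.1] at k4
    omega

theorem caseF {d2 : Dat G} (h : Cls x p ε d d2) (hd : Good d) {u : X} (hu : ε u = -1)
    (h0 : ∀ y, ε y ≠ 0 → ¬Dep x p ε .U {y})
    (h1 : ∀ y, ε y ≠ 0 → ¬Dep x p ε .V {y}) (h2 : ∀ y, ε y ≠ 0 → y ≠ u → ¬Dep x p ε .V {u, y})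
    (h3 : ∀ y z, ε y ≠ 0 → ε z ≠ 0 → y ≠ u → z ≠ u → y ≠ z → ¬Dep x p ε .V {u, y, z}) :
    False := by
  obtain ⟨o, oP, κ, z, k1, k2⟩ := one_pos h hd hu h1 h2 h3
  obtain ⟨i, a, b, c⟩ := g_win (κ (x u 0)) (κ (x z 0)) (κ (x z 1))
  refine Ctx.false ⟨k1, hd, h.eul' hd.conn, fun y h4 h5 => ?_, fun y h4 h5 => k2 y ?_ h4, h0⟩
    (i := i)
  · exact ((h.eps y).resolve_left h4).resolve_right fun h6 => a (h.uniq _ _ h6 hu ▸ h5)
  · rintro rfl; tauto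

theorem bad (α : Type) [Fintype α] (c : ℕ) :
    ∀ d1 d2 : Dat G, Good d1 → Good d2.mir → Bad α c d1 d2 := by
  induction c with
  | zero => intro _ _ _ _ X P _ _ _ x p ε h; omega
  | succ c ih =>
    intro d1 d2 g1 g2 X P _ _ _ x p ε hc h
    have b1 : Bad α (actv ε).card d1 d2 := fun X P _ _ _ x p ε h1 =>
      ih d1 d2 g1 g2 X P x p ε (by omega)
    have b2 : Bad α (actv ε).card d2.mir d1.mir := fun X P _ _ _ x p ε h1 =>
      ih _ _ g2 (by rwa [Dat.mir_mir]) X P x p ε (by omega)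
    have m1 := fun A => Dep_pm (x := x) (p := p) (ε := ε) (fun _ => 0) true .V A
    have m2 := fun A => Dep_pm (x := x) (p := p) (ε := ε) (fun _ => 0) true .U A
    have l1 : ∀ y, ε y ≠ 0 → ¬Dep x p ε .U {y} := fun y hy => redA g1.conn h b1 hy
    have l2 : ∀ y, ε y ≠ 0 → ¬Dep x p ε .V {y} := fun y hy hD =>
      redA g2.conn h.mir b2 hy ((m1 _).mpr hD)
    by_cases h1 : ∀ y, ε y ≠ -1
    · exact caseB h g1 h1 l1 l2
    push Not at h1
    obtain ⟨u, hu⟩ := h1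
    by_cases h2 : ∀ y z, ε y ≠ 0 → ε z ≠ 0 → y ≠ u → z ≠ u → y ≠ z → ¬Dep x p ε .V {u, y, z}
    · exact caseF h g1 hu l1 l2 (fun y a b hD => redC g2.conn h.mir b2 hu a b ((m1 _).mpr hD)) h2
    refine caseF h.mir g2 hu (fun y a hD => l2 y a ((m1 _).mp hD))
      (fun y a hD => l1 y a ((m2 _).mp hD))
      (fun y a b hD => redC g1.conn h b1 hu a b ((m2 _).mp hD)) fun y z a b c e f hD => ?_
    exact h2 fun y' z' a' b' c' e' f' hD' =>
      redD g1.conn h b1 hu a b a' b' c e f c' e' f' ((m2 _).mp hD) hD'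

end

end Pool.Agent.MP_97bb71_gt
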