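import Pool.Agent.MP_97bb71_gt.Conn

/-! Linear algebra of state circles over the field with two elements. -/

namespace Pool.Agent.MP_97bb71_gt
open Finset Module

set_option linter.unusedSectionVars false

noncomputable section

variable {α β X P : Type} [Fintype α] [Fintype X] [Fintype P] [DecidableEq X]

def Sol (K : Type) [Field K] (x : X → Fin 4 → α) (p : P → Fin 2 → α) (μ : X → Md) :
    Submodule K (α → K) where
  carrier := {g | Cp x p μ g}
  add_mem' := fun h1 h2 => h1.comp₂ h2 fun u v => u + v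
  zero_mem' := Cp_iff.mpr fun _ _ _ => rfl
  smul_mem' := fun c _ h => h.comp fun u => c • u

theorem finrank_Sol (K : Type) [Field K] (x : X → Fin 4 → α) (p : P → Fin 2 → α) (μ : X → Md) :
    finrank K (Sol K x p μ) = N x p univ μ := by
  classical
  have : Fintype (Quot (rel x p μ)) := Fintype.ofSurjective _ Quot.mk_surjective
  let e : (Quot (rel x p μ) → K) ≃ₗ[K] Sol K x p μ :=
    { toFun := fun f => ⟨fun a => f (Quot.mk _ a), (Cp_mk x p μ).comp f⟩
      map_add' := fun _ _ => rfl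
      map_smul' := fun _ _ => rfl
      invFun := fun g => Quot.lift g.1 (Cp_iff.mp g.2)
      left_inv := fun f => by funext q; induction q using Quot.ind; rfl
      right_inv := fun _ => rfl }
  rw [← e.finrank_eq, finrank_fintype_fun_eq_card, N, ncl,
    image_univ_of_surjective Quot.mk_surjective, card_univ]

theorem finrank_map_ker {K V V' : Type} [Field K] [AddCommGroup V] [Module K V] [AddCommGroup V']
    [Module K V'] [FiniteDimensional K V] (A : Submodule K V) (D : V →ₗ[K] V') :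
    finrank K (A.map D) + finrank K (A ⊓ LinearMap.ker D : Submodule K V) = finrank K A := by
  rw [← (D.domRestrict A).finrank_range_add_finrank_ker, LinearMap.range_domRestrict,
    LinearMap.ker_domRestrict, ← Submodule.finrank_map_subtype_eq, Submodule.map_comap_subtype]

def mF (F : Finset X) (μ : X → Md) (m : Md) (y : X) : Md := if y ∈ F then m else μ y

def dd (x : X → Fin 4 → α) (g : α → ZMod 2) (y : X) : ZMod 2 := g (x y 0) + g (x y 2)

def HS (x : X → Fin 4 → α) (p : P → Fin 2 → α) : Prop :=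
  ∀ g : α → ZMod 2, (∀ j, g (p j 0) = g (p j 1)) → ∑ y, ∑ j, g (x y j) = 0

theorem HS_of_flow {x : X → Fin 4 → α} {p : P → Fin 2 → α} {o : X → Fin 4 → Bool}
    {oP : P → Bool} (h : ∀ g, flow x p o oP g = 0) : HS x p := by
  intro g hg
  have h1 := congrArg (Int.cast : ℤ → ZMod 2) (h fun a => (g a).val)
  have e : ∀ b, ((sg b : ℤ) : ZMod 2) = 1 := by decide
  simpa [flow, hg, e] using h1

theorem cp_sum {v : Fin 4 → ZMod 2} {m : Md} (h : cp v m) : ∑ j, v j = 0 := by
  rw [Fin.sum_univ_four]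
  cases m <;> simp only [cp] at h <;> generalize v 0 = a at * <;> generalize v 1 = b at * <;>
    generalize v 2 = c at * <;> generalize v 3 = d at * <;> revert a b c d <;> decide

def UV (m m' : Md) : Prop := (m = .U ∧ m' = .V) ∨ (m = .V ∧ m' = .U)

variable {x : X → Fin 4 → α} {p : P → Fin 2 → α}

theorem orth (hs : HS x p) (F : Finset X) (μ : X → Md) {m m' : Md} (hm : UV m m')
    {ψ φ : α → ZMod 2} (h1 : Cp x p (mF F μ m) ψ) (h2 : Cp x p (mF F μ m') φ) :
    ∑ y ∈ F, dd x ψ y * dd x φ y = 0 := by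
  rw [← hs (fun a => ψ a * φ a) fun j => by rw [h1.2 j, h2.2 j]]
  refine (sum_congr rfl fun y hy => ?_).trans (sum_subset (subset_univ F) fun y _ hy => ?_)
  · have k1 := h1.1 y
    have k2 := h2.1 y
    simp only [mF, hy, if_true] at k1 k2
    rw [Fin.sum_univ_four]
    rcases hm with ⟨rfl, rfl⟩ | ⟨rfl, rfl⟩
    · simp only [dd, ← k1.1, ← k1.2, k2.1, k2.2]; ring
    · simp only [dd, ← k2.1, ← k2.2, k1.1, k1.2]; ring
  · have k1 := h1.1 y
    have k2 := h2.1 y
    simp only [mF, hy, if_false] at k1 k2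
    refine cp_sum (m := μ y) ((cp_iff _ _).mpr fun q hq => ?_)
    rw [(cp_iff _ _).mp k1 q hq, (cp_iff _ _).mp k2 q hq]

def DD (x : X → Fin 4 → α) (F : Finset X) : (α → ZMod 2) →ₗ[ZMod 2] (F → ZMod 2) where
  toFun g y := dd x g y
  map_add' g h := by funext y; simp only [dd, Pi.add_apply]; ring
  map_smul' c g := by funext y; simp only [dd, Pi.smul_apply, smul_eq_mul, RingHom.id_apply]; ring

theorem cp_C_iff {v : Fin 4 → ZMod 2} {m m' : Md} (hm : UV m m') :
    cp v .C ↔ cp v m ∧ v 0 + v 2 = 0 := by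
  rcases hm with ⟨rfl, _⟩ | ⟨rfl, _⟩ <;> simp only [cp] <;> generalize v 0 = a <;>
    generalize v 1 = b <;> generalize v 2 = c <;> generalize v 3 = d <;> revert a b c d <;> decide

theorem Sol_ker (F : Finset X) (μ : X → Md) {m m' : Md} (hm : UV m m') :
    Sol (ZMod 2) x p (mF F μ m) ⊓ LinearMap.ker (DD x F) = Sol (ZMod 2) x p (mF F μ .C) := by
  ext g
  simp only [Submodule.mem_inf, LinearMap.mem_ker]
  constructor
  · rintro ⟨h1, h2⟩
    refine ⟨fun y => ?_, h1.2⟩
    have := h1.1 y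
    by_cases hy : y ∈ F <;> simp only [mF, hy, if_true, if_false] at this ⊢
    · exact (cp_C_iff hm).mpr ⟨this, congrFun h2 ⟨y, hy⟩⟩
    · exact this
  · intro h
    refine ⟨⟨fun y => ?_, h.2⟩, funext fun y => ?_⟩
    · have := h.1 y
      by_cases hy : y ∈ F <;> simp only [mF, hy, if_true, if_false] at this ⊢
      · exact cp_of_C this _
      · exact this
    · have := h.1 y
      simp only [mF, y.2, if_true] at this
      exact ((cp_C_iff hm).mp this).2

theorem rank_DD (F : Finset X) (μ : X → Md) {m m' : Md} (hm : UV m m') :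
    finrank (ZMod 2) ((Sol (ZMod 2) x p (mF F μ m)).map (DD x F)) + N x p univ (mF F μ .C) =
      N x p univ (mF F μ m) := by
  rw [← finrank_Sol (ZMod 2), ← finrank_Sol (ZMod 2), ← Sol_ker F μ hm, finrank_map_ker]

theorem orth_facts (hs : HS x p) (F : Finset X) (μ : X → Md) {m m' : Md} (hm : UV m m') :
    ∃ O : Submodule (ZMod 2) (F → ZMod 2), (Sol (ZMod 2) x p (mF F μ m')).map (DD x F) ≤ O ∧
      finrank (ZMod 2) ((Sol (ZMod 2) x p (mF F μ m)).map (DD x F)) + finrank (ZMod 2) O = F.card ∧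
      ∀ h : X → ZMod 2, (∀ ψ, Cp x p (mF F μ m) ψ → ∑ y ∈ F, dd x ψ y * h y = 0) →
        (fun y : F => h y) ∈ O := by
  let B : LinearMap.BilinForm (ZMod 2) (F → ZMod 2) := dotProductBilin (ZMod 2) (ZMod 2)
  have hB : ∀ u v, B u v = ∑ y, u y * v y := fun _ _ => rfl
  have hk : LinearMap.ker B = ⊥ := by
    rw [LinearMap.ker_eq_bot']
    intro u hu
    funext y
    have := congrArg (fun f => f (Pi.single y 1)) hu
    simpa [B] using this
  have key : ∀ h : X → ZMod 2, (∀ ψ, Cp x p (mF F μ m) ψ → ∑ y ∈ F, dd x ψ y * h y = 0) →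
      (fun y : F => h y) ∈ B.orthogonal ((Sol (ZMod 2) x p (mF F μ m)).map (DD x F)) := by
    rintro h hh _ ⟨ψ, h1, rfl⟩
    show B _ _ = 0
    rw [hB, ← hh ψ h1]
    exact sum_coe_sort F fun y => dd x ψ y * h y
  refine ⟨_, ?_, ?_, key⟩
  · rintro _ ⟨φ, h1, rfl⟩
    exact key (dd x φ) fun ψ h2 => orth hs F μ hm h2 h1
  · rw [LinearMap.BilinForm.finrank_add_finrank_orthogonal', hk]; simp

theorem GI (hs : HS x p) (F : Finset X) (μ : X → Md) :
    N x p univ (mF F μ .U) + N x p univ (mF F μ .V) ≤ F.card + 2 * N x p univ (mF F μ .C) := by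
  obtain ⟨O, h1, h2, _⟩ := orth_facts hs F μ (Or.inl ⟨rfl, rfl⟩)
  have h3 := Submodule.finrank_mono h1
  have h4 := rank_DD (x := x) (p := p) F μ (Or.inl ⟨rfl, rfl⟩ : UV .U .V)
  have h5 := rank_DD (x := x) (p := p) F μ (Or.inr ⟨rfl, rfl⟩ : UV .V .U)
  omega

theorem T1 (hs : HS x p) (F : Finset X) (μ : X → Md) {m m' : Md} (hm : UV m m')
    (he : F.card + 2 * N x p univ (mF F μ .C) ≤ N x p univ (mF F μ m) + N x p univ (mF F μ m'))
    (h : X → ZMod 2) (hh : ∀ ψ, Cp x p (mF F μ m) ψ → ∑ y ∈ F, dd x ψ y * h y = 0) :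
    ∃ φ, Cp x p (mF F μ m') φ ∧ ∀ y ∈ F, dd x φ y = h y := by
  obtain ⟨O, h1, h2, h3⟩ := orth_facts hs F μ hm
  have h4 := rank_DD (x := x) (p := p) F μ hm
  have h5 := rank_DD (x := x) (p := p) F μ (hm.symm.imp And.symm And.symm : UV m' m)
  have h6 := Submodule.eq_of_le_of_finrank_le h1 (by omega)
  obtain ⟨φ, k1, k2⟩ := h6 ▸ h3 h hh
  exact ⟨φ, k1, fun y hy => congrFun k2 ⟨y, hy⟩⟩

theorem DD_surj (F : Finset X) (μ : X → Md)
    (he : F.card + N x p univ (mF F μ .C) ≤ N x p univ (mF F μ .V)) (h : X → ZMod 2) :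
    ∃ φ, Cp x p (mF F μ .V) φ ∧ ∀ y ∈ F, dd x φ y = h y := by
  have h5 := rank_DD (x := x) (p := p) F μ (Or.inr ⟨rfl, rfl⟩ : UV .V .U)
  have h6 := Submodule.eq_of_le_of_finrank_le
    (le_top : (Sol (ZMod 2) x p (mF F μ .V)).map (DD x F) ≤ ⊤) (by simp; omega)
  obtain ⟨φ, k1, k2⟩ := h6 ▸ (Submodule.mem_top : (fun y : F => h y) ∈ ⊤)
  exact ⟨φ, k1, fun y hy => congrFun k2 ⟨y, hy⟩⟩

theorem T2 (hs : HS x p) (F : Finset X) (μ : X → Md)
    (he : F.card + 2 * N x p univ (mF F μ .C) ≤ N x p univ (mF F μ .U) + N x p univ (mF F μ .V))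
    (g : α → ZMod 2) (h1 : ∀ y ∈ F, ∑ j, g (x y j) = 0)
    (h2 : ∀ y ∉ F, cp (fun j => g (x y j)) (μ y)) (h3 : ∀ j, g (p j 0) = g (p j 1)) :
    ∃ φ, Cp x p (mF F μ .V) φ ∧ Cp x p (mF F μ .U) fun a => φ a + g a := by
  obtain ⟨φ, k1, k2⟩ := T1 hs F μ (Or.inl ⟨rfl, rfl⟩) he (fun y => g (x y 0) + g (x y 1)) (by
    intro ψ hψ
    rw [← hs (fun a => ψ a * g a) fun j => by rw [hψ.2 j, h3 j]]
    refine (sum_congr rfl fun y hy => ?_).trans (sum_subset (subset_univ F) fun y _ hy => ?_)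
    · have k1 := hψ.1 y
      have k2 := h1 y hy
      simp only [mF, hy, if_true] at k1
      rw [Fin.sum_univ_four] at k2 ⊢
      simp only [dd, ← k1.1, ← k1.2]
      revert k2
      generalize g (x y 0) = a, g (x y 1) = b, g (x y 2) = c, g (x y 3) = d, ψ (x y 0) = u,
        ψ (x y 2) = v
      revert a b c d u v; decide
    · have k1 := hψ.1 y
      simp only [mF, hy, if_false] at k1
      refine cp_sum (m := μ y) ((cp_iff _ _).mpr fun q hq => ?_)
      rw [(cp_iff _ _).mp k1 q hq, (cp_iff _ _).mp (h2 y hy) q hq])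
  refine ⟨φ, k1, fun y => ?_, fun j => by simp only [k1.2 j, h3 j]⟩
  have k3 := k1.1 y
  by_cases hy : y ∈ F <;> simp only [mF, hy, if_true, if_false] at k3 ⊢
  · have k4 := k2 y hy
    have k5 := h1 y hy
    rw [Fin.sum_univ_four] at k5
    simp only [cp, dd] at k3 k4 ⊢
    rw [k3.1, k3.2]
    revert k4 k5
    generalize g (x y 0) = a, g (x y 1) = b, g (x y 2) = c, g (x y 3) = d, φ (x y 0) = u,
      φ (x y 2) = v
    revert a b c d u v; decide
  · exact (cp_iff _ _).mpr fun q hq => by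
      rw [(cp_iff _ _).mp k3 q hq, (cp_iff _ _).mp (h2 y hy) q hq]

end

end Pool.Agent.MP_97bb71_gt
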