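import Pool.Agent.MP_97bb71_gt.Ncl

/-! Local counting of classes through merges on lists. -/

namespace Pool.Agent.MP_97bb71_gt
open Finset

noncomputable section
open Classical

variable {α β : Type}

def frc (x : ℕ) (k : ℕ → β) : β := @Nat.rec (fun _ => β) (k 0) (fun c _ => k c) (Nat.succ x)

theorem frc_eq (x : ℕ) (k : ℕ → β) : frc x k = k x := rfl

def cn (a : Bool) (x y : β) : β := @Bool.rec (fun _ => β) y x a

theorem cn_eq (a : Bool) (x y : β) : cn a x y = if a then x else y := by cases a <;> rfl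

def gt (l : List ℕ) : ℕ → ℕ :=
  @List.rec ℕ (fun _ => ℕ → ℕ) (fun _ => 0)
    (fun v _ ih i => @Nat.rec (fun _ => ℕ) v (fun i' _ => ih i') i) l

theorem gt_eq (l : List ℕ) (i : ℕ) : gt l i = l.getD i 0 := by
  induction l generalizing i with
  | nil => rfl
  | cons v t ih =>
    cases i with
    | zero => rfl
    | succ i => exact ih i

def mapK (a b : ℕ) (l : List ℕ) : (List ℕ → β) → β :=
  @List.rec ℕ (fun _ => (List ℕ → β) → β) (fun k => k [])
    (fun v _ ih k => frc (cn (Nat.beq v b) a v) fun v' => ih fun t' => k (v' :: t')) l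

theorem mapK_eq (a b : ℕ) (l : List ℕ) (k : List ℕ → β) :
    mapK a b l k = k (l.map fun v => if v = b then a else v) := by
  induction l generalizing k with
  | nil => rfl
  | cons v t ih =>
    show mapK a b t (fun t' => k (cn (Nat.beq v b) a v :: t')) = _
    rw [ih, cn_eq]
    by_cases h : v = b
    · subst h; simp
    · have : Nat.beq v b = false := by
        rw [Bool.eq_false_iff]; intro h'; exact h (Nat.eq_of_beq_eq_true h')
      simp [this, h]

def mg (i j : ℕ) (ρ : List ℕ) : List ℕ := ρ.map fun v => if v = gt ρ j then gt ρ i else v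

def mgK (i j : ℕ) (ρ : List ℕ) (k : List ℕ → β) : β :=
  frc (gt ρ i) fun a => frc (gt ρ j) fun b => mapK a b ρ k

theorem mgK_eq (i j : ℕ) (ρ : List ℕ) (k : List ℕ → β) : mgK i j ρ k = k (mg i j ρ) :=
  mapK_eq _ _ _ _

def mgs : List (ℕ × ℕ) → List ℕ → List ℕ
  | [], ρ => ρ
  | q :: t, ρ => mgs t (mg q.1 q.2 ρ)

def mgsK (ps : List (ℕ × ℕ)) : List ℕ → (List ℕ → β) → β :=
  @List.rec (ℕ × ℕ) (fun _ => List ℕ → (List ℕ → β) → β) (fun ρ k => k ρ)
    (fun q _ ih ρ k => frc q.1 fun i => frc q.2 fun j => mgK i j ρ fun ρ' => ih ρ' k) ps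

theorem mgsK_eq (ps : List (ℕ × ℕ)) (ρ : List ℕ) (k : List ℕ → β) :
    mgsK ps ρ k = k (mgs ps ρ) := by
  induction ps generalizing ρ with
  | nil => rfl
  | cons q t ih =>
    show mgK q.1 q.2 ρ (fun ρ' => mgsK t ρ' k) = _
    rw [mgK_eq, ih]; rfl

def cntD (ρ : List ℕ) (l : List ℕ) : ℕ → ℕ → ℕ :=
  @List.rec ℕ (fun _ => ℕ → ℕ → ℕ) (fun _ c => c)
    (fun i _ ih m c => frc (gt ρ i) fun v =>
      cn (Nat.beq (Nat.land (Nat.shiftRight m v) 1) 1) (ih m c)
        (frc (Nat.lor m (Nat.shiftLeft 1 v)) fun m' => frc (Nat.succ c) fun c' => ih m' c')) l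

theorem cntD_eq (ρ l : List ℕ) (m c : ℕ) :
    cntD ρ l m c = c + ((l.toFinset.image (gt ρ)).filter fun v => m.testBit v = false).card := by
  induction l generalizing m c with
  | nil => simp [cntD]
  | cons i t ih =>
    show cn (Nat.beq (Nat.land (Nat.shiftRight m (gt ρ i)) 1) 1) (cntD ρ t m c)
      (cntD ρ t (Nat.lor m (Nat.shiftLeft 1 (gt ρ i))) (Nat.succ c)) = _
    have e : Nat.beq (Nat.land (Nat.shiftRight m (gt ρ i)) 1) 1 = m.testBit (gt ρ i) := by
      show Nat.beq ((m >>> (gt ρ i)) &&& 1) 1 = _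
      rw [Nat.testBit, Nat.and_comm, Nat.one_and_eq_mod_two]
      rcases Nat.mod_two_eq_zero_or_one (m >>> gt ρ i) with h | h <;> rw [h] <;> rfl
    rw [e, cn_eq, List.toFinset_cons, image_insert, filter_insert]
    by_cases h : m.testBit (gt ρ i) = true
    · simp only [h, if_true, ih]; simp
    · have h' : m.testBit (gt ρ i) = false := by simpa using h
      rw [if_neg h, ih, if_pos h', ← card_erase_add_one (mem_insert_self _ _), erase_insert_eq_erase]
      have : (filter (fun v => (Nat.lor m (Nat.shiftLeft 1 (gt ρ i))).testBit v = false)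
          (image (gt ρ) t.toFinset)) =
          (filter (fun v => m.testBit v = false) (image (gt ρ) t.toFinset)).erase (gt ρ i) := by
        ext v
        have e2 : (Nat.lor m (Nat.shiftLeft 1 (gt ρ i))).testBit v =
            (m.testBit v || decide (gt ρ i = v)) := by
          show (m ||| (1 <<< gt ρ i)).testBit v = _
          rw [Nat.testBit_or, Nat.one_shiftLeft, Nat.testBit_two_pow]
        simp only [mem_filter, mem_erase, e2, Bool.or_eq_false_iff, decide_eq_false_iff_not]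
        constructor
        · rintro ⟨h1, h2, h3⟩; exact ⟨fun h => h3 h.symm, h1, h2⟩
        · rintro ⟨h1, h2, h3⟩; exact ⟨h2, h3, fun h => h1 h.symm⟩
      rw [this]; omega

/-- number of distinct values of `ρ` at the listed positions -/
def cnt (ρ used : List ℕ) : ℕ := cntD ρ used 0 0

theorem cnt_eq (ρ l : List ℕ) : cnt ρ l = (l.toFinset.image (gt ρ)).card := by
  rw [cnt, cntD_eq]; simp

theorem cnt_le (ρ l : List ℕ) : cnt ρ l ≤ l.length := by
  rw [cnt_eq]; exact card_image_le.trans (List.toFinset_card_le l)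

section
variable (r0 : α → α → Prop) (L : ℕ → α) (n : ℕ)

def mn (q : Quot r0) : ℕ := sInf {j | Quot.mk r0 (L j) = q}

def rho (i : ℕ) : ℕ := mn r0 L (Quot.mk r0 (L i))

theorem rho_le (i : ℕ) : rho r0 L i ≤ i := Nat.sInf_le rfl

theorem rho_spec (i : ℕ) : Quot.mk r0 (L (rho r0 L i)) = Quot.mk r0 (L i) :=
  Nat.sInf_mem (s := {j | Quot.mk r0 (L j) = Quot.mk r0 (L i)}) ⟨i, rfl⟩

theorem rho_eq_iff (i j : ℕ) :
    rho r0 L i = rho r0 L j ↔ Quot.mk r0 (L i) = Quot.mk r0 (L j) := by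
  constructor
  · intro h; rw [← rho_spec r0 L i, h, rho_spec]
  · intro h; unfold rho; rw [h]

theorem rho_rho (i : ℕ) : rho r0 L (rho r0 L i) = rho r0 L i :=
  (rho_eq_iff r0 L _ _).mpr (rho_spec r0 L i)

def f0 (a : α) : ℕ ⊕ Quot r0 :=
  if ∃ i < n, Quot.mk r0 (L i) = Quot.mk r0 a then .inl (mn r0 L (Quot.mk r0 a))
  else .inr (Quot.mk r0 a)

theorem f0_L {i : ℕ} (hi : i < n) : f0 r0 L n (L i) = .inl (rho r0 L i) := by
  unfold f0; rw [if_pos ⟨i, hi, rfl⟩]; rfl

theorem f0_rep : Rep r0 (f0 r0 L n) := by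
  intro a b
  constructor
  · unfold f0
    split_ifs with ha hb hb
    · obtain ⟨i, _, hi⟩ := ha
      obtain ⟨j, _, hj⟩ := hb
      intro h
      rw [← hi, ← hj] at h ⊢
      exact (rho_eq_iff r0 L i j).mp (Sum.inl.inj h)
    · intro h; cases h
    · intro h; cases h
    · intro h; exact Sum.inr.inj h
  · intro h; unfold f0; rw [h]

def rho0 : List ℕ := (List.range n).map (rho r0 L)

/-- the list `ρ` describes the classes of `r` on the local labels -/
def St (r : α → α → Prop) (ρ : List ℕ) : Prop :=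
  ∃ h : ℕ → ℕ, Rep r (fun a => Sum.map h id (f0 r0 L n a)) ∧
    ρ = (List.range n).map fun i => h (rho r0 L i)

theorem St_init : St r0 L n r0 (rho0 r0 L n) :=
  ⟨id, by simpa using f0_rep r0 L n, rfl⟩

theorem gt_map_range (g : ℕ → ℕ) {i : ℕ} (hi : i < n) : gt ((List.range n).map g) i = g i := by
  rw [gt_eq]; simp [List.getD, hi]

variable {r0 L n}

theorem St.congr {r r' : α → α → Prop} {ρ : List ℕ} (h : St r0 L n r ρ)
    (hr : ∀ a b, r' a b ↔ r a b) : St r0 L n r' ρ := by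
  have : r' = r := by funext a b; exact propext (hr a b)
  rw [this]; exact h

theorem St.merge {r r' : α → α → Prop} {ρ : List ℕ} (h : St r0 L n r ρ) {i j : ℕ} (hi : i < n)
    (hj : j < n) (hr : ∀ a b, r' a b ↔ r a b ∨ (a = L i ∧ b = L j)) :
    St r0 L n r' (mg i j ρ) := by
  obtain ⟨h, h1, rfl⟩ := h
  refine ⟨fun v => if h v = h (rho r0 L j) then h (rho r0 L i) else h v, ?_, ?_⟩
  · refine h1.merge (L i) (L j) hr ?_
    intro a
    simp only [f0_L r0 L n hi, f0_L r0 L n hj]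
    rcases f0 r0 L n a with v | q
    · by_cases hv : h v = h (rho r0 L j) <;> simp [hv]
    · simp
  · rw [mg, gt_map_range n _ hi, gt_map_range n _ hj, List.map_map]; rfl

theorem St.merges (ps : List (ℕ × ℕ)) {r r' : α → α → Prop} {ρ : List ℕ} (h : St r0 L n r ρ)
    (hp : ∀ q ∈ ps, q.1 < n ∧ q.2 < n)
    (hr : ∀ a b, r' a b ↔ r a b ∨ ∃ q ∈ ps, a = L q.1 ∧ b = L q.2) :
    St r0 L n r' (mgs ps ρ) := by
  induction ps generalizing r ρ with
  | nil => exact h.congr (by simpa using hr)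
  | cons q t ih =>
    have hq := hp q List.mem_cons_self
    refine ih (h.merge hq.1 hq.2 fun _ _ => Iff.rfl) (fun q' hq' => hp q' (List.mem_cons_of_mem _ hq'))
      ?_
    intro a b
    rw [hr]; simp only [List.mem_cons, exists_eq_or_imp, or_assoc]

theorem St.eq_iff {r : α → α → Prop} {ρ : List ℕ} (h : St r0 L n r ρ) {i j : ℕ} (hi : i < n)
    (hj : j < n) : gt ρ i = gt ρ j ↔ Quot.mk r (L i) = Quot.mk r (L j) := by
  obtain ⟨h, h1, rfl⟩ := h
  rw [← h1, gt_map_range n _ hi, gt_map_range n _ hj]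
  simp [f0_L r0 L n hi, f0_L r0 L n hj]

/-- classes not met by local labels -/
def mOut (r0 : α → α → Prop) (L : ℕ → α) (n : ℕ) (UR : Finset α) : ℕ :=
  ((UR.filter fun a => ¬∃ i < n, Quot.mk r0 (L i) = Quot.mk r0 a).image (Quot.mk r0)).card

theorem St.ncl_eq {r : α → α → Prop} {ρ : List ℕ} (h : St r0 L n r ρ) (UR U : Finset α)
    (used : List ℕ) (hU : ∀ a, a ∈ U ↔ a ∈ UR ∨ ∃ i ∈ used, L i = a) (hu : ∀ i ∈ used, i < n)
    (hit : ∀ a ∈ UR, ∀ i < n, Quot.mk r0 (L i) = Quot.mk r0 a →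
      ∃ j ∈ used, Quot.mk r0 (L j) = Quot.mk r0 a) :
    ncl r U = mOut r0 L n UR + cnt ρ used := by
  obtain ⟨h, h1, rfl⟩ := h
  rw [h1.ncl_eq U, cnt_eq, mOut, add_comm, ← card_disjSum]
  congr 1
  ext z
  simp only [mem_image, mem_disjSum, List.mem_toFinset, mem_filter]
  constructor
  · rintro ⟨a, ha, rfl⟩
    by_cases hl : ∃ i < n, Quot.mk r0 (L i) = Quot.mk r0 a
    · have : ∃ j ∈ used, Quot.mk r0 (L j) = Quot.mk r0 a := by
        rcases (hU a).mp ha with ha | ⟨i, hi, rfl⟩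
        · obtain ⟨i, hi, e⟩ := hl; exact hit a ha i hi e
        · exact ⟨i, hi, rfl⟩
      obtain ⟨j, hj, e⟩ := this
      refine Or.inl ⟨_, ⟨j, hj, rfl⟩, ?_⟩
      rw [gt_map_range n _ (hu j hj), ← (f0_rep r0 L n _ _).mpr e, f0_L r0 L n (hu j hj)]
      rfl
    · refine Or.inr ⟨_, ⟨a, ⟨?_, hl⟩, rfl⟩, ?_⟩
      · rcases (hU a).mp ha with ha | ⟨i, hi, rfl⟩
        · exact ha
        · exact absurd ⟨i, hu i hi, rfl⟩ hl
      · unfold f0; rw [if_neg hl]; rfl
  · rintro (⟨_, ⟨j, hj, rfl⟩, rfl⟩ | ⟨_, ⟨a, ⟨ha, hl⟩, rfl⟩, rfl⟩)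
    · refine ⟨L j, (hU _).mpr (Or.inr ⟨j, hj, rfl⟩), ?_⟩
      rw [gt_map_range n _ (hu j hj), f0_L r0 L n (hu j hj)]; rfl
    · refine ⟨a, (hU _).mpr (Or.inl ha), ?_⟩
      unfold f0; rw [if_neg hl]; rfl

end

end

end Pool.Agent.MP_97bb71_gt
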