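import Pool.Agent.MP_97bb71_gt.Ref0

namespace Pool.Agent.MP_97bb71_gt

theorem nC_U1 : nC (fun _ => 1) .U = 60 := by decide +kernel

theorem nC_V1 : nC (fun _ => 1) .V = 86 := by decide +kernel

end Pool.Agent.MP_97bb71_gt
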