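import Pool.Agent.MP_97bb71_gt.Ref2
import Pool.Agent.MP_97bb71_gt.RefN2
import Pool.Agent.MP_97bb71_gt.Brg
import Pool.Agent.MP_97bb71_gt.Fin4

/-! The necklace link has Turaev genus at most one and dealternating number at least two. -/

namespace Pool.Agent.MP_97bb71_gt
open Finset

noncomputable section

def Dg (s : Fin 144 → Fin 4) : Diagram := ⟨144, 0, fun y j => (xs s y j).1, fun y j => (p0 y j).1⟩

theorem two_darts {q q' : Fin 144 × Fin 4} (h : q ≠ q') (h1 : x0 q.1 q.2 = x0 q'.1 q'.2) :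
    q' = dE.symm (x0 q.1 q.2, !o0 q.2) ∧ q.2.1 % 2 ≠ q'.2.1 % 2 := by
  have h2 : o0 q'.2 = !o0 q.2 := Bool.eq_not_iff.mpr fun h2 =>
    h (dE.injective (Prod.ext h1 h2.symm))
  refine ⟨dE.eq_symm_apply.mpr (Prod.ext h1.symm h2), ?_⟩
  have a := r_dart q.1 q.2
  have b := r_dart q'.1 q'.2
  have c := (r_lab (x0 q.1 q.2)).2.2.2.2
  rw [h2, ← h1] at b
  cases h3 : o0 q.2 <;> simp only [h3, if_true, Bool.not_true, Bool.not_false, if_false,
    Bool.false_eq_true] at a b <;> rw [a, b] at c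
  exacts [c.symm, c]

theorem Dg_valid (s : Fin 144 → Fin 4) (a : (Dg s).Dart) :
    ∃! b, b ≠ a ∧ (Dg s).lab b = (Dg s).lab a := by
  rcases a with ⟨y, j⟩ | ⟨y, _⟩
  swap
  · exact y.elim0
  set q := dE.symm (x0 y (j + s y), !o0 (j + s y)) with hq
  have h1 : dE q = (x0 y (j + s y), !o0 (j + s y)) := dE.apply_symm_apply _
  refine ⟨.inl (q.1, q.2 - s q.1), ⟨fun h => ?_, ?_⟩, ?_⟩
  · obtain ⟨h2, h3⟩ := Prod.ext_iff.mp (Sum.inl_injective h)
    have h4 : o0 q.2 = _ := congrArg Prod.snd h1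
    simp only at h2 h3
    rw [← h3, h2, sub_add_cancel] at h4
    simp at h4
  · have h4 : x0 q.1 q.2 = _ := congrArg Prod.fst h1
    simp only [Diagram.lab, Dg, xs, sub_add_cancel, h4]
  · rintro (⟨z, k⟩ | ⟨z, _⟩) ⟨h2, h3⟩
    swap
    · exact z.elim0
    have := (two_darts (q := (y, j + s y)) (q' := (z, k + s z)) (fun h => h2 (by
      obtain ⟨rfl, h4⟩ := Prod.ext_iff.mp h
      rw [add_right_cancel h4])) (Fin.ext h3.symm)).1
    rw [← hq] at this
    rw [← this]; simp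

def C0 : Finset (Fin 144) := univ.filter fun y => y.1 / 12 % 2 ≠ 0

theorem Dg_cx (y : Fin 144) (j : Fin 4) :
    (if y ∈ C0 then (xs s1 y (j + 1)).1 else (xs s1 y j).1) = (xs (fun _ => 1) y j).1 := by
  by_cases h : y.1 / 12 % 2 = 0
  · rw [if_neg (by simp [C0, h]), xs, s1, if_pos h, xs]
  · rw [if_pos (show y ∈ C0 from mem_filter.mpr ⟨mem_univ y, h⟩), xs, s1, if_neg h, add_zero, xs]

theorem Dg_change : (Dg s1).change C0 = Dg fun _ => 1 :=
  congrArg (fun x => Diagram.mk 144 0 x _) (funext fun y => funext (Dg_cx y))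

theorem Dg_alt : ((Dg s1).change C0).Alternating := by
  rw [Dg_change]
  refine ⟨Sum.elim (fun q => decide (q.2 = 0 ∨ q.2 = 2)) fun _ => true, fun _ _ => rfl,
    fun i => i.elim0, ?_⟩
  rintro (⟨y, j⟩ | ⟨y, _⟩) (⟨z, k⟩ | ⟨z, _⟩) h1 h2
  · have := (two_darts (q := (y, j + 1)) (q' := (z, k + 1)) (fun h => h1 (by
      obtain ⟨rfl, h4⟩ := Prod.ext_iff.mp h
      rw [add_right_cancel h4])) (Fin.ext h2)).2
    simp only [Sum.elim_inl] at this ⊢
    exact (by decide : ∀ j k : Fin 4, (j + 1).1 % 2 ≠ (k + 1).1 % 2 →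
      decide (j = 0 ∨ j = 2) ≠ decide (k = 0 ∨ k = 2)) j k this
  exacts [z.elim0, y.elim0, y.elim0]

theorem Dg_labs (u : ℕ) :
    u ∈ labs (Dg s1).x (Dg s1).p ↔ ∃ a ∈ (univ : Finset (Fin 288)), a.1 = u := by
  rw [mem_labs]
  constructor
  · rintro (⟨y, j, rfl⟩ | ⟨y, _⟩)
    exacts [⟨_, mem_univ _, rfl⟩, y.elim0]
  · rintro ⟨a, -, rfl⟩
    exact .inl ⟨(src a).1, (src a).2 - s1 (src a).1, by simp [Dg, xs, (r_lab a).1]⟩

theorem Dg_N (s : Fin 144 → Fin 4) (m : Md) : N (X := Fin (Dg s1).n) (Dg s).x (Dg s1).p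
    (labs (Dg s1).x (Dg s1).p) (fun _ => m) = nC s m :=
  (N_relabel Fin.val Fin.val_injective (xs s) p0 univ _ Dg_labs _).trans (N_comp s m)

theorem Inv.neg {α Γ X P : Type} [Fintype X] [Fintype P] [DecidableEq Γ] {x : X → Fin 4 → α}
    {p : P → Fin 2 → α} {U : Finset α} {ε : X → ℤ} {d : Dat Γ} (h : Inv x p U ε d) :
    Inv x p U (fun y => -ε y) d.mir := by
  obtain ⟨o, oP, κ, h1, h2⟩ := h
  refine ⟨o, oP, κ, h1.neg, ?_⟩
  have e : Qf x (fun y => -ε y) o = fun z => -Qf x ε o z := by funext z; simp [Qf]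
  have e2 : wr x (fun y => -ε y) o (fun _ => true) + d.mir.K =
      -(wr x ε o (fun _ => true) + d.K) := by simp [wr, eS, Dat.mir]; ring
  rw [e, e2, SigI]
  simp only [neg_neg]
  exact h2.symm

theorem Dg_inv : DInv (Dg s1) (dat false) ∧ DInv (Dg s1) (dat true).mir := by
  constructor <;>
    refine (Inv_relabel Fin.val Fin.val_injective (x := xs s1) (p := p0) Dg_labs).mpr ?_
  · have e : sh false = s1 := by funext y; simp [sh]
    exact e ▸ inv_dat false
  · have e : (fun y j => xs (sh true) y (pm 0 true j)) = xs s1 := by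
      funext y j
      simp only [xs, sh]
      congr 1
      generalize s1 y = t
      revert j t; decide
    have := (inv_dat true).neg.rot fun _ => true
    rwa [e] at this

theorem Dg_pieces : (Dg s1).pieces = 1 := Diagram.pieces_one (good0 false).conn _ Dg_inv.1

theorem Dg_planar : (Dg s1).Planar := by
  refine ⟨Dg_valid _, ?_⟩
  rw [(Dg s1).faces_alt C0 (Dg_valid _) Dg_alt Dg_inv.1 (x := (Dg fun _ => 1).x)
    (funext fun y => funext (Dg_cx y)), Dg_N, Dg_N, nC_U1, nC_V1, Dg_pieces]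
  rfl

theorem Same.planar {D E : Diagram} (h : Same D E) : D.Planar ↔ E.Planar := by
  induction h with
  | refl => rfl
  | symm _ _ _ ih => exact ih.symm
  | trans _ _ _ _ _ ih1 ih2 => exact ih1.trans ih2
  | rel D E h => exact iff_of_true h.1 h.2.1

theorem main : ∃ D : Diagram, D.Planar ∧ (∀ E, Same D E → E.pieces = 1) ∧ D.sA + D.sB = D.n ∧
    turaevGenus D ≤ 1 ∧ 2 ≤ dalt D := by
  have c1 := (good false).conn
  have c2 := (good true).conn.mir
  have h1 : (Dg s1).sA + (Dg s1).sB = (Dg s1).n := by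
    rw [Diagram.sA_eq, Diagram.sB_eq, Dg_N, Dg_N, nC_U, nC_V]; rfl
  refine ⟨Dg s1, Dg_planar, fun E h => E.pieces_one c1 ((h.inv c1).mp Dg_inv.1), h1,
    Nat.sInf_le ⟨_, .refl _, by rw [Dg_pieces, add_assoc, h1]⟩, ?_⟩
  obtain ⟨E, C, h2, h3, h4⟩ := Nat.sInf_mem (s := {k | ∃ E C, Same (Dg s1) E ∧ Finset.card C = k ∧
    (E.change C).Alternating}) ⟨_, _, C0, .refl _, rfl, Dg_alt⟩
  by_contra hn
  obtain ⟨x, p, ε, h⟩ := bridge c1 c2 E (h2.planar.mp Dg_planar) C (by unfold dalt at hn; omega) h4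
    ((h2.inv c1).mp Dg_inv.1) ((h2.inv c2).mp Dg_inv.2)
  exact bad _ _ _ _ (good false) (by rw [Dat.mir_mir]; exact good true) _ _ x p ε
    (Nat.lt_succ_self _) h

end

end Pool.Agent.MP_97bb71_gt
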