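import Pool.Agent.MP_97bb71_gt.MoveG

/-! Invariance under the recoding moves. -/

namespace Pool.Agent.MP_97bb71_gt
open Finset

noncomputable section

variable {Γ : Type} [DecidableEq Γ] {d : Dat Γ}

def DInv (D : Diagram) (d : Dat Γ) : Prop := IV D.x D.p d

theorem ori1 {o : Fin 1 → Fin 4 → Bool} (h : Ori o) :
    o = ![![o 0 0, o 0 1, !o 0 0, !o 0 1]] := by
  funext y j; fin_cases y; fin_cases j <;> simp [h 0]

theorem turn_core (R : Diagram) (a b c e : ℕ) (t u : Bool) {oR : Fin R.n → Fin 4 → Bool}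
    {oPR : Fin R.m → Bool} {κ : ℕ → Γ} (oP : Fin 0 → Bool) (h1 : κ a = κ c) (h2 : κ b = κ e) :
    Core R.x R.p ![![a, b, c, e]] ![] d oR oPR ![![t, u, !t, !u]] oP κ ↔
    Core R.x R.p ![![c, e, a, b]] ![] d oR oPR ![![!t, !u, t, u]] oP κ := by
  have hfr : R.Fresh [] [a, b, c, e] := ⟨List.nodup_nil, by simp⟩
  refine core_iff R [a, b, c, e] [] hfr 4 4 [0, 1, 0, 1] ⟨[(0, 1, 2, 3, 1)], [], [0, 1, 2, 3]⟩
    ⟨[(2, 3, 0, 1, 1)], [], [0, 1, 2, 3]⟩ [] ![![0, 1, 2, 3]] ![] ![![2, 3, 0, 1]] ![] 0 0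
    (by decide +kernel) (by decide) rfl rfl
    (by funext y j; fin_cases y; fin_cases j <;> rfl) (by funext y; exact y.elim0)
    (by funext y j; fin_cases y; fin_cases j <;> rfl) (by funext y; exact y.elim0)
    (by simp [Ori]) (by simp [Ori]) (fun g => by simp [flow, Fin.sum_univ_succ]; ring)
    (by simp [Cp, cp, h1, h2]) (by simp [Cp, cp, h1, h2])
    (fun i hi => by interval_cases i <;> simp [gt_eq, h1, h2])
    (fun G G' => by simp [W, sn, sg_not, h1, h2]) fun _ _ => ?_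
  refine sh_iso hfr oR LinearMap.id LinearMap.id (by simp) (by simp) (fun z hz => ?_)
    (fun z hz => ?_) <;> simp [FC, Qf, qt, Fin.forall_fin_succ] at hz ⊢ <;>
    exact ⟨by tauto, by ring⟩

theorem turn_inv (R : Diagram) (a b c e : ℕ) (h : DInv (R.add ![![a, b, c, e]] ![]) d) :
    DInv (R.add ![![c, e, a, b]] ![]) d := by
  obtain ⟨oR, oPR, o, oP, κ, h⟩ := (IV_add R _ _).mp h
  have hk := h.kap
  simp [Cp, cp] at hk
  rw [ori1 h.ori] at h
  exact (IV_add R _ _).mpr ⟨_, _, _, _, κ, (turn_core R a b c e _ _ oP hk.1 hk.2).mp h⟩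

theorem flip_core (R : Diagram) (a b : ℕ) (t : Bool) {oR : Fin R.n → Fin 4 → Bool}
    {oPR : Fin R.m → Bool} {κ : ℕ → Γ} (o : Fin 0 → Fin 4 → Bool) (h1 : κ a = κ b) :
    Core R.x R.p ![] ![![a, b]] d oR oPR o ![t] κ ↔
    Core R.x R.p ![] ![![b, a]] d oR oPR o ![!t] κ := by
  have hfr : R.Fresh [] [a, b] := ⟨List.nodup_nil, by simp⟩
  refine core_iff R [a, b] [] hfr 2 2 [0, 0] ⟨[], [(0, 1)], [0, 1]⟩
    ⟨[], [(1, 0)], [0, 1]⟩ [] ![] ![![0, 1]] ![] ![![1, 0]] 0 0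
    (by decide +kernel) (by decide) rfl rfl
    (by funext y; exact y.elim0) (by funext y j; fin_cases y; fin_cases j <;> rfl)
    (by funext y; exact y.elim0) (by funext y j; fin_cases y; fin_cases j <;> rfl)
    (by simp [Ori]) (by simp [Ori]) (fun g => by simp [flow, sg_not]; ring)
    (by simp [Cp, h1]) (by simp [Cp, h1])
    (fun i hi => by interval_cases i <;> simp [gt_eq, h1])
    (fun G G' => by simp [W]) fun _ _ => ?_
  refine sh_iso hfr oR LinearMap.id LinearMap.id (by simp) (by simp) (fun z hz => ?_)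
    (fun z hz => ?_) <;> simp [FC, Qf] at hz ⊢ <;> exact hz.symm

theorem fin1 (oP : Fin 1 → Bool) : oP = ![oP 0] := by funext y; fin_cases y; rfl

theorem flip_inv (R : Diagram) (a b : ℕ) (h : DInv (R.add ![] ![![a, b]]) d) :
    DInv (R.add ![] ![![b, a]]) d := by
  obtain ⟨oR, oPR, o, oP, κ, h⟩ := (IV_add R _ _).mp h
  have hk := h.kap
  simp [Cp] at hk
  rw [fin1 oP] at h
  exact (IV_add R _ _).mpr ⟨_, _, _, _, κ, (flip_core R a b _ o hk).mp h⟩

theorem cut0_core (R : Diagram) (a b c f e : ℕ) (hfr : R.Fresh [e] [a, b, c, f]) (t u : Bool)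
    {oR : Fin R.n → Fin 4 → Bool} {oPR : Fin R.m → Bool} {κ : ℕ → Γ} (oP : Fin 0 → Bool)
    (h1 : κ c = κ a) (h2 : κ f = κ b) (h3 : κ e = κ a) :
    Core R.x R.p ![![a, b, c, f]] ![] d oR oPR ![![t, u, !t, !u]] oP κ ↔
    Core R.x R.p ![![e, b, c, f]] ![![e, a]] d oR oPR ![![t, u, !t, !u]] ![!t] κ := by
  have hn := (hfr.2 e (by simp)).1
  simp only [List.mem_cons, List.not_mem_nil, or_false, not_or] at hn
  obtain ⟨n1, n2, n3, n4⟩ := hn
  refine core_iff R [a, b, c, f] [e] hfr 4 5 [0, 1, 0, 1, 0]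
    ⟨[(0, 1, 2, 3, 1)], [], [0, 1, 2, 3]⟩
    ⟨[(4, 1, 2, 3, 1)], [(4, 0)], [0, 1, 2, 3, 4]⟩ [] ![![0, 1, 2, 3]] ![] ![![4, 1, 2, 3]]
    ![![4, 0]] 0 0 (by decide +kernel) (by decide) rfl rfl
    (by funext y j; fin_cases y; fin_cases j <;> rfl) (by funext y; exact y.elim0)
    (by funext y j; fin_cases y; fin_cases j <;> rfl)
    (by funext y j; fin_cases y; fin_cases j <;> rfl)
    (by simp [Ori]) (by simp [Ori]) (fun g => by simp [flow, Fin.sum_univ_succ, sg_not]; ring)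
    (by simp [Cp, cp, h1, h2]) (by simp [Cp, cp, h1, h2, h3])
    (fun i hi => by interval_cases i <;> simp [gt_eq, h1, h2, h3])
    (fun G G' => by simp [W, sn, h3]) fun _ _ => ?_
  refine sh_iso hfr oR (upd e (ev a) LinearMap.id) LinearMap.id
    (fun z v hv => by simp at hv; simp [upd_apply, hv]) (by simp) (fun z hz => ?_)
    (fun z hz => ?_) <;>
    simp [FC, Qf, qt, Fin.forall_fin_succ, upd_apply, Ne.symm n1, Ne.symm n2, Ne.symm n3,
      Ne.symm n4] at hz ⊢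
  · exact hz
  · rw [← hz.2]; exact ⟨hz.1, rfl⟩

theorem cut0_inv (R : Diagram) (a b c f e : ℕ) (hfr : R.Fresh [e] [a, b, c, f]) :
    DInv (R.add ![![a, b, c, f]] ![]) d ↔ DInv (R.add ![![e, b, c, f]] ![![e, a]]) d := by
  have hn := (hfr.2 e (by simp)).1
  simp only [List.mem_cons, List.not_mem_nil, or_false, not_or] at hn
  obtain ⟨n1, n2, n3, n4⟩ := hn
  unfold DInv
  rw [IV_add, IV_add]
  constructor
  · rintro ⟨oR, oPR, o, oP, κ, h⟩
    have hk := h.kap
    simp [Cp, cp] at hk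
    rw [ori1 h.ori] at h
    have h' := h.upd hfr (by simp [Fin.forall_fin_succ]) (by simp)
      (fun v => if v = e then κ a else κ v) (fun v hv => by simp at hv; simp [hv])
    exact ⟨_, _, _, _, _, (cut0_core R a b c f e hfr _ _ oP (by simp [Ne.symm n1, Ne.symm n3, hk])
      (by simp [Ne.symm n2, Ne.symm n4, hk]) (by simp)).mp h'⟩
  · rintro ⟨oR, oPR, o, oP, κ, h⟩
    have hk := h.kap
    simp [Cp, cp] at hk
    have hi := h.int hfr (e := e) (by simp)
    simp [flow, Fin.sum_univ_succ, Ne.symm n1, Ne.symm n2, Ne.symm n3, Ne.symm n4] at hi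
    have e1 : oP 0 = !o 0 0 := by revert hi; cases oP 0 <;> cases o 0 0 <;> decide
    rw [ori1 h.ori, fin1 oP, e1] at h
    exact ⟨_, _, _, ![], _, (cut0_core R a b c f e hfr _ _ _ (by rw [← hk.1.1, hk.2]) hk.1.2.symm
      hk.2).mpr h⟩

theorem cut1_core (R : Diagram) (a b c f e : ℕ) (hfr : R.Fresh [e] [a, b, c, f]) (t u : Bool)
    {oR : Fin R.n → Fin 4 → Bool} {oPR : Fin R.m → Bool} {κ : ℕ → Γ} (oP : Fin 0 → Bool)
    (h1 : κ c = κ a) (h2 : κ f = κ b) (h3 : κ e = κ b) :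
    Core R.x R.p ![![a, b, c, f]] ![] d oR oPR ![![t, u, !t, !u]] oP κ ↔
    Core R.x R.p ![![a, e, c, f]] ![![e, b]] d oR oPR ![![t, u, !t, !u]] ![!u] κ := by
  have hn := (hfr.2 e (by simp)).1
  simp only [List.mem_cons, List.not_mem_nil, or_false, not_or] at hn
  obtain ⟨n1, n2, n3, n4⟩ := hn
  refine core_iff R [a, b, c, f] [e] hfr 4 5 [0, 1, 0, 1, 1]
    ⟨[(0, 1, 2, 3, 1)], [], [0, 1, 2, 3]⟩
    ⟨[(0, 4, 2, 3, 1)], [(4, 1)], [0, 1, 2, 3, 4]⟩ [] ![![0, 1, 2, 3]] ![] ![![0, 4, 2, 3]]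
    ![![4, 1]] 0 0 (by decide +kernel) (by decide) rfl rfl
    (by funext y j; fin_cases y; fin_cases j <;> rfl) (by funext y; exact y.elim0)
    (by funext y j; fin_cases y; fin_cases j <;> rfl)
    (by funext y j; fin_cases y; fin_cases j <;> rfl)
    (by simp [Ori]) (by simp [Ori]) (fun g => by simp [flow, Fin.sum_univ_succ, sg_not]; ring)
    (by simp [Cp, cp, h1, h2]) (by simp [Cp, cp, h1, h2, h3])
    (fun i hi => by interval_cases i <;> simp [gt_eq, h1, h2, h3])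
    (fun G G' => by simp [W, sn, h3]) fun _ _ => ?_
  refine sh_iso hfr oR (upd e (ev b) LinearMap.id) LinearMap.id
    (fun z v hv => by simp at hv; simp [upd_apply, hv]) (by simp) (fun z hz => ?_)
    (fun z hz => ?_) <;>
    simp [FC, Qf, qt, Fin.forall_fin_succ, upd_apply, Ne.symm n1, Ne.symm n2, Ne.symm n3,
      Ne.symm n4] at hz ⊢
  · exact hz
  · rw [← hz.2]; exact ⟨hz.1, rfl⟩

theorem cut1_inv (R : Diagram) (a b c f e : ℕ) (hfr : R.Fresh [e] [a, b, c, f]) :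
    DInv (R.add ![![a, b, c, f]] ![]) d ↔ DInv (R.add ![![a, e, c, f]] ![![e, b]]) d := by
  have hn := (hfr.2 e (by simp)).1
  simp only [List.mem_cons, List.not_mem_nil, or_false, not_or] at hn
  obtain ⟨n1, n2, n3, n4⟩ := hn
  unfold DInv
  rw [IV_add, IV_add]
  constructor
  · rintro ⟨oR, oPR, o, oP, κ, h⟩
    have hk := h.kap
    simp [Cp, cp] at hk
    rw [ori1 h.ori] at h
    have h' := h.upd hfr (by simp [Fin.forall_fin_succ]) (by simp)
      (fun v => if v = e then κ b else κ v) (fun v hv => by simp at hv; simp [hv])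
    exact ⟨_, _, _, _, _, (cut1_core R a b c f e hfr _ _ oP (by simp [Ne.symm n1, Ne.symm n3, hk])
      (by simp [Ne.symm n2, Ne.symm n4, hk]) (by simp)).mp h'⟩
  · rintro ⟨oR, oPR, o, oP, κ, h⟩
    have hk := h.kap
    simp [Cp, cp] at hk
    have hi := h.int hfr (e := e) (by simp)
    simp [flow, Fin.sum_univ_succ, Ne.symm n1, Ne.symm n2, Ne.symm n3, Ne.symm n4] at hi
    have e1 : oP 0 = !o 0 1 := by revert hi; cases oP 0 <;> cases o 0 1 <;> decide
    rw [ori1 h.ori, fin1 oP, e1] at h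
    exact ⟨_, _, _, ![], _, (cut1_core R a b c f e hfr _ _ _ hk.1.1.symm (by rw [← hk.1.2, hk.2])
      hk.2).mpr h⟩

theorem fin2 (oP : Fin 2 → Bool) : oP = ![oP 0, oP 1] := by funext y; fin_cases y <;> rfl

theorem cutJ_core (R : Diagram) (a b e : ℕ) (hfr : R.Fresh [e] [a, b]) (t : Bool)
    {oR : Fin R.n → Fin 4 → Bool} {oPR : Fin R.m → Bool} {κ : ℕ → Γ} (o : Fin 0 → Fin 4 → Bool)
    (h1 : κ b = κ a) (h3 : κ e = κ a) :
    Core R.x R.p ![] ![![a, b]] d oR oPR o ![t] κ ↔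
    Core R.x R.p ![] ![![a, e], ![e, b]] d oR oPR o ![t, t] κ := by
  have hn := (hfr.2 e (by simp)).1
  simp only [List.mem_cons, List.not_mem_nil, or_false, not_or] at hn
  obtain ⟨n1, n2⟩ := hn
  refine core_iff R [a, b] [e] hfr 2 3 [0, 0, 0] ⟨[], [(0, 1)], [0, 1]⟩
    ⟨[], [(0, 2), (2, 1)], [0, 1, 2]⟩ [] ![] ![![0, 1]] ![] ![![0, 2], ![2, 1]] 0 0
    (by decide +kernel) (by decide) rfl rfl
    (by funext y; exact y.elim0) (by funext y j; fin_cases y; fin_cases j <;> rfl)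
    (by funext y; exact y.elim0) (by funext y j; fin_cases y <;> fin_cases j <;> rfl)
    (by simp [Ori]) (by simp [Ori]) (fun g => by simp [flow, Fin.sum_univ_succ]; ring)
    (by simp [Cp, h1]) (by simp [Cp, h1, h3])
    (fun i hi => by interval_cases i <;> simp [gt_eq, h1, h3])
    (fun G G' => by simp [W]) fun _ _ => ?_
  refine sh_iso hfr oR (upd e (ev a) LinearMap.id) LinearMap.id
    (fun z v hv => by simp at hv; simp [upd_apply, hv]) (by simp) (fun z hz => ?_)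
    (fun z hz => ?_) <;>
    simp [FC, Qf, Fin.forall_fin_succ, upd_apply, Ne.symm n1, Ne.symm n2] at hz ⊢
  · exact hz
  · exact hz.1.trans hz.2

theorem cutJ_inv (R : Diagram) (a b e : ℕ) (hfr : R.Fresh [e] [a, b]) :
    DInv (R.add ![] ![![a, b]]) d ↔ DInv (R.add ![] ![![a, e], ![e, b]]) d := by
  have hn := (hfr.2 e (by simp)).1
  simp only [List.mem_cons, List.not_mem_nil, or_false, not_or] at hn
  obtain ⟨n1, n2⟩ := hn
  unfold DInv
  rw [IV_add, IV_add]
  constructor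
  · rintro ⟨oR, oPR, o, oP, κ, h⟩
    have hk := h.kap
    simp [Cp] at hk
    rw [fin1 oP] at h
    have h' := h.upd hfr (by simp) (by simp [Fin.forall_fin_succ])
      (fun v => if v = e then κ a else κ v) (fun v hv => by simp at hv; simp [hv])
    exact ⟨_, _, _, _, _, (cutJ_core R a b e hfr _ o (by simp [Ne.symm n1, Ne.symm n2, hk])
      (by simp)).mp h'⟩
  · rintro ⟨oR, oPR, o, oP, κ, h⟩
    have hk := h.kap
    simp [Cp] at hk
    have hi := h.int hfr (e := e) (by simp)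
    simp [flow, Fin.sum_univ_succ, Ne.symm n1, Ne.symm n2] at hi
    have e1 : oP 1 = oP 0 := by revert hi; cases oP 0 <;> cases oP 1 <;> decide
    rw [fin2 oP, e1] at h
    exact ⟨_, _, _, _, _, (cutJ_core R a b e hfr _ o (by rw [← hk.2, hk.1]) hk.1.symm).mpr h⟩

end

end Pool.Agent.MP_97bb71_gt
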