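import Pool.Agent.MP_97bb71_gt.Move1

/-! Invariance under the first and third Reidemeister moves. -/

namespace Pool.Agent.MP_97bb71_gt
open Finset

noncomputable section

theorem sh_kink {M M' : Type} [AddCommGroup M] [Module ℚ M] [AddCommGroup M'] [Module ℚ M']
    {V : M → Prop} {Q : M → ℚ} {V' : M' → Prop} {Q' : M' → ℚ} (h0 : Q 0 = 0)
    (Φ : M →ₗ[ℚ] M') (u : M') (Ψ : M' →ₗ[ℚ] M) (l : M' →ₗ[ℚ] ℚ)
    (hΦ : ∀ z (t : ℚ), V z → V' (Φ z + t • u) ∧ Q' (Φ z + t • u) = Q z + t ^ 2)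
    (hΨ : ∀ z, V' z → V (Ψ z) ∧ Q' z = Q (Ψ z) + l z ^ 2) :
    Sh V Q V' Q' 1 ∧ Sh V (fun z => -Q z) V' (fun z => -Q' z) 0 := by
  refine ⟨sh_one h0 Φ u Ψ l (fun z t hz => ⟨(hΦ z t hz).1, (hΦ z t hz).2.ge⟩)
    fun z hz hl => ⟨(hΨ z hz).1, by rw [(hΨ z hz).2, hl]; simp⟩,
    sh_zero Φ Ψ (fun z hz => ?_) fun z hz => ⟨(hΨ z hz).1, ?_⟩⟩
  · have := hΦ z 0 hz
    simp only [zero_smul, add_zero] at this
    exact ⟨this.1, by rw [this.2]; simp⟩
  · rw [(hΨ z hz).2]; nlinarith [sq_nonneg (l z)]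

variable {Γ : Type} [DecidableEq Γ] {d : Dat Γ}

theorem r1b_core (R : Diagram) (a b e : ℕ) (hfr : R.Fresh [e] [a, b]) (t : Bool)
    {oR : Fin R.n → Fin 4 → Bool} {oPR : Fin R.m → Bool} {κ : ℕ → Γ} (o : Fin 0 → Fin 4 → Bool)
    (oP : Fin 0 → Bool) (h1 : κ b = κ a) (h3 : κ e = κ a) :
    Core R.x R.p ![] ![![a, b]] d oR oPR o ![t] κ ↔
    Core R.x R.p ![![a, b, e, e]] ![] d oR oPR ![![t, !t, !t, t]] oP κ := by
  have hn := (hfr.2 e (by simp)).1
  simp only [List.mem_cons, List.not_mem_nil, or_false, not_or] at hn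
  obtain ⟨n1, n2⟩ := hn
  refine core_iff R [a, b] [e] hfr 2 3 [0, 0, 0] ⟨[], [(0, 1)], [0, 1]⟩
    ⟨[(0, 1, 2, 2, 1)], [], [0, 1, 2]⟩ [(0, -2)] ![] ![![0, 1]] ![![0, 1, 2, 2]] ![] 1 0
    (by decide +kernel) (by decide) rfl rfl
    (by funext y; exact y.elim0) (by funext y j; fin_cases y; fin_cases j <;> rfl)
    (by funext y j; fin_cases y; fin_cases j <;> rfl) (by funext y; exact y.elim0)
    (by simp [Ori]) (by simp [Ori]) (fun g => by simp [flow, Fin.sum_univ_succ, sg_not]; ring)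
    (by simp [Cp, h1]) (by simp [Cp, cp, h1, h3])
    (fun i hi => by interval_cases i <;> simp [gt_eq, h1, h3])
    (fun G G' => by simp [W, sn, sg_not, sg_sq, gt_eq, h1]; ring) fun _ _ => ?_
  refine sh_kink (by simp [QS, Qf_zero])
    (upd e (fun s => if s = t then ev a (!t) else ev a t) LinearMap.id)
    (fun v s => if v = e ∧ s = !t then 1 else 0) LinearMap.id (ev a t - ev e (!t))
    (fun z w hz => ?_) (fun z hz => ?_)
  · have hr := rest_congr hfr oR (z := z) (z' := upd e (fun s => if s = t then ev a (!t) else ev a t)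
      LinearMap.id z + w • fun v s => if v = e ∧ s = !t then 1 else 0)
      (fun v hv => by simp at hv; funext s; simp [upd_apply, hv])
    have h2 := hz.2
    rw [QS, QS, hr.2, add_assoc, add_right_inj]
    refine ⟨⟨hr.1 hz.1, ?_⟩, ?_⟩ <;> cases t <;>
      simp [FC, Qf, qt, Fin.forall_fin_succ, upd_apply, Ne.symm n1, Ne.symm n2] at h2 ⊢ <;>
      simp [h2]
  · have h2 := hz.2
    rw [QS, QS, add_assoc, LinearMap.id_apply, add_right_inj]
    refine ⟨⟨hz.1, ?_⟩, ?_⟩ <;> cases t <;>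
      simp [FC, Qf, qt, Fin.forall_fin_succ, funext_iff] at h2 ⊢ <;> simp [h2]

theorem r1a_core (R : Diagram) (a b e : ℕ) (hfr : R.Fresh [e] [a, b]) (t : Bool)
    {oR : Fin R.n → Fin 4 → Bool} {oPR : Fin R.m → Bool} {κ : ℕ → Γ} (o : Fin 0 → Fin 4 → Bool)
    (oP : Fin 0 → Bool) (h1 : κ b = κ a) (h3 : κ e = κ a) :
    Core R.x R.p ![] ![![a, b]] d oR oPR o ![t] κ ↔
    Core R.x R.p ![![a, e, e, b]] ![] d oR oPR ![![t, t, !t, !t]] oP κ := by
  have hn := (hfr.2 e (by simp)).1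
  simp only [List.mem_cons, List.not_mem_nil, or_false, not_or] at hn
  obtain ⟨n1, n2⟩ := hn
  refine core_iff R [a, b] [e] hfr 2 3 [0, 0, 0] ⟨[], [(0, 1)], [0, 1]⟩
    ⟨[(0, 2, 2, 1, 1)], [], [0, 1, 2]⟩ [(0, 2)] ![] ![![0, 1]] ![![0, 2, 2, 1]] ![] 0 1
    (by decide +kernel) (by decide) rfl rfl
    (by funext y; exact y.elim0) (by funext y j; fin_cases y; fin_cases j <;> rfl)
    (by funext y j; fin_cases y; fin_cases j <;> rfl) (by funext y; exact y.elim0)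
    (by simp [Ori]) (by simp [Ori]) (fun g => by simp [flow, Fin.sum_univ_succ, sg_not]; ring)
    (by simp [Cp, h1]) (by simp [Cp, cp, h1, h3])
    (fun i hi => by interval_cases i <;> simp [gt_eq, h1, h3])
    (fun G G' => by simp [W, sn, sg_sq, gt_eq, h3]; ring) fun _ _ => ?_
  have := sh_kink (V := FCS R.x R.p oR ![] ![![a, b]] o) (Q := fun z => -QS R.x oR ![] o z)
    (V' := FCS R.x R.p oR ![![a, e, e, b]] ![] ![![t, t, !t, !t]])
    (Q' := fun z => -QS R.x oR ![![a, e, e, b]] ![![t, t, !t, !t]] z) (by simp [QS, Qf_zero])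
    (upd e (fun s => if s = t then ev a (!t) else ev a t) LinearMap.id)
    (fun v s => if v = e ∧ s = t then 1 else 0) LinearMap.id (ev e t - ev b (!t))
    (fun z w hz => ?_) (fun z hz => ?_)
  · simp only [neg_neg] at this
    exact this.symm
  · have hr := rest_congr hfr oR (z := z) (z' := upd e (fun s => if s = t then ev a (!t) else ev a t)
      LinearMap.id z + w • fun v s => if v = e ∧ s = t then 1 else 0)
      (fun v hv => by simp at hv; funext s; simp [upd_apply, hv])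
    have h2 := hz.2
    rw [QS, QS, hr.2, neg_add, neg_add, add_assoc, add_right_inj]
    refine ⟨⟨hr.1 hz.1, ?_⟩, ?_⟩ <;> cases t <;>
      simp [FC, Qf, qt, Fin.forall_fin_succ, upd_apply, Ne.symm n1, Ne.symm n2] at h2 ⊢ <;>
      simp [h2]
  · have h2 := hz.2
    rw [QS, QS, neg_add, neg_add, add_assoc, LinearMap.id_apply, add_right_inj]
    refine ⟨⟨hz.1, ?_⟩, ?_⟩ <;> cases t <;>
      simp [FC, Qf, qt, Fin.forall_fin_succ, funext_iff] at h2 ⊢ <;> simp [h2]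

theorem r1_inv (R : Diagram) (a b e : ℕ) (hfr : R.Fresh [e] [a, b]) :
    (DInv (R.add ![] ![![a, b]]) d ↔ DInv (R.add ![![a, e, e, b]] ![]) d) ∧
    (DInv (R.add ![] ![![a, b]]) d ↔ DInv (R.add ![![a, b, e, e]] ![]) d) := by
  have hn := (hfr.2 e (by simp)).1
  simp only [List.mem_cons, List.not_mem_nil, or_false, not_or] at hn
  obtain ⟨n1, n2⟩ := hn
  unfold DInv
  rw [IV_add, IV_add, IV_add]
  have up : ∀ oR oPR o oP κ, Core R.x R.p ![] ![![a, b]] d oR oPR o oP κ →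
      ∃ κ', Core R.x R.p ![] ![![a, b]] d oR oPR o ![oP 0] κ' ∧ κ' b = κ' a ∧ κ' e = κ' a := by
    intro oR oPR o oP κ h
    have hk := h.kap
    simp [Cp] at hk
    rw [fin1 oP] at h
    exact ⟨_, h.upd hfr (by simp) (by simp [Fin.forall_fin_succ])
      (fun v => if v = e then κ a else κ v) (fun v hv => by simp at hv; simp [hv]),
      by simp [Ne.symm n1, Ne.symm n2, hk], by simp⟩
  refine ⟨⟨?_, ?_⟩, ?_, ?_⟩ <;> rintro ⟨oR, oPR, o, oP, κ, h⟩
  · obtain ⟨κ', h1, h2, h3⟩ := up _ _ _ _ _ h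
    exact ⟨_, _, _, ![], _, (r1a_core R a b e hfr _ o _ h2 h3).mp h1⟩
  · have hk := h.kap
    simp [Cp, cp] at hk
    have hi := h.int hfr (e := e) (by simp)
    simp [flow, Fin.sum_univ_succ, Ne.symm n1, Ne.symm n2, (h.ori 0).1] at hi
    have e1 : o 0 1 = o 0 0 := by revert hi; cases o 0 0 <;> cases o 0 1 <;> decide
    rw [ori1 h.ori, e1] at h
    exact ⟨_, _, ![], _, _, (r1a_core R a b e hfr _ _ oP (by rw [← hk.2, hk.1]) hk.1.symm).mpr h⟩
  · obtain ⟨κ', h1, h2, h3⟩ := up _ _ _ _ _ h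
    exact ⟨_, _, _, ![], _, (r1b_core R a b e hfr _ o _ h2 h3).mp h1⟩
  · have hk := h.kap
    simp [Cp, cp] at hk
    have hi := h.int hfr (e := e) (by simp)
    simp [flow, Fin.sum_univ_succ, Ne.symm n1, Ne.symm n2, (h.ori 0).1, (h.ori 0).2] at hi
    have e1 : o 0 1 = !o 0 0 := by revert hi; cases o 0 0 <;> cases o 0 1 <;> decide
    rw [ori1 h.ori, e1, Bool.not_not] at h
    exact ⟨_, _, ![], _, _, (r1b_core R a b e hfr _ _ oP (by rw [hk.2, hk.1]) hk.1.symm).mpr h⟩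

end

end Pool.Agent.MP_97bb71_gt
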