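import Pool.Agent.MP_97bb71_gt.Move2

/-! Invariance under the third Reidemeister move. -/

namespace Pool.Agent.MP_97bb71_gt
open Finset

noncomputable section

variable {Γ : Type} [DecidableEq Γ] {d : Dat Γ}

theorem sg_add (s t : Bool) : sg s + sg t = 0 ↔ t = !s := by cases s <;> cases t <;> decide

theorem sg_sub (s t : Bool) : sg s + -sg t = 0 ↔ t = s := by cases s <;> cases t <;> decide

theorem sg_sub' (s t : Bool) : -sg s + sg t = 0 ↔ t = s := by cases s <;> cases t <;> decide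

theorem sg_add' (s t : Bool) : -sg s + -sg t = 0 ↔ t = !s := by cases s <;> cases t <;> decide

theorem fresh3 {R : Diagram} {a₁ a₂ a₃ a₄ a₅ a₆ e f g : ℕ}
    (hfr : R.Fresh [e, f, g] [a₁, a₂, a₃, a₄, a₅, a₆]) :
    (a₁ ≠ e ∧ a₂ ≠ e ∧ a₃ ≠ e ∧ a₄ ≠ e ∧ a₅ ≠ e ∧ a₆ ≠ e) ∧
    (a₁ ≠ f ∧ a₂ ≠ f ∧ a₃ ≠ f ∧ a₄ ≠ f ∧ a₅ ≠ f ∧ a₆ ≠ f) ∧
    (a₁ ≠ g ∧ a₂ ≠ g ∧ a₃ ≠ g ∧ a₄ ≠ g ∧ a₅ ≠ g ∧ a₆ ≠ g) ∧ f ≠ e ∧ g ≠ e ∧ g ≠ f := by
  have h1 := (hfr.2 e (by simp)).1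
  have h2 := (hfr.2 f (by simp)).1
  have h3 := (hfr.2 g (by simp)).1
  have h4 := hfr.1
  simp at h1 h2 h3 h4
  grind

theorem r3a_core (R : Diagram) (a₁ a₂ a₃ a₄ a₅ a₆ e f g : ℕ)
    (hfr : R.Fresh [e, f, g] [a₁, a₂, a₃, a₄, a₅, a₆]) (s t u : Bool)
    {oR : Fin R.n → Fin 4 → Bool} {oPR : Fin R.m → Bool} {κ : ℕ → Γ} (oP : Fin 0 → Bool)
    (h4 : κ a₄ = κ a₁) (h5 : κ a₅ = κ a₂) (h6 : κ a₆ = κ a₃) (he : κ e = κ a₁) (hf : κ f = κ a₂)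
    (hg : κ g = κ a₃) :
    Core R.x R.p ![![f, a₄, a₅, e], ![g, e, a₆, a₁], ![a₃, f, g, a₂]] ![] d oR oPR
      ![![t, !s, !t, s], ![u, !s, !u, s], ![u, !t, !u, t]] oP κ ↔
    Core R.x R.p ![![a₂, e, f, a₁], ![a₃, a₄, g, e], ![g, a₅, a₆, f]] ![] d oR oPR
      ![![t, !s, !t, s], ![u, !s, !u, s], ![u, !t, !u, t]] oP κ := by
  obtain ⟨n1, n2, n3, n4⟩ := fresh3 hfr
  refine core_iff R [a₁, a₂, a₃, a₄, a₅, a₆] [e, f, g] hfr 6 9 [0, 1, 2, 0, 1, 2, 0, 1, 2]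
    ⟨[(7, 3, 4, 6, 1), (8, 6, 5, 0, 1), (2, 7, 8, 1, 1)], [], [0, 1, 2, 3, 4, 5, 6, 7, 8]⟩
    ⟨[(1, 6, 7, 0, 1), (2, 3, 8, 6, 1), (8, 4, 5, 7, 1)], [], [0, 1, 2, 3, 4, 5, 6, 7, 8]⟩ []
    ![![7, 3, 4, 6], ![8, 6, 5, 0], ![2, 7, 8, 1]] ![] ![![1, 6, 7, 0], ![2, 3, 8, 6], ![8, 4, 5, 7]] ![]
    0 0 (by decide +kernel) (by decide) rfl rfl
    (by funext y j; fin_cases y <;> fin_cases j <;> rfl) (by funext y; exact y.elim0)
    (by funext y j; fin_cases y <;> fin_cases j <;> rfl) (by funext y; exact y.elim0)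
    (by simp [Ori, Fin.forall_fin_succ]) (by simp [Ori, Fin.forall_fin_succ])
    (fun g => by simp [flow, Fin.sum_univ_succ, sg_not]; ring)
    (by simp [Cp, cp, Fin.forall_fin_succ, h4, h5, h6, he, hf, hg])
    (by simp [Cp, cp, Fin.forall_fin_succ, h4, h5, h6, he, hf, hg])
    (fun i hi => by interval_cases i <;> simp [gt_eq, h4, h5, h6, he, hf, hg])
    (fun G G' => by simp [W, sn, Fin.sum_univ_succ, h4, h5, he, hf, hg]) fun _ _ => ?_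
  let A : Fn ℕ →ₗ[ℚ] ℚ := ev a₂ t + ev a₄ (!s) - ev a₆ (!u)
  let B : Fn ℕ →ₗ[ℚ] ℚ := ev a₁ s + ev a₅ (!t) - ev a₃ u
  refine sh_iso hfr oR
    (upd e (fun v => if v = s then ev a₂ t else ev e s - A + B)
      (upd f (fun v => if v = t then ev e s - A + B else ev a₆ (!u))
        (upd g (fun v => if v = u then ev a₄ (!s) else ev e s - A + B) LinearMap.id)))
    (upd e (fun v => if v = s then ev e (!s) - B + A else ev a₅ (!t))
      (upd f (fun v => if v = t then ev a₃ u else ev e (!s) - B + A)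
        (upd g (fun v => if v = u then ev e (!s) - B + A else ev a₁ s) LinearMap.id)))
    (fun z v hv => by simp at hv; simp [upd_apply, hv])
    (fun z v hv => by simp at hv; simp [upd_apply, hv]) (fun z hz => ?_) (fun z hz => ?_) <;>
    simp [FC, Qf, qt, Fin.forall_fin_succ, Fin.sum_univ_succ, upd_apply, n1, n2, n3, n4, A, B]
      at hz ⊢ <;> grind

theorem r3a_inv (R : Diagram) (a₁ a₂ a₃ a₄ a₅ a₆ e f g : ℕ)
    (hfr : R.Fresh [e, f, g] [a₁, a₂, a₃, a₄, a₅, a₆]) :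
    DInv (R.add ![![f, a₄, a₅, e], ![g, e, a₆, a₁], ![a₃, f, g, a₂]] ![]) d ↔
    DInv (R.add ![![a₂, e, f, a₁], ![a₃, a₄, g, e], ![g, a₅, a₆, f]] ![]) d := by
  obtain ⟨n1, n2, n3, n4⟩ := fresh3 hfr
  unfold DInv
  rw [IV_add, IV_add]
  constructor <;> rintro ⟨oR, oPR, o, oP, κ, h⟩ <;> have hk := h.kap <;>
    simp [Cp, cp, Fin.forall_fin_succ] at hk <;>
    have i1 := h.int hfr (e := e) (by simp) <;> have i2 := h.int hfr (e := f) (by simp) <;>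
    have i3 := h.int hfr (e := g) (by simp) <;> have ho := h.ori <;>
    simp [flow, Fin.sum_univ_succ, n1, n2, n3, n4, Ne.symm n4.1, Ne.symm n4.2.1, Ne.symm n4.2.2,
      (ho _).1, (ho _).2, sg_not, sg_add, sg_sub, sg_add', sg_sub'] at i1 i2 i3 <;>
    have e1 : o = ![![o 0 0, !o 0 3, !o 0 0, o 0 3], ![o 1 0, !o 0 3, !o 1 0, o 0 3],
        (fun s t u => ![u, !t, !u, t]) (o 0 3) (o 0 0) (o 1 0)] := by
      funext y j
      fin_cases y <;> fin_cases j <;> simp [(ho _).1, (ho _).2] <;> grind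
  · rw [e1] at h
    exact ⟨_, _, _, _, _, (r3a_core R a₁ a₂ a₃ a₄ a₅ a₆ e f g hfr _ _ _ oP (by grind) (by grind)
      (by grind) (by grind) (by grind) (by grind)).mp h⟩
  · rw [e1] at h
    exact ⟨_, _, _, _, _, (r3a_core R a₁ a₂ a₃ a₄ a₅ a₆ e f g hfr _ _ _ oP (by grind) (by grind)
      (by grind) (by grind) (by grind) (by grind)).mpr h⟩

theorem r3b_core (R : Diagram) (a₁ a₂ a₃ a₄ a₅ a₆ e f g : ℕ)
    (hfr : R.Fresh [e, f, g] [a₁, a₂, a₃, a₄, a₅, a₆]) (s t u : Bool)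
    {oR : Fin R.n → Fin 4 → Bool} {oPR : Fin R.m → Bool} {κ : ℕ → Γ} (oP : Fin 0 → Bool)
    (h4 : κ a₄ = κ a₁) (h5 : κ a₅ = κ a₂) (h6 : κ a₆ = κ a₃) (he : κ e = κ a₁) (hf : κ f = κ a₂)
    (hg : κ g = κ a₃) :
    Core R.x R.p ![![f, a₄, a₅, e], ![g, e, a₆, a₁], ![a₂, a₃, f, g]] ![] d oR oPR
      ![![t, !s, !t, s], ![u, !s, !u, s], ![t, u, !t, !u]] oP κ ↔
    Core R.x R.p ![![a₂, e, f, a₁], ![a₃, a₄, g, e], ![f, g, a₅, a₆]] ![] d oR oPR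
      ![![t, !s, !t, s], ![u, !s, !u, s], ![t, u, !t, !u]] oP κ := by
  obtain ⟨n1, n2, n3, n4⟩ := fresh3 hfr
  refine core_iff R [a₁, a₂, a₃, a₄, a₅, a₆] [e, f, g] hfr 6 9 [0, 1, 2, 0, 1, 2, 0, 1, 2]
    ⟨[(7, 3, 4, 6, 1), (8, 6, 5, 0, 1), (1, 2, 7, 8, 1)], [], [0, 1, 2, 3, 4, 5, 6, 7, 8]⟩
    ⟨[(1, 6, 7, 0, 1), (2, 3, 8, 6, 1), (7, 8, 4, 5, 1)], [], [0, 1, 2, 3, 4, 5, 6, 7, 8]⟩ []
    ![![7, 3, 4, 6], ![8, 6, 5, 0], ![1, 2, 7, 8]] ![] ![![1, 6, 7, 0], ![2, 3, 8, 6], ![7, 8, 4, 5]] ![]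
    0 0 (by decide +kernel) (by decide) rfl rfl
    (by funext y j; fin_cases y <;> fin_cases j <;> rfl) (by funext y; exact y.elim0)
    (by funext y j; fin_cases y <;> fin_cases j <;> rfl) (by funext y; exact y.elim0)
    (by simp [Ori, Fin.forall_fin_succ]) (by simp [Ori, Fin.forall_fin_succ])
    (fun g => by simp [flow, Fin.sum_univ_succ, sg_not]; ring)
    (by simp [Cp, cp, Fin.forall_fin_succ, h4, h5, h6, he, hf, hg])
    (by simp [Cp, cp, Fin.forall_fin_succ, h4, h5, h6, he, hf, hg])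
    (fun i hi => by interval_cases i <;> simp [gt_eq, h4, h5, h6, he, hf, hg])
    (fun G G' => by simp [W, sn, Fin.sum_univ_succ, h4, h5, he, hf, hg]) fun _ _ => ?_
  let A : Fn ℕ →ₗ[ℚ] ℚ := ev a₂ t + ev a₆ (!u) - ev a₄ (!s)
  let B : Fn ℕ →ₗ[ℚ] ℚ := ev a₃ u + ev a₅ (!t) - ev a₁ s
  refine sh_iso hfr oR
    (upd e (fun v => if v = s then ev a₂ t else ev e s - A + B)
      (upd f (fun v => if v = t then ev e s - A + B else ev a₆ (!u))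
        (upd g (fun v => if v = u then ev a₄ (!s) else ev e s - A + B) LinearMap.id)))
    (upd e (fun v => if v = s then ev e (!s) - B + A else ev a₅ (!t))
      (upd f (fun v => if v = t then ev a₃ u else ev e (!s) - B + A)
        (upd g (fun v => if v = u then ev e (!s) - B + A else ev a₁ s) LinearMap.id)))
    (fun z v hv => by simp at hv; simp [upd_apply, hv])
    (fun z v hv => by simp at hv; simp [upd_apply, hv]) (fun z hz => ?_) (fun z hz => ?_) <;>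
    simp [FC, Qf, qt, Fin.forall_fin_succ, Fin.sum_univ_succ, upd_apply, n1, n2, n3, n4, A, B]
      at hz ⊢ <;> grind

theorem r3b_inv (R : Diagram) (a₁ a₂ a₃ a₄ a₅ a₆ e f g : ℕ)
    (hfr : R.Fresh [e, f, g] [a₁, a₂, a₃, a₄, a₅, a₆]) :
    DInv (R.add ![![f, a₄, a₅, e], ![g, e, a₆, a₁], ![a₂, a₃, f, g]] ![]) d ↔
    DInv (R.add ![![a₂, e, f, a₁], ![a₃, a₄, g, e], ![f, g, a₅, a₆]] ![]) d := by
  obtain ⟨n1, n2, n3, n4⟩ := fresh3 hfr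
  unfold DInv
  rw [IV_add, IV_add]
  constructor <;> rintro ⟨oR, oPR, o, oP, κ, h⟩ <;> have hk := h.kap <;>
    simp [Cp, cp, Fin.forall_fin_succ] at hk <;>
    have i1 := h.int hfr (e := e) (by simp) <;> have i2 := h.int hfr (e := f) (by simp) <;>
    have i3 := h.int hfr (e := g) (by simp) <;> have ho := h.ori <;>
    simp [flow, Fin.sum_univ_succ, n1, n2, n3, n4, Ne.symm n4.1, Ne.symm n4.2.1, Ne.symm n4.2.2,
      (ho _).1, (ho _).2, sg_not, sg_add, sg_sub, sg_add', sg_sub'] at i1 i2 i3 <;>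
    have e1 : o = ![![o 0 0, !o 0 3, !o 0 0, o 0 3], ![o 1 0, !o 0 3, !o 1 0, o 0 3],
        (fun s t u => ![t, u, !t, !u]) (o 0 3) (o 0 0) (o 1 0)] := by
      funext y j
      fin_cases y <;> fin_cases j <;> simp [(ho _).1, (ho _).2] <;> grind
  · rw [e1] at h
    exact ⟨_, _, _, _, _, (r3b_core R a₁ a₂ a₃ a₄ a₅ a₆ e f g hfr _ _ _ oP (by grind) (by grind)
      (by grind) (by grind) (by grind) (by grind)).mp h⟩
  · rw [e1] at h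
    exact ⟨_, _, _, _, _, (r3b_core R a₁ a₂ a₃ a₄ a₅ a₆ e f g hfr _ _ _ oP (by grind) (by grind)
      (by grind) (by grind) (by grind) (by grind)).mpr h⟩

end

end Pool.Agent.MP_97bb71_gt
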