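import Mathlib

/-! Counting classes of a generated equivalence relation. -/

namespace Pool.Agent.MP_97bb71_gt
open Finset

noncomputable section
open Classical

variable {α β γ : Type}

/-- number of classes of the equivalence generated by `r` that meet `U` -/
def ncl (r : α → α → Prop) (U : Finset α) : ℕ := (U.image (Quot.mk r)).card

theorem lift_eq {r : α → α → Prop} {g : α → β} (h : ∀ a b, r a b → g a = g b) {a b : α}
    (hab : Quot.mk r a = Quot.mk r b) : g a = g b :=
  congrArg (Quot.lift g h) hab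

theorem card_image_le_of_ker (U : Finset α) (f : α → β) (g : α → γ) [DecidableEq β]
    [DecidableEq γ] (h : ∀ a ∈ U, ∀ b ∈ U, f a = f b → g a = g b) :
    (U.image g).card ≤ (U.image f).card := by
  rcases U.eq_empty_or_nonempty with rfl | ⟨a0, ha0⟩
  · simp
  let k : β → γ := fun v => if hv : ∃ a ∈ U, f a = v then g hv.choose else g a0
  have : U.image g = (U.image f).image k := by
    rw [image_image]
    apply image_congr
    intro a ha
    have hv : ∃ a' ∈ U, f a' = f a := ⟨a, ha, rfl⟩
    simp only [Function.comp, k, dif_pos hv]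
    exact h a ha _ hv.choose_spec.1 hv.choose_spec.2.symm
  rw [this]
  exact card_image_le

theorem ncl_le_card {r : α → α → Prop} {U : Finset α} (f : α → β) [DecidableEq β]
    (h : ∀ a ∈ U, ∀ b ∈ U, f a = f b → Quot.mk r a = Quot.mk r b) :
    ncl r U ≤ (U.image f).card := card_image_le_of_ker U f _ h

theorem card_le_ncl {r : α → α → Prop} {U : Finset α} (f : α → β) [DecidableEq β]
    (h : ∀ a b, r a b → f a = f b) : (U.image f).card ≤ ncl r U :=
  card_image_le_of_ker U _ f fun _ _ _ _ hab => lift_eq h hab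

theorem ncl_anti {r r' : α → α → Prop} (U : Finset α)
    (h : ∀ a b, r a b → Quot.mk r' a = Quot.mk r' b) : ncl r' U ≤ ncl r U :=
  card_le_ncl _ h

theorem ncl_congr {r r' : α → α → Prop} (U : Finset α)
    (h : ∀ a b, r a b → Quot.mk r' a = Quot.mk r' b)
    (h' : ∀ a b, r' a b → Quot.mk r a = Quot.mk r b) : ncl r U = ncl r' U :=
  le_antisymm (ncl_anti U h') (ncl_anti U h)

/-- if a compatible function attains as many values as there are classes, it separates classes -/
theorem eq_of_ncl_le {r : α → α → Prop} {U : Finset α} (f : α → β) [DecidableEq β]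
    (h : ∀ a b, r a b → f a = f b) (hc : ncl r U ≤ (U.image f).card) {a b : α} (ha : a ∈ U)
    (hb : b ∈ U) (hab : f a = f b) : Quot.mk r a = Quot.mk r b := by
  have e : U.image f = (U.image (Quot.mk r)).image (Quot.lift f h) := by
    rw [image_image]; rfl
  have hc' : ((U.image (Quot.mk r)).image (Quot.lift f h)).card = (U.image (Quot.mk r)).card :=
    le_antisymm card_image_le (by rw [← e]; exact hc)
  exact card_image_iff.mp hc' (mem_coe.mpr (mem_image_of_mem _ ha))
    (mem_coe.mpr (mem_image_of_mem _ hb)) hab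

/-- several distinct classes merged into one -/
theorem ncl_add_le {r r' : α → α → Prop} (U : Finset α)
    (h : ∀ a b, r a b → Quot.mk r' a = Quot.mk r' b) (a0 : α) (ha0 : a0 ∈ U) (A : Finset α)
    (hA : A ⊆ U) (h1 : ∀ a ∈ A, Quot.mk r a ≠ Quot.mk r a0)
    (h2 : ∀ a ∈ A, ∀ b ∈ A, Quot.mk r a = Quot.mk r b → a = b)
    (h3 : ∀ a ∈ A, Quot.mk r' a = Quot.mk r' a0) : ncl r' U + A.card ≤ ncl r U := by
  have hsub : A.image (Quot.mk r) ⊆ U.image (Quot.mk r) := image_subset_image hA
  have hc : (A.image (Quot.mk r)).card = A.card :=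
    card_image_of_injOn fun a ha b hb hab => h2 a ha b hb hab
  have : U.image (Quot.mk r') ⊆
      (U.image (Quot.mk r) \ A.image (Quot.mk r)).image (Quot.lift (Quot.mk r') h) := by
    intro q hq
    obtain ⟨a, ha, rfl⟩ := mem_image.mp hq
    by_cases hm : Quot.mk r a ∈ A.image (Quot.mk r)
    · obtain ⟨b, hb, hba⟩ := mem_image.mp hm
      refine mem_image.mpr ⟨Quot.mk r a0, mem_sdiff.mpr ⟨mem_image_of_mem _ ha0, ?_⟩, ?_⟩
      · intro hm'
        obtain ⟨c, hc, hca⟩ := mem_image.mp hm'
        exact h1 c hc hca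
      · show Quot.mk r' a0 = Quot.mk r' a
        rw [← h3 b hb]; exact lift_eq h hba
    · exact mem_image.mpr ⟨Quot.mk r a, mem_sdiff.mpr ⟨mem_image_of_mem _ ha, hm⟩, rfl⟩
  have h4 := (card_le_card this).trans card_image_le
  rw [card_sdiff_of_subset hsub, hc] at h4
  have h5 := card_le_card hsub
  unfold ncl
  omega

/-- bridge from a quotient of a finite type to `ncl` -/
theorem card_quot_eq_ncl {δ : Type} [Fintype δ] (rD : δ → δ → Prop) (r : α → α → Prop)
    (h : δ → α) (U : Finset α) (hU' : ∀ u, u ∈ U ↔ ∃ a, h a = u)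
    (h1 : ∀ a b, rD a b → Quot.mk r (h a) = Quot.mk r (h b))
    (h2 : ∀ a b, h a = h b → Quot.mk rD a = Quot.mk rD b)
    (h3 : ∀ u v, r u v → ∃ a b, u = h a ∧ v = h b ∧ Quot.mk rD a = Quot.mk rD b) :
    Nat.card (Quot rD) = ncl r U := by
  have hU : U = univ.image h := by ext u; simp [hU']
  have e1 : Nat.card (Quot rD) = (univ.image (Quot.mk rD)).card := by
    have : Fintype (Quot rD) := Fintype.ofSurjective _ Quot.mk_surjective
    rw [image_univ_of_surjective Quot.mk_surjective, Nat.card_eq_fintype_card, card_univ]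
  let k : α → Option (Quot rD) := fun u => if hu : ∃ a, h a = u then some (Quot.mk rD hu.choose)
    else none
  have hk : ∀ a, k (h a) = some (Quot.mk rD a) := by
    intro a
    have hu : ∃ a', h a' = h a := ⟨a, rfl⟩
    simp only [k, dif_pos hu]
    rw [h2 _ _ hu.choose_spec]
  have hk2 : ∀ u v, r u v → k u = k v := by
    intro u v huv
    obtain ⟨a, b, rfl, rfl, hab⟩ := h3 u v huv
    rw [hk, hk, hab]
  rw [e1, hU, ncl, image_image]
  apply le_antisymm
  · apply card_image_le_of_ker
    intro a _ b _ hab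
    have := lift_eq hk2 hab
    rw [hk, hk] at this
    exact Option.some.inj this
  · apply card_image_le_of_ker
    intro a _ b _ hab
    exact lift_eq (g := fun a => Quot.mk r (h a)) h1 hab

/-- relabelling by an injective map -/
theorem ncl_map (f : β → α) (hf : Function.Injective f) (r' : β → β → Prop) (r : α → α → Prop)
    (U' : Finset β) (U : Finset α) (hU' : ∀ u, u ∈ U ↔ ∃ a ∈ U', f a = u)
    (h1 : ∀ a b, r' a b → r (f a) (f b))
    (h3 : ∀ u v, r u v → ∃ a b, u = f a ∧ v = f b ∧ r' a b) : ncl r U = ncl r' U' := by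
  have hU : U = U'.image f := by ext u; simp [hU']
  let k : α → Option (Quot r') := fun u => if hu : ∃ a, f a = u then some (Quot.mk r' hu.choose)
    else none
  have hk : ∀ a, k (f a) = some (Quot.mk r' a) := by
    intro a
    have hu : ∃ a', f a' = f a := ⟨a, rfl⟩
    simp only [k, dif_pos hu]
    rw [hf hu.choose_spec]
  have hk2 : ∀ u v, r u v → k u = k v := by
    intro u v huv
    obtain ⟨a, b, rfl, rfl, hab⟩ := h3 u v huv
    rw [hk, hk, Quot.sound hab]
  rw [hU, ncl, ncl, image_image]
  apply le_antisymm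
  · apply card_image_le_of_ker
    intro a _ b _ hab
    exact lift_eq (g := fun a => Quot.mk r (f a)) (fun a b hab => Quot.sound (h1 a b hab)) hab
  · apply card_image_le_of_ker
    intro a _ b _ hab
    have := lift_eq hk2 hab
    rw [hk, hk] at this
    exact Option.some.inj this

/-- `f` names the classes of `r` -/
def Rep (r : α → α → Prop) (f : α → β) : Prop :=
  ∀ a b, f a = f b ↔ Quot.mk r a = Quot.mk r b

theorem Rep.ncl_eq {r : α → α → Prop} {f : α → β} (h : Rep r f) (U : Finset α) [DecidableEq β] :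
    ncl r U = (U.image f).card :=
  le_antisymm (ncl_le_card f fun a _ b _ hab => (h a b).mp hab)
    (card_le_ncl f fun a b hab => (h a b).mpr (Quot.sound hab))

theorem Rep.merge {r r' : α → α → Prop} {f f' : α → β} (h : Rep r f) (u v : α)
    (hr : ∀ a b, r' a b ↔ r a b ∨ (a = u ∧ b = v))
    (hf : ∀ a, f' a = if f a = f v then f u else f a) : Rep r' f' := by
  have k1 : ∀ a b, f a = f b → Quot.mk r' a = Quot.mk r' b := fun a b hab =>
    lift_eq (fun a b hab => Quot.sound ((hr a b).mpr (Or.inl hab))) ((h a b).mp hab)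
  have k2 : Quot.mk r' u = Quot.mk r' v := Quot.sound ((hr u v).mpr (Or.inr ⟨rfl, rfl⟩))
  intro a b
  constructor
  · intro hab
    rw [hf, hf] at hab
    by_cases ha : f a = f v <;> by_cases hb : f b = f v <;> simp only [ha, hb, if_true, if_false] at hab
    · rw [k1 a v ha, k1 b v hb]
    · rw [k1 a v ha, ← k2, k1 u b hab]
    · rw [k1 b v hb, ← k2, k1 a u hab]
    · exact k1 a b hab
  · apply lift_eq
    intro a b hab
    rcases (hr a b).mp hab with hab | ⟨rfl, rfl⟩
    · rw [hf, hf, (h a b).mpr (Quot.sound hab)]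
    · rw [hf, hf]; simp

theorem ncl_le_succ {r r' : α → α → Prop} (U : Finset α) (u v : α)
    (hr : ∀ a b, r' a b → Quot.mk (fun a b => r a b ∨ (a = u ∧ b = v)) a =
      Quot.mk (fun a b => r a b ∨ (a = u ∧ b = v)) b) : ncl r U ≤ ncl r' U + 1 := by
  have h0 : Rep r (Quot.mk r) := fun _ _ => Iff.rfl
  have h1 := h0.merge (r' := fun a b => r a b ∨ (a = u ∧ b = v)) u v (fun _ _ => Iff.rfl)
    (fun _ => rfl)
  refine le_trans ?_ (Nat.add_le_add_right (ncl_anti U hr) 1)
  rw [h1.ncl_eq U, ncl]
  refine le_trans (card_le_card (t := insert (Quot.mk r v) (U.image fun a =>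
    if Quot.mk r a = Quot.mk r v then Quot.mk r u else Quot.mk r a)) ?_) (card_insert_le _ _)
  intro q hq
  obtain ⟨a, ha, rfl⟩ := mem_image.mp hq
  by_cases hv : Quot.mk r a = Quot.mk r v
  · rw [hv]; exact mem_insert_self _ _
  · exact mem_insert_of_mem (mem_image.mpr ⟨a, ha, by simp [hv]⟩)

end

end Pool.Agent.MP_97bb71_gt
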