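import Pool.Agent.MP_97bb71_gt.Chk

/-! The package of invariants carried by a diagram. -/

namespace Pool.Agent.MP_97bb71_gt
open Finset

set_option linter.unusedSectionVars false

noncomputable section

variable {α β Γ X X' P P' : Type}

structure Dat (Γ : Type) where
  B : Finset Γ → Bool → ℚ
  w : Finset Γ → ℤ
  lk : Γ → Γ → ℤ
  K : ℤ

def Dat.mir (d : Dat Γ) : Dat Γ :=
  ⟨fun S η => d.B S (!η), fun S => -d.w S, fun Y Z => -d.lk Y Z, -d.K⟩

theorem Dat.mir_mir (d : Dat Γ) : d.mir.mir = d := by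
  cases d; simp [Dat.mir]

def sn (o : Fin 4 → Bool) : ℤ := -(sg (o 0) * sg (o 1))

def eS (x : X → Fin 4 → α) (ε : X → ℤ) (b : α → Bool) (y : X) : ℤ :=
  ε y * ind (b (x y 0)) * ind (b (x y 1))

def W [Fintype X] (x : X → Fin 4 → α) (ε : X → ℤ) (o : X → Fin 4 → Bool) (g g' : α → ℤ) : ℤ :=
  ∑ y, ε y * sn (o y) * (g (x y 0) * g' (x y 1) + g' (x y 0) * g (x y 1))

def wr [Fintype X] (x : X → Fin 4 → α) (ε : X → ℤ) (o : X → Fin 4 → Bool) (b : α → Bool) : ℤ :=
  ∑ y, eS x ε b y * sn (o y)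

def flow [Fintype X] [Fintype P] (x : X → Fin 4 → α) (p : P → Fin 2 → α) (o : X → Fin 4 → Bool)
    (oP : P → Bool) (g : α → ℤ) : ℤ :=
  ∑ y, ∑ j, g (x y j) * sg (o y j) + ∑ j, (g (p j 0) - g (p j 1)) * sg (oP j)

def Ori (o : X → Fin 4 → Bool) : Prop := ∀ y, o y 2 = !o y 0 ∧ o y 3 = !o y 1

def inS [DecidableEq Γ] (κ : α → Γ) (S : Finset Γ) (a : α) : Bool := decide (κ a ∈ S)

def chi [DecidableEq Γ] (κ : α → Γ) (Y : Γ) (a : α) : ℤ := if κ a = Y then 1 else 0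

structure Pk [Fintype X] [Fintype P] [DecidableEq Γ] (x : X → Fin 4 → α) (p : P → Fin 2 → α)
    (U : Finset α) (ε : X → ℤ) (d : Dat Γ) (o : X → Fin 4 → Bool) (oP : P → Bool) (κ : α → Γ) :
    Prop where
  ori : Ori o
  bal : ∀ g, flow x p o oP g = 0
  kap : Cp x p (fun _ => .S) κ
  br : ∀ S η, Br x p U (fun y => sg η * eS x ε (inS κ S) y) =
    (-8 : ℚ) ^ (sg η * (wr x ε o (inS κ S) - d.w S)) * d.B S η
  lk : ∀ Y Z, Y ≠ Z → W x ε o (chi κ Y) (chi κ Z) = d.lk Y Z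

theorem sg_not (b : Bool) : sg (!b) = -sg b := by cases b <;> rfl

theorem sg_sq (b : Bool) : sg b * sg b = 1 := by cases b <;> rfl

theorem ind_sq (b : Bool) : ind b * ind b = ind b := by cases b <;> rfl

theorem two_wr [Fintype X] (x : X → Fin 4 → α) (ε : X → ℤ) (o : X → Fin 4 → Bool)
    (b : α → Bool) : 2 * wr x ε o b = W x ε o (fun a => ind (b a)) (fun a => ind (b a)) := by
  unfold wr W eS
  rw [mul_sum]
  exact sum_congr rfl fun y _ => by ring

variable [Fintype X] [Fintype P] [Fintype X'] [Fintype P'] [DecidableEq Γ]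

theorem Pk.congr_kap {x : X → Fin 4 → α} {p : P → Fin 2 → α} {U : Finset α} {ε : X → ℤ}
    {d : Dat Γ} {o : X → Fin 4 → Bool} {oP : P → Bool} {κ κ' : α → Γ}
    (h : Pk x p U ε d o oP κ) (h1 : ∀ y j, κ' (x y j) = κ (x y j))
    (h2 : ∀ y j, κ' (p y j) = κ (p y j)) : Pk x p U ε d o oP κ' := by
  have e1 : ∀ S, eS x ε (inS κ' S) = eS x ε (inS κ S) := by
    intro S; funext y; simp only [eS, inS, h1]
  refine ⟨h.ori, h.bal, ⟨fun y => ?_, fun j => ?_⟩, fun S η => ?_, fun Y Z hYZ => ?_⟩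
  · simp only [h1]; exact h.kap.1 y
  · simp only [h2]; exact h.kap.2 j
  · rw [wr, e1]; exact h.br S η
  · rw [← h.lk Y Z hYZ]; simp only [W, chi, h1]

theorem Cp_reindex {x : X → Fin 4 → α} {p : P → Fin 2 → α} {μ : X → Md} (σ : X' ≃ X)
    (τ : P' ≃ P) (g : α → β) :
    Cp (fun y => x (σ y)) (fun j => p (τ j)) (fun y => μ (σ y)) g ↔ Cp x p μ g :=
  and_congr (σ.forall_congr' (by simp)) (τ.forall_congr' (by simp))

theorem N_reindex {x : X → Fin 4 → α} {p : P → Fin 2 → α} (U : Finset α) {μ : X → Md}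
    (σ : X' ≃ X) (τ : P' ≃ P) :
    N (fun y => x (σ y)) (fun j => p (τ j)) U (fun y => μ (σ y)) = N x p U μ :=
  N_congr U fun _ g => Cp_reindex σ τ g

theorem Br_reindex (x : X → Fin 4 → α) (p : P → Fin 2 → α) (U : Finset α) (e : X → ℤ)
    (σ : X' ≃ X) (τ : P' ≃ P) :
    Br (fun y => x (σ y)) (fun j => p (τ j)) U (fun y => e (σ y)) = Br x p U e := by
  classical
  rw [Br_def, Br_def]
  symm
  refine Fintype.sum_equiv (σ.symm.arrowCongr (Equiv.refl Bool)) _ _ fun s => ?_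
  simp only [Equiv.arrowCongr_apply, Equiv.coe_refl, Function.comp, Equiv.symm_symm, id]
  rw [σ.prod_comp fun y => wt (e y) (s y), N_reindex U (μ := fun y => md (e y) (s y))]

theorem wr_reindex (x : X → Fin 4 → α) (ε : X → ℤ) (o : X → Fin 4 → Bool) (b : α → Bool)
    (σ : X' ≃ X) :
    wr (fun y => x (σ y)) (fun y => ε (σ y)) (fun y => o (σ y)) b = wr x ε o b :=
  σ.sum_comp fun y => eS x ε b y * sn (o y)

theorem flow_reindex (x : X → Fin 4 → α) (p : P → Fin 2 → α) (o : X → Fin 4 → Bool)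
    (oP : P → Bool) (σ : X' ≃ X) (τ : P' ≃ P) (g : α → ℤ) :
    flow (fun y => x (σ y)) (fun j => p (τ j)) (fun y => o (σ y)) (fun j => oP (τ j)) g =
      flow x p o oP g := by
  unfold flow
  rw [σ.sum_comp fun y => ∑ j, g (x y j) * sg (o y j),
    τ.sum_comp fun j => (g (p j 0) - g (p j 1)) * sg (oP j)]

theorem Pk.reindex {x : X → Fin 4 → α} {p : P → Fin 2 → α} {U : Finset α} {ε : X → ℤ}
    {d : Dat Γ} {o : X → Fin 4 → Bool} {oP : P → Bool} {κ : α → Γ}
    (h : Pk x p U ε d o oP κ) (σ : X' ≃ X) (τ : P' ≃ P) :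
    Pk (fun y => x (σ y)) (fun j => p (τ j)) U (fun y => ε (σ y)) d (fun y => o (σ y))
      (fun j => oP (τ j)) κ := by
  refine ⟨fun y => h.ori _, fun g => ?_, (Cp_reindex (μ := fun _ => .S) σ τ κ).mpr h.kap,
    fun S η => ?_, fun Y Z hYZ => ?_⟩
  · rw [flow_reindex]; exact h.bal g
  · rw [wr_reindex, ← h.br S η]
    exact Br_reindex x p U (fun y => sg η * eS x ε (inS κ S) y) σ τ
  · rw [← h.lk Y Z hYZ]
    exact σ.sum_comp fun y => ε y * sn (o y) *
      (chi κ Y (x y 0) * chi κ Z (x y 1) + chi κ Z (x y 0) * chi κ Y (x y 1))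

theorem N_relabel (f : β → α) (hf : Function.Injective f) (x : X → Fin 4 → β)
    (p : P → Fin 2 → β) (U' : Finset β) (U : Finset α) (hU : ∀ u, u ∈ U ↔ ∃ a ∈ U', f a = u)
    (μ : X → Md) : N (fun y j => f (x y j)) (fun y j => f (p y j)) U μ = N x p U' μ := by
  refine ncl_map f hf _ _ U' U hU ?_ ?_
  · rintro a b (⟨y, q, hq, rfl, rfl⟩ | ⟨j, rfl, rfl⟩)
    · exact Or.inl ⟨y, q, hq, rfl, rfl⟩
    · exact Or.inr ⟨j, rfl, rfl⟩
  · rintro a b (⟨y, q, hq, rfl, rfl⟩ | ⟨j, rfl, rfl⟩)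
    · exact ⟨_, _, rfl, rfl, Or.inl ⟨y, q, hq, rfl, rfl⟩⟩
    · exact ⟨_, _, rfl, rfl, Or.inr ⟨j, rfl, rfl⟩⟩

theorem Pk_relabel (f : β → α) (hf : Function.Injective f) {x : X → Fin 4 → β}
    {p : P → Fin 2 → β} {U' : Finset β} {U : Finset α} (hU : ∀ u, u ∈ U ↔ ∃ a ∈ U', f a = u)
    {ε : X → ℤ} {d : Dat Γ} {o : X → Fin 4 → Bool} {oP : P → Bool} {κ : α → Γ} :
    Pk (fun y j => f (x y j)) (fun y j => f (p y j)) U ε d o oP κ ↔
      Pk x p U' ε d o oP (fun a => κ (f a)) := by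
  have e : ∀ e, Br (fun y j => f (x y j)) (fun y j => f (p y j)) U e = Br x p U' e := by
    intro e; unfold Br; simp only [N_relabel f hf x p U' U hU]
  constructor
  · intro h
    refine ⟨h.ori, fun g => ?_, h.kap, fun S η => ?_, h.lk⟩
    · have := h.bal (Function.extend f g 0)
      simpa only [flow, hf.extend_apply] using this
    · rw [← e]; exact h.br S η
  · intro h
    exact ⟨h.ori, fun g => h.bal fun a => g (f a), h.kap, fun S η => by rw [e]; exact h.br S η,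
      h.lk⟩

theorem Pk.neg {x : X → Fin 4 → α} {p : P → Fin 2 → α} {U : Finset α} {ε : X → ℤ}
    {d : Dat Γ} {o : X → Fin 4 → Bool} {oP : P → Bool} {κ : α → Γ}
    (h : Pk x p U ε d o oP κ) : Pk x p U (fun y => -ε y) d.mir o oP κ := by
  refine ⟨h.ori, h.bal, h.kap, fun S η => ?_, fun Y Z hYZ => ?_⟩
  · have := h.br S (!η)
    have e : wr x (fun y => -ε y) o (inS κ S) = -wr x ε o (inS κ S) := by
      simp [wr, eS]
    simp only [Dat.mir, e]
    rw [sg_not] at this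
    convert this using 3
    · simp [eS]
    · ring
  · simp only [Dat.mir, ← h.lk Y Z hYZ, W, ← sum_neg_distrib]
    exact sum_congr rfl fun y _ => by ring

/-- the symmetries of a crossing -/
def pm (k : Fin 4) (r : Bool) (j : Fin 4) : Fin 4 :=
  ![![0, 1, 2, 3], ![1, 0, 3, 2], ![2, 3, 0, 1], ![3, 2, 1, 0]] k (if r then j + 1 else j)

def sw (r : Bool) : Md → Md
  | .U => if r then .V else .U
  | .V => if r then .U else .V
  | .S => .S
  | .C => .C

omit [Fintype X] in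
theorem cp_pm (v : Fin 4 → β) (k : Fin 4) (r : Bool) (m : Md) :
    cp (fun j => v (pm k r j)) (sw r m) ↔ cp v m := by
  fin_cases k <;> cases r <;> cases m <;> simp [cp, pm, sw] <;> grind

theorem sum_pm (F : Fin 4 → ℤ) (k : Fin 4) (r : Bool) : ∑ j, F (pm k r j) = ∑ j, F j := by
  fin_cases k <;> cases r <;> simp [pm, Fin.sum_univ_four] <;> ring

theorem Cp_pm {x : X → Fin 4 → α} {p : P → Fin 2 → α} {μ : X → Md} (k : X → Fin 4)
    (r : X → Bool) (g : α → β) :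
    Cp (fun y j => x y (pm (k y) (r y) j)) p (fun y => sw (r y) (μ y)) g ↔ Cp x p μ g :=
  and_congr_left' (forall_congr' fun y => cp_pm (fun j => g (x y j)) (k y) (r y) (μ y))

theorem Br_pm (x : X → Fin 4 → α) (p : P → Fin 2 → α) (U : Finset α) (e : X → ℤ) (k : X → Fin 4)
    (r : X → Bool) :
    Br (fun y j => x y (pm (k y) (r y) j)) p U (fun y => sg (!r y) * e y) = Br x p U e := by
  classical
  rw [Br_def, Br_def]
  have hinv : Function.Involutive fun (s : X → Bool) y =>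
      if r y = true ∧ (e y = 1 ∨ e y = -1) then !s y else s y := by
    intro s; funext y
    by_cases h : r y = true ∧ (e y = 1 ∨ e y = -1) <;> simp [h]
  symm
  refine Fintype.sum_equiv hinv.toPerm _ _ fun s => ?_
  have key : ∀ (r s : Bool) (e : ℤ),
      wt (sg (!r) * e) (if r = true ∧ (e = 1 ∨ e = -1) then !s else s) = wt e s ∧
      md (sg (!r) * e) (if r = true ∧ (e = 1 ∨ e = -1) then !s else s) = sw r (md e s) := by
    intro r s e
    by_cases h1 : e = 1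
    · subst h1; cases r <;> cases s <;> simp [wt, md, sg, sw]
    by_cases h2 : e = -1
    · subst h2; cases r <;> cases s <;> simp [wt, md, sg, sw]
    have h3 : ¬(-e = 1) := by omega
    cases r <;> cases s <;> simp [wt, md, sg, sw, h1, h2, h3]
  simp only [Function.Involutive.coe_toPerm, key]
  rw [N_congr U fun _ g => Cp_pm (μ := fun y => md (e y) (s y)) k r g]

theorem sn_pm {o : Fin 4 → Bool} (h : o 2 = !o 0 ∧ o 3 = !o 1) (k : Fin 4) (r : Bool) :
    sn (fun j => o (pm k r j)) = sg (!r) * sn o ∧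
    (o (pm k r 2) = !o (pm k r 0) ∧ o (pm k r 3) = !o (pm k r 1)) := by
  fin_cases k <;> cases r <;> simp [pm, sn, h.1, h.2, sg_not] <;> cases o 0 <;> cases o 1 <;> rfl

theorem sym_pm {u v : Fin 4 → ℤ} (hu : cp u .S) (hv : cp v .S) (k : Fin 4) (r : Bool) :
    u (pm k r 0) * v (pm k r 1) + v (pm k r 0) * u (pm k r 1) = u 0 * v 1 + v 0 * u 1 := by
  obtain ⟨h1, h2⟩ := hu
  obtain ⟨h3, h4⟩ := hv
  fin_cases k <;> cases r <;> simp [pm, ← h1, ← h2, ← h3, ← h4] <;> ring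

theorem eS_pm {x : X → Fin 4 → α} {p : P → Fin 2 → α} (ε : X → ℤ) {b : α → Bool}
    (hb : Cp x p (fun _ => .S) b) (k : X → Fin 4) (r : X → Bool) (y : X) :
    eS (fun y j => x y (pm (k y) (r y) j)) (fun y => sg (!r y) * ε y) b y =
      sg (!r y) * eS x ε b y := by
  have := sym_pm ((hb.comp ind).1 y) ((hb.comp ind).1 y) (k y) (r y)
  simp only [eS]
  have e : ind (b (x y (pm (k y) (r y) 0))) * ind (b (x y (pm (k y) (r y) 1))) =
    ind (b (x y 0)) * ind (b (x y 1)) := by linarith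
  rw [mul_assoc, e]; ring

theorem wr_pm {x : X → Fin 4 → α} {p : P → Fin 2 → α} (ε : X → ℤ) {o : X → Fin 4 → Bool}
    (ho : Ori o) {b : α → Bool} (hb : Cp x p (fun _ => .S) b) (k : X → Fin 4) (r : X → Bool) :
    wr (fun y j => x y (pm (k y) (r y) j)) (fun y => sg (!r y) * ε y)
      (fun y j => o y (pm (k y) (r y) j)) b = wr x ε o b := by
  refine sum_congr rfl fun y _ => ?_
  rw [eS_pm ε hb, (sn_pm (ho y) _ _).1]
  linear_combination (eS x ε b y * sn (o y)) * sg_sq (!r y)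

theorem Pk.pm {x : X → Fin 4 → α} {p : P → Fin 2 → α} {U : Finset α} {ε : X → ℤ}
    {d : Dat Γ} {o : X → Fin 4 → Bool} {oP : P → Bool} {κ : α → Γ}
    (h : Pk x p U ε d o oP κ) (k : X → Fin 4) (r : X → Bool) :
    Pk (fun y j => x y (pm (k y) (r y) j)) p U (fun y => sg (!r y) * ε y) d
      (fun y j => o y (pm (k y) (r y) j)) oP κ := by
  refine ⟨fun y => (sn_pm (h.ori y) _ _).2, fun g => ?_,
    (Cp_pm (μ := fun _ => .S) k r κ).mpr h.kap, fun S η => ?_, fun Y Z hYZ => ?_⟩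
  · rw [← h.bal g]
    unfold flow
    congr 1
    exact sum_congr rfl fun y _ => sum_pm (fun j => g (x y j) * sg (o y j)) _ _
  · have hb : Cp x p (fun _ => .S) (inS κ S) := h.kap.comp fun v => decide (v ∈ S)
    rw [wr_pm ε h.ori hb, ← h.br S η, ← Br_pm x p U _ k r]
    congr 1
    funext y
    rw [eS_pm ε hb]; ring
  · rw [← h.lk Y Z hYZ]
    refine sum_congr rfl fun y _ => ?_
    have := sym_pm ((h.kap.comp fun v => if v = Y then (1 : ℤ) else 0).1 y)
      ((h.kap.comp fun v => if v = Z then (1 : ℤ) else 0).1 y) (k y) (r y)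
    simp only [chi] at this ⊢
    rw [this, (sn_pm (h.ori y) _ _).1]
    congr 1
    linear_combination (ε y * sn (o y)) * sg_sq (!r y)

theorem Cp_sum {R PR : Type} {xR : R → Fin 4 → α} {pR : PR → Fin 2 → α} {x : X → Fin 4 → α}
    {p : P → Fin 2 → α} {μR : R → Md} {μ : X → Md} {g : α → β} :
    Cp (Sum.elim xR x) (Sum.elim pR p) (Sum.elim μR μ) g ↔ Cp xR pR μR g ∧ Cp x p μ g := by
  simp only [Cp, Sum.forall, Sum.elim_inl, Sum.elim_inr]; tauto

theorem Cp_sum_S {R PR : Type} {xR : R → Fin 4 → α} {pR : PR → Fin 2 → α} {x : X → Fin 4 → α}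
    {p : P → Fin 2 → α} {g : α → β} :
    Cp (Sum.elim xR x) (Sum.elim pR p) (fun _ => .S) g ↔
      Cp xR pR (fun _ => .S) g ∧ Cp x p (fun _ => .S) g := by
  simp only [Cp, Sum.forall, Sum.elim_inl, Sum.elim_inr]; tauto

theorem flow_sum {R PR : Type} [Fintype R] [Fintype PR] (xR : R → Fin 4 → α)
    (pR : PR → Fin 2 → α) (x : X → Fin 4 → α) (p : P → Fin 2 → α) (oR : R → Fin 4 → Bool)
    (o : X → Fin 4 → Bool) (oPR : PR → Bool) (oP : P → Bool) (g : α → ℤ) :
    flow (Sum.elim xR x) (Sum.elim pR p) (Sum.elim oR o) (Sum.elim oPR oP) g =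
      flow xR pR oR oPR g + flow x p o oP g := by
  simp only [flow, Fintype.sum_sum_type, Sum.elim_inl, Sum.elim_inr]; ring

theorem W_sum {R : Type} [Fintype R] (xR : R → Fin 4 → α) (x : X → Fin 4 → α) (εR : R → ℤ)
    (ε : X → ℤ) (oR : R → Fin 4 → Bool) (o : X → Fin 4 → Bool) (g g' : α → ℤ) :
    W (Sum.elim xR x) (Sum.elim εR ε) (Sum.elim oR o) g g' = W xR εR oR g g' + W x ε o g g' := by
  simp only [W, Fintype.sum_sum_type, Sum.elim_inl, Sum.elim_inr]

theorem Pk.move {R PR : Type} [Fintype R] [Fintype PR] {xR : R → Fin 4 → α}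
    {pR : PR → Fin 2 → α} {εR : R → ℤ} {oR : R → Fin 4 → Bool} {oPR : PR → Bool}
    {x : X → Fin 4 → α} {p : P → Fin 2 → α} {ε : X → ℤ} {o : X → Fin 4 → Bool} {oP : P → Bool}
    {x' : X' → Fin 4 → α} {p' : P' → Fin 2 → α} {ε' : X' → ℤ} {o' : X' → Fin 4 → Bool}
    {oP' : P' → Bool} {U U' : Finset α} {d : Dat Γ} {κ : α → Γ}
    (h : Pk (Sum.elim xR x) (Sum.elim pR p) U (Sum.elim εR ε) d (Sum.elim oR o)
      (Sum.elim oPR oP) κ)
    (ho : Ori o') (hf : ∀ g, flow x' p' o' oP' g = flow x p o oP g)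
    (hk : Cp x' p' (fun _ => .S) κ) (c : Finset Γ → ℤ)
    (hW : ∀ Y Z, Y ≠ Z → W x ε o (chi κ Y) (chi κ Z) = W x' ε' o' (chi κ Y) (chi κ Z))
    (hw : ∀ S, wr x ε o (inS κ S) - wr x' ε' o' (inS κ S) = c S)
    (hB : ∀ S η, Br (Sum.elim xR x) (Sum.elim pR p) U
      (Sum.elim (fun y => sg η * eS xR εR (inS κ S) y) fun y => sg η * eS x ε (inS κ S) y) =
      (-8 : ℚ) ^ (sg η * c S) * Br (Sum.elim xR x') (Sum.elim pR p') U'
      (Sum.elim (fun y => sg η * eS xR εR (inS κ S) y) fun y => sg η * eS x' ε' (inS κ S) y)) :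
    Pk (Sum.elim xR x') (Sum.elim pR p') U' (Sum.elim εR ε') d (Sum.elim oR o')
      (Sum.elim oPR oP') κ := by
  refine ⟨?_, fun g => ?_, Cp_sum_S.mpr ⟨(Cp_sum_S.mp h.kap).1, hk⟩, fun S η => ?_,
    fun Y Z hYZ => ?_⟩
  · rintro (y | y)
    · exact h.ori (.inl y)
    · exact ho y
  · rw [flow_sum, hf, ← flow_sum]; exact h.bal g
  · have h1 := h.br S η
    have e1 : (fun y => sg η * eS (Sum.elim xR x) (Sum.elim εR ε) (inS κ S) y) =
        Sum.elim (fun y => sg η * eS xR εR (inS κ S) y) fun y => sg η * eS x ε (inS κ S) y := by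
      funext y; cases y <;> rfl
    have e2 : (fun y => sg η * eS (Sum.elim xR x') (Sum.elim εR ε') (inS κ S) y) =
        Sum.elim (fun y => sg η * eS xR εR (inS κ S) y) fun y => sg η * eS x' ε' (inS κ S) y := by
      funext y; cases y <;> rfl
    have e3 : wr (Sum.elim xR x) (Sum.elim εR ε) (Sum.elim oR o) (inS κ S) =
        c S + wr (Sum.elim xR x') (Sum.elim εR ε') (Sum.elim oR o') (inS κ S) := by
      rw [← hw S]
      simp only [wr, eS, Fintype.sum_sum_type, Sum.elim_inl, Sum.elim_inr]; ring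
    rw [e1, hB, e3, add_sub_assoc, mul_add, zpow_add₀ (by norm_num), mul_assoc] at h1
    rw [e2]
    exact mul_left_cancel₀ (zpow_ne_zero _ (by norm_num)) h1
  · rw [W_sum, ← hW Y Z hYZ, ← W_sum]; exact h.lk Y Z hYZ

end

end Pool.Agent.MP_97bb71_gt
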