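import Pool.Agent.MP_97bb71_gt.Cls

/-! The reference diagram: tables and circle counts. -/

namespace Pool.Agent.MP_97bb71_gt
open Finset

def tX : ℕ := 434162308505806911734090010522139554223407627960670429378473959777125671416209420935288446864083514005830598817202617649675108879

def tK : ℕ := 1421449876989363324297197682531204585230400

def tG : ℕ := 62188290529681250047780291209855643497462866474201427049004849232355335

def tF : ℕ := 1021396103291486202528899959463118023849639831886251334880187116726748909040670118310242160752309007906151553279783580179117220824809332808327528525979208184797765935958001688742734150063853533617315716501471922292858731936917528451981668090003762835337377520197394114130406963499295806206119415459531615580145401881117139093103666662336975417491197209046152738850861845803784565996816676057064729869544641144021599739802922519320525302872246335468772383315253056617036721302160045517152352462174053703293248731497909661946128890425852392009958507831618391594799644771699736410538943627740746662819725062633795155663363413304117298914640572381680914100285377319270115152790750736249582940612205610245886729563244761171686892728018657963217848427769508259306495538569676622458257920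

/-- labels at crossing `y`, listed from the incoming outer edge of the entering circle -/
def x0 (y : Fin 144) (b : Fin 4) : Fin 288 :=
  ⟨(24 * (y.1 / 12) + (tX >>> (9 * (4 * (y.1 % 12) + b.1))) % 512) % 288, Nat.mod_lt _ (by decide)⟩

def xs (s : Fin 144 → Fin 4) (y : Fin 144) (j : Fin 4) : Fin 288 := x0 y (j + s y)

def s1 (y : Fin 144) : Fin 4 := if y.1 / 12 % 2 = 0 then 1 else 0

def nC (s : Fin 144 → Fin 4) (m : Md) : ℕ :=
  forceL (List.range 288) fun l => mgsK (prs (fun y j => (xs s y j).1) fun _ => m) l fun ρ => cnt ρ l

theorem N_comp (s : Fin 144 → Fin 4) (m : Md) :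
    N (xs s) (![] : Fin 0 → Fin 2 → Fin 288) univ (fun _ => m) = nC s m := by
  classical
  have e : rho0 (fun _ _ => False) (Fin.ofNat 288) 288 = List.range 288 := by
    rw [rho0]
    refine (List.map_congr_left fun i hi => le_antisymm (rho_le _ _ i) ?_).trans (List.map_id _)
    have h := lift_eq (g := id) (fun _ _ h => h.elim) (rho_spec (fun _ _ => False) (Fin.ofNat 288) i)
    have h1 := congrArg Fin.val h
    simp only [id, Fin.val_ofNat, Nat.mod_eq_of_lt (List.mem_range.mp hi)] at h1
    exact h1.ge.trans (Nat.mod_le _ _)
  have e2 : ∀ a : Fin 288, Fin.ofNat 288 a.1 = a := fun a => Fin.ext (Nat.mod_eq_of_lt a.2)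
  have h := ((St_init (fun _ _ => False) (Fin.ofNat 288) 288).merges
    (prs (fun y j => (xs s y j).1) fun _ => m)
    (r' := rel (xs s) (![] : Fin 0 → Fin 2 → Fin 288) fun _ => m) ?_ ?_).ncl_eq ∅ univ
    (List.range 288) (fun a => by simpa using ⟨a.1, a.2, e2 a⟩) (by simp) (by simp)
  · rw [N, h, e, nC, forceL_eq, mgsK_eq]; simp [mOut]
  · intro q hq
    simp only [prs, List.mem_flatten, List.mem_ofFn] at hq
    obtain ⟨_, ⟨y, rfl⟩, hq⟩ := hq
    obtain ⟨q', _, rfl⟩ := List.mem_map.mp hq
    exact ⟨Fin.is_lt _, Fin.is_lt _⟩
  · intro a b
    simp only [rel, prs, List.mem_flatten, List.mem_ofFn, false_or, IsEmpty.exists_iff, or_false]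
    constructor
    · rintro ⟨y, q, hq, h⟩
      exact ⟨_, ⟨_, ⟨y, rfl⟩, List.mem_map.mpr ⟨q, hq, rfl⟩⟩, by simpa only [e2] using h⟩
    · rintro ⟨_, ⟨_, ⟨y, rfl⟩, hq⟩, h⟩
      obtain ⟨q', hq', rfl⟩ := List.mem_map.mp hq
      exact ⟨y, q', hq', by simpa only [e2] using h⟩

end Pool.Agent.MP_97bb71_gt
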