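import Pool.Agent.MP_97bb71_gt.Ref0
import Pool.Agent.MP_97bb71_gt.Gr

/-! Finite checks on the reference diagram. -/

namespace Pool.Agent.MP_97bb71_gt
open Finset

def kp (a : Fin 288) : G :=
  ⟨(5 * (a.1 / 24) + (tK >>> (6 * (a.1 % 24))) % 64) % 60, Nat.mod_lt _ (by decide)⟩

def o0 (b : Fin 4) : Bool := decide (b = 1 ∨ b = 2)

def src (a : Fin 288) : Fin 144 × Fin 4 :=
  (⟨a.1 / 2 % 144, Nat.mod_lt _ (by decide)⟩, if a.1 % 2 = 0 then 2 else 1)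

def tgt (a : Fin 288) : Fin 144 × Fin 4 :=
  (⟨(12 * (a.1 / 24) + (tG >>> (10 * (a.1 % 24))) % 1024 / 4) % 144, Nat.mod_lt _ (by decide)⟩,
    ⟨(tG >>> (10 * (a.1 % 24))) % 4, Nat.mod_lt _ (by decide)⟩)

def FF (a : Fin 288) : Fin 288 := ⟨(tF >>> (9 * a.1)) % 512 % 288, Nat.mod_lt _ (by decide)⟩

def sh (b : Bool) (y : Fin 144) : Fin 4 := s1 y + if b then 3 else 0

def uo (b : Bool) (Y : G) : Bool :=
  decide (((Y.1 / 5 + b.toNat) / 2 + (Y.1 % 5 + 1) / 2 * ((Y.1 / 5 + b.toNat) % 2)) % 2 = 1)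

def os (b : Bool) (y : Fin 144) (j : Fin 4) : Bool :=
  xor (o0 (j + sh b y)) (uo b (kp (xs (sh b) y j)))

def ed (L H : G) (c : ℕ) : Fin 144 := Fin.ofNat 144
  (12 * (L.1 / 5) + 2 * ((L.1 % 5 + 1) / 2) + 6 * ((max (L.1 % 5) (H.1 % 5) + 1) % 2) + c)

def cr (Y Z : G) : Fin 144 := if ell Z = (ell Y + 1) % 36 then ed Y Z 0 else ed Z Y 1

def ff (i : Fin 12) (a : Fin 288) : Fin 288 := FF (a - Fin.ofNat 288 (24 * i.1))

theorem r_dart : ∀ y b, (if o0 b then src (x0 y b) else tgt (x0 y b)) = (y, b) := by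
  decide +kernel

theorem r_lab : ∀ a, x0 (src a).1 (src a).2 = a ∧ x0 (tgt a).1 (tgt a).2 = a ∧
    o0 (src a).2 = true ∧ o0 (tgt a).2 = false ∧ (src a).2.1 % 2 ≠ (tgt a).2.1 % 2 := by
  decide +kernel

theorem r_kp : ∀ y, kp (x0 y 0) = kp (x0 y 2) ∧ kp (x0 y 1) = kp (x0 y 3) ∧
    adj (kp (x0 y 0)) (kp (x0 y 1)) ∧ cr (kp (x0 y 0)) (kp (x0 y 1)) = y := by decide +kernel

theorem r_cr : ∀ Y Z, adj Y Z → kp (x0 (cr Y Z) 0) = Y ∧ kp (x0 (cr Y Z) 1) = Z := by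
  decide +kernel

theorem r_os : ∀ b y, (os b y 2 = !os b y 0 ∧ os b y 3 = !os b y 1) ∧ sn (os b y) = -1 := by
  decide +kernel

theorem r_leg : ∀ (i : Fin 12) y, ((ell (kp (x0 y 0)) + 36 - 3 * i.1) % 36 ≤ 3 ∧
    (ell (kp (x0 y 1)) + 36 - 3 * i.1) % 36 ≤ 3 ↔ y.1 / 12 = i.1) ∧
    if y.1 / 12 = i.1 then ff i (x0 y 0) = ff i (x0 y 1) ∧ ff i (x0 y 2) = ff i (x0 y 3) ∧
      ff i (x0 y 0) ≠ ff i (x0 y 2)
    else ff i (x0 y 0) = ff i (x0 y 2) ∧ ff i (x0 y 1) = ff i (x0 y 3) := by decide +kernel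

theorem r_FF : (univ.filter fun a => FF a = a).card = 62 := by decide +kernel

theorem r_cnt : ∀ i : Fin 12, (∑ y : Fin 144, if y.1 / 12 = i.1 then (1 : ℤ) else 0) = 12 := by
  decide +kernel

theorem r_sym : ∀ b y j, xs (sh b) y j + 24 = xs (sh b) (y + 12) (j + (sh b y - sh b (y + 12))) ∧
    xor (os b y j) (xor (uo b (kp (xs (sh b) y j))) (uo b (kp (xs (sh b) y j + 24)))) =
      os b (y + 12) (j + (sh b y - sh b (y + 12))) ∧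
    (sh b y - sh b (y + 12) = 1 ∨ sh b y - sh b (y + 12) = 3) := by decide +kernel

end Pool.Agent.MP_97bb71_gt
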