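import Pool.Agent.MP_97bb71_gt.Pk

/-! The Goeritz form on all faces and its signature. -/

namespace Pool.Agent.MP_97bb71_gt
open Finset

set_option linter.unusedSectionVars false

noncomputable section

section
variable {M M' : Type} [AddCommGroup M] [Module ℚ M] [AddCommGroup M'] [Module ℚ M']

def PD (V : M → Prop) (Q : M → ℚ) (k : ℕ) : Prop :=
  ∃ f : (Fin k → ℚ) →ₗ[ℚ] M, (∀ v, V (f v)) ∧ ∀ v, v ≠ 0 → 0 < Q (f v)

theorem PD.map {V : M → Prop} {Q : M → ℚ} {V' : M' → Prop} {Q' : M' → ℚ} {k : ℕ}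
    (h : PD V Q k) (Φ : M →ₗ[ℚ] M') (hΦ : ∀ z, V z → V' (Φ z) ∧ Q z ≤ Q' (Φ z)) : PD V' Q' k := by
  obtain ⟨f, h1, h2⟩ := h
  exact ⟨Φ.comp f, fun _ => (hΦ _ (h1 _)).1, fun v hv => (h2 v hv).trans_le (hΦ _ (h1 v)).2⟩

theorem PD.zero {V : M → Prop} {Q : M → ℚ} (h : V 0) : PD V Q 0 :=
  ⟨0, fun _ => h, fun _ hv => absurd (Subsingleton.elim _ _) hv⟩

theorem PD.ker {V : M → Prop} {Q : M → ℚ} {k : ℕ} (h : PD V Q (k + 1)) (l : M →ₗ[ℚ] ℚ) :
    PD (fun z => V z ∧ l z = 0) Q k := by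
  obtain ⟨f, h1, h2⟩ := h
  have e := (l.comp f).finrank_range_add_finrank_ker
  have e2 : Module.finrank ℚ (LinearMap.range (l.comp f)) ≤ 1 := by
    simpa using Submodule.finrank_le (LinearMap.range (l.comp f))
  have e3 : Module.finrank ℚ (Fin k → ℚ) ≤ Module.finrank ℚ (LinearMap.ker (l.comp f)) := by
    simp only [Module.finrank_fintype_fun_eq_card, Fintype.card_fin] at e ⊢
    omega
  obtain ⟨g, hg⟩ := finrank_le_iff_exists_linearMap.mp e3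
  refine ⟨f.comp ((LinearMap.ker (l.comp f)).subtype.comp g), fun v => ⟨h1 _, (g v).2⟩,
    fun v hv => h2 _ fun h0 => hv (hg ?_)⟩
  rw [map_zero]; exact Subtype.ext h0

theorem PD.succ {V : M → Prop} {Q : M → ℚ} {V' : M' → Prop} {Q' : M' → ℚ} {k : ℕ}
    (h : PD V Q k) (h0 : Q 0 = 0) (Φ : M →ₗ[ℚ] M') (u : M')
    (hΦ : ∀ z (t : ℚ), V z → V' (Φ z + t • u) ∧ Q z + t ^ 2 ≤ Q' (Φ z + t • u)) :
    PD V' Q' (k + 1) := by
  obtain ⟨f, h1, h2⟩ := h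
  refine ⟨Φ.comp (f.comp (LinearMap.funLeft ℚ ℚ Fin.succ)) +
    (LinearMap.proj (0 : Fin (k + 1))).smulRight u, fun v => (hΦ _ _ (h1 _)).1, fun v hv => ?_⟩
  refine lt_of_lt_of_le ?_ (hΦ (f (LinearMap.funLeft ℚ ℚ Fin.succ v)) (v 0) (h1 _)).2
  by_cases ht : LinearMap.funLeft ℚ ℚ Fin.succ v = 0
  · rw [ht, map_zero, h0, zero_add]
    have : v 0 ≠ 0 := by
      intro h3
      apply hv
      funext i
      refine Fin.cases h3 (fun j => ?_) i
      exact congrFun ht j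
    positivity
  · have := h2 _ ht
    positivity

def Sh (V : M → Prop) (Q : M → ℚ) (V' : M' → Prop) (Q' : M' → ℚ) (i : ℕ) : Prop :=
  ∀ k, PD V' Q' (k + i) ↔ PD V Q k

def SigI (V : M → Prop) (Q : M → ℚ) (t : ℤ) : Prop :=
  (∀ k, PD V Q k → ∃ l, PD V (fun z => -Q z) l ∧ (k : ℤ) - l ≤ t) ∧
    ∀ l, PD V (fun z => -Q z) l → ∃ k, PD V Q k ∧ (l : ℤ) - k ≤ -t

theorem half_shift {A B A' B' : ℕ → Prop} {i j : ℕ} {t : ℤ} (hA : ∀ k, A' (k + i) ↔ A k)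
    (hB : ∀ k, B' (k + j) ↔ B k) (a0 : A 0) (b0 : B 0) :
    (∀ k, A k → ∃ l, B l ∧ (k : ℤ) - l ≤ t) ↔
      ∀ k, A' k → ∃ l, B' l ∧ (k : ℤ) - l ≤ t + i - j := by
  constructor
  · intro h k hk
    have : A (k - i) := by
      by_cases hi : i ≤ k
      · rw [← hA, Nat.sub_add_cancel hi]; exact hk
      · rw [Nat.sub_eq_zero_of_le (by omega)]; exact a0
    obtain ⟨l, h1, h2⟩ := h _ this
    exact ⟨l + j, (hB l).mpr h1, by omega⟩
  · intro h k hk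
    obtain ⟨l, h1, h2⟩ := h _ ((hA k).mpr hk)
    refine ⟨l - j, ?_, by omega⟩
    by_cases hi : j ≤ l
    · rw [← hB, Nat.sub_add_cancel hi]; exact h1
    · rw [Nat.sub_eq_zero_of_le (by omega)]; exact b0

theorem SigI_shift {V : M → Prop} {Q : M → ℚ} {V' : M' → Prop} {Q' : M' → ℚ} {i j : ℕ}
    (h1 : Sh V Q V' Q' i) (h2 : Sh V (fun z => -Q z) V' (fun z => -Q' z) j) (h0 : V 0)
    {t t' : ℤ} (ht : t' = t + i - j) : SigI V Q t ↔ SigI V' Q' t' := by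
  unfold SigI
  rw [half_shift h1 h2 (PD.zero h0) (PD.zero h0), half_shift h2 h1 (PD.zero h0) (PD.zero h0), ht]
  have : -t + j - i = -(t + i - j) := by ring
  rw [this]

theorem SigI_iso {V : M → Prop} {Q : M → ℚ} {V' : M' → Prop} {Q' : M' → ℚ}
    (Φ : M →ₗ[ℚ] M') (Ψ : M' →ₗ[ℚ] M) (hΦ : ∀ z, V z → V' (Φ z) ∧ Q' (Φ z) = Q z)
    (hΨ : ∀ z, V' z → V (Ψ z) ∧ Q (Ψ z) = Q' z) (h0 : V 0) (t : ℤ) :
    SigI V Q t ↔ SigI V' Q' t := by
  refine SigI_shift (i := 0) (j := 0) (fun k => ⟨fun h => h.map Ψ fun z hz => ?_,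
    fun h => h.map Φ fun z hz => ?_⟩) (fun k => ⟨fun h => h.map Ψ fun z hz => ?_,
    fun h => h.map Φ fun z hz => ?_⟩) h0 (by simp)
  · exact ⟨(hΨ z hz).1, (hΨ z hz).2.ge⟩
  · exact ⟨(hΦ z hz).1, (hΦ z hz).2.ge⟩
  · exact ⟨(hΨ z hz).1, by rw [(hΨ z hz).2]⟩
  · exact ⟨(hΦ z hz).1, by rw [(hΦ z hz).2]⟩

end

variable {α β Γ X X' P P' : Type}

abbrev Fn (α : Type) : Type := α → Bool → ℚ

def FC (x : X → Fin 4 → α) (p : P → Fin 2 → α) (o : X → Fin 4 → Bool) (z : Fn α) : Prop :=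
  (∀ y j, z (x y j) (o y j) = z (x y (j + 1)) (!o y (j + 1))) ∧ ∀ j, z (p j 0) = z (p j 1)

def qt (v : Fin 4 → ℚ) : ℚ := (v 0 - v 2) ^ 2 - (v 1 - v 3) ^ 2

def Qf [Fintype X] (x : X → Fin 4 → α) (ε : X → ℤ) (o : X → Fin 4 → Bool) (z : Fn α) : ℚ :=
  ∑ y, (ε y : ℚ) * qt fun j => z (x y j) (o y j)

theorem FC_zero (x : X → Fin 4 → α) (p : P → Fin 2 → α) (o : X → Fin 4 → Bool) : FC x p o 0 :=
  ⟨fun _ _ => rfl, fun _ => rfl⟩

theorem Qf_zero [Fintype X] (x : X → Fin 4 → α) (ε : X → ℤ) (o : X → Fin 4 → Bool) :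
    Qf x ε o 0 = 0 := by simp [Qf, qt]

def ev (a : α) (s : Bool) : Fn α →ₗ[ℚ] ℚ where
  toFun z := z a s
  map_add' _ _ := rfl
  map_smul' _ _ := rfl

@[simp] theorem ev_apply (a : α) (s : Bool) (z : Fn α) : ev a s z = z a s := rfl

def upd [DecidableEq α] (e : α) (l : Bool → (Fn α →ₗ[ℚ] ℚ)) (Φ : Fn α →ₗ[ℚ] Fn α) :
    Fn α →ₗ[ℚ] Fn α :=
  LinearMap.pi fun a => if a = e then LinearMap.pi l else (LinearMap.proj a).comp Φ

theorem upd_apply [DecidableEq α] (e : α) (l : Bool → (Fn α →ₗ[ℚ] ℚ)) (Φ : Fn α →ₗ[ℚ] Fn α)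
    (z : Fn α) (a : α) : upd e l Φ z a = if a = e then fun s => l s z else Φ z a := by
  unfold upd
  by_cases h : a = e
  · simp only [LinearMap.pi_apply, h, if_true]; rfl
  · simp only [LinearMap.pi_apply, h, if_false]; rfl

def Bf [Fintype X] (x : X → Fin 4 → α) (ε : X → ℤ) (o : X → Fin 4 → Bool) (v : Fn α) :
    Fn α →ₗ[ℚ] ℚ :=
  ∑ y, (ε y : ℚ) • ((v (x y 0) (o y 0) - v (x y 2) (o y 2)) •
    (ev (x y 0) (o y 0) - ev (x y 2) (o y 2)) - (v (x y 1) (o y 1) - v (x y 3) (o y 3)) •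
    (ev (x y 1) (o y 1) - ev (x y 3) (o y 3)))

theorem Qf_add [Fintype X] (x : X → Fin 4 → α) (ε : X → ℤ) (o : X → Fin 4 → Bool) (v w : Fn α)
    (t : ℚ) : Qf x ε o (w + t • v) = Qf x ε o w + 2 * t * Bf x ε o v w + t ^ 2 * Qf x ε o v := by
  simp only [Qf, Bf, LinearMap.sum_apply, mul_sum, ← sum_add_distrib]
  refine sum_congr rfl fun y _ => ?_
  simp [qt]; ring

variable [Fintype X] [Fintype P] [Fintype X'] [Fintype P'] [DecidableEq Γ]

theorem FC_sum {R PR : Type} {xR : R → Fin 4 → α} {pR : PR → Fin 2 → α} {x : X → Fin 4 → α}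
    {p : P → Fin 2 → α} {oR : R → Fin 4 → Bool} {o : X → Fin 4 → Bool} {z : Fn α} :
    FC (Sum.elim xR x) (Sum.elim pR p) (Sum.elim oR o) z ↔ FC xR pR oR z ∧ FC x p o z := by
  simp only [FC, Sum.forall, Sum.elim_inl, Sum.elim_inr]; tauto

theorem Qf_sum {R : Type} [Fintype R] (xR : R → Fin 4 → α) (x : X → Fin 4 → α) (εR : R → ℤ)
    (ε : X → ℤ) (oR : R → Fin 4 → Bool) (o : X → Fin 4 → Bool) (z : Fn α) :
    Qf (Sum.elim xR x) (Sum.elim εR ε) (Sum.elim oR o) z = Qf xR εR oR z + Qf x ε o z := by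
  simp only [Qf, Fintype.sum_sum_type, Sum.elim_inl, Sum.elim_inr]

theorem FC_congr {x : X → Fin 4 → α} {p : P → Fin 2 → α} {o : X → Fin 4 → Bool} {z z' : Fn α}
    (h : FC x p o z) (h1 : ∀ y j, z' (x y j) = z (x y j)) (h2 : ∀ y j, z' (p y j) = z (p y j)) :
    FC x p o z' := by
  simp only [FC, h1, h2]; exact h

theorem Qf_congr (x : X → Fin 4 → α) (ε : X → ℤ) (o : X → Fin 4 → Bool) {z z' : Fn α}
    (h1 : ∀ y j, z' (x y j) = z (x y j)) : Qf x ε o z' = Qf x ε o z := by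
  simp only [Qf, h1]

/-- the invariants of a diagram -/
def Inv (x : X → Fin 4 → α) (p : P → Fin 2 → α) (U : Finset α) (ε : X → ℤ) (d : Dat Γ) : Prop :=
  ∃ o oP κ, Pk x p U ε d o oP κ ∧
    SigI (FC x p o) (Qf x ε o) (wr x ε o (fun _ => true) + d.K)

theorem Inv.reindex {x : X → Fin 4 → α} {p : P → Fin 2 → α} {U : Finset α} {ε : X → ℤ}
    {d : Dat Γ} (h : Inv x p U ε d) (σ : X' ≃ X) (τ : P' ≃ P) :
    Inv (fun y => x (σ y)) (fun j => p (τ j)) U (fun y => ε (σ y)) d := by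
  obtain ⟨o, oP, κ, h1, h2⟩ := h
  refine ⟨_, _, κ, h1.reindex σ τ, ?_⟩
  rw [wr_reindex]
  have e1 : FC (fun y => x (σ y)) (fun j => p (τ j)) (fun y => o (σ y)) = FC x p o :=
    funext fun z => propext (and_congr (σ.forall_congr_right (q := fun y => ∀ j, z (x y j) (o y j) =
      z (x y (j + 1)) (!o y (j + 1)))) (τ.forall_congr_right (q := fun j => z (p j 0) = z (p j 1))))
  have e2 : Qf (fun y => x (σ y)) (fun y => ε (σ y)) (fun y => o (σ y)) = Qf x ε o :=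
    funext fun z => σ.sum_comp fun y => (ε y : ℚ) * qt fun j => z (x y j) (o y j)
  rw [e1, e2]; exact h2

theorem SigI_relabel (f : β → α) (hf : Function.Injective f) (x : X → Fin 4 → β)
    (p : P → Fin 2 → β) (ε : X → ℤ) (o : X → Fin 4 → Bool) (t : ℤ) :
    SigI (FC (fun y j => f (x y j)) (fun y j => f (p y j)) o) (Qf (fun y j => f (x y j)) ε o) t ↔
      SigI (FC x p o) (Qf x ε o) t := by
  classical
  let Ψ : Fn β →ₗ[ℚ] Fn α := LinearMap.pi fun a =>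
    if h : ∃ b, f b = a then LinearMap.proj h.choose else 0
  have hΨ : ∀ z b, Ψ z (f b) = z b := by
    intro z b
    have h : ∃ b', f b' = f b := ⟨b, rfl⟩
    simp only [Ψ, LinearMap.pi_apply, dif_pos h, LinearMap.proj_apply, hf h.choose_spec]
  refine SigI_iso (LinearMap.funLeft ℚ (Bool → ℚ) f) Ψ (fun z hz => ?_)
    (fun z hz => ⟨?_, ?_⟩) (FC_zero _ _ _) t
  · exact ⟨hz, rfl⟩
  · simp only [FC, hΨ]; exact hz
  · simp only [Qf, hΨ]

theorem Inv_relabel [Nonempty Γ] (f : β → α) (hf : Function.Injective f) {x : X → Fin 4 → β}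
    {p : P → Fin 2 → β} {U' : Finset β} {U : Finset α} (hU : ∀ u, u ∈ U ↔ ∃ a ∈ U', f a = u)
    {ε : X → ℤ} {d : Dat Γ} :
    Inv (fun y j => f (x y j)) (fun y j => f (p y j)) U ε d ↔ Inv x p U' ε d := by
  constructor
  · rintro ⟨o, oP, κ, h1, h2⟩
    exact ⟨o, oP, _, (Pk_relabel f hf hU).mp h1, (SigI_relabel f hf x p ε o _).mp h2⟩
  · rintro ⟨o, oP, κ, h1, h2⟩
    refine ⟨o, oP, Function.extend f κ fun _ => Classical.arbitrary Γ,
      (Pk_relabel f hf hU).mpr ?_, (SigI_relabel f hf x p ε o _).mpr h2⟩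
    simpa only [hf.extend_apply] using h1

theorem FC_rot {x : X → Fin 4 → α} {p : P → Fin 2 → α} {o : X → Fin 4 → Bool} (r : X → Bool)
    (z : Fn α) : FC (fun y j => x y (pm 0 (r y) j)) p (fun y j => o y (pm 0 (r y) j)) z ↔
      FC x p o z := by
  refine and_congr_left' (forall_congr' fun y => ?_)
  beta_reduce
  cases r y <;> simp [pm, Fin.forall_fin_succ]
  tauto

theorem Inv.rot {x : X → Fin 4 → α} {p : P → Fin 2 → α} {U : Finset α} {ε : X → ℤ}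
    {d : Dat Γ} (h : Inv x p U ε d) (r : X → Bool) :
    Inv (fun y j => x y (pm 0 (r y) j)) p U (fun y => sg (!r y) * ε y) d := by
  obtain ⟨o, oP, κ, h1, h2⟩ := h
  refine ⟨_, _, κ, h1.pm (fun _ => 0) r, ?_⟩
  rw [wr_pm ε h1.ori (h1.kap.comp fun _ => true) (fun _ => 0) r]
  have e2 : Qf (fun y j => x y (pm 0 (r y) j)) (fun y => sg (!r y) * ε y)
      (fun y j => o y (pm 0 (r y) j)) = Qf x ε o := by
    funext z
    refine sum_congr rfl fun y _ => ?_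
    beta_reduce
    cases r y <;> simp [pm, qt, sg]
    ring
  have e1 : FC (fun y j => x y (pm 0 (r y) j)) p (fun y j => o y (pm 0 (r y) j)) = FC x p o :=
    funext fun z => propext (FC_rot r z)
  rw [e1, e2]
  exact h2

end

end Pool.Agent.MP_97bb71_gt
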