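import Pool.Agent.MP_97bb71_gt.Lin

/-! Extreme terms of the bracket, read off from the 2-adic valuation. -/

namespace Pool.Agent.MP_97bb71_gt
open Finset

set_option linter.unusedSectionVars false

noncomputable section

def Low (q : ℚ) (k : ℤ) : Prop := ∃ z : ℤ, q = 2 ^ k * z

def Ex (q : ℚ) (k : ℤ) : Prop := ∃ z : ℤ, Odd z ∧ q = 2 ^ k * z

theorem Ex.low {q : ℚ} {k : ℤ} (h : Ex q k) : Low q k := h.imp fun _ h => h.2

theorem Low.mono {q : ℚ} {k l : ℤ} (h : Low q k) (hl : l ≤ k) : Low q l := by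
  obtain ⟨z, rfl⟩ := h
  obtain ⟨n, rfl⟩ := Int.le.dest hl
  exact ⟨2 ^ n * z, by rw [zpow_add₀ (by norm_num)]; simp [mul_assoc]⟩

theorem Low.zero (k : ℤ) : Low 0 k := ⟨0, by simp⟩

theorem Low.add {q r : ℚ} {k : ℤ} (h : Low q k) (h' : Low r k) : Low (q + r) k := by
  obtain ⟨z, rfl⟩ := h
  obtain ⟨w, rfl⟩ := h'
  exact ⟨z + w, by push_cast; ring⟩

theorem Low.sum {ι : Type} (A : Finset ι) (f : ι → ℚ) (k : ℤ) (h : ∀ i ∈ A, Low (f i) k) :
    Low (∑ i ∈ A, f i) k :=
  sum_induction f (fun q => Low q k) (fun _ _ => Low.add) (Low.zero k) h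

theorem Ex.add {q r : ℚ} {k : ℤ} (h : Ex q k) (h' : Low r (k + 1)) : Ex (q + r) k := by
  obtain ⟨z, hz, rfl⟩ := h
  obtain ⟨w, rfl⟩ := h'
  refine ⟨z + 2 * w, hz.add_even (even_two_mul w), ?_⟩
  rw [zpow_add₀ (by norm_num)]; push_cast; ring

theorem Ex.sum {ι : Type} [DecidableEq ι] (A : Finset ι) (f : ι → ℚ) (k : ℤ) {i0 : ι}
    (h0 : i0 ∈ A) (h1 : Ex (f i0) k) (h : ∀ i ∈ A, i ≠ i0 → Low (f i) (k + 1)) :
    Ex (∑ i ∈ A, f i) k := by
  rw [← add_sum_erase A f h0]
  exact h1.add (Low.sum _ _ _ fun i hi => h i (mem_of_mem_erase hi) (ne_of_mem_erase hi))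

theorem Ex.le {q : ℚ} {k l : ℤ} (h : Ex q k) (h' : Low q l) : l ≤ k := by
  by_contra hn
  obtain ⟨z, hz, rfl⟩ := h
  obtain ⟨w, hw⟩ := h'.mono (show k + 1 ≤ l by omega)
  rw [zpow_add₀ (by norm_num), mul_assoc] at hw
  have := mul_left_cancel₀ (zpow_ne_zero k (by norm_num)) hw
  have h2 : z = 2 * w := by exact_mod_cast this
  exact (Int.not_even_iff_odd.mpr hz) ⟨w, by omega⟩

theorem Ex.mul {q r : ℚ} {k l : ℤ} (h : Ex q k) (h' : Ex r l) : Ex (q * r) (k + l) := by
  obtain ⟨z, hz, rfl⟩ := h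
  obtain ⟨w, hw, rfl⟩ := h'
  exact ⟨z * w, hz.mul hw, by rw [zpow_add₀ (by norm_num)]; push_cast; ring⟩

theorem Low.mul {q r : ℚ} {k l : ℤ} (h : Low q k) (h' : Low r l) : Low (q * r) (k + l) := by
  obtain ⟨z, rfl⟩ := h
  obtain ⟨w, rfl⟩ := h'
  exact ⟨z * w, by rw [zpow_add₀ (by norm_num)]; push_cast; ring⟩

theorem Ex.two (k : ℤ) : Ex (2 ^ k) k := ⟨1, odd_one, by simp⟩

theorem Ex.dl (n : ℕ) : Ex (dl ^ n) (-2 * n) := by
  refine ⟨(-17) ^ n, Odd.pow (by decide), ?_⟩
  rw [zpow_mul, zpow_natCast]; push_cast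
  rw [← mul_pow]; norm_num [MP_97bb71_gt.dl]

theorem Ex.eight (k : ℤ) : Ex ((-8) ^ k) (3 * k) := by
  rcases Int.even_or_odd k with h | h
  · exact ⟨1, odd_one, by rw [zpow_mul, h.neg_zpow]; norm_num⟩
  · exact ⟨-1, by decide, by rw [zpow_mul, h.neg_zpow]; norm_num⟩

theorem two_zpow_sum {ι : Type} (A : Finset ι) (f : ι → ℤ) :
    ∏ i ∈ A, (2 : ℚ) ^ f i = 2 ^ ∑ i ∈ A, f i := by
  classical
  induction A using Finset.induction_on with
  | empty => simp
  | insert a A ha ih => rw [prod_insert ha, sum_insert ha, ih, zpow_add₀ (by norm_num)]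

variable {α X P : Type} [Fintype α] [Fintype X] [Fintype P] [DecidableEq X]
  {x : X → Fin 4 → α} {p : P → Fin 2 → α}

theorem prod_wt (e : X → ℤ) (he : ∀ y, e y = 0 ∨ e y = 1 ∨ e y = -1) (s : X → Bool)
    (hs : ∀ y, e y = 0 → s y = true) :
    ∏ y, wt (e y) (s y) = 2 ^ (2 * ∑ y with s y = false, e y - ∑ y, e y) := by
  rw [sum_filter, mul_sum, ← sum_sub_distrib, ← two_zpow_sum]
  refine prod_congr rfl fun y _ => ?_
  have := hs y
  rcases he y with h | h | h <;> cases h' : s y <;> simp [wt, h, h'] at this ⊢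

theorem term_zero (e : X → ℤ) (s : X → Bool) (hs : ¬∀ y, e y = 0 → s y = true) :
    ∏ y, wt (e y) (s y) = 0 := by
  push Not at hs
  obtain ⟨y, h1, h2⟩ := hs
  exact prod_eq_zero (mem_univ y) (by simp [wt, h1, h2])

theorem md_eq (e : X → ℤ) (he : ∀ y, e y = 0 ∨ e y = 1 ∨ e y = -1) (s : X → Bool)
    (hs : ∀ y, e y = 0 → s y = true) :
    (fun y => md (e y) (s y)) = mF (univ.filter fun y => s y = false) (act e .V) .U := by
  funext y
  have := hs y
  rcases he y with h | h | h <;> cases h' : s y <;> simp [md, mF, act, h, h'] at this ⊢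

theorem mF_V (e : X → ℤ) (F : Finset X) (hF : ∀ y ∈ F, e y ≠ 0) :
    mF F (act e .V) .V = act e .V := by
  funext y
  by_cases h : y ∈ F
  · simp [mF, act, h, hF y h]
  · simp [mF, h]

theorem Cp_mF_C {β : Type} {F : Finset X} {μ : X → Md} {g : α → β} (h : Cp x p (mF F μ .C) g)
    (m : Md) : Cp x p (mF F μ m) g := by
  refine ⟨fun y => ?_, h.2⟩
  have := h.1 y
  by_cases hy : y ∈ F <;> simp only [mF, hy, if_true, if_false] at this ⊢
  exacts [cp_of_C this _, this]

theorem N_mF_C (F : Finset X) (μ : X → Md) (m : Md) :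
    N x p univ (mF F μ .C) ≤ N x p univ (mF F μ m) := N_anti _ (Cp_mF_C (Cp_mk _ _ _) m)

theorem N_mF_C_lt (F : Finset X) (μ : X → Md) (m : Md) {y : X} (hy : y ∈ F)
    (h : Quot.mk (rel x p (mF F μ m)) (x y 0) ≠ Quot.mk (rel x p (mF F μ m)) (x y 2)) :
    N x p univ (mF F μ .C) + 1 ≤ N x p univ (mF F μ m) := by
  have h1 := (Cp_mk x p (mF F μ .C)).1 y
  simp only [mF, hy, if_true] at h1
  exact ncl_add_le univ (Cp_iff.mp (Cp_mF_C (Cp_mk x p (mF F μ .C)) m)) (x y 2) (mem_univ _)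
    {x y 0} (subset_univ _) (by simpa using h) (by simp) (by simpa using h1.1.trans h1.2.1)

theorem sum_filter_one (e : X → ℤ) (F : Finset X) (h : ∀ y ∈ F, e y = 1) :
    ∑ y ∈ F, e y = F.card := by rw [sum_congr rfl h]; simp

theorem low_term (hs : HS x p) (e : X → ℤ) (he : ∀ y, e y = 0 ∨ e y = 1) (s : X → Bool) (j : ℕ)
    (hj : (∀ y, e y = 0 → s y = true) → N x p univ (mF (univ.filter fun y => s y = false)
      (act e .V) .C) + j ≤ N x p univ (act e .V)) :
    Low ((∏ y, wt (e y) (s y)) * dl ^ N x p univ fun y => md (e y) (s y))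
      (-∑ y, e y - 2 * N x p univ (act e .V) + 4 * j) := by
  have he' : ∀ y, e y = 0 ∨ e y = 1 ∨ e y = -1 := fun y => (he y).imp_right Or.inl
  by_cases hv : ∀ y, e y = 0 → s y = true
  · have hF : ∀ y ∈ univ.filter fun y => s y = false, e y = 1 := by
      intro y hy
      refine (he y).resolve_left fun h => ?_
      simp [hv y h] at hy
    have h1 := GI hs (univ.filter fun y => s y = false) (act e .V)
    rw [mF_V e _ fun y hy => by simp [hF y hy]] at h1
    have h2 := hj hv
    rw [prod_wt e he' s hv, md_eq e he' s hv, sum_filter_one e _ hF]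
    exact ((Ex.two _).mul (Ex.dl _)).low.mono (by omega)
  · rw [term_zero e s hv, zero_mul]; exact Low.zero _

theorem Br_low (hs : HS x p) (e : X → ℤ) (he : ∀ y, e y = 0 ∨ e y = 1) :
    Low (Br x p univ e) (-∑ y, e y - 2 * N x p univ (act e .V)) := by
  rw [Br_def]
  refine Low.sum _ _ _ fun s _ => ?_
  have := low_term hs e he s 0 fun hv => by
    have := N_mF_C (x := x) (p := p) (univ.filter fun y => s y = false) (act e .V) .V
    rwa [mF_V e _ fun y hy h => by simp [hv y h] at hy] at this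
  simpa using this

theorem Br_ex (hs : HS x p) (e : X → ℤ) (he : ∀ y, e y = 0 ∨ e y = 1)
    (ha : ∀ y, e y ≠ 0 →
      Quot.mk (rel x p (act e .V)) (x y 0) ≠ Quot.mk (rel x p (act e .V)) (x y 2)) :
    Ex (Br x p univ e) (-∑ y, e y - 2 * N x p univ (act e .V)) := by
  have he' : ∀ y, e y = 0 ∨ e y = 1 ∨ e y = -1 := fun y => (he y).imp_right Or.inl
  rw [Br_def]
  refine Ex.sum _ _ _ (mem_univ fun _ => true) ?_ fun s _ hs' => ?_
  · rw [prod_wt e he' _ fun _ _ => rfl, md_eq e he' _ fun _ _ => rfl]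
    have : mF (univ.filter fun _ : X => true = false) (act e .V) .U = act e .V := by
      funext y; simp [mF]
    rw [this]
    convert (Ex.two _).mul (Ex.dl _) using 1
    simp; ring
  · refine (low_term hs e he s 1 fun hv => ?_).mono (by omega)
    obtain ⟨y, hy⟩ := Function.ne_iff.mp hs'
    have hF : ∀ y ∈ univ.filter fun y => s y = false, e y ≠ 0 := fun y hy h => by
      simp [hv y h] at hy
    have hy' : y ∈ univ.filter fun y => s y = false := by simpa using hy
    have := N_mF_C_lt (x := x) (p := p) _ (act e .V) .V hy'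
    rw [mF_V e _ hF] at this
    exact this (ha y (hF y hy'))

def Dep (x : X → Fin 4 → α) (p : P → Fin 2 → α) (ε : X → ℤ) (m : Md) (A : Finset X) : Prop :=
  ∀ φ : α → ZMod 2, Cp x p (act ε m) φ → ∑ y ∈ A, dd x φ y = 0

theorem ne_of_not_dep {e : X → ℤ} {m : Md} {y : X} (h : ¬Dep x p e m {y}) :
    Quot.mk (rel x p (act e m)) (x y 0) ≠ Quot.mk (rel x p (act e m)) (x y 2) := by
  intro h1
  refine h fun φ hφ => ?_
  rw [sum_singleton, dd, hφ.eq h1]
  exact CharTwo.add_self_eq_zero _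

theorem step_out {e : X → ℤ} {F : Finset X} (hF : ∀ y ∈ F, e y ≠ 0) {a b : α}
    (h1 : Quot.mk (rel x p (act e .V)) a ≠ Quot.mk (rel x p (act e .V)) b)
    (h2 : Quot.mk (rel x p (mF F (act e .V) .C)) a = Quot.mk (rel x p (mF F (act e .V) .C)) b) :
    ∃ y ∈ F, ∃ a', Quot.mk (rel x p (act e .V)) a' ≠ Quot.mk (rel x p (act e .V)) a ∧
      Quot.mk (rel x p (mF F (act e .V) .C)) a' = Quot.mk (rel x p (mF F (act e .V) .C)) a ∧
      ∀ φ : α → ZMod 2, Cp x p (act e .V) φ → dd x φ y = φ a + φ a' := by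
  by_contra hn
  have hC : Cp x p (act e .V) (Quot.mk (rel x p (mF F (act e .V) .C))) := by
    have := Cp_mF_C (Cp_mk x p (mF F (act e .V) .C)) .V
    rwa [mF_V e F hF] at this
  have key : Cp x p (mF F (act e .V) .C)
      fun c => Quot.mk (rel x p (act e .V)) c = Quot.mk (rel x p (act e .V)) a := by
    have h0 := (Cp_mk x p (act e .V)).comp fun q => q = Quot.mk (rel x p (act e .V)) a
    refine ⟨fun y => ?_, h0.2⟩
    have h3 := h0.1 y
    by_cases hy : y ∈ F <;> simp only [mF, hy, if_true, if_false]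
    swap
    · exact h3
    have h4 := (Cp_mk x p (mF F (act e .V) .C)).1 y
    simp only [mF, hy, if_true, act, hF y hy, if_false, cp] at h3 h4 ⊢
    have h5 : (Quot.mk (rel x p (act e .V)) (x y 0) = Quot.mk (rel x p (act e .V)) a) =
        (Quot.mk (rel x p (act e .V)) (x y 2) = Quot.mk (rel x p (act e .V)) a) := by
      apply propext
      constructor <;> intro h6 <;> by_contra h7 <;> refine hn ⟨y, hy, _, h7, ?_, fun φ hφ => ?_⟩
      · rw [← hC.eq h6]; exact (h4.1.trans h4.2.1).symm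
      · rw [dd, hφ.eq h6]
      · rw [← hC.eq h6]; exact h4.1.trans h4.2.1
      · rw [dd, hφ.eq h6, add_comm]
    exact ⟨h5.trans h3.1.symm, h3.1, h5.symm.trans h3.2.symm⟩
  have := key.eq h2
  exact h1 (this.mp rfl).symm

theorem four_classes {e : X → ℤ} {d : X} {F : Finset X} (hF : ∀ y ∈ F, e y ≠ 0 ∧ y ≠ d)
    (h1 : ¬Dep x p e .V {d}) (h2 : ∀ y, e y ≠ 0 → y ≠ d → ¬Dep x p e .V {d, y})
    (h3 : ∀ y z, e y ≠ 0 → e z ≠ 0 → y ≠ d → z ≠ d → y ≠ z → ¬Dep x p e .V {d, y, z})
    (h : Quot.mk (rel x p (mF F (act e .V) .C)) (x d 0) =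
      Quot.mk (rel x p (mF F (act e .V) .C)) (x d 2)) :
    N x p univ (mF F (act e .V) .C) + 3 ≤ N x p univ (act e .V) := by
  classical
  have hF' : ∀ y ∈ F, e y ≠ 0 := fun y hy => (hF y hy).1
  have h0 := ne_of_not_dep h1
  obtain ⟨y, hy, a, a1, a2, a3⟩ := step_out hF' h0 h
  obtain ⟨z, hz, b, b1, b2, b3⟩ := step_out hF' h0.symm h.symm
  have c2 : ∀ u : ZMod 2, u + u = 0 := CharTwo.add_self_eq_zero
  have a4 : Quot.mk (rel x p (act e .V)) a ≠ Quot.mk (rel x p (act e .V)) (x d 2) := by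
    intro h4
    refine h2 y (hF y hy).1 (hF y hy).2 fun φ hφ => ?_
    rw [sum_pair (hF y hy).2.symm, a3 φ hφ, hφ.eq h4]; exact c2 _
  have b4 : Quot.mk (rel x p (act e .V)) b ≠ Quot.mk (rel x p (act e .V)) (x d 0) := by
    intro h4
    refine h2 z (hF z hz).1 (hF z hz).2 fun φ hφ => ?_
    rw [sum_pair (hF z hz).2.symm, b3 φ hφ, hφ.eq h4, dd, add_comm (φ (x d 2))]; exact c2 _
  have ab : Quot.mk (rel x p (act e .V)) a ≠ Quot.mk (rel x p (act e .V)) b := by
    intro h4
    by_cases hyz : y = z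
    · refine h1 fun φ hφ => ?_
      have k1 := a3 φ hφ
      rw [hyz, b3 φ hφ, hφ.eq h4] at k1
      rw [sum_singleton, dd, add_right_cancel k1]; exact c2 _
    · refine h3 y z (hF y hy).1 (hF z hz).1 (hF y hy).2 (hF z hz).2 hyz fun φ hφ => ?_
      rw [sum_insert (by simp [(hF y hy).2.symm, (hF z hz).2.symm]), sum_pair hyz, a3 φ hφ,
        b3 φ hφ, hφ.eq h4, dd]
      linear_combination c2 (φ (x d 0)) + c2 (φ (x d 2)) + c2 (φ b)
  have hC : Cp x p (act e .V) (Quot.mk (rel x p (mF F (act e .V) .C))) := by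
    have := Cp_mF_C (Cp_mk x p (mF F (act e .V) .C)) .V
    rwa [mF_V e F hF'] at this
  have := ncl_add_le univ (Cp_iff.mp hC) (x d 0) (mem_univ _) {x d 2, a, b} (subset_univ _)
    (by simp [h0.symm, a1, b4]) (by
      simp only [mem_insert, mem_singleton]
      rintro u (rfl | rfl | rfl) v (rfl | rfl | rfl) h <;> first | rfl | simp_all)
    (by simp [a2, b2, h])
  rwa [card_eq_three.mpr ⟨_, _, _, fun h => a4 (by rw [h]), fun h => b1 (by rw [h]),
    fun h => ab (by rw [h]), rfl⟩] at this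

theorem Br_ex_aa (hs : HS x p) (e : X → ℤ) (d : X) (hd : e d = -1)
    (he : ∀ y, y ≠ d → e y = 0 ∨ e y = 1) (h1 : ∀ y, e y ≠ 0 → ¬Dep x p e .V {y})
    (h2 : ∀ y, e y ≠ 0 → y ≠ d → ¬Dep x p e .V {d, y})
    (h3 : ∀ y z, e y ≠ 0 → e z ≠ 0 → y ≠ d → z ≠ d → y ≠ z → ¬Dep x p e .V {d, y, z}) :
    Ex (Br x p univ e) (-∑ y, e y - 2 * N x p univ (act e .V) + 4) := by
  have he' : ∀ y, e y = 0 ∨ e y = 1 ∨ e y = -1 := fun y => by
    by_cases h : y = d
    · rw [h, hd]; simp
    · exact (he y h).imp_right Or.inl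
  let t : (X → Bool) → ℚ := fun s =>
    (∏ y, wt (e y) (s y)) * dl ^ N x p univ fun y => md (e y) (s y)
  have e1 : Br x p univ e = ∑ s with s d = true, (t s + t (Function.update s d false)) := by
    rw [Br_def, ← sum_filter_add_sum_filter_not univ fun s : X → Bool => s d = true,
      sum_add_distrib]
    congr 1
    refine sum_nbij' (fun s => Function.update s d true) (fun s => Function.update s d false)
      (by simp) (by simp) (fun s hs => ?_) (fun s hs => ?_) fun s hs => ?_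
    · simp only [mem_filter, mem_univ, true_and, Bool.not_eq_true] at hs
      rw [Function.update_idem, ← hs, Function.update_eq_self]
    · simp only [mem_filter, mem_univ, true_and] at hs
      rw [Function.update_idem, ← hs, Function.update_eq_self]
    · simp only [mem_filter, mem_univ, true_and, Bool.not_eq_true] at hs
      rw [Function.update_idem, ← hs, Function.update_eq_self]
  have key : ∀ s : X → Bool, s d = true → (∀ y, e y = 0 → s y = true) →
      ∀ F, F = univ.filter (fun y => s y = false) →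
      t s = 2 ^ (2 * F.card - ∑ y, e y) * dl ^ N x p univ (mF F (act e .V) .U) ∧
      t (Function.update s d false) = 2 ^ (2 * F.card - ∑ y, e y - 2) *
        dl ^ N x p univ (mF {d} (mF F (act e .V) .U) .U) ∧ ∀ y ∈ F, e y ≠ 0 ∧ y ≠ d := by
    intro s hsd hv F hF
    have hF1 : ∀ y ∈ F, e y ≠ 0 ∧ y ≠ d := by
      intro y hy
      rw [hF, mem_filter] at hy
      exact ⟨fun h => by simp [hv y h] at hy, fun h => by simp [h, hsd] at hy⟩
    have hF2 : ∀ y ∈ F, e y = 1 := fun y hy => (he y (hF1 y hy).2).resolve_left (hF1 y hy).1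
    have hv' : ∀ y, e y = 0 → Function.update s d false y = true := by
      intro y hy
      rw [Function.update_of_ne (fun h => by simp [h, hd] at hy)]; exact hv y hy
    have e2 : univ.filter (fun y => Function.update s d false y = false) = insert d F := by
      ext y
      by_cases h : y = d
      · simp [h]
      · simp [h, hF]
    refine ⟨?_, ?_, hF1⟩
    · simp only [t]
      rw [prod_wt e he' s hv, md_eq e he' s hv, ← hF, sum_filter_one e F hF2]
    · simp only [t]
      rw [prod_wt e he' _ hv', md_eq e he' _ hv', e2, sum_insert fun h => (hF1 d h).2 rfl,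
        sum_filter_one e F hF2, hd]
      congr 2
      · ring
      · congr 1; funext y
        by_cases h : y = d <;> simp [mF, h]
  have eV : ∀ F : Finset X, d ∉ F → mF {d} (mF F (act e .V) .U) .V = mF F (act e .V) .U := by
    intro F hF; funext y
    by_cases h : y = d
    · simp [mF, h, hF, act, hd]
    · simp [mF, h]
  have sep : ∀ F : Finset X, d ∉ F → Quot.mk (rel x p (mF F (act e .V) .U)) (x d 0) ≠
      Quot.mk (rel x p (mF F (act e .V) .U)) (x d 2) →
      N x p univ (mF {d} (mF F (act e .V) .U) .U) + 1 = N x p univ (mF F (act e .V) .U) := by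
    intro F hF hne
    have k1 := GI hs {d} (mF F (act e .V) .U)
    have k2 := N_mF_C_lt (x := x) (p := p) {d} (mF F (act e .V) .U) .V (mem_singleton_self d)
    have k3 := N_mF_C (x := x) (p := p) {d} (mF F (act e .V) .U) .U
    have k4 : N x p univ (mF {d} (mF F (act e .V) .U) .V) ≤
        N x p univ (mF {d} (mF F (act e .V) .U) .C) + 1 := by
      refine ncl_le_succ univ (x d 0) (x d 1) (Cp_iff.mp ?_)
      have k5 : Cp x p (mF {d} (mF F (act e .V) .U) .V) (Quot.mk fun a b =>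
          rel x p (mF {d} (mF F (act e .V) .U) .V) a b ∨ (a = x d 0 ∧ b = x d 1)) :=
        Cp_iff.mpr fun a b h => Quot.sound (Or.inl h)
      refine ⟨fun y => ?_, k5.2⟩
      have k6 := k5.1 y
      by_cases h : y = d
      · subst h
        simp only [mF, mem_singleton, if_true, cp] at k6 ⊢
        have k7 := Quot.sound (r := fun a b =>
          rel x p (mF {y} (mF F (act e .V) .U) .V) a b ∨ (a = x y 0 ∧ b = x y 1)) (Or.inr ⟨rfl, rfl⟩)
        exact ⟨k7, k6.1, (k6.2.trans (k7.trans k6.1)).symm⟩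
      · simpa only [mF, mem_singleton, h, if_false] using k6
    rw [eV F hF] at k1 k2 k4
    have := k2 hne
    rw [card_singleton] at k1
    omega
  have comb : ∀ (k : ℤ) (n : ℕ), Ex (2 ^ k * dl ^ (n + 1) + 2 ^ (k - 2) * dl ^ n)
      (k + 2 - 2 * n) := by
    intro k n
    have : (2 : ℚ) ^ k * dl ^ (n + 1) + 2 ^ (k - 2) * dl ^ n = (-8) ^ (1 : ℤ) * (2 ^ (k - 1) * dl ^ n) := by
      rw [zpow_sub₀ (by norm_num), zpow_sub₀ (by norm_num), pow_succ, dl]; ring
    rw [this]
    convert (Ex.eight 1).mul ((Ex.two _).mul (Ex.dl n)) using 1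
    ring
  rw [e1]
  refine Ex.sum _ _ _ (i0 := fun _ => true) (by simp) ?_ fun s hs1 hs2 => ?_
  · obtain ⟨k1, k2, _⟩ := key (fun _ => true) rfl (fun _ _ => rfl) ∅ (by simp)
    have e3 : mF ∅ (act e .V) .U = act e .V := by funext y; simp [mF]
    have k3 := sep ∅ (by simp) (by rw [e3]; exact ne_of_not_dep (h1 d (by simp [hd])))
    rw [k1, k2, ← k3]
    rw [e3] at k3 ⊢
    convert comb _ _ using 1
    simp only [card_empty]; omega
  · rw [mem_filter] at hs1
    by_cases hv : ∀ y, e y = 0 → s y = true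
    swap
    · have hv' : ¬∀ y, e y = 0 → Function.update s d false y = true := fun h => hv fun y hy => by
        have := h y hy
        rwa [Function.update_of_ne (fun h => by simp [h, hd] at hy)] at this
      simp only [t, term_zero e _ hv, term_zero e _ hv', zero_mul, add_zero]
      exact Low.zero _
    obtain ⟨k1, k2, k3⟩ := key s hs1.2 hv _ rfl
    set F := univ.filter fun y => s y = false with hF
    have k4 := GI hs F (act e .V)
    rw [mF_V e F fun y hy => (k3 y hy).1] at k4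
    rw [k1, k2]
    by_cases hsep : Quot.mk (rel x p (mF F (act e .V) .U)) (x d 0) =
      Quot.mk (rel x p (mF F (act e .V) .U)) (x d 2)
    · have k5 := four_classes k3 (h1 d (by simp [hd])) h2 h3
        ((Cp_mF_C (Cp_mk x p (mF F (act e .V) .C)) .U).eq hsep)
      have k6 := GI hs {d} (mF F (act e .V) .U)
      have k7 := N_mF_C (x := x) (p := p) {d} (mF F (act e .V) .U) .V
      rw [eV F fun h => (k3 d h).2 rfl] at k6 k7
      rw [card_singleton] at k6
      exact (((Ex.two _).mul (Ex.dl _)).low.mono (by omega)).add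
        (((Ex.two _).mul (Ex.dl _)).low.mono (by omega))
    · have k5 := sep F (fun h => (k3 d h).2 rfl) hsep
      obtain ⟨y, hy⟩ := Function.ne_iff.mp hs2
      have hy' : y ∈ F := by simpa [hF] using hy
      have k6 := N_mF_C_lt (x := x) (p := p) F (act e .V) .V hy'
      rw [mF_V e F fun y hy => (k3 y hy).1] at k6
      have k7 := k6 (ne_of_not_dep (h1 y (k3 y hy').1))
      rw [← k5]
      exact (comb _ _).low.mono (by omega)

end

end Pool.Agent.MP_97bb71_gt
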